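import Mathlib

/-!
Abstract part: a functional satisfying Clarkson's inequality on a Banach space attains
its minimum on closed convex sets, and decreasing bounded closed convex sets intersect.
-/

open Filter Topology

namespace Pool.Agent.Helper42.Bub

/-- A functional with Clarkson's inequality. -/
structure Clark {Z : Type*} [NormedAddCommGroup Z] [NormedSpace ℝ Z] (N : Z → ℝ) (p : ℕ) :
    Prop where
  cont : Continuous N
  pos : 0 < p
  low : ∀ z, ‖z‖ ^ p ≤ N z
  cl : ∀ x y, N ((1/2 : ℝ) • (x + y)) + N ((1/2 : ℝ) • (x - y)) ≤ (N x + N y) / 2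

variable {Z : Type*} [NormedAddCommGroup Z] [NormedSpace ℝ Z] [CompleteSpace Z]
  {N : Z → ℝ} {p : ℕ}

omit [CompleteSpace Z] in
theorem Clark.nonneg (h : Clark N p) (z : Z) : 0 ≤ N z :=
  le_trans (by positivity) (h.low z)

/-- Main abstract lemma. -/
theorem Clark.nested (h : Clark N p) (C : ℕ → Set Z) (hcl : ∀ i, IsClosed (C i))
    (hcv : ∀ i, Convex ℝ (C i)) (hne : ∀ i, (C i).Nonempty) (hanti : Antitone C)
    {B : ℝ} (hB : ∀ z ∈ C 0, N z ≤ B) :
    ∃ c, (∀ i, c ∈ C i) ∧ ∀ I : ℝ, (∀ i, sInf (N '' C i) ≤ I) → N c ≤ I := by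
  classical
  set I : ℕ → ℝ := fun i => sInf (N '' C i) with hI
  have hbdd : ∀ i, BddBelow (N '' C i) := fun i => ⟨0, by
    rintro _ ⟨z, _, rfl⟩; exact h.nonneg z⟩
  have hIle : ∀ i z, z ∈ C i → I i ≤ N z := fun i z hz => csInf_le (hbdd i) ⟨z, hz, rfl⟩
  have hImono : Monotone I := by
    intro i j hij
    refine csInf_le_csInf (hbdd i) ((hne j).image N) (Set.image_mono (hanti hij))
  have hIB : ∀ i, I i ≤ B := by
    intro i
    obtain ⟨z, hz⟩ := hne i
    exact (hIle i z hz).trans (hB z (hanti (Nat.zero_le i) hz))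
  have hex : ∀ i : ℕ, ∃ z ∈ C i, N z < I i + 1 / ((i : ℝ) + 1) := by
    intro i
    obtain ⟨_, ⟨z, hz, rfl⟩, hlt⟩ := exists_lt_of_csInf_lt ((hne i).image N)
      (show sInf (N '' C i) < I i + 1 / ((i : ℝ) + 1) by
        have : (0:ℝ) < 1 / ((i : ℝ) + 1) := by positivity
        simp only [hI]; linarith)
    exact ⟨z, hz, hlt⟩
  choose c hcC hcN using hex
  obtain ⟨L, hL⟩ : ∃ L, Tendsto I atTop (𝓝 L) :=
    ⟨_, tendsto_atTop_ciSup hImono ⟨B, by rintro _ ⟨i, rfl⟩; exact hIB i⟩⟩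
  have hone : Tendsto (fun i : ℕ => 1 / ((i : ℝ) + 1)) atTop (𝓝 0) :=
    tendsto_one_div_add_atTop_nhds_zero_nat
  have hkey : ∀ i j, i ≤ j → ‖(1/2:ℝ) • (c i - c j)‖ ^ p ≤ (L - I i) / 2 + 1 / ((i : ℝ) + 1) := by
    intro i j hij
    have h1 := h.cl (c i) (c j)
    have h2 := h.low ((1/2:ℝ) • (c i - c j))
    have h3 : (1/2:ℝ) • (c i + c j) ∈ C i := by
      rw [smul_add]
      exact hcv i (hcC i) (hanti hij (hcC j)) (by norm_num) (by norm_num) (by norm_num)
    have h4 := hIle i _ h3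
    have h5 := hcN i
    have h6 := hcN j
    have h7 : I j ≤ L := hImono.ge_of_tendsto hL j
    have h8 : 1 / ((j : ℝ) + 1) ≤ 1 / ((i : ℝ) + 1) := by
      apply one_div_le_one_div_of_le (by positivity)
      have : (i : ℝ) ≤ j := by exact_mod_cast hij
      linarith
    linarith
  have hcauchy : CauchySeq c := by
    rw [Metric.cauchySeq_iff']
    intro ε hε
    have hlim : Tendsto (fun i : ℕ => (L - I i) / 2 + 1 / ((i : ℝ) + 1)) atTop (𝓝 0) := by
      have := ((tendsto_const_nhds (x := L)).sub hL).div_const 2 |>.add hone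
      simpa using this
    obtain ⟨i, hi⟩ := (hlim.eventually (gt_mem_nhds (show (0:ℝ) < (ε/2)^p by positivity))).exists
    refine ⟨i, fun j hj => ?_⟩
    have h1 := (hkey i j hj).trans_lt hi
    have h2 := lt_of_pow_lt_pow_left₀ p (by positivity) h1
    rw [norm_smul] at h2
    rw [dist_comm, dist_eq_norm]
    have : ‖(1/2:ℝ)‖ = 1/2 := by norm_num
    rw [this] at h2
    linarith
  obtain ⟨c₀, hc₀⟩ := cauchySeq_tendsto_of_complete hcauchy
  refine ⟨c₀, fun i => ?_, fun I' hI' => ?_⟩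
  · refine (hcl i).mem_of_tendsto hc₀ ?_
    filter_upwards [eventually_ge_atTop i] with j hj
    exact hanti hj (hcC j)
  · have h1 : Tendsto (fun i => N (c i)) atTop (𝓝 (N c₀)) := (h.cont.tendsto c₀).comp hc₀
    have h2 : Tendsto (fun i : ℕ => I i + 1 / ((i : ℝ) + 1)) atTop (𝓝 L) := by
      simpa using hL.add hone
    have h3 : N c₀ ≤ L := le_of_tendsto_of_tendsto' h1 h2 (fun i => (hcN i).le)
    exact h3.trans (le_of_tendsto' hL hI')

/-- Minimal element of a closed convex set. -/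
theorem Clark.exists_min (h : Clark N p) (C : Set Z) (hcl : IsClosed C)
    (hcv : Convex ℝ C) (hne : C.Nonempty) : ∃ c ∈ C, ∀ z ∈ C, N c ≤ N z := by
  classical
  obtain ⟨z₀, hz₀⟩ := hne
  -- convexity of sublevel sets is not needed: use near-minimizers in the constant family,
  -- intersected with a sublevel set handled through `nested` on a constant family.
  set I : ℝ := sInf (N '' C) with hI
  have hbdd : BddBelow (N '' C) := ⟨0, by rintro _ ⟨z, _, rfl⟩; exact h.nonneg z⟩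
  have hIle : ∀ z, z ∈ C → I ≤ N z := fun z hz => csInf_le hbdd ⟨z, hz, rfl⟩
  have hex : ∀ i : ℕ, ∃ z ∈ C, N z < I + 1 / ((i : ℝ) + 1) := by
    intro i
    obtain ⟨_, ⟨z, hz, rfl⟩, hlt⟩ := exists_lt_of_csInf_lt (⟨_, z₀, hz₀, rfl⟩ : (N '' C).Nonempty)
      (show sInf (N '' C) < I + 1 / ((i : ℝ) + 1) by
        have : (0:ℝ) < 1 / ((i : ℝ) + 1) := by positivity
        simp only [hI]; linarith)
    exact ⟨z, hz, hlt⟩
  choose c hcC hcN using hex
  have hone : Tendsto (fun i : ℕ => 1 / ((i : ℝ) + 1)) atTop (𝓝 0) :=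
    tendsto_one_div_add_atTop_nhds_zero_nat
  have hkey : ∀ i j, i ≤ j → ‖(1/2:ℝ) • (c i - c j)‖ ^ p ≤ 1 / ((i : ℝ) + 1) := by
    intro i j hij
    have h1 := h.cl (c i) (c j)
    have h2 := h.low ((1/2:ℝ) • (c i - c j))
    have h3 : (1/2:ℝ) • (c i + c j) ∈ C := by
      rw [smul_add]
      exact hcv (hcC i) (hcC j) (by norm_num) (by norm_num) (by norm_num)
    have h4 := hIle _ h3
    have h5 := hcN i
    have h6 := hcN j
    have h8 : 1 / ((j : ℝ) + 1) ≤ 1 / ((i : ℝ) + 1) := by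
      apply one_div_le_one_div_of_le (by positivity)
      have : (i : ℝ) ≤ j := by exact_mod_cast hij
      linarith
    linarith
  have hcauchy : CauchySeq c := by
    rw [Metric.cauchySeq_iff']
    intro ε hε
    obtain ⟨i, hi⟩ := (hone.eventually (gt_mem_nhds (show (0:ℝ) < (ε/2)^p by positivity))).exists
    refine ⟨i, fun j hj => ?_⟩
    have h1 := (hkey i j hj).trans_lt hi
    have h2 := lt_of_pow_lt_pow_left₀ p (by positivity) h1
    rw [norm_smul] at h2
    rw [dist_comm, dist_eq_norm]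
    have : ‖(1/2:ℝ)‖ = 1/2 := by norm_num
    rw [this] at h2
    linarith
  obtain ⟨c₀, hc₀⟩ := cauchySeq_tendsto_of_complete hcauchy
  refine ⟨c₀, hcl.mem_of_tendsto hc₀ (Eventually.of_forall hcC), fun z hz => ?_⟩
  have h1 : Tendsto (fun i => N (c i)) atTop (𝓝 (N c₀)) := (h.cont.tendsto c₀).comp hc₀
  have h2 : Tendsto (fun i : ℕ => I + 1 / ((i : ℝ) + 1)) atTop (𝓝 I) := by
    simpa using (tendsto_const_nhds (x := I)).add hone
  exact (le_of_tendsto_of_tendsto' h1 h2 (fun i => (hcN i).le)).trans (hIle z hz)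

omit [CompleteSpace Z] in
theorem Clark.min_unique (h : Clark N p) {C : Set Z} (hcv : Convex ℝ C) {c c' : Z}
    (hc : c ∈ C) (hc' : c' ∈ C) (hmin : ∀ z ∈ C, N c ≤ N z) (heq : N c' ≤ N c) : c' = c := by
  have h1 := h.cl c c'
  have h2 := h.low ((1/2:ℝ) • (c - c'))
  have h3 : (1/2:ℝ) • (c + c') ∈ C := by
    rw [smul_add]
    exact hcv hc hc' (by norm_num) (by norm_num) (by norm_num)
  have h4 := hmin _ h3
  have h5 : ‖(1/2:ℝ) • (c - c')‖ ^ p ≤ 0 := by linarith
  have h6 : ‖(1/2:ℝ) • (c - c')‖ = 0 := by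
    by_contra hne
    have : 0 < ‖(1/2:ℝ) • (c - c')‖ := lt_of_le_of_ne (norm_nonneg _) (Ne.symm hne)
    have := pow_pos this p
    linarith
  rw [norm_smul] at h6
  have h7 : ‖c - c'‖ = 0 := by
    rcases mul_eq_zero.mp h6 with h | h
    · norm_num at h
    · exact h
  exact (sub_eq_zero.mp (norm_eq_zero.mp h7)).symm

end Pool.Agent.Helper42.Bub
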