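import Pool.Agent.Helper42.Bub.Split

/-!
Vertical (Hardy/Poincaré type) inequality: the function component is controlled by the
derivative and trace components.
-/

set_option maxHeartbeats 400000

open Filter Topology MeasureTheory Set
open scoped ENNReal InnerProductSpace NNReal

namespace Pool.Agent.Helper42.Bub

variable {m : ℕ} {V : Type*} [NormedAddCommGroup V] [InnerProductSpace ℝ V]

theorem enorm_grt (w : Eu (m+1) → V) (x : Eu (m+1)) :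
    ‖grt w x‖ₑ = ENNReal.ofReal (1 + ‖x‖ ^ 2) * ‖gr w x‖ₑ := by
  unfold grt
  rw [enorm_smul]
  congr 1
  rw [Real.enorm_eq_ofReal_abs, abs_of_pos (by positivity)]

theorem wt_mul (x : Eu (m+1)) : wt x * (1 + ‖x‖ ^ 2) = 1 := by
  unfold wt
  have : (1 + ‖x‖ ^ 2) ≠ 0 := by positivity
  field_simp

theorem wt_grt (w : Eu (m+1) → V) (x : Eu (m+1)) :
    ENNReal.ofReal (wt x) * ‖grt w x‖ₑ = ‖gr w x‖ₑ := by
  rw [enorm_grt, ← mul_assoc, ← ENNReal.ofReal_mul (wt_pos x).le, wt_mul, ENNReal.ofReal_one,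
    one_mul]

theorem energy_eq (w : Eu (m+1) → V) :
    ∫⁻ x, ‖grt w x‖ₑ ^ (m+1) ∂(mu m) = ∫⁻ x in Om m, ‖gr w x‖ₑ ^ (m+1) := by
  rw [lint_mu]
  refine lintegral_congr fun x => ?_
  rw [ENNReal.ofReal_pow (wt_pos x).le, ← mul_pow, wt_grt]

theorem fderiv_eq_sum (w : Eu (m+1) → V) (x h : Eu (m+1)) :
    fderiv ℝ w x h = ∑ j, h j • fderiv ℝ w x (eb j) := by
  conv_lhs => rw [← (EuclideanSpace.basisFun (Fin (m+1)) ℝ).sum_repr h]
  rw [map_sum]
  refine Finset.sum_congr rfl fun j _ => ?_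
  rw [map_smul]
  simp

theorem norm_sum_smul_le (h : Eu (m+1)) (D : HS m V) : ‖∑ j, h j • D j‖ ≤ ‖h‖ * ‖D‖ := by
  have h1 : ‖∑ j, h j • D j‖ ≤ ∑ j, |h j| * ‖D j‖ := by
    refine (norm_sum_le _ _).trans (le_of_eq ?_)
    refine Finset.sum_congr rfl fun j _ => ?_
    rw [norm_smul, Real.norm_eq_abs]
  refine h1.trans ?_
  have h2 := Finset.sum_mul_sq_le_sq_mul_sq Finset.univ (fun j => |h j|) (fun j => ‖D j‖)
  rw [EuclideanSpace.norm_eq, PiLp.norm_eq_of_L2, ← Real.sqrt_mul (by positivity)]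
  apply Real.le_sqrt_of_sq_le
  simp only [sq_abs] at h2
  simpa only [Real.norm_eq_abs, sq_abs] using h2

theorem fderiv_le_gr (w : Eu (m+1) → V) (x h : Eu (m+1)) :
    ‖fderiv ℝ w x h‖ ≤ ‖h‖ * ‖gr w x‖ := by
  rw [fderiv_eq_sum]
  exact norm_sum_smul_le h (gr w x)

theorem fderiv_le_gr_e (w : Eu (m+1) → V) (x h : Eu (m+1)) :
    ‖fderiv ℝ w x h‖ₑ ≤ ‖h‖ₑ * ‖gr w x‖ₑ := by
  have := fderiv_le_gr w x h
  rw [← enorm_norm h, ← enorm_norm (gr w x), ← enorm_mul]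
  rw [← enorm_norm]
  simp only [Real.enorm_eq_ofReal_abs, abs_norm]
  rw [abs_of_nonneg (by positivity)]
  exact ENNReal.ofReal_le_ofReal this

theorem enorm_sub_le [CompleteSpace V] {f f' : ℝ → V} (hf : ∀ t, HasDerivAt f (f' t) t)
    (hc : Continuous f') {a b : ℝ} (hab : a ≤ b) :
    ‖f b - f a‖ₑ ≤ ∫⁻ t in Ioc a b, ‖f' t‖ₑ := by
  have h1 : ∫ t in a..b, f' t = f b - f a :=
    intervalIntegral.integral_eq_sub_of_hasDerivAt (fun t _ => hf t) (hc.intervalIntegrable _ _)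
  rw [← h1, intervalIntegral.integral_of_le hab]
  exact enorm_integral_le_lintegral_enorm _

theorem path_le [CompleteSpace V] {w : Eu (m+1) → V} (hw : ContDiff ℝ 1 w) (x h : Eu (m+1))
    {a b : ℝ} (hab : a ≤ b) :
    ‖w (x + b • h) - w (x + a • h)‖ₑ ≤ ∫⁻ t in Ioc a b, ‖h‖ₑ * ‖gr w (x + t • h)‖ₑ := by
  have hd : ∀ t : ℝ, HasDerivAt (fun t : ℝ => w (x + t • h)) (fderiv ℝ w (x + t • h) h) t := by
    intro t
    have h1 : HasDerivAt (fun t : ℝ => x + t • h) h t := by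
      have := ((hasDerivAt_id t).smul_const h).const_add x
      simpa using this
    exact ((hw.differentiable one_ne_zero) _).hasFDerivAt.comp_hasDerivAt t h1
  have hc : Continuous (fun t : ℝ => fderiv ℝ w (x + t • h) h) := by
    have h1 : Continuous (fun t : ℝ => x + t • h) := by fun_prop
    exact ((hw.continuous_fderiv one_ne_zero).comp h1).clm_apply continuous_const
  refine (enorm_sub_le hd hc hab).trans ?_
  exact lintegral_mono fun t => fderiv_le_gr_e _ _ _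

theorem vert_le [CompleteSpace V] {w : Eu (m+1) → V} (hw : ContDiff ℝ 1 w) (y : Eu m) {s : ℝ}
    (hs : 0 ≤ s) :
    ‖w (pt s y) - w (iota y)‖ₑ ≤ ∫⁻ t in Ioc 0 s, ‖gr w (pt t y)‖ₑ := by
  have h := path_le hw (iota y) (eb 0) hs
  rw [zero_smul, add_zero, ← pt_eq] at h
  refine h.trans (le_of_eq (lintegral_congr fun t => ?_))
  rw [← pt_eq]
  have : ‖(eb 0 : Eu (m+1))‖ₑ = 1 := by
    rw [← enorm_norm]; simp
  rw [this, one_mul]

theorem measurable_enorm_gr {w : Eu (m+1) → V} (hw : ContDiff ℝ 1 w) :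
    Measurable (fun x => ‖gr w x‖ₑ) := (IsTest.continuous_gr hw).enorm.measurable

theorem vert_pow_le [CompleteSpace V] {w : Eu (m+1) → V} (hw : ContDiff ℝ 1 w) (y : Eu m) {s : ℝ}
    (hs : 0 ≤ s) :
    ‖w (pt s y) - w (iota y)‖ₑ ^ (m+1) ≤
      ENNReal.ofReal s ^ m * ∫⁻ t in Ioi (0:ℝ), ‖gr w (pt t y)‖ₑ ^ (m+1) := by
  have h1 := pow_le_pow_left₀ zero_le (vert_le hw y hs) (m+1)
  refine h1.trans ?_
  have hmeas : Measurable (fun t : ℝ => ‖gr w (pt t y)‖ₑ) := by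
    have : Continuous (fun t : ℝ => pt t y) :=
      continuous_pt.comp (continuous_id.prodMk continuous_const)
    exact (measurable_enorm_gr hw).comp this.measurable
  have h2 := lint_pow_le (μ := volume.restrict (Ioc (0:ℝ) s)) m hmeas.aemeasurable
  refine h2.trans ?_
  have h3 : (volume.restrict (Ioc (0:ℝ) s)) univ = ENNReal.ofReal s := by
    rw [Measure.restrict_apply MeasurableSet.univ, univ_inter, Real.volume_Ioc, sub_zero]
  rw [h3]
  gcongr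
  exact Ioc_subset_Ioi_self

/-- constant -/
noncomputable def cI : ℝ≥0∞ := ∫⁻ s in Ioi (0:ℝ), ENNReal.ofReal ((1 + s ^ 2)⁻¹)

theorem cI_lt : cI < ∞ := lint_inv_finite

theorem vert_int [CompleteSpace V] {w : Eu (m+1) → V} (hw : ContDiff ℝ 1 w) :
    ∫⁻ x, ‖w x - w (iota (tl x))‖ₑ ^ (m+1) ∂(mu m) ≤
      cI * ∫⁻ x, ‖grt w x‖ₑ ^ (m+1) ∂(mu m) := by
  rw [energy_eq, lint_mu]
  have hg := measurable_enorm_gr hw
  have hm1 : Measurable (fun x : Eu (m+1) => ENNReal.ofReal (wt x ^ (m+1)) *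
      ‖w x - w (iota (tl x))‖ₑ ^ (m+1)) := by
    refine (ENNReal.measurable_ofReal.comp ((continuous_wt.pow _).measurable)).mul ?_
    refine Measurable.pow_const ?_ _
    exact (hw.continuous.sub
      (hw.continuous.comp (continuous_iota.comp continuous_tl))).enorm.measurable
  rw [lint_split_Om hm1, lint_split_Om (hg.pow_const _)]
  have hg2 : Measurable (fun q : ℝ × Eu m => ‖gr w (pt q.1 q.2)‖ₑ ^ (m+1)) :=
    (hg.comp continuous_pt.measurable).pow_const _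
  have hswap : ∫⁻ s in Ioi (0:ℝ), ∫⁻ y : Eu m, ‖gr w (pt s y)‖ₑ ^ (m+1)
      = ∫⁻ y : Eu m, ∫⁻ s in Ioi (0:ℝ), ‖gr w (pt s y)‖ₑ ^ (m+1) :=
    lintegral_lintegral_swap hg2.aemeasurable
  rw [hswap]
  have hH : Measurable (fun y : Eu m => ∫⁻ s in Ioi (0:ℝ), ‖gr w (pt s y)‖ₑ ^ (m+1)) := by
    have h5 := hg2.comp (measurable_swap (α := Eu m) (β := ℝ))
    have h6 := h5.lintegral_prod_right' (ν := volume.restrict (Ioi (0:ℝ)))
    exact h6
  have hbound : ∀ s ∈ Ioi (0:ℝ), ∫⁻ y : Eu m, ENNReal.ofReal (wt (pt s y) ^ (m+1)) *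
      ‖w (pt s y) - w (iota (tl (pt s y)))‖ₑ ^ (m+1) ≤
      ENNReal.ofReal ((1 + s ^ 2)⁻¹) * ∫⁻ y : Eu m, ∫⁻ s in Ioi (0:ℝ), ‖gr w (pt s y)‖ₑ ^ (m+1) := by
    intro s hs
    have hs0 : (0:ℝ) ≤ s := le_of_lt hs
    rw [← lintegral_const_mul _ hH]
    refine lintegral_mono fun y => ?_
    rw [tl_pt]
    refine (mul_le_mul_right (vert_pow_le hw y hs0) _).trans ?_
    rw [← mul_assoc]
    gcongr
    rw [← ENNReal.ofReal_pow hs0, ← ENNReal.ofReal_mul (by have := wt_pos (pt s y); positivity)]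
    exact ENNReal.ofReal_le_ofReal (wt_pow_pt_le2 hs0 y)
  calc ∫⁻ s in Ioi (0:ℝ), ∫⁻ y : Eu m, ENNReal.ofReal (wt (pt s y) ^ (m+1)) *
        ‖w (pt s y) - w (iota (tl (pt s y)))‖ₑ ^ (m+1)
      ≤ ∫⁻ s in Ioi (0:ℝ), ENNReal.ofReal ((1 + s ^ 2)⁻¹) *
        ∫⁻ y : Eu m, ∫⁻ s in Ioi (0:ℝ), ‖gr w (pt s y)‖ₑ ^ (m+1) :=
        setLIntegral_mono' measurableSet_Ioi hbound
    _ = cI * ∫⁻ y : Eu m, ∫⁻ s in Ioi (0:ℝ), ‖gr w (pt s y)‖ₑ ^ (m+1) := by
        rw [lintegral_mul_const]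
        · rfl
        · fun_prop

theorem trace_int {τ : Eu m → V} (hτ : Continuous τ) :
    ∫⁻ x, ‖τ (tl x)‖ₑ ^ (m+1) ∂(mu m) ≤ cI * ∫⁻ y, ‖τ y‖ₑ ^ (m+1) ∂(mub m) := by
  rw [lint_mu, lint_mub]
  have hm1 : Measurable (fun x : Eu (m+1) => ENNReal.ofReal (wt x ^ (m+1)) *
      ‖τ (tl x)‖ₑ ^ (m+1)) := by
    refine (ENNReal.measurable_ofReal.comp ((continuous_wt.pow _).measurable)).mul ?_
    refine Measurable.pow_const ?_ _
    exact (hτ.comp continuous_tl).enorm.measurable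
  have hm2 : Measurable (fun y : Eu m => ENNReal.ofReal (wt y ^ m) * ‖τ y‖ₑ ^ (m+1)) := by
    refine (ENNReal.measurable_ofReal.comp ((continuous_wt.pow _).measurable)).mul ?_
    exact hτ.enorm.measurable.pow_const _
  rw [lint_split_Om hm1]
  have hbound : ∀ s ∈ Ioi (0:ℝ), ∫⁻ y : Eu m, ENNReal.ofReal (wt (pt s y) ^ (m+1)) *
      ‖τ (tl (pt s y))‖ₑ ^ (m+1) ≤
      ENNReal.ofReal ((1 + s ^ 2)⁻¹) * ∫⁻ y : Eu m, ENNReal.ofReal (wt y ^ m) * ‖τ y‖ₑ ^ (m+1) := by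
    intro s hs
    rw [← lintegral_const_mul _ hm2]
    refine lintegral_mono fun y => ?_
    rw [tl_pt, ← mul_assoc]
    gcongr
    rw [← ENNReal.ofReal_mul (by positivity)]
    exact ENNReal.ofReal_le_ofReal (wt_pow_pt_le s y)
  calc _ ≤ ∫⁻ s in Ioi (0:ℝ), ENNReal.ofReal ((1 + s ^ 2)⁻¹) *
        ∫⁻ y : Eu m, ENNReal.ofReal (wt y ^ m) * ‖τ y‖ₑ ^ (m+1) :=
        setLIntegral_mono' measurableSet_Ioi hbound
    _ = cI * ∫⁻ y : Eu m, ENNReal.ofReal (wt y ^ m) * ‖τ y‖ₑ ^ (m+1) := by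
        rw [lintegral_mul_const]
        · rfl
        · fun_prop

theorem eLp_pow {α G : Type*} [MeasurableSpace α] {μ : Measure α} [NormedAddCommGroup G]
    (f : α → G) (n : ℕ) : eLpNorm f ((n+1 : ℕ) : ℝ≥0∞) μ ^ (n+1) = ∫⁻ x, ‖f x‖ₑ ^ (n+1) ∂μ := by
  have h0 : ((n+1 : ℕ) : ℝ≥0∞) ≠ 0 := by exact_mod_cast Nat.succ_ne_zero n
  have h1 : ((n+1 : ℕ) : ℝ≥0∞) ≠ ∞ := ENNReal.natCast_ne_top _
  rw [eLpNorm_eq_lintegral_rpow_enorm_toReal h0 h1]
  have e : (((n+1 : ℕ) : ℝ≥0∞)).toReal = ((n+1 : ℕ) : ℝ) := ENNReal.toReal_natCast _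
  rw [e, ← ENNReal.rpow_natCast _ (n+1), ← ENNReal.rpow_mul, one_div,
    inv_mul_cancel₀ (by positivity), ENNReal.rpow_one]
  simp_rw [ENNReal.rpow_natCast]

/-- The function component is controlled. -/
theorem fst_le (m : ℕ) [NeZero m] (V : Type*) [NormedAddCommGroup V] [InnerProductSpace ℝ V]
    [FiniteDimensional ℝ V] :
    ∃ C : ℝ, 0 ≤ C ∧ ∀ z ∈ XX m V, ‖z.1‖ ≤ C * (‖z.2.1‖ + ‖z.2.2‖) := by
  have : CompleteSpace V := FiniteDimensional.complete ℝ V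
  set C : ℝ := (cI ^ (1 / ((m+1 : ℕ) : ℝ))).toReal with hC
  have hCn : 0 ≤ C := ENNReal.toReal_nonneg
  have hfin : cI ^ (1 / ((m+1 : ℕ) : ℝ)) ≠ ∞ :=
    ENNReal.rpow_ne_top_of_nonneg (by positivity) cI_lt.ne
  have hroot : ∀ a b : ℝ≥0∞, a ^ (m+1) ≤ cI * b ^ (m+1) → a ≤ cI ^ (1 / ((m+1 : ℕ) : ℝ)) * b := by
    intro a b h
    have h1 : a ^ (m+1) ≤ (cI ^ (1 / ((m+1 : ℕ) : ℝ)) * b) ^ (m+1) := by
      rw [mul_pow, ← ENNReal.rpow_natCast (cI ^ _) (m+1), ← ENNReal.rpow_mul, one_div,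
        inv_mul_cancel₀ (by positivity), ENNReal.rpow_one]
      exact h
    exact (ENNReal.pow_le_pow_left_iff (by omega)).mp h1
  refine ⟨C, hCn, ?_⟩
  -- test maps first
  have htest : ∀ (w : Eu (m+1) → V) (z : ZZ m V), IsTest w → Rep z w →
      ‖z.1‖ ≤ C * (‖z.2.1‖ + ‖z.2.2‖) := by
    intro w z t r
    have e1 : eLpNorm (fun x => w x - w (iota (tl x))) (pp m) (mu m) ≤
        cI ^ (1 / ((m+1 : ℕ) : ℝ)) * eLpNorm (grt w) (pp m) (mu m) := by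
      apply hroot
      rw [eLp_pow, eLp_pow]
      exact vert_int t.c1
    have e2 : eLpNorm (fun x => w (iota (tl x))) (pp m) (mu m) ≤
        cI ^ (1 / ((m+1 : ℕ) : ℝ)) * eLpNorm (w ∘ iota) (pp m) (mub m) := by
      apply hroot
      rw [eLp_pow, eLp_pow]
      exact trace_int (t.c1.continuous.comp continuous_iota)
    have mm : AEStronglyMeasurable (fun x => w (iota (tl x))) (mu m) :=
      (t.c1.continuous.comp (continuous_iota.comp continuous_tl)).aestronglyMeasurable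
    have mm2 : AEStronglyMeasurable (fun x => w x - w (iota (tl x))) (mu m) :=
      (t.c1.continuous.aestronglyMeasurable).sub mm
    have e3 : eLpNorm w (pp m) (mu m) ≤ cI ^ (1 / ((m+1 : ℕ) : ℝ)) *
        (eLpNorm (grt w) (pp m) (mu m) + eLpNorm (w ∘ iota) (pp m) (mub m)) := by
      have : w = (fun x => w x - w (iota (tl x))) + fun x => w (iota (tl x)) := by
        funext x; simp
      calc eLpNorm w (pp m) (mu m) = eLpNorm ((fun x => w x - w (iota (tl x))) +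
            fun x => w (iota (tl x))) (pp m) (mu m) := by rw [← this]
        _ ≤ _ := eLpNorm_add_le mm2 mm (Fact.out)
        _ ≤ _ := add_le_add e1 e2
        _ = _ := by rw [mul_add]
    rw [Lp.norm_def, Lp.norm_def, Lp.norm_def, eLpNorm_congr_ae r.fst, eLpNorm_congr_ae r.snd,
      eLpNorm_congr_ae r.trd]
    have f2 : eLpNorm (grt w) (pp m) (mu m) ≠ ∞ := by
      rw [← eLpNorm_congr_ae r.snd]; exact Lp.eLpNorm_ne_top _
    have f3 : eLpNorm (w ∘ iota) (pp m) (mub m) ≠ ∞ := by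
      rw [← eLpNorm_congr_ae r.trd]; exact Lp.eLpNorm_ne_top _
    rw [← ENNReal.toReal_add f2 f3, hC, ← ENNReal.toReal_mul]
    refine ENNReal.toReal_mono ?_ e3
    exact ENNReal.mul_ne_top hfin (ENNReal.add_ne_top.mpr ⟨f2, f3⟩)
  intro z hz
  obtain ⟨w, s, t, r, l⟩ := mem_XX_iff.mp hz
  have c1 : Tendsto (fun j => ‖(s j).1‖) atTop (𝓝 ‖z.1‖) :=
    ((continuous_fst.norm).tendsto z).comp l
  have c2 : Tendsto (fun j => C * (‖(s j).2.1‖ + ‖(s j).2.2‖)) atTop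
      (𝓝 (C * (‖z.2.1‖ + ‖z.2.2‖))) := by
    have hc : Continuous (fun z : ZZ m V => C * (‖z.2.1‖ + ‖z.2.2‖)) := by fun_prop
    exact (hc.tendsto z).comp l
  exact le_of_tendsto_of_tendsto' c1 c2 (fun j => htest _ _ (t j) (r j))

end Pool.Agent.Helper42.Bub
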