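import Pool.Agent.Helper42.Bub.Defs
import Pool.Agent.Helper42.Bub.Vert

/-!
Elements of `XX` are Sobolev maps.
-/

set_option maxHeartbeats 400000

open Filter Topology MeasureTheory Set
open scoped ENNReal InnerProductSpace NNReal

namespace Pool.Agent.Helper42.Bub

open Pool.Agent.Helper42.Bubble (Half bdry IsSobolev)

theorem Om_eq (m : ℕ) : Om m = Half m := rfl

theorem iota_eq {m : ℕ} (y : Eu m) : iota y = bdry y := rfl

theorem restrict_ball_le (m : ℕ) (R : ℝ) : volume.restrict (Om m ∩ Metric.ball 0 R) ≤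
    ENNReal.ofReal ((1 + R ^ 2) ^ (m+1)) • mu m := by
  have hb : MeasurableSet (Om m ∩ Metric.ball (0 : Eu (m+1)) R) :=
    (measurableSet_Om m).inter Metric.isOpen_ball.measurableSet
  have hw : Measurable (fun x : Eu (m+1) => ENNReal.ofReal (wt x ^ (m+1))) :=
    ENNReal.measurable_ofReal.comp ((continuous_wt.pow _).measurable)
  rw [Measure.le_iff]
  intro s hs
  rw [Measure.smul_apply, smul_eq_mul, Measure.restrict_apply hs]
  unfold mu
  rw [withDensity_apply _ hs, Measure.restrict_restrict hs, ← lintegral_const_mul _ hw]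
  have h1 : volume (s ∩ (Om m ∩ Metric.ball (0 : Eu (m+1)) R)) =
      ∫⁻ x in s ∩ (Om m ∩ Metric.ball (0 : Eu (m+1)) R), 1 := by simp
  rw [h1]
  calc ∫⁻ x in s ∩ (Om m ∩ Metric.ball (0 : Eu (m+1)) R), 1
      ≤ ∫⁻ x in s ∩ (Om m ∩ Metric.ball (0 : Eu (m+1)) R),
        ENNReal.ofReal ((1 + R ^ 2) ^ (m+1)) * ENNReal.ofReal (wt x ^ (m+1)) := by
        refine setLIntegral_mono' (hs.inter hb) (fun x hx => ?_)
        rw [← ENNReal.ofReal_mul (by positivity), ← mul_pow, ← ENNReal.ofReal_one]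
        apply ENNReal.ofReal_le_ofReal
        have hx2 : ‖x‖ < R := mem_ball_zero_iff.mp hx.2.2
        have h2 : 1 ≤ (1 + R ^ 2) * wt x := by
          unfold wt
          rw [← div_eq_mul_inv, le_div_iff₀ (by positivity)]
          nlinarith [norm_nonneg x]
        exact one_le_pow₀ h2
    _ ≤ ∫⁻ x in s ∩ Om m,
        ENNReal.ofReal ((1 + R ^ 2) ^ (m+1)) * ENNReal.ofReal (wt x ^ (m+1)) := by
        refine lintegral_mono_set ?_
        intro x hx
        exact ⟨hx.1, hx.2.1⟩

theorem restrict_ball_le' (m : ℕ) (R : ℝ) : volume.restrict (Metric.ball 0 R) ≤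
    ENNReal.ofReal ((1 + R ^ 2) ^ m) • mub m := by
  have hb : MeasurableSet (Metric.ball (0 : Eu m) R) := Metric.isOpen_ball.measurableSet
  have hw : Measurable (fun x : Eu m => ENNReal.ofReal (wt x ^ m)) :=
    ENNReal.measurable_ofReal.comp ((continuous_wt.pow _).measurable)
  rw [Measure.le_iff]
  intro s hs
  rw [Measure.smul_apply, smul_eq_mul, Measure.restrict_apply hs]
  unfold mub
  rw [withDensity_apply _ hs, ← lintegral_const_mul _ hw]
  have h1 : volume (s ∩ Metric.ball (0 : Eu m) R) =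
      ∫⁻ x in s ∩ Metric.ball (0 : Eu m) R, 1 := by simp
  rw [h1]
  calc ∫⁻ x in s ∩ Metric.ball (0 : Eu m) R, 1
      ≤ ∫⁻ x in s ∩ Metric.ball (0 : Eu m) R,
        ENNReal.ofReal ((1 + R ^ 2) ^ m) * ENNReal.ofReal (wt x ^ m) := by
        refine setLIntegral_mono' (hs.inter hb) (fun x hx => ?_)
        rw [← ENNReal.ofReal_mul (by positivity), ← mul_pow, ← ENNReal.ofReal_one]
        apply ENNReal.ofReal_le_ofReal
        have hx2 : ‖x‖ < R := mem_ball_zero_iff.mp hx.2
        have h2 : 1 ≤ (1 + R ^ 2) * wt x := by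
          unfold wt
          rw [← div_eq_mul_inv, le_div_iff₀ (by positivity)]
          nlinarith [norm_nonneg x]
        exact one_le_pow₀ h2
    _ ≤ ∫⁻ x in s, ENNReal.ofReal ((1 + R ^ 2) ^ m) * ENNReal.ofReal (wt x ^ m) :=
        lintegral_mono_set inter_subset_left

theorem tendsto_eLp_of_le {α V : Type*} [MeasurableSpace α] [NormedAddCommGroup V]
    {ν μ : Measure α} {c : ℝ≥0∞} (hc : c ≠ ∞) (h : ν ≤ c • μ) {p : ℝ≥0∞} (hp : p ≠ ∞)
    {f : ℕ → α → V}
    (hf : Tendsto (fun j => eLpNorm (f j) p μ) atTop (𝓝 0)) :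
    Tendsto (fun j => eLpNorm (f j) p ν) atTop (𝓝 0) := by
  have h1 : ∀ j, eLpNorm (f j) p ν ≤ c ^ (1 / p).toReal * eLpNorm (f j) p μ := by
    intro j
    refine (eLpNorm_mono_measure _ h).trans (le_of_eq ?_)
    rw [eLpNorm_smul_measure_of_ne_top hp, smul_eq_mul]
  have h2 : Tendsto (fun j => c ^ (1 / p).toReal * eLpNorm (f j) p μ) atTop (𝓝 0) := by
    have := ENNReal.Tendsto.const_mul hf
      (Or.inr (ENNReal.rpow_ne_top_of_nonneg (x := c) (y := (1 / p).toReal) ENNReal.toReal_nonneg hc))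
    rwa [mul_zero] at this
  exact tendsto_of_tendsto_of_tendsto_of_le_of_le tendsto_const_nhds h2 (fun j => zero_le) h1

variable {m : ℕ} {V : Type*} [NormedAddCommGroup V] [InnerProductSpace ℝ V]

theorem gr_eq (w : Eu (m+1) → V) (x : Eu (m+1)) : gr w x = wt x • grt w x := by
  unfold grt
  rw [smul_smul, wt_mul, one_smul]

theorem pp_ne_top (m : ℕ) : pp m ≠ ∞ := ENNReal.natCast_ne_top _

theorem sobolev_of_mem [NeZero m] [FiniteDimensional ℝ V] {z : ZZ m V} (hz : z ∈ XX m V) :
    IsSobolev (fun x => z.1 x) (fun x i => wt x • z.2.1 x i) (fun y => z.2.2 y) := by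
  obtain ⟨w, s, t, r, l⟩ := mem_XX_iff.mp hz
  have l1 := (continuous_fst.tendsto z).comp l
  have l2 := ((continuous_fst.comp continuous_snd).tendsto z).comp l
  have l3 := ((continuous_snd.comp continuous_snd).tendsto z).comp l
  refine ⟨?_, fun i => ?_, ?_, fun R => ⟨w, fun j => (t j).c1, ?_, fun i => ?_, ?_⟩⟩
  · exact (Lp.aestronglyMeasurable z.1).mono_ac (mu_ac' m)
  · refine AEStronglyMeasurable.mono_ac (mu_ac' m) ?_
    have h1 : AEStronglyMeasurable (fun x => z.2.1 x i) (mu m) :=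
      (PiLp.continuous_apply 2 (fun _ : Fin (m+1) => V) i).comp_aestronglyMeasurable
        (Lp.aestronglyMeasurable z.2.1)
    exact (continuous_wt.aestronglyMeasurable).smul h1
  · exact (Lp.aestronglyMeasurable z.2.2).mono_ac (mub_ac' m)
  · refine tendsto_eLp_of_le ENNReal.ofReal_ne_top (restrict_ball_le m R) (pp_ne_top m) ?_
    rw [Lp.tendsto_Lp_iff_tendsto_eLpNorm'] at l1
    refine l1.congr (fun j => eLpNorm_congr_ae ?_)
    filter_upwards [(r j).fst] with x hx
    simp only [Pi.sub_apply, Function.comp_apply]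
    rw [hx]
  · refine tendsto_eLp_of_le ENNReal.ofReal_ne_top (restrict_ball_le m R) (pp_ne_top m) ?_
    rw [Lp.tendsto_Lp_iff_tendsto_eLpNorm'] at l2
    refine tendsto_of_tendsto_of_tendsto_of_le_of_le tendsto_const_nhds l2 (fun j => zero_le)
      (fun j => ?_)
    refine eLpNorm_mono_ae ?_
    filter_upwards [(r j).snd] with x hx
    simp only [Pi.sub_apply, Function.comp_apply]
    rw [hx]
    have e : fderiv ℝ (w j) x (EuclideanSpace.single i (1:ℝ)) - wt x • z.2.1 x i =
        wt x • (grt (w j) x - z.2.1 x) i := by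
      have e1 : fderiv ℝ (w j) x (EuclideanSpace.single i (1:ℝ)) = gr (w j) x i := rfl
      rw [e1, gr_eq, PiLp.smul_apply, PiLp.sub_apply, smul_sub]
    rw [e, norm_smul, Real.norm_of_nonneg (wt_pos x).le]
    have h1 : ‖(grt (w j) x - z.2.1 x) i‖ ≤ ‖grt (w j) x - z.2.1 x‖ := PiLp.norm_apply_le _ i
    have h2 := mul_le_mul (wt_le_one x) h1 (norm_nonneg _) zero_le_one
    rwa [one_mul] at h2
  · refine tendsto_eLp_of_le ENNReal.ofReal_ne_top (restrict_ball_le' m R) (pp_ne_top m) ?_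
    rw [Lp.tendsto_Lp_iff_tendsto_eLpNorm'] at l3
    refine l3.congr (fun j => eLpNorm_congr_ae ?_)
    filter_upwards [(r j).trd] with x hx
    simp only [Pi.sub_apply, Function.comp_apply]
    rw [hx]
    rfl

end Pool.Agent.Helper42.Bub
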