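import Pool.Agent.Helper42.Bub.Weak

/-!
Vanishing derivatives; constancy.
-/

set_option maxHeartbeats 400000

open Filter Topology MeasureTheory Set
open scoped ENNReal InnerProductSpace NNReal ContDiff

namespace Pool.Agent.Helper42.Bubble

variable {m : ℕ} {V : Type*} [NormedAddCommGroup V] [NormedSpace ℝ V]

theorem locInt_of_memLp {v : EuclideanSpace ℝ (Fin (m + 1)) → V}
    (h : ∀ R, MemLp v ((m + 1 : ℕ) : ℝ≥0∞) (volume.restrict (Half m ∩ Metric.ball 0 R)))
    {U : Set (EuclideanSpace ℝ (Fin (m + 1)))} (hU : U ⊆ Half m) :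
    LocallyIntegrableOn v U volume := by
  intro x hx
  refine ⟨Half m ∩ Metric.ball 0 (‖x‖ + 1), ?_, ?_⟩
  · refine inter_mem ?_ ?_
    · exact mem_nhdsWithin_of_mem_nhds ((isOpen_Half m).mem_nhds (hU hx))
    · refine mem_nhdsWithin_of_mem_nhds (Metric.isOpen_ball.mem_nhds ?_)
      rw [mem_ball_zero_iff]; linarith
  · have hfin : IsFiniteMeasure (volume.restrict (Half m ∩ Metric.ball 0 (‖x‖ + 1))) :=
      ⟨by
        rw [Measure.restrict_apply_univ]
        exact (measure_mono inter_subset_right).trans_lt measure_ball_lt_top⟩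
    exact (h (‖x‖ + 1)).integrable (one_le_pn m)

variable {v : EuclideanSpace ℝ (Fin (m + 1)) → V}
    {D : EuclideanSpace ℝ (Fin (m + 1)) → Fin (m + 1) → V} {τ : EuclideanSpace ℝ (Fin m) → V}

theorem IsSobolev.zero_D [CompleteSpace V] (h : IsSobolev v D τ)
    {U : Set (EuclideanSpace ℝ (Fin (m + 1)))} (hU : IsOpen U) (hUH : U ⊆ Half m)
    (hv : ∀ᵐ x, x ∈ U → v x = 0) (i : Fin (m+1)) : ∀ᵐ x, x ∈ U → D x i = 0 := by
  refine hU.ae_eq_zero_of_integral_contDiff_smul_eq_zero
    (locInt_of_memLp (fun R => h.memLpD R i) hUH) (fun g hg hc hs => ?_)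
  have h1 := h.ibp (hg.of_le (by exact_mod_cast le_top)) hc (hs.trans hUH) i
  have hz1 : ∀ x, x ∉ tsupport g → g x = 0 := fun x hx => image_eq_zero_of_notMem_tsupport hx
  have hz2 : ∀ x, x ∉ tsupport g → fderiv ℝ g x = 0 := fun x hx => by
    have : x ∉ Function.support (fderiv ℝ g) := fun hx' => hx (support_fderiv_subset ℝ hx')
    simpa using this
  have e3 : ∫ x in Half m, g x • D x i = ∫ x, g x • D x i :=
    setIntegral_eq_integral_of_forall_compl_eq_zero (fun x hx => by
      rw [hz1 x (fun h => hx (hUH (hs h)))]; simp)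
  have e4 : ∫ x in Half m, fderiv ℝ g x (EuclideanSpace.single i (1 : ℝ)) • v x = 0 := by
    refine integral_eq_zero_of_ae ?_
    filter_upwards [ae_restrict_of_ae hv] with x hx
    by_cases hxU : x ∈ U
    · rw [hx hxU]; simp
    · rw [hz2 x (fun h => hxU (hs h))]; simp
  rw [e4, e3] at h1
  exact (neg_eq_zero.mp h1.symm)

/-- the swept set -/
theorem isCompact_sweep {E : Type*} [NormedAddCommGroup E] [NormedSpace ℝ E] {K : Set E}
    (hK : IsCompact K) (h : E) :
    IsCompact ((fun p : E × ℝ => p.1 + p.2 • h) '' (K ×ˢ Icc (0:ℝ) 1)) := by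
  refine (hK.prod isCompact_Icc).image ?_
  fun_prop

theorem fderiv_sum {k : ℕ} (ψ : EuclideanSpace ℝ (Fin k) → ℝ) (x h : EuclideanSpace ℝ (Fin k)) :
    fderiv ℝ ψ x h = ∑ j, h j * fderiv ℝ ψ x (EuclideanSpace.single j (1:ℝ)) := by
  conv_lhs => rw [← (EuclideanSpace.basisFun (Fin k) ℝ).sum_repr h]
  rw [map_sum]
  refine Finset.sum_congr rfl fun j _ => ?_
  rw [map_smul]
  simp

theorem shift_int_eq [CompleteSpace V] {k : ℕ} {U : Set (EuclideanSpace ℝ (Fin k))}
    (hcv : Convex ℝ U) {g : EuclideanSpace ℝ (Fin k) → V} (hg : LocallyIntegrableOn g U volume)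
    (hU : IsOpen U)
    (hweak : ∀ ψ : EuclideanSpace ℝ (Fin k) → ℝ, ContDiff ℝ ∞ ψ → HasCompactSupport ψ →
      tsupport ψ ⊆ U → ∀ i, ∫ x, fderiv ℝ ψ x (EuclideanSpace.single i (1:ℝ)) • g x = 0)
    (h : EuclideanSpace ℝ (Fin k)) {ψ : EuclideanSpace ℝ (Fin k) → ℝ} (hψ : ContDiff ℝ ∞ ψ)
    (hc : HasCompactSupport ψ) (hs : tsupport ψ ⊆ U) (hs' : ∀ x ∈ tsupport ψ, x + h ∈ U) :
    ∫ x, (ψ (x - h) - ψ x) • g x = 0 := by
  set K' : Set (EuclideanSpace ℝ (Fin k)) :=
    (fun p : EuclideanSpace ℝ (Fin k) × ℝ => p.1 + p.2 • h) '' (tsupport ψ ×ˢ Icc (0:ℝ) 1)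
    with hK'
  have hK'c : IsCompact K' := isCompact_sweep hc h
  have hK'U : K' ⊆ U := by
    rintro _ ⟨⟨x, t⟩, ⟨hx, ht⟩, rfl⟩
    have := hcv (hs hx) (hs' x hx) (show (0:ℝ) ≤ 1 - t by linarith [ht.2]) ht.1 (by ring)
    have e : (1 - t) • x + t • (x + h) = x + t • h := by
      rw [smul_add, ← add_assoc, ← add_smul]; simp
    rw [e] at this
    exact this
  have hgi : IntegrableOn g K' volume := hg.integrableOn_compact_subset hK'U hK'c
  set G : EuclideanSpace ℝ (Fin k) → V := K'.indicator g with hG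
  have hGi : Integrable G volume := hgi.integrable_indicator hK'c.measurableSet
  have hmem : ∀ (x : EuclideanSpace ℝ (Fin k)) (t : ℝ), t ∈ Icc (0:ℝ) 1 → x - t • h ∈ tsupport ψ →
      x ∈ K' := by
    intro x t ht hx
    exact ⟨(x - t • h, t), ⟨hx, ht⟩, by simp⟩
  have hz1 : ∀ x, x ∉ tsupport ψ → ψ x = 0 := fun x hx => image_eq_zero_of_notMem_tsupport hx
  have hz2 : ∀ x, x ∉ tsupport ψ → fderiv ℝ ψ x = 0 := fun x hx => by
    have : x ∉ Function.support (fderiv ℝ ψ) := fun hx' => hx (support_fderiv_subset ℝ hx')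
    simpa using this
  have hψ1 : ContDiff ℝ 1 ψ := hψ.of_le (by exact_mod_cast le_top)
  have cψ : Continuous (fun x => fderiv ℝ ψ x h) :=
    (hψ1.continuous_fderiv one_ne_zero).clm_apply continuous_const
  have hcψ : HasCompactSupport (fun x => fderiv ℝ ψ x h) := by
    refine HasCompactSupport.intro hc (fun x hx => ?_)
    rw [hz2 x hx]; simp
  obtain ⟨C, hC⟩ := cψ.bounded_above_of_compact_support hcψ
  -- pointwise formula
  have hpt : ∀ x, (ψ (x - h) - ψ x) • g x =
      - ∫ t in (0:ℝ)..1, (fderiv ℝ ψ (x - t • h) h) • G x := by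
    intro x
    have hd : ∀ t : ℝ, HasDerivAt (fun t : ℝ => ψ (x - t • h)) (- fderiv ℝ ψ (x - t • h) h) t := by
      intro t
      have h1 : HasDerivAt (fun t : ℝ => x - t • h) (-h) t := by
        have := ((hasDerivAt_id t).smul_const h).const_sub x
        simpa using this
      have h2 := ((hψ1.differentiable one_ne_zero) (x - t • h)).hasFDerivAt.comp_hasDerivAt t h1
      rw [map_neg] at h2
      exact h2
    have hcont : Continuous (fun t : ℝ => - fderiv ℝ ψ (x - t • h) h) := by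
      have h1 : Continuous (fun t : ℝ => x - t • h) := by fun_prop
      exact (cψ.comp h1).neg
    have h3 : ∫ t in (0:ℝ)..1, - fderiv ℝ ψ (x - t • h) h = ψ (x - (1:ℝ) • h) - ψ (x - (0:ℝ) • h) :=
      intervalIntegral.integral_eq_sub_of_hasDerivAt (fun t _ => hd t)
        (hcont.intervalIntegrable _ _)
    rw [one_smul, zero_smul, sub_zero] at h3
    rw [← h3, intervalIntegral.integral_smul_const, intervalIntegral.integral_neg, neg_smul]
    congr 1
    by_cases hx : x ∈ K'
    · rw [hG, indicator_of_mem hx]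
    · have e : ∫ t in (0:ℝ)..1, fderiv ℝ ψ (x - t • h) h = 0 := by
        have : ∫ t in (0:ℝ)..1, fderiv ℝ ψ (x - t • h) h = ∫ t in (0:ℝ)..1, (0:ℝ) := by
          refine intervalIntegral.integral_congr (fun t ht => ?_)
          rw [uIcc_of_le zero_le_one] at ht
          rw [hz2 _ (fun h => hx (hmem x t ht h))]; simp
        rw [this]; simp
      rw [e, zero_smul, zero_smul]
  simp_rw [hpt]
  rw [integral_neg, neg_eq_zero]
  have e1 : ∀ x, ∫ t in (0:ℝ)..1, (fderiv ℝ ψ (x - t • h) h) • G x =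
      ∫ t in Ioc (0:ℝ) 1, (fderiv ℝ ψ (x - t • h) h) • G x := fun x =>
    intervalIntegral.integral_of_le zero_le_one
  simp_rw [e1]
  have hint : Integrable (Function.uncurry fun (x : EuclideanSpace ℝ (Fin k)) (t : ℝ) =>
      (fderiv ℝ ψ (x - t • h) h) • G x) (volume.prod (volume.restrict (Ioc (0:ℝ) 1))) := by
    have h1 : Integrable (fun p : EuclideanSpace ℝ (Fin k) × ℝ => G p.1)
        (volume.prod (volume.restrict (Ioc (0:ℝ) 1))) := hGi.comp_fst _
    have h2 : Continuous (fun p : EuclideanSpace ℝ (Fin k) × ℝ => fderiv ℝ ψ (p.1 - p.2 • h) h) := by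
      have h3 : Continuous (fun p : EuclideanSpace ℝ (Fin k) × ℝ => p.1 - p.2 • h) := by fun_prop
      exact cψ.comp h3
    exact h1.bdd_smul C h2.aestronglyMeasurable (Eventually.of_forall fun p => hC _)
  rw [integral_integral_swap hint]
  refine integral_eq_zero_of_ae ?_
  filter_upwards [ae_restrict_mem measurableSet_Ioc] with t ht
  have ht' : t ∈ Icc (0:ℝ) 1 := Ioc_subset_Icc_self ht
  -- shifted test function
  set ψt : EuclideanSpace ℝ (Fin k) → ℝ := fun x => ψ (x - t • h) with hψt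
  have hψtd : ContDiff ℝ ∞ ψt := hψ.comp (contDiff_id.sub contDiff_const)
  have hψtc : HasCompactSupport ψt := by
    refine HasCompactSupport.intro hK'c (fun x hx => ?_)
    exact hz1 _ (fun h => hx (hmem x t ht' h))
  have hψts : tsupport ψt ⊆ U := by
    refine (closure_minimal ?_ hK'c.isClosed).trans hK'U
    intro x hx
    by_contra hx'
    exact hx (hz1 _ (fun h => hx' (hmem x t ht' h)))
  have hfd : ∀ x u, fderiv ℝ ψt x u = fderiv ℝ ψ (x - t • h) u := by
    intro x u
    have h1 : HasFDerivAt (fun x : EuclideanSpace ℝ (Fin k) => x - t • h)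
        (ContinuousLinearMap.id ℝ _) x := (hasFDerivAt_id x).sub_const _
    have h2 := ((hψ1.differentiable one_ne_zero) (x - t • h)).hasFDerivAt.comp x h1
    have h3 : fderiv ℝ ψt x = _ := h2.fderiv
    rw [h3]; rfl
  have e2 : ∀ x, (fderiv ℝ ψ (x - t • h) h) • G x =
      ∑ j, h j • (fderiv ℝ ψt x (EuclideanSpace.single j (1:ℝ)) • g x) := by
    intro x
    have e3 : (fderiv ℝ ψ (x - t • h) h) • G x = (fderiv ℝ ψt x h) • g x := by
      rw [hfd]
      by_cases hx : x ∈ K'
      · rw [hG, indicator_of_mem hx]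
      · rw [hz2 _ (fun h => hx (hmem x t ht' h))]; simp
    rw [e3, fderiv_sum, Finset.sum_smul]
    refine Finset.sum_congr rfl fun j _ => ?_
    rw [mul_smul]
  have e4 : ∫ x, (fderiv ℝ ψ (x - t • h) h) • G x =
      ∑ j, h j • ∫ x, (fderiv ℝ ψt x (EuclideanSpace.single j (1:ℝ)) • g x) := by
    simp_rw [e2]
    rw [integral_finset_sum]
    · refine Finset.sum_congr rfl fun j _ => ?_
      rw [integral_smul]
    · intro j _
      refine Integrable.smul _ ?_
      have e5 : (fun x => fderiv ℝ ψt x (EuclideanSpace.single j (1:ℝ)) • g x) =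
          fun x => fderiv ℝ ψt x (EuclideanSpace.single j (1:ℝ)) • G x := by
        funext x
        by_cases hx : x ∈ K'
        · rw [hG, indicator_of_mem hx]
        · rw [hfd, hz2 _ (fun h => hx (hmem x t ht' h))]; simp
      rw [e5]
      have hψt1 : ContDiff ℝ 1 ψt := hψtd.of_le (by exact_mod_cast le_top)
      have c1 : Continuous (fun x => fderiv ℝ ψt x (EuclideanSpace.single j (1:ℝ))) :=
        (hψt1.continuous_fderiv one_ne_zero).clm_apply continuous_const
      have c2 : HasCompactSupport (fun x => fderiv ℝ ψt x (EuclideanSpace.single j (1:ℝ))) := by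
        refine HasCompactSupport.intro hK'c (fun x hx => ?_)
        rw [hfd, hz2 _ (fun h => hx (hmem x t ht' h))]; simp
      obtain ⟨C', hC'⟩ := c1.bounded_above_of_compact_support c2
      exact hGi.bdd_smul C' c1.aestronglyMeasurable (Eventually.of_forall hC')
  simp only [Pi.zero_apply]
  rw [e4]
  refine Finset.sum_eq_zero fun j _ => ?_
  rw [hweak ψt hψtd hψtc hψts j, smul_zero]

end Pool.Agent.Helper42.Bubble
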