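import Pool.Agent.Helper42.Bub.Cap2
import Pool.Agent.Helper42.Bub.Weak2

/-!
Sobolev maps with bounded support are in `XX`.
-/

set_option maxHeartbeats 400000

open Filter Topology MeasureTheory Set
open scoped ENNReal InnerProductSpace NNReal

namespace Pool.Agent.Helper42.Bub

open Pool.Agent.Helper42.Bubble (Half bdry IsSobolev)

theorem mu_le (m : ℕ) : mu m ≤ volume.restrict (Om m) := by
  rw [Measure.le_iff]
  intro s hs
  unfold mu
  rw [withDensity_apply _ hs]
  calc ∫⁻ x in s, ENNReal.ofReal (wt x ^ (m+1)) ∂(volume.restrict (Om m))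
      ≤ ∫⁻ x in s, 1 ∂(volume.restrict (Om m)) := by
        refine lintegral_mono fun x => ?_
        rw [← ENNReal.ofReal_one]
        exact ENNReal.ofReal_le_ofReal (pow_le_one₀ (wt_pos x).le (wt_le_one x))
    _ = _ := by simp

theorem mub_le (m : ℕ) : mub m ≤ volume := by
  rw [Measure.le_iff]
  intro s hs
  unfold mub
  rw [withDensity_apply _ hs]
  calc ∫⁻ x in s, ENNReal.ofReal (wt x ^ m)
      ≤ ∫⁻ x in s, 1 := by
        refine lintegral_mono fun x => ?_
        rw [← ENNReal.ofReal_one]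
        exact ENNReal.ofReal_le_ofReal (pow_le_one₀ (wt_pos x).le (wt_le_one x))
    _ = _ := by simp

theorem eLp_mu_le {m : ℕ} {W : Type*} [NormedAddCommGroup W] {f : Eu (m+1) → W} {B : Set (Eu (m+1))}
    (hB : MeasurableSet B) (h : ∀ x, x ∉ B → f x = 0) (p : ℝ≥0∞) :
    eLpNorm f p (mu m) ≤ eLpNorm f p (volume.restrict (Om m ∩ B)) := by
  refine (eLpNorm_mono_measure _ (mu_le m)).trans (le_of_eq ?_)
  have e : f = B.indicator f := by
    funext x
    by_cases hx : x ∈ B
    · rw [indicator_of_mem hx]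
    · rw [indicator_of_notMem hx, h x hx]
  conv_lhs => rw [e]
  rw [eLpNorm_indicator_eq_eLpNorm_restrict hB, Measure.restrict_restrict hB, inter_comm]

theorem eLp_mub_le {m : ℕ} {W : Type*} [NormedAddCommGroup W] {f : Eu m → W} {B : Set (Eu m)}
    (hB : MeasurableSet B) (h : ∀ x, x ∉ B → f x = 0) (p : ℝ≥0∞) :
    eLpNorm f p (mub m) ≤ eLpNorm f p (volume.restrict B) := by
  refine (eLpNorm_mono_measure _ (mub_le m)).trans (le_of_eq ?_)
  have e : f = B.indicator f := by
    funext x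
    by_cases hx : x ∈ B
    · rw [indicator_of_mem hx]
    · rw [indicator_of_notMem hx, h x hx]
  conv_lhs => rw [e]
  rw [eLpNorm_indicator_eq_eLpNorm_restrict hB]

variable {m : ℕ} {V : Type*} [NormedAddCommGroup V] [InnerProductSpace ℝ V]

theorem norm_toLp_sum_le (f : Fin (m+1) → V) : ‖(WithLp.toLp 2 f : HS m V)‖ ≤ ∑ i, ‖f i‖ := by
  rw [PiLp.norm_eq_of_L2]
  have h0 : 0 ≤ ∑ i, ‖f i‖ := Finset.sum_nonneg fun i _ => norm_nonneg _
  rw [Real.sqrt_le_left h0]
  rw [sq, Finset.sum_mul]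
  refine Finset.sum_le_sum fun i _ => ?_
  rw [sq]
  exact mul_le_mul_of_nonneg_left (Finset.single_le_sum (f := fun i => ‖f i‖)
    (fun j _ => norm_nonneg _) (Finset.mem_univ i)) (norm_nonneg _)

theorem grt_smul_fun {w : Eu (m+1) → V} {ψ : Eu (m+1) → ℝ} (hψ : ContDiff ℝ 1 ψ)
    (hw : ContDiff ℝ 1 w) (x : Eu (m+1)) (i : Fin (m+1)) :
    grt (fun x => ψ x • w x) x i =
      (1 + ‖x‖ ^ 2) • (ψ x • fderiv ℝ w x (eb i) + fderiv ℝ ψ x (eb i) • w x) := by
  have d1 := (hψ.differentiable one_ne_zero) x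
  have d2 := (hw.differentiable one_ne_zero) x
  simp only [grt_apply]
  rw [fderiv_fun_smul d1 d2]
  simp only [add_apply, smul_apply, ContinuousLinearMap.smulRight_apply]

/-- compactly supported `C^1` maps are in the space -/
theorem exists_rep_compact [FiniteDimensional ℝ V] [NeZero m] {w : Eu (m+1) → V}
    (hw : ContDiff ℝ 1 w) (hc : HasCompactSupport w) : ∃ z ∈ XX m V, Rep z w := by
  have hcg : HasCompactSupport (grt w) := by
    refine HasCompactSupport.intro hc (fun x hx => ?_)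
    have : fderiv ℝ w x = 0 := by
      have : x ∉ Function.support (fderiv ℝ w) := fun hx' => hx (support_fderiv_subset ℝ hx')
      simpa using this
    ext i
    rw [grt_apply, this]; simp
  obtain ⟨C1, h1⟩ := hw.continuous.bounded_above_of_compact_support hc
  obtain ⟨C2, h2⟩ := (continuous_grt hw).bounded_above_of_compact_support hcg
  exact exists_rep_of_bdd hw (C := max C1 C2) (fun x => (h1 x).trans (le_max_left _ _))
    (fun x => (h2 x).trans (le_max_right _ _))

theorem lp_tendsto_of_eLp {α W : Type*} [MeasurableSpace α] {μ : Measure α}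
    [NormedAddCommGroup W] {p : ℝ≥0∞} [Fact (1 ≤ p)] {q : ℕ → Lp W p μ} {u : ℕ → α → W}
    {f : α → W} (hq : ∀ j, q j =ᵐ[μ] u j) (hf : MemLp f p μ)
    (h : Tendsto (fun j => eLpNorm (fun x => u j x - f x) p μ) atTop (𝓝 0)) :
    Tendsto q atTop (𝓝 (hf.toLp f)) := by
  rw [Lp.tendsto_Lp_iff_tendsto_eLpNorm]
  refine h.congr (fun j => eLpNorm_congr_ae ?_)
  filter_upwards [hq j] with x hx
  rw [Pi.sub_apply, hx]

theorem mem_of_test [FiniteDimensional ℝ V] [NeZero m] {Φ : Eu (m+1) → V}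
    {DΦ : Eu (m+1) → Fin (m+1) → V} {τΦ : Eu m → V} (h : IsSobolev Φ DΦ τΦ)
    (hsupp : ∃ R : ℝ, ∀ᵐ x ∂(volume.restrict (Half m)), R < ‖x‖ → Φ x = 0) :
    ∃ Z ∈ XX m V, ∃ χ : Eu m → ℝ, Z.1 =ᵐ[mu m] Φ ∧
      (∀ᵐ x ∂(mu m), ∀ i, Z.2.1 x i = (1 + ‖x‖ ^ 2) • DΦ x i) ∧
      Z.2.2 =ᵐ[mub m] fun y => χ y • τΦ y := by
  have : CompleteSpace V := FiniteDimensional.complete ℝ V
  obtain ⟨R₀, hR₀⟩ := hsupp
  set R₁ : ℝ := |R₀| + 1 with hR₁
  have hR₁pos : 0 < R₁ := by rw [hR₁]; positivity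
  have hR₀R₁ : R₀ < R₁ := by rw [hR₁]; linarith [le_abs_self R₀]
  set b : ContDiffBump (0 : Eu (m+1)) := ⟨R₁, R₁ + 1, hR₁pos, by linarith⟩ with hb
  set χ : Eu (m+1) → ℝ := fun x => b x with hχ
  have hχd : ContDiff ℝ 1 χ := b.contDiff
  have hχ0 : ∀ x, 0 ≤ χ x := fun x => b.nonneg
  have hχ1 : ∀ x, χ x ≤ 1 := fun x => b.le_one
  set ρ : ℝ := R₁ + 1 with hρ
  have hρpos : 0 < ρ := by linarith
  have hts : tsupport χ = Metric.closedBall 0 ρ := b.tsupport_eq
  have hsp : Function.support χ = Metric.ball 0 ρ := b.support_eq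
  have hχz : ∀ x, x ∉ Metric.ball (0 : Eu (m+1)) ρ → χ x = 0 := fun x hx => by
    have : x ∉ Function.support χ := by rw [hsp]; exact hx
    simpa using this
  have hdz : ∀ x, x ∉ Metric.ball (0 : Eu (m+1)) ρ → fderiv ℝ χ x = 0 := by
    intro x hx
    -- minimum of `χ` at `x`
    have h1 : IsLocalMin χ x := Eventually.of_forall fun y => by rw [hχz x hx]; exact hχ0 y
    exact h1.fderiv_eq_zero
  have hcs : HasCompactSupport χ := b.hasCompactSupport
  have hfdc : Continuous (fderiv ℝ χ) := hχd.continuous_fderiv one_ne_zero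
  have hfds : HasCompactSupport (fderiv ℝ χ) := hcs.fderiv (𝕜 := ℝ)
  obtain ⟨C, hC⟩ := hfdc.bounded_above_of_compact_support hfds
  have hC0 : 0 ≤ C := (norm_nonneg _).trans (hC 0)
  obtain ⟨w, hw, l1, l2, l3⟩ := h.approx ρ
  have hsm : ∀ j, ContDiff ℝ 1 (fun x => χ x • w j x) := fun j => hχd.smul (hw j)
  choose q hqX hq using fun j => exists_rep_compact (hsm j) (hcs.smul_right (f' := w j))
  have hBm : MeasurableSet (Metric.ball (0 : Eu (m+1)) ρ) := Metric.isOpen_ball.measurableSet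
  have hBm' : MeasurableSet (Metric.ball (0 : Eu m) ρ) := Metric.isOpen_ball.measurableSet
  -- measurability
  have mΦ : AEStronglyMeasurable Φ (mu m) := h.meas.mono_ac (mu_ac m)
  have mD : ∀ i, AEStronglyMeasurable (fun x => DΦ x i) (mu m) := fun i =>
    (h.measD i).mono_ac (mu_ac m)
  have mT : AEStronglyMeasurable τΦ (mub m) := h.measT.mono_ac (mub_ac m)
  -- first component
  set f₁ : Eu (m+1) → V := fun x => χ x • Φ x with hf₁
  have mf₁ : AEStronglyMeasurable f₁ (mu m) := hχd.continuous.aestronglyMeasurable.smul mΦ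
  have t1 : Tendsto (fun j => eLpNorm (fun x => χ x • w j x - f₁ x) (pp m) (mu m)) atTop (𝓝 0) := by
    refine tendsto_of_tendsto_of_tendsto_of_le_of_le tendsto_const_nhds l1 (fun j => zero_le)
      (fun j => ?_)
    refine (eLp_mu_le hBm (fun x hx => by simp only [hf₁]; rw [hχz x hx]; simp) _).trans ?_
    refine eLpNorm_mono (fun x => ?_)
    simp only [hf₁]
    rw [← smul_sub, norm_smul, Real.norm_of_nonneg (hχ0 x)]
    have := mul_le_mul_of_nonneg_right (hχ1 x) (norm_nonneg (w j x - Φ x))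
    rwa [one_mul] at this
  have M1 : MemLp f₁ (pp m) (mu m) := Bubble.memLp_of_tendsto
    (fun j => (memLp_congr_ae (hq j).fst).mp (Lp.memLp (q j).1)) mf₁ t1
  -- trace
  set f₃ : Eu m → V := fun y => χ (iota y) • τΦ y with hf₃
  have mf₃ : AEStronglyMeasurable f₃ (mub m) :=
    (hχd.continuous.comp continuous_iota).aestronglyMeasurable.smul mT
  have t3 : Tendsto (fun j => eLpNorm (fun y => χ (iota y) • w j (iota y) - f₃ y) (pp m) (mub m))
      atTop (𝓝 0) := by
    refine tendsto_of_tendsto_of_tendsto_of_le_of_le tendsto_const_nhds l3 (fun j => zero_le)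
      (fun j => ?_)
    refine (eLp_mub_le hBm' (fun y hy => ?_) _).trans ?_
    · simp only [hf₃]
      rw [hχz (iota y) (fun h => hy ?_)]
      · simp
      · rw [mem_ball_zero_iff] at h ⊢
        rwa [norm_iota] at h
    refine eLpNorm_mono (fun y => ?_)
    simp only [hf₃]
    rw [← smul_sub, norm_smul, Real.norm_of_nonneg (hχ0 _)]
    have := mul_le_mul_of_nonneg_right (hχ1 (iota y)) (norm_nonneg (w j (iota y) - τΦ y))
    rwa [one_mul] at this
  have M3 : MemLp f₃ (pp m) (mub m) := Bubble.memLp_of_tendsto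
    (fun j => (memLp_congr_ae (hq j).trd).mp (Lp.memLp (q j).2.2)) mf₃ t3
  -- derivative
  set f₂ : Eu (m+1) → HS m V := fun x => WithLp.toLp 2 (fun i =>
    (1 + ‖x‖ ^ 2) • (χ x • DΦ x i + fderiv ℝ χ x (eb i) • Φ x)) with hf₂
  have cn : Continuous (fun x : Eu (m+1) => (1 + ‖x‖ ^ 2 : ℝ)) := by fun_prop
  have mf₂ : AEStronglyMeasurable f₂ (mu m) := by
    refine aesm_toLp (fun i => ?_)
    refine cn.aestronglyMeasurable.smul ?_
    exact (hχd.continuous.aestronglyMeasurable.smul (mD i)).add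
      (((hfdc.clm_apply continuous_const).aestronglyMeasurable).smul mΦ)
  have t2 : Tendsto (fun j => eLpNorm (fun x => grt (fun x => χ x • w j x) x - f₂ x) (pp m) (mu m))
      atTop (𝓝 0) := by
    set ν := volume.restrict (Half m ∩ Metric.ball (0 : Eu (m+1)) ρ) with hν
    set K : ℝ := (1 + ρ ^ 2) * (1 + C) with hK
    have hK0 : 0 ≤ K := by positivity
    have lsum : Tendsto (fun j => ENNReal.ofReal K * (∑ i : Fin (m+1), (eLpNorm
        (fun x => fderiv ℝ (w j) x (eb i) - DΦ x i) (pp m) ν +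
        eLpNorm (fun x => w j x - Φ x) (pp m) ν))) atTop (𝓝 0) := by
      have h1 : Tendsto (fun j => ∑ i : Fin (m+1), (eLpNorm
        (fun x => fderiv ℝ (w j) x (eb i) - DΦ x i) (pp m) ν +
        eLpNorm (fun x => w j x - Φ x) (pp m) ν)) atTop (𝓝 (∑ i : Fin (m+1), (0 + 0))) :=
        tendsto_finset_sum _ (fun i _ => (l2 i).add l1)
      simp only [add_zero, Finset.sum_const_zero] at h1
      have := ENNReal.Tendsto.const_mul h1 (Or.inr (ENNReal.ofReal_ne_top (r := K)))
      rwa [mul_zero] at this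
    refine tendsto_of_tendsto_of_tendsto_of_le_of_le tendsto_const_nhds lsum (fun j => zero_le)
      (fun j => ?_)
    refine (eLp_mu_le hBm (fun x hx => ?_) _).trans ?_
    · ext i
      rw [PiLp.sub_apply, grt_smul_fun hχd (hw j)]
      simp only [hf₂]
      rw [hχz x hx, hdz x hx]
      simp
    have hle : ∀ᵐ x ∂ν, ‖grt (fun x => χ x • w j x) x - f₂ x‖ ≤
        K * ‖∑ i : Fin (m+1), (‖fderiv ℝ (w j) x (eb i) - DΦ x i‖ + ‖w j x - Φ x‖)‖ := by
      filter_upwards [ae_restrict_mem ((measurableSet_Om m).inter hBm)] with x hx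
      have hxρ : ‖x‖ < ρ := mem_ball_zero_iff.mp hx.2
      have e : grt (fun x => χ x • w j x) x - f₂ x = WithLp.toLp 2 (fun i =>
          (1 + ‖x‖ ^ 2) • (χ x • (fderiv ℝ (w j) x (eb i) - DΦ x i) +
            fderiv ℝ χ x (eb i) • (w j x - Φ x))) := by
        ext i
        rw [PiLp.sub_apply, grt_smul_fun hχd (hw j)]
        simp only [hf₂]
        rw [← smul_sub]
        congr 1
        rw [smul_sub, smul_sub]
        abel
      rw [e, Real.norm_of_nonneg (Finset.sum_nonneg fun i _ => by positivity), Finset.mul_sum]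
      refine (norm_toLp_sum_le _).trans (Finset.sum_le_sum fun i _ => ?_)
      rw [norm_smul, Real.norm_of_nonneg (by positivity), hK, mul_assoc]
      refine mul_le_mul ?_ ?_ (norm_nonneg _) (by positivity)
      · have := pow_le_pow_left₀ (norm_nonneg x) hxρ.le 2
        linarith
      · refine (norm_add_le _ _).trans ?_
        rw [norm_smul, norm_smul, Real.norm_of_nonneg (hχ0 x)]
        have h5 : ‖fderiv ℝ χ x (eb i)‖ ≤ C := by
          refine ((fderiv ℝ χ x).le_opNorm _).trans ?_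
          have : ‖(eb i : Eu (m+1))‖ = 1 := by simp
          rw [this, mul_one]; exact hC x
        have h6 := hχ1 x
        have h7 := norm_nonneg (fderiv ℝ (w j) x (eb i) - DΦ x i)
        have h8 := norm_nonneg (w j x - Φ x)
        have h9 := mul_le_mul_of_nonneg_right h6 h7
        have h10 := mul_le_mul_of_nonneg_right h5 h8
        nlinarith [mul_nonneg hC0 h7]
    refine (eLpNorm_le_mul_eLpNorm_of_ae_le_mul hle _).trans ?_
    refine mul_le_mul' le_rfl ?_
    have mν1 : ∀ i : Fin (m+1), AEStronglyMeasurable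
        (fun x => fderiv ℝ (w j) x (eb i) - DΦ x i) ν := fun i =>
      ((((hw j).continuous_fderiv one_ne_zero).clm_apply continuous_const).aestronglyMeasurable).sub
        ((h.measD i).mono_measure (Bubble.restrict_le_Half ρ))
    have mν2 : AEStronglyMeasurable (fun x => w j x - Φ x) ν :=
      (hw j).continuous.aestronglyMeasurable.sub (h.meas.mono_measure (Bubble.restrict_le_Half ρ))
    have e2 : (fun x => ∑ i : Fin (m+1), (‖fderiv ℝ (w j) x (eb i) - DΦ x i‖ + ‖w j x - Φ x‖)) =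
        ∑ i : Fin (m+1), fun x => (‖fderiv ℝ (w j) x (eb i) - DΦ x i‖ + ‖w j x - Φ x‖) := by
      funext x; rw [Finset.sum_apply]
    rw [e2]
    refine (eLpNorm_sum_le (fun i _ => (mν1 i).norm.add mν2.norm) Fact.out).trans ?_
    refine Finset.sum_le_sum fun i _ => ?_
    have h3 := eLpNorm_add_le (mν1 i).norm mν2.norm (p := pp m) Fact.out
    rw [eLpNorm_norm, eLpNorm_norm] at h3
    exact h3
  have M2 : MemLp f₂ (pp m) (mu m) := Bubble.memLp_of_tendsto
    (fun j => (memLp_congr_ae (hq j).snd).mp (Lp.memLp (q j).2.1)) mf₂ t2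
  have L1 := lp_tendsto_of_eLp (fun j => (hq j).fst) M1 t1
  have L2 := lp_tendsto_of_eLp (fun j => (hq j).snd) M2 t2
  have L3 := lp_tendsto_of_eLp (fun j => (hq j).trd) M3 t3
  refine ⟨(M1.toLp _, M2.toLp _, M3.toLp _), isClosed_XX.mem_of_tendsto
    (L1.prodMk_nhds (L2.prodMk_nhds L3)) (Eventually.of_forall hqX), fun y => χ (iota y), ?_, ?_,
    M3.coeFn_toLp⟩
  · have h1 : ∀ᵐ x ∂(mu m), R₀ < ‖x‖ → Φ x = 0 := (mu_ac m).ae_le hR₀
    filter_upwards [M1.coeFn_toLp, h1] with x e1 e2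
    rw [e1]
    simp only [hf₁]
    by_cases hx : ‖x‖ ≤ R₁
    · have : χ x = 1 := b.one_of_mem_closedBall (by rw [mem_closedBall_zero_iff]; exact hx)
      rw [this, one_smul]
    · rw [e2 (by linarith [not_le.mp hx])]; simp
  · have h1 : ∀ᵐ x ∂(mu m), R₀ < ‖x‖ → Φ x = 0 := (mu_ac m).ae_le hR₀
    have hU : IsOpen (Half m ∩ {x : Eu (m+1) | R₀ < ‖x‖}) :=
      (Bubble.isOpen_Half m).inter (isOpen_lt continuous_const continuous_norm)
    have h2 : ∀ i, ∀ᵐ x, x ∈ (Half m ∩ {x : Eu (m+1) | R₀ < ‖x‖}) → DΦ x i = 0 := by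
      intro i
      refine h.zero_D hU inter_subset_left ?_ i
      have h3 := hR₀
      have hHm : MeasurableSet (Half m) := measurableSet_Om m
      rw [ae_restrict_iff' hHm] at h3
      filter_upwards [h3] with x hx hx2
      exact hx hx2.1 hx2.2
    have h4 : ∀ᵐ x ∂(mu m), ∀ i, R₀ < ‖x‖ → DΦ x i = 0 := by
      rw [ae_all_iff]
      intro i
      rw [ae_mu, ae_restrict_iff' (measurableSet_Om m)]
      filter_upwards [h2 i] with x hx hx1 hx2
      exact hx ⟨hx1, hx2⟩
    filter_upwards [M2.coeFn_toLp, h1, h4] with x e1 e2 e3 i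
    rw [e1]
    simp only [hf₂]
    by_cases hx : ‖x‖ < R₁
    · have e4 : χ x = 1 := b.one_of_mem_closedBall (by rw [mem_closedBall_zero_iff]; exact hx.le)
      have e5 : fderiv ℝ χ x = 0 := by
        have : χ =ᶠ[𝓝 x] fun _ => 1 := by
          filter_upwards [Metric.isOpen_ball.mem_nhds (mem_ball_zero_iff.mpr hx)] with y hy
          exact b.one_of_mem_closedBall (Metric.ball_subset_closedBall hy)
        rw [this.fderiv_eq]; simp
      rw [e4, e5]; simp
    · have : R₀ < ‖x‖ := by linarith [not_lt.mp hx]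
      rw [e2 this, e3 i this]; simp

end Pool.Agent.Helper42.Bub
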