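import Pool.Agent.Helper42.Bub.Sp

/-!
Logarithmic cutoffs: bounded `C^1` maps with bounded weighted gradient are in `XX`.
-/

set_option maxHeartbeats 400000

open Filter Topology MeasureTheory Set
open scoped ENNReal InnerProductSpace NNReal

namespace Pool.Agent.Helper42.Bub

/-- one dimensional bump -/
noncomputable def bmp : ContDiffBump (0:ℝ) := ⟨1, 2, one_pos, one_lt_two⟩

theorem bmp_deriv_bound : ∃ K : ℝ, 0 ≤ K ∧ ∀ t, |deriv (bmp : ℝ → ℝ) t| ≤ K := by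
  have h1 : ContDiff ℝ 1 (bmp : ℝ → ℝ) := bmp.contDiff
  have h2 : Continuous (deriv (bmp : ℝ → ℝ)) := h1.continuous_deriv le_rfl
  obtain ⟨C, hC⟩ := h2.bounded_above_of_compact_support bmp.hasCompactSupport.deriv
  exact ⟨C, (norm_nonneg _).trans (hC 0), fun t => hC t⟩

variable {k : ℕ}

/-- logarithmic cutoff -/
noncomputable def eta (j : ℕ) (x : Eu k) : ℝ :=
  if x = 0 then 0 else bmp (Real.log ‖x‖ / ((j:ℝ) + 1))

theorem eta_nonneg (j : ℕ) (x : Eu k) : 0 ≤ eta j x := by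
  unfold eta
  split_ifs
  · exact le_rfl
  · exact bmp.nonneg

theorem eta_le_one (j : ℕ) (x : Eu k) : eta j x ≤ 1 := by
  unfold eta
  split_ifs
  · exact zero_le_one
  · exact bmp.le_one

theorem eta_supp (j : ℕ) {x : Eu k} (h : eta j x ≠ 0) :
    Real.exp (-(2 * ((j:ℝ) + 1))) ≤ ‖x‖ ∧ ‖x‖ ≤ Real.exp (2 * ((j:ℝ) + 1)) := by
  unfold eta at h
  split_ifs at h with hx
  · exact absurd rfl h
  have h1 : Real.log ‖x‖ / ((j:ℝ) + 1) ∈ Function.support (bmp : ℝ → ℝ) := h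
  rw [bmp.support_eq] at h1
  have h2 : |Real.log ‖x‖ / ((j:ℝ) + 1)| < 2 := by
    have := mem_ball_zero_iff.mp h1
    exact this
  have hj : (0:ℝ) < (j:ℝ) + 1 := by positivity
  have hxp : 0 < ‖x‖ := norm_pos_iff.mpr hx
  rw [abs_div, abs_of_pos hj, div_lt_iff₀ hj, abs_lt] at h2
  refine ⟨?_, ?_⟩
  · rw [← Real.le_log_iff_exp_le hxp]; linarith
  · rw [← Real.log_le_iff_le_exp hxp]; linarith

theorem eta_tendsto {x : Eu k} (hx : x ≠ 0) : Tendsto (fun j => eta j x) atTop (𝓝 1) := by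
  have h1 : Tendsto (fun j : ℕ => Real.log ‖x‖ / ((j:ℝ) + 1)) atTop (𝓝 0) := by
    have := (tendsto_one_div_add_atTop_nhds_zero_nat (𝕜 := ℝ)).const_mul (Real.log ‖x‖)
    simpa [div_eq_mul_inv] using this
  refine tendsto_const_nhds.congr' ?_
  filter_upwards [h1.eventually (Metric.closedBall_mem_nhds (0:ℝ) one_pos)] with j hj
  unfold eta
  rw [if_neg hx]
  exact (bmp.one_of_mem_closedBall hj).symm

theorem hasFDerivAt_log_norm {x : Eu k} (hx : x ≠ 0) :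
    HasFDerivAt (fun x : Eu k => Real.log ‖x‖) ((‖x‖ ^ 2)⁻¹ • innerSL ℝ x) x := by
  have hn : ‖x‖ ≠ 0 := norm_ne_zero_iff.mpr hx
  have h1 : HasFDerivAt (fun x : Eu k => ‖x‖ ^ 2) ((2:ℝ) • innerSL ℝ x) x := by
    have := (hasStrictFDerivAt_norm_sq x).hasFDerivAt
    refine this.congr_fderiv ?_
    ext y; simp
  have h2 := (h1.log (by positivity)).const_mul (1/2 : ℝ)
  have e : (fun x : Eu k => Real.log ‖x‖) = fun x => (1/2 : ℝ) * Real.log (‖x‖ ^ 2) := by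
    funext y
    rw [Real.log_pow]; push_cast; ring
  rw [e]
  refine h2.congr_fderiv ?_
  rw [smul_smul, smul_smul]
  congr 1
  ring

theorem eta_hasFDerivAt (j : ℕ) {x : Eu k} (hx : x ≠ 0) :
    HasFDerivAt (eta j : Eu k → ℝ) ((deriv (bmp : ℝ → ℝ) (Real.log ‖x‖ / ((j:ℝ) + 1)) /
      ((j:ℝ) + 1)) • ((‖x‖ ^ 2)⁻¹ • innerSL ℝ x)) x := by
  have h1 := (hasFDerivAt_log_norm hx).const_mul (((j:ℝ) + 1)⁻¹)
  have hb : HasDerivAt (bmp : ℝ → ℝ) (deriv (bmp : ℝ → ℝ) (((j:ℝ) + 1)⁻¹ * Real.log ‖x‖))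
      (((j:ℝ) + 1)⁻¹ * Real.log ‖x‖) := by
    have h : ContDiff ℝ 1 (bmp : ℝ → ℝ) := bmp.contDiff
    exact (h.differentiable one_ne_zero _).hasDerivAt
  have h2 := hb.comp_hasFDerivAt x h1
  have e : (eta j : Eu k → ℝ) =ᶠ[𝓝 x] (bmp : ℝ → ℝ) ∘ fun x => ((j:ℝ) + 1)⁻¹ * Real.log ‖x‖ := by
    filter_upwards [isOpen_ne.mem_nhds hx] with y hy
    have hy' : y ≠ 0 := hy
    unfold eta
    rw [if_neg hy', Function.comp_apply]
    congr 1
    rw [div_eq_inv_mul]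
  refine (h2.congr_of_eventuallyEq e).congr_fderiv ?_
  rw [smul_smul]
  congr 1
  rw [div_eq_inv_mul, div_eq_inv_mul, mul_comm]

theorem eta_near_zero (j : ℕ) : (eta j : Eu k → ℝ) =ᶠ[𝓝 0] fun _ => 0 := by
  filter_upwards [Metric.ball_mem_nhds (0 : Eu k) (Real.exp_pos (-(2 * ((j:ℝ) + 1))))] with y hy
  by_contra hne
  have := (eta_supp j hne).1
  rw [mem_ball_zero_iff] at hy
  linarith

theorem contDiff_eta (j : ℕ) : ContDiff ℝ 1 (eta j : Eu k → ℝ) := by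
  rw [contDiff_iff_contDiffAt]
  intro x
  by_cases hx : x = 0
  · subst hx
    exact contDiffAt_const.congr_of_eventuallyEq (eta_near_zero j)
  · have h1 : ContDiffAt ℝ 1 (fun x : Eu k => ((j:ℝ) + 1)⁻¹ * Real.log ‖x‖) x := by
      refine contDiffAt_const.mul ?_
      exact (contDiffAt_norm ℝ hx).log (norm_ne_zero_iff.mpr hx)
    have hb : ContDiff ℝ 1 (bmp : ℝ → ℝ) := bmp.contDiff
    have h2 := (hb.contDiffAt (x := ((j:ℝ) + 1)⁻¹ * Real.log ‖x‖)).comp x h1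
    refine h2.congr_of_eventuallyEq ?_
    filter_upwards [isOpen_ne.mem_nhds hx] with y hy
    have hy' : y ≠ 0 := hy
    unfold eta
    rw [if_neg hy', Function.comp_apply]
    congr 1
    rw [div_eq_inv_mul]

theorem eta_fderiv_bound {K : ℝ} (hK0 : 0 ≤ K) (hK : ∀ t, |deriv (bmp : ℝ → ℝ) t| ≤ K) (j : ℕ)
    (x : Eu k) : ‖fderiv ℝ (eta j : Eu k → ℝ) x‖ ≤ (K / ((j:ℝ) + 1)) * ‖x‖⁻¹ := by
  by_cases hx : x = 0
  · subst hx
    rw [(eta_near_zero j).fderiv_eq]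
    simp
  · rw [(eta_hasFDerivAt j hx).fderiv, norm_smul, norm_smul, innerSL_apply_norm, norm_inv, norm_pow,
      norm_norm]
    have hn : ‖x‖ ≠ 0 := norm_ne_zero_iff.mpr hx
    have e : (‖x‖ ^ 2)⁻¹ * ‖x‖ = ‖x‖⁻¹ := by field_simp
    rw [e]
    refine mul_le_mul_of_nonneg_right ?_ (by positivity)
    rw [norm_div, Real.norm_eq_abs, Real.norm_of_nonneg (show (0:ℝ) ≤ (j:ℝ) + 1 by positivity)]
    exact div_le_div_of_nonneg_right (hK _) (by positivity)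

theorem eta_fderiv_supp (j : ℕ) {x : Eu k} (h : fderiv ℝ (eta j : Eu k → ℝ) x ≠ 0) :
    Real.exp (-(2 * ((j:ℝ) + 1))) ≤ ‖x‖ ∧ ‖x‖ ≤ Real.exp (2 * ((j:ℝ) + 1)) := by
  by_contra hneg
  apply h
  have h1 : ‖x‖ < Real.exp (-(2 * ((j:ℝ) + 1))) ∨ Real.exp (2 * ((j:ℝ) + 1)) < ‖x‖ := by
    by_contra h2
    push Not at h2
    exact hneg h2
  have hopen : IsOpen {y : Eu k | ‖y‖ < Real.exp (-(2 * ((j:ℝ) + 1))) ∨
      Real.exp (2 * ((j:ℝ) + 1)) < ‖y‖} :=
    (isOpen_lt continuous_norm continuous_const).union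
      (isOpen_lt continuous_const continuous_norm)
  have h2 : (eta j : Eu k → ℝ) =ᶠ[𝓝 x] fun _ => 0 := by
    filter_upwards [hopen.mem_nhds h1] with y hy
    by_contra hne
    have := eta_supp j hne
    rcases hy with h | h
    · linarith [this.1]
    · linarith [this.2]
  rw [h2.fderiv_eq]
  simp

/-- the annulus -/
def Ann (k : ℕ) (j : ℕ) : Set (Eu k) :=
  {x | Real.exp (-(2 * ((j:ℝ) + 1))) ≤ ‖x‖ ∧ ‖x‖ ≤ Real.exp (2 * ((j:ℝ) + 1))}

theorem measurableSet_Ann (k j : ℕ) : MeasurableSet (Ann k j) :=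
  (measurableSet_le measurable_const measurable_norm).inter
    (measurableSet_le measurable_norm measurable_const)

theorem lint_Ann (n : ℕ) (j : ℕ) :
    ∫⁻ x in Ann n j, ENNReal.ofReal (‖x‖⁻¹) ^ n ≤
      ((4 * (j+1) + 1 : ℕ) : ℝ≥0∞) * (ENNReal.ofReal (Real.exp 1) ^ n *
        volume (Metric.ball (0 : Eu n) 1)) := by
  set J : Finset ℤ := Finset.Icc (-(2 * ((j:ℤ) + 1))) (2 * ((j:ℤ) + 1)) with hJ
  have hcard : J.card = 4 * (j+1) + 1 := by
    rw [hJ, Int.card_Icc]; omega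
  have hpt : ∀ x ∈ Ann n j, ENNReal.ofReal (‖x‖⁻¹) ^ n ≤
      ∑ i ∈ J, (Metric.ball (0 : Eu n) (Real.exp ((i:ℝ) + 1))).indicator
        (fun _ => ENNReal.ofReal (Real.exp (-(i:ℝ))) ^ n) x := by
    intro x hx
    have hxp : 0 < ‖x‖ := lt_of_lt_of_le (Real.exp_pos _) hx.1
    set i : ℤ := ⌊Real.log ‖x‖⌋ with hi
    have h1 : (i:ℝ) ≤ Real.log ‖x‖ := Int.floor_le _
    have h2 : Real.log ‖x‖ < i + 1 := Int.lt_floor_add_one _
    have h3 : -(2 * ((j:ℝ) + 1)) ≤ Real.log ‖x‖ := by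
      rw [Real.le_log_iff_exp_le hxp]; exact hx.1
    have h4 : Real.log ‖x‖ ≤ 2 * ((j:ℝ) + 1) := by
      rw [Real.log_le_iff_le_exp hxp]; exact hx.2
    have hiJ : i ∈ J := by
      rw [hJ, Finset.mem_Icc]
      constructor
      · rw [hi, Int.le_floor]; push_cast; linarith
      · have h5 : (i:ℝ) ≤ ((2 * ((j:ℤ) + 1) : ℤ) : ℝ) := by push_cast; linarith
        exact_mod_cast h5
    have hterm : ENNReal.ofReal (‖x‖⁻¹) ^ n ≤
        (Metric.ball (0 : Eu n) (Real.exp ((i:ℝ) + 1))).indicator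
        (fun _ => ENNReal.ofReal (Real.exp (-(i:ℝ))) ^ n) x := by
      rw [indicator_of_mem]
      · gcongr
        rw [Real.exp_neg]
        apply inv_anti₀ (Real.exp_pos _)
        rw [← Real.le_log_iff_exp_le hxp]; exact h1
      · rw [mem_ball_zero_iff, ← Real.log_lt_iff_lt_exp hxp]; exact h2
    exact hterm.trans (Finset.single_le_sum (f := fun i : ℤ =>
      (Metric.ball (0 : Eu n) (Real.exp ((i:ℝ) + 1))).indicator
        (fun _ => ENNReal.ofReal (Real.exp (-(i:ℝ))) ^ n) x) (fun _ _ => zero_le) hiJ)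
  calc ∫⁻ x in Ann n j, ENNReal.ofReal (‖x‖⁻¹) ^ n
      ≤ ∫⁻ x in Ann n j, ∑ i ∈ J, (Metric.ball (0 : Eu n) (Real.exp ((i:ℝ) + 1))).indicator
        (fun _ => ENNReal.ofReal (Real.exp (-(i:ℝ))) ^ n) x :=
        setLIntegral_mono' (measurableSet_Ann n j) hpt
    _ ≤ ∫⁻ x, ∑ i ∈ J, (Metric.ball (0 : Eu n) (Real.exp ((i:ℝ) + 1))).indicator
        (fun _ => ENNReal.ofReal (Real.exp (-(i:ℝ))) ^ n) x := setLIntegral_le_lintegral _ _
    _ = ∑ i ∈ J, ∫⁻ x, (Metric.ball (0 : Eu n) (Real.exp ((i:ℝ) + 1))).indicator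
        (fun _ => ENNReal.ofReal (Real.exp (-(i:ℝ))) ^ n) x := by
        rw [lintegral_finsetSum]
        intro i _
        exact measurable_const.indicator Metric.isOpen_ball.measurableSet
    _ = ∑ i ∈ J, (ENNReal.ofReal (Real.exp 1) ^ n * volume (Metric.ball (0 : Eu n) 1)) := by
        refine Finset.sum_congr rfl fun i _ => ?_
        rw [lintegral_indicator_const Metric.isOpen_ball.measurableSet,
          Measure.addHaar_ball_of_pos _ _ (Real.exp_pos _), finrank_euclideanSpace_fin, ← mul_assoc,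
          ← ENNReal.ofReal_pow (Real.exp_pos _).le, ← ENNReal.ofReal_pow (Real.exp_pos _).le,
          ← ENNReal.ofReal_mul (by positivity), ← mul_pow, ← Real.exp_add]
        congr 3
        ring_nf
    _ = _ := by rw [Finset.sum_const, hcard, nsmul_eq_mul]

end Pool.Agent.Helper42.Bub
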