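import Pool.Agent.Helper42.Bub.Sp

/-!
Multiplication by scalar `C^1` functions in `XX`.
-/

set_option maxHeartbeats 400000

open Filter Topology MeasureTheory
open scoped ENNReal InnerProductSpace NNReal

namespace Pool.Agent.Helper42.Bub

variable {m : ℕ} {V : Type*} [NormedAddCommGroup V] [InnerProductSpace ℝ V]

/-- `z'` is the product of the scalar function `ψ` with `z`. -/
structure IsMul (ψ : Eu (m+1) → ℝ) (z z' : ZZ m V) : Prop where
  fst : z'.1 =ᵐ[mu m] fun x => ψ x • z.1 x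
  snd : z'.2.1 =ᵐ[mu m] fun x => WithLp.toLp 2 (fun i =>
    ψ x • z.2.1 x i + ((1 + ‖x‖ ^ 2) * fderiv ℝ ψ x (eb i)) • z.1 x)
  trd : z'.2.2 =ᵐ[mub m] fun y => ψ (iota y) • z.2.2 y

theorem IsMul.unique {ψ : Eu (m+1) → ℝ} {z z' z'' : ZZ m V} (h : IsMul ψ z z')
    (h' : IsMul ψ z z'') : z' = z'' := by
  refine Prod.ext ?_ (Prod.ext ?_ ?_)
  · exact Lp.ext (h.fst.trans h'.fst.symm)
  · exact Lp.ext (h.snd.trans h'.snd.symm)
  · exact Lp.ext (h.trd.trans h'.trd.symm)

theorem norm_toLp_const_le {W : Type*} [NormedAddCommGroup W] [InnerProductSpace ℝ W]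
    (f : Fin (m+1) → W) (B : ℝ) (hB : 0 ≤ B)
    (h : ∀ i, ‖f i‖ ≤ B) : ‖(WithLp.toLp 2 f : HS m W)‖ ≤ ((m:ℝ) + 1) * B := by
  rw [PiLp.norm_eq_of_L2]
  have h1 : ((m:ℝ) + 1) * B = √((((m:ℝ) + 1) * B)^2) := (Real.sqrt_sq (by positivity)).symm
  rw [h1]
  apply Real.sqrt_le_sqrt
  calc ∑ i : Fin (m+1), ‖(WithLp.toLp 2 f : HS m W) i‖ ^ 2 ≤ ∑ i : Fin (m+1), B ^ 2 := by
        apply Finset.sum_le_sum
        intro i _
        exact pow_le_pow_left₀ (norm_nonneg _) (h i) 2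
    _ = ((m:ℝ) + 1) * B ^ 2 := by simp
    _ ≤ (((m:ℝ) + 1) * B) ^ 2 := by
        have : (0:ℝ) ≤ m := by positivity
        have h2 : (m:ℝ) + 1 ≤ ((m:ℝ) + 1)^2 := by nlinarith
        have h3 : 0 ≤ B^2 := by positivity
        nlinarith

/-- the operator `c ↦ (1+|x|^2) ∇ψ ⊗ c`. -/
noncomputable def gMul (ψ : Eu (m+1) → ℝ) (x : Eu (m+1)) (c : V) : HS m V :=
  WithLp.toLp 2 (fun i => ((1 + ‖x‖ ^ 2) * fderiv ℝ ψ x (eb i)) • c)

theorem continuous_gMul {ψ : Eu (m+1) → ℝ} (hψ : ContDiff ℝ 1 ψ) :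
    Continuous (fun q : Eu (m+1) × V => gMul ψ q.1 q.2) := by
  have hfd : Continuous (fderiv ℝ ψ) := hψ.continuous_fderiv one_ne_zero
  unfold gMul
  refine (PiLp.continuous_toLp 2 _).comp (continuous_pi fun i => ?_)
  have c1 : Continuous (fun q : Eu (m+1) × V => (1 + ‖q.1‖ ^ 2 : ℝ)) := by fun_prop
  exact (c1.mul ((hfd.comp continuous_fst).clm_apply continuous_const)).smul continuous_snd

theorem aesm_gMul {ψ : Eu (m+1) → ℝ} (hψ : ContDiff ℝ 1 ψ) {g : Eu (m+1) → V}
    (hg : AEStronglyMeasurable g (mu m)) :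
    AEStronglyMeasurable (fun x => gMul ψ x (g x)) (mu m) := by
  have hid : AEStronglyMeasurable (fun x : Eu (m+1) => x) (mu m) := aestronglyMeasurable_id
  have hpr : AEStronglyMeasurable (fun x : Eu (m+1) => (x, g x)) (mu m) := hid.prodMk hg
  have h3 := Continuous.comp_aestronglyMeasurable (continuous_gMul (V := V) hψ) hpr
  exact h3

theorem exists_mul [FiniteDimensional ℝ V] [NeZero m] {ψ : Eu (m+1) → ℝ} (hψ : ContDiff ℝ 1 ψ)
    {C : ℝ} (hC : 0 ≤ C)
    (h1 : ∀ x, |ψ x| ≤ C) (h2 : ∀ x i, (1 + ‖x‖ ^ 2) * |fderiv ℝ ψ x (eb i)| ≤ C)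
    {z : ZZ m V} (hz : z ∈ XX m V) : ∃ z' ∈ XX m V, IsMul ψ z z' := by
  obtain ⟨w, s, t, r, l⟩ := mem_XX_iff.mp hz
  have hfd : Continuous (fderiv ℝ ψ) := hψ.continuous_fderiv one_ne_zero
  -- operators
  have hBle : ∀ x (c : V), ‖gMul ψ x c‖ ≤ ((m:ℝ)+1) * C * ‖c‖ := by
    intro x c
    rw [mul_assoc]
    refine norm_toLp_const_le _ _ (by positivity) (fun i => ?_)
    rw [norm_smul]
    refine mul_le_mul_of_nonneg_right ?_ (norm_nonneg _)
    rw [norm_mul, Real.norm_of_nonneg (by positivity)]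
    exact h2 x i
  have mem1 : MemLp (fun x => ψ x • z.1 x) (pp m) (mu m) := by
    refine MemLp.of_le_mul (Lp.memLp z.1)
      (hψ.continuous.aestronglyMeasurable.smul (Lp.aestronglyMeasurable z.1)) (c := C)
      (Eventually.of_forall fun x => ?_)
    rw [norm_smul]
    exact mul_le_mul_of_nonneg_right (h1 x) (norm_nonneg _)
  have mem3 : MemLp (fun y => ψ (iota y) • z.2.2 y) (pp m) (mub m) := by
    refine MemLp.of_le_mul (Lp.memLp z.2.2)
      ((hψ.continuous.comp continuous_iota).aestronglyMeasurable.smul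
        (Lp.aestronglyMeasurable z.2.2)) (c := C)
      (Eventually.of_forall fun x => ?_)
    rw [norm_smul]
    exact mul_le_mul_of_nonneg_right (h1 _) (norm_nonneg _)
  have mem2a : MemLp (fun x => ψ x • z.2.1 x) (pp m) (mu m) := by
    refine MemLp.of_le_mul (Lp.memLp z.2.1)
      (hψ.continuous.aestronglyMeasurable.smul (Lp.aestronglyMeasurable z.2.1)) (c := C)
      (Eventually.of_forall fun x => ?_)
    rw [norm_smul]
    exact mul_le_mul_of_nonneg_right (h1 x) (norm_nonneg _)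
  have hBm : AEStronglyMeasurable (fun x => gMul ψ x (z.1 x)) (mu m) :=
    aesm_gMul hψ (Lp.aestronglyMeasurable z.1)
  have mem2b : MemLp (fun x => gMul ψ x (z.1 x)) (pp m) (mu m) :=
    MemLp.of_le_mul (Lp.memLp z.1) hBm (c := ((m:ℝ)+1) * C)
      (Eventually.of_forall fun x => hBle _ _)
  set z' : ZZ m V := (mem1.toLp _, mem2a.toLp _ + mem2b.toLp _, mem3.toLp _) with hz'
  have hmul : IsMul ψ z z' := by
    refine ⟨mem1.coeFn_toLp, ?_, mem3.coeFn_toLp⟩
    filter_upwards [Lp.coeFn_add (mem2a.toLp _) (mem2b.toLp _), mem2a.coeFn_toLp,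
      mem2b.coeFn_toLp] with x e1 e2 e3
    simp only [hz']
    rw [e1, Pi.add_apply, e2, e3]
    ext i
    simp [gMul]
  refine ⟨z', ?_, hmul⟩
  have ht : ∀ j, IsTest (fun x => ψ x • w j x) := by
    intro j
    obtain ⟨δ, hδ, H⟩ := (t j).supp
    refine ⟨hψ.smul (t j).c1, δ, hδ, fun x hx => H x ?_⟩
    intro h; apply hx; simp [h]
  choose q hq using fun j => (ht j).exists_rep
  refine isClosed_XX.mem_of_tendsto (f := q) (b := atTop) ?_
    (Eventually.of_forall fun i => mem_XX_of_test (ht _) (hq _))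
  have g : ∀ j x, grt (fun x => ψ x • w j x) x = ψ x • grt (w j) x + gMul ψ x (w j x) := by
    intro j x
    ext i
    have d1 := (hψ.differentiable one_ne_zero) x
    have d2 := ((t j).c1.differentiable one_ne_zero) x
    simp only [grt_apply, PiLp.add_apply, PiLp.smul_apply, gMul]
    rw [fderiv_fun_smul d1 d2]
    simp only [add_apply, smul_apply,
      ContinuousLinearMap.smulRight_apply]
    rw [smul_add, smul_comm (1 + ‖x‖^2) (ψ x), smul_smul (1 + ‖x‖^2)]
  have c1 : Tendsto (fun i => (q i).1) atTop (𝓝 (z'.1)) := by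
    have a1 := (continuous_fst.tendsto z).comp l
    rw [tendsto_iff_norm_sub_tendsto_zero] at a1 ⊢
    have a3 := a1.const_mul C
    simp only [mul_zero] at a3
    refine squeeze_zero (fun i => norm_nonneg _) (fun i => ?_) a3
    refine Lp.norm_le_mul_norm_of_ae_le_mul ?_
    filter_upwards [Lp.coeFn_sub (q i).1 z'.1, (hq i).fst,
      hmul.fst, Lp.coeFn_sub (s i).1 z.1, (r i).fst] with x e1 e2 e3 e4 e5
    simp only [Function.comp_apply]
    rw [e1, Pi.sub_apply, e2, e3, e4, Pi.sub_apply, e5, ← smul_sub, norm_smul]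
    exact mul_le_mul_of_nonneg_right (h1 x) (norm_nonneg _)
  have c3 : Tendsto (fun i => (q i).2.2) atTop (𝓝 (z'.2.2)) := by
    have a1 := ((continuous_snd.comp continuous_snd).tendsto z).comp l
    rw [tendsto_iff_norm_sub_tendsto_zero] at a1 ⊢
    have a3 := a1.const_mul C
    simp only [mul_zero] at a3
    refine squeeze_zero (fun i => norm_nonneg _) (fun i => ?_) a3
    refine Lp.norm_le_mul_norm_of_ae_le_mul ?_
    filter_upwards [Lp.coeFn_sub (q i).2.2 z'.2.2, (hq i).trd,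
      hmul.trd, Lp.coeFn_sub (s i).2.2 z.2.2, (r i).trd] with x e1 e2 e3 e4 e5
    simp only [Function.comp_apply]
    rw [e1, Pi.sub_apply, e2, e3, e4, Pi.sub_apply, e5]
    simp only [Function.comp_apply]
    rw [← smul_sub, norm_smul]
    exact mul_le_mul_of_nonneg_right (h1 _) (norm_nonneg _)
  have c2 : Tendsto (fun i => (q i).2.1) atTop (𝓝 (z'.2.1)) := by
    have a1 := (continuous_fst.tendsto z).comp l
    have a2 := ((continuous_fst.comp continuous_snd).tendsto z).comp l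
    rw [tendsto_iff_norm_sub_tendsto_zero] at a1 a2 ⊢
    have a3 := (a1.add a2).const_mul (((m:ℝ)+1) * C)
    simp only [mul_zero, add_zero] at a3
    refine squeeze_zero (fun i => norm_nonneg _) (fun i => ?_) a3
    simp only [Function.comp_apply]
    refine lp_norm_le_add _ ((s i).1 - z.1) ((s i).2.1 - z.2.1) _ (by positivity) ?_
    filter_upwards [Lp.coeFn_sub (q i).2.1 z'.2.1, (hq i).snd,
      hmul.snd, Lp.coeFn_sub (s i).1 z.1, (r i).fst, Lp.coeFn_sub (s i).2.1 z.2.1, (r i).snd]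
      with x e1 e2 e3 e4 e5 e6 e7
    rw [e1, Pi.sub_apply, e2, e3, e4, Pi.sub_apply, e5, e6, Pi.sub_apply, e7, g]
    have e8 : ψ x • grt (w i) x + gMul ψ x (w i x) - WithLp.toLp 2 (fun i' =>
        ψ x • z.2.1 x i' + ((1 + ‖x‖ ^ 2) * fderiv ℝ ψ x (eb i')) • z.1 x)
        = gMul ψ x (w i x - z.1 x) + ψ x • (grt (w i) x - z.2.1 x) := by
      ext i'
      simp only [gMul, PiLp.sub_apply, PiLp.add_apply, PiLp.smul_apply]
      rw [smul_sub, smul_sub]
      abel
    rw [e8]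
    refine (norm_add_le _ _).trans ?_
    rw [mul_add, norm_smul]
    refine add_le_add (hBle _ _) (mul_le_mul_of_nonneg_right ?_ (norm_nonneg _))
    have hm : (0:ℝ) ≤ m := by positivity
    refine (h1 x).trans ?_
    nlinarith
  exact c1.prodMk_nhds (c2.prodMk_nhds c3)

end Pool.Agent.Helper42.Bub
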