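import Pool.Agent.Helper42.Bub.Cap
import Pool.Agent.Helper42.Bub.Mult
import Pool.Agent.Helper42.Bub.Vert

/-!
Bounded `C^1` maps with bounded weighted gradient are in `XX`.
-/

set_option maxHeartbeats 400000

open Filter Topology MeasureTheory Set
open scoped ENNReal InnerProductSpace NNReal

namespace Pool.Agent.Helper42.Bub

theorem lint_eta (m : ℕ) (hm : 1 ≤ m) : Tendsto (fun j : ℕ =>
    ∫⁻ x : Eu (m+1), ‖fderiv ℝ (eta j : Eu (m+1) → ℝ) x‖ₑ ^ (m+1)) atTop (𝓝 0) := by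
  obtain ⟨K, hK0, hK⟩ := bmp_deriv_bound
  set C₀ : ℝ≥0∞ := ENNReal.ofReal (Real.exp 1) ^ (m+1) * volume (Metric.ball (0 : Eu (m+1)) 1)
    with hC₀
  have hC₀fin : C₀ ≠ ∞ := by
    rw [hC₀]
    exact ENNReal.mul_ne_top (ENNReal.pow_ne_top ENNReal.ofReal_ne_top) measure_ball_lt_top.ne
  have hle : ∀ j : ℕ, ∫⁻ x : Eu (m+1), ‖fderiv ℝ (eta j : Eu (m+1) → ℝ) x‖ₑ ^ (m+1) ≤
      ENNReal.ofReal (K ^ (m+1) * 5 * (1 / ((j:ℝ) + 1))) * C₀ := by
    intro j
    have h1 : ∀ x : Eu (m+1), ‖fderiv ℝ (eta j : Eu (m+1) → ℝ) x‖ₑ ^ (m+1) ≤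
        (Ann (m+1) j).indicator (fun x => ENNReal.ofReal (K / ((j:ℝ) + 1)) ^ (m+1) *
          ENNReal.ofReal (‖x‖⁻¹) ^ (m+1)) x := by
      intro x
      by_cases hx : fderiv ℝ (eta j : Eu (m+1) → ℝ) x = 0
      · rw [← ofReal_norm, hx, norm_zero, ENNReal.ofReal_zero, zero_pow (Nat.succ_ne_zero m)]
        exact zero_le
      · rw [indicator_of_mem (show x ∈ Ann (m+1) j from eta_fderiv_supp j hx), ← mul_pow,
          ← ENNReal.ofReal_mul (by positivity)]
        gcongr
        rw [← ofReal_norm]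
        exact ENNReal.ofReal_le_ofReal (eta_fderiv_bound hK0 hK j x)
    calc ∫⁻ x : Eu (m+1), ‖fderiv ℝ (eta j : Eu (m+1) → ℝ) x‖ₑ ^ (m+1)
        ≤ ∫⁻ x, (Ann (m+1) j).indicator (fun x => ENNReal.ofReal (K / ((j:ℝ) + 1)) ^ (m+1) *
          ENNReal.ofReal (‖x‖⁻¹) ^ (m+1)) x := lintegral_mono h1
      _ = ENNReal.ofReal (K / ((j:ℝ) + 1)) ^ (m+1) *
          ∫⁻ x in Ann (m+1) j, ENNReal.ofReal (‖x‖⁻¹) ^ (m+1) := by
          rw [lintegral_indicator (measurableSet_Ann _ _), lintegral_const_mul]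
          exact (ENNReal.measurable_ofReal.comp (measurable_norm.inv)).pow_const _
      _ ≤ ENNReal.ofReal (K / ((j:ℝ) + 1)) ^ (m+1) * (((4 * (j+1) + 1 : ℕ) : ℝ≥0∞) * C₀) := by
          gcongr
          exact lint_Ann (m+1) j
      _ = ENNReal.ofReal ((K / ((j:ℝ) + 1)) ^ (m+1) * ((4 * (j+1) + 1 : ℕ) : ℝ)) * C₀ := by
          rw [← mul_assoc, ENNReal.ofReal_mul (by positivity), ENNReal.ofReal_pow (by positivity),
            ENNReal.ofReal_natCast]
      _ ≤ _ := by
          refine mul_le_mul' (ENNReal.ofReal_le_ofReal ?_) le_rfl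
          have hj : (1:ℝ) ≤ (j:ℝ) + 1 := by linarith [(Nat.cast_nonneg j : (0:ℝ) ≤ j)]
          have e1 : ((4 * (j+1) + 1 : ℕ) : ℝ) ≤ 5 * ((j:ℝ) + 1) := by push_cast; linarith
          have e2 : (K / ((j:ℝ) + 1)) ^ (m+1) = K ^ (m+1) * (1 / ((j:ℝ) + 1)) ^ (m+1) := by
            rw [← mul_pow]; congr 1; ring
          have e3 : (1 / ((j:ℝ) + 1)) ^ (m+1) ≤ (1 / ((j:ℝ) + 1)) ^ 2 := by
            apply pow_le_pow_of_le_one (by positivity) _ (by omega)
            rw [div_le_one (by positivity)]; exact hj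
          rw [e2]
          calc K ^ (m+1) * (1 / ((j:ℝ) + 1)) ^ (m+1) * ((4 * (j+1) + 1 : ℕ) : ℝ)
              ≤ K ^ (m+1) * (1 / ((j:ℝ) + 1)) ^ 2 * (5 * ((j:ℝ) + 1)) := by
                refine mul_le_mul (mul_le_mul_of_nonneg_left e3 (by positivity)) e1
                  (by positivity) (by positivity)
            _ = K ^ (m+1) * 5 * (1 / ((j:ℝ) + 1)) := by
                field_simp
  have hlim : Tendsto (fun j : ℕ => ENNReal.ofReal (K ^ (m+1) * 5 * (1 / ((j:ℝ) + 1))) * C₀) atTop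
      (𝓝 0) := by
    have h1 : Tendsto (fun j : ℕ => K ^ (m+1) * 5 * (1 / ((j:ℝ) + 1))) atTop (𝓝 0) := by
      have := (tendsto_one_div_add_atTop_nhds_zero_nat (𝕜 := ℝ)).const_mul (K ^ (m+1) * 5)
      simpa using this
    have h2 := ENNReal.tendsto_ofReal h1
    rw [ENNReal.ofReal_zero] at h2
    have h3 := ENNReal.Tendsto.mul_const h2 (Or.inr hC₀fin)
    rwa [zero_mul] at h3
  exact tendsto_of_tendsto_of_tendsto_of_le_of_le tendsto_const_nhds hlim (fun j => zero_le) hle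

theorem lp_tendsto_zero_of_lint {α G : Type*} [MeasurableSpace α] {μ : Measure α}
    [NormedAddCommGroup G] {m : ℕ} (f : ℕ → Lp G ((m+1 : ℕ) : ℝ≥0∞) μ)
    (h : Tendsto (fun j => ∫⁻ x, ‖f j x‖ₑ ^ (m+1) ∂μ) atTop (𝓝 0)) : Tendsto f atTop (𝓝 0) := by
  have h1 : Tendsto (fun j => eLpNorm (f j) ((m+1 : ℕ) : ℝ≥0∞) μ) atTop (𝓝 0) := by
    have e : ∀ j, eLpNorm (f j) ((m+1 : ℕ) : ℝ≥0∞) μ =
        (∫⁻ x, ‖f j x‖ₑ ^ (m+1) ∂μ) ^ (1 / ((m+1 : ℕ) : ℝ)) := by
      intro j
      rw [← eLp_pow, ← ENNReal.rpow_natCast, ← ENNReal.rpow_mul, one_div,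
        mul_inv_cancel₀ (by positivity), ENNReal.rpow_one]
    simp_rw [e]
    have h2 := ((ENNReal.continuous_rpow_const (y := 1 / ((m+1 : ℕ) : ℝ))).tendsto 0).comp h
    rw [ENNReal.zero_rpow_of_pos (by positivity)] at h2
    exact h2
  rw [tendsto_zero_iff_norm_tendsto_zero]
  have h2 := (ENNReal.tendsto_toReal ENNReal.zero_ne_top).comp h1
  rw [ENNReal.toReal_zero] at h2
  exact h2

variable {m : ℕ} {V : Type*} [NormedAddCommGroup V] [InnerProductSpace ℝ V]

theorem ae_ne_zero_mu (m : ℕ) : ∀ᵐ x ∂(mu m), x ≠ 0 := by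
  rw [ae_mu]
  filter_upwards [ae_restrict_mem (measurableSet_Om m)] with x hx h0
  rw [h0] at hx
  simp [Om] at hx

theorem ae_ne_zero_mub (m : ℕ) [NeZero m] : ∀ᵐ x ∂(mub m), x ≠ 0 := by
  rw [ae_mub]
  have : Nontrivial (Eu m) := by
    refine ⟨0, eb ⟨0, Nat.pos_of_ne_zero (NeZero.ne m)⟩, fun h => ?_⟩
    have h1 := congrArg (fun v : Eu m => v ⟨0, Nat.pos_of_ne_zero (NeZero.ne m)⟩) h
    simp at h1
  rw [ae_iff]
  simp

theorem gMul_norm_le (ψ : Eu (m+1) → ℝ) (x : Eu (m+1)) (c : V) :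
    ‖gMul ψ x c‖ ≤ ((m:ℝ) + 1) * ((1 + ‖x‖ ^ 2) * ‖fderiv ℝ ψ x‖ * ‖c‖) := by
  refine norm_toLp_const_le _ _ (by positivity) (fun i => ?_)
  rw [norm_smul, norm_mul, Real.norm_of_nonneg (show (0:ℝ) ≤ 1 + ‖x‖ ^ 2 by positivity)]
  refine mul_le_mul_of_nonneg_right ?_ (norm_nonneg _)
  refine mul_le_mul_of_nonneg_left ?_ (by positivity)
  refine ((fderiv ℝ ψ x).le_opNorm _).trans (le_of_eq ?_)
  simp

/-- Bounded `C^1` maps with bounded weighted gradient are in the space. -/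
theorem exists_rep_of_bdd [FiniteDimensional ℝ V] [NeZero m] {w : Eu (m+1) → V}
    (hw : ContDiff ℝ 1 w) {C : ℝ} (h1 : ∀ x, ‖w x‖ ≤ C) (h2 : ∀ x, ‖grt w x‖ ≤ C) :
    ∃ z ∈ XX m V, Rep z w := by
  have hm : 1 ≤ m := Nat.one_le_iff_ne_zero.mpr (NeZero.ne m)
  have hC : 0 ≤ C := (norm_nonneg _).trans (h1 0)
  have m1 : MemLp w (pp m) (mu m) :=
    MemLp.of_bound hw.continuous.aestronglyMeasurable C (Eventually.of_forall h1)
  have m2 : MemLp (grt w) (pp m) (mu m) :=
    MemLp.of_bound (continuous_grt hw).aestronglyMeasurable C (Eventually.of_forall h2)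
  have m3 : MemLp (w ∘ iota) (pp m) (mub m) :=
    MemLp.of_bound (hw.continuous.comp continuous_iota).aestronglyMeasurable C
      (Eventually.of_forall fun y => h1 _)
  set z : ZZ m V := (m1.toLp _, m2.toLp _, m3.toLp _) with hz
  have hrep : Rep z w := ⟨m1.coeFn_toLp, m2.coeFn_toLp, m3.coeFn_toLp⟩
  refine ⟨z, ?_, hrep⟩
  -- approximating sequence
  have ht : ∀ j : ℕ, IsTest (fun x => eta j x • w x) := by
    intro j
    refine ⟨(contDiff_eta j).smul hw, Real.exp (-(2 * ((j:ℝ) + 1))), Real.exp_pos _,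
      fun x hx => ?_⟩
    have h0 : eta j x ≠ 0 := by
      intro h; apply hx; rw [h, zero_smul]
    have := eta_supp j h0
    rw [Real.exp_neg, inv_inv]
    rw [Real.exp_neg] at this
    exact this
  choose q hq using fun j => (ht j).exists_rep
  refine isClosed_XX.mem_of_tendsto (f := q) (b := atTop) ?_
    (Eventually.of_forall fun i => mem_XX_of_test (ht _) (hq _))
  have c1 : Tendsto (fun i => (q i).1) atTop (𝓝 (z.1)) := by
    have h3 : Tendsto (fun i => (q i).1 - z.1) atTop (𝓝 0) := by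
      refine lp_tendsto_zero_of_dom (Nat.succ_ne_zero m) _ (fun _ => C) (integrable_const _) ?_ ?_
      · intro j
        filter_upwards [Lp.coeFn_sub (q j).1 z.1, (hq j).fst, hrep.fst] with x e1 e2 e3
        rw [e1, Pi.sub_apply, e2, e3]
        have e4 : eta j x • w x - w x = (eta j x - 1) • w x := by rw [sub_smul, one_smul]
        rw [e4, norm_smul, Real.norm_eq_abs, abs_sub_comm,
          abs_of_nonneg (by linarith [eta_le_one j x])]
        have := mul_le_mul (show 1 - eta j x ≤ 1 by linarith [eta_nonneg j x]) (h1 x)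
          (norm_nonneg _) zero_le_one
        linarith
      · filter_upwards [ae_all_iff.mpr (fun j => Lp.coeFn_sub (q j).1 z.1),
          ae_all_iff.mpr (fun j => (hq j).fst), hrep.fst, ae_ne_zero_mu m] with x e1 e2 e3 e4
        have e5 : Tendsto (fun j => eta j x • w x - w x) atTop (𝓝 0) := by
          have := ((eta_tendsto e4).smul_const (w x)).sub_const (w x)
          simpa using this
        refine e5.congr (fun j => ?_)
        rw [e1 j, Pi.sub_apply, e2 j, e3]
    have h4 := h3.add_const z.1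
    simpa using h4
  have c3 : Tendsto (fun i => (q i).2.2) atTop (𝓝 (z.2.2)) := by
    have h3 : Tendsto (fun i => (q i).2.2 - z.2.2) atTop (𝓝 0) := by
      refine lp_tendsto_zero_of_dom (Nat.succ_ne_zero m) _ (fun _ => C) (integrable_const _) ?_ ?_
      · intro j
        filter_upwards [Lp.coeFn_sub (q j).2.2 z.2.2, (hq j).trd, hrep.trd] with x e1 e2 e3
        rw [e1, Pi.sub_apply, e2, e3]
        simp only [Function.comp_apply]
        have e4 : eta j (iota x) • w (iota x) - w (iota x) = (eta j (iota x) - 1) • w (iota x) := by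
          rw [sub_smul, one_smul]
        rw [e4, norm_smul, Real.norm_eq_abs, abs_sub_comm,
          abs_of_nonneg (by linarith [eta_le_one j (iota x)])]
        have := mul_le_mul (show 1 - eta j (iota x) ≤ 1 by linarith [eta_nonneg j (iota x)])
          (h1 (iota x)) (norm_nonneg _) zero_le_one
        linarith
      · filter_upwards [ae_all_iff.mpr (fun j => Lp.coeFn_sub (q j).2.2 z.2.2),
          ae_all_iff.mpr (fun j => (hq j).trd), hrep.trd, ae_ne_zero_mub m] with x e1 e2 e3 e4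
        have e4' : iota x ≠ 0 := by
          intro h
          apply e4
          rw [← norm_eq_zero, ← norm_iota, h, norm_zero]
        have e5 : Tendsto (fun j => eta j (iota x) • w (iota x) - w (iota x)) atTop (𝓝 0) := by
          have := ((eta_tendsto e4').smul_const (w (iota x))).sub_const (w (iota x))
          simpa using this
        refine e5.congr (fun j => ?_)
        rw [e1 j, Pi.sub_apply, e2 j, e3]
        rfl
    have h4 := h3.add_const z.2.2
    simpa using h4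
  -- derivative component
  have g : ∀ j x, grt (fun x => eta j x • w x) x = eta j x • grt w x + gMul (eta j) x (w x) := by
    intro j x
    ext i
    have d1 := ((contDiff_eta (k := m+1) j).differentiable one_ne_zero) x
    have d2 := (hw.differentiable one_ne_zero) x
    simp only [grt_apply, PiLp.add_apply, PiLp.smul_apply, gMul]
    rw [fderiv_fun_smul d1 d2]
    simp only [add_apply, smul_apply,
      ContinuousLinearMap.smulRight_apply]
    rw [smul_add, smul_comm (1 + ‖x‖^2) (eta j x), smul_smul (1 + ‖x‖^2)]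
  have memA : ∀ j, MemLp (fun x => eta j x • grt w x) (pp m) (mu m) := fun j =>
    MemLp.of_bound ((contDiff_eta j).continuous.smul (continuous_grt hw)).aestronglyMeasurable C
      (Eventually.of_forall fun x => by
        rw [norm_smul, Real.norm_of_nonneg (eta_nonneg j x)]
        have := mul_le_mul (eta_le_one j x) (h2 x) (norm_nonneg _) zero_le_one
        linarith)
  have hBle : ∀ j (x : Eu (m+1)), ‖gMul (eta j) x (w x)‖ₑ ≤ ENNReal.ofReal (((m:ℝ)+1) * C) *
      (ENNReal.ofReal (1 + ‖x‖ ^ 2) * ‖fderiv ℝ (eta j : Eu (m+1) → ℝ) x‖ₑ) := by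
    intro j x
    rw [← ofReal_norm, ← ofReal_norm, ← ENNReal.ofReal_mul (by positivity),
      ← ENNReal.ofReal_mul (by positivity)]
    apply ENNReal.ofReal_le_ofReal
    refine (gMul_norm_le _ _ _).trans ?_
    have e : ((m:ℝ) + 1) * ((1 + ‖x‖ ^ 2) * ‖fderiv ℝ (eta j : Eu (m+1) → ℝ) x‖ * ‖w x‖) =
        ((m:ℝ) + 1) * ‖w x‖ * ((1 + ‖x‖ ^ 2) * ‖fderiv ℝ (eta j : Eu (m+1) → ℝ) x‖) := by ring
    rw [e]
    refine mul_le_mul_of_nonneg_right ?_ (by positivity)
    exact mul_le_mul_of_nonneg_left (h1 x) (by positivity)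
  have hBint : ∀ j, ∫⁻ x, ‖gMul (eta j) x (w x)‖ₑ ^ (m+1) ∂(mu m) ≤
      ENNReal.ofReal (((m:ℝ)+1) * C) ^ (m+1) *
      ∫⁻ x : Eu (m+1), ‖fderiv ℝ (eta j : Eu (m+1) → ℝ) x‖ₑ ^ (m+1) := by
    intro j
    have hmeas : Measurable (fun x : Eu (m+1) => ‖fderiv ℝ (eta j : Eu (m+1) → ℝ) x‖ₑ ^ (m+1)) := by
      have hc : Continuous (fderiv ℝ (eta j : Eu (m+1) → ℝ)) :=
        (contDiff_eta j).continuous_fderiv one_ne_zero
      exact hc.enorm.measurable.pow_const _
    rw [lint_mu]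
    calc ∫⁻ x in Om m, ENNReal.ofReal (wt x ^ (m+1)) * ‖gMul (eta j) x (w x)‖ₑ ^ (m+1)
        ≤ ∫⁻ x in Om m, ENNReal.ofReal (((m:ℝ)+1) * C) ^ (m+1) *
          ‖fderiv ℝ (eta j : Eu (m+1) → ℝ) x‖ₑ ^ (m+1) := by
          refine lintegral_mono fun x => ?_
          rw [ENNReal.ofReal_pow (wt_pos x).le, ← mul_pow, ← mul_pow]
          refine pow_le_pow_left₀ zero_le ?_ _
          refine (mul_le_mul_right (hBle j x) _).trans (le_of_eq ?_)
          have e : ENNReal.ofReal (wt x) * ENNReal.ofReal (1 + ‖x‖ ^ 2) = 1 := by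
            rw [← ENNReal.ofReal_mul (wt_pos x).le, wt_mul, ENNReal.ofReal_one]
          calc ENNReal.ofReal (wt x) * (ENNReal.ofReal (((m:ℝ)+1) * C) *
                (ENNReal.ofReal (1 + ‖x‖ ^ 2) * ‖fderiv ℝ (eta j : Eu (m+1) → ℝ) x‖ₑ))
              = (ENNReal.ofReal (wt x) * ENNReal.ofReal (1 + ‖x‖ ^ 2)) *
                (ENNReal.ofReal (((m:ℝ)+1) * C) *
                ‖fderiv ℝ (eta j : Eu (m+1) → ℝ) x‖ₑ) := by ring
            _ = _ := by rw [e, one_mul]
      _ = ENNReal.ofReal (((m:ℝ)+1) * C) ^ (m+1) *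
          ∫⁻ x in Om m, ‖fderiv ℝ (eta j : Eu (m+1) → ℝ) x‖ₑ ^ (m+1) := by
          rw [lintegral_const_mul _ hmeas]
      _ ≤ _ := by
          gcongr
          exact Measure.restrict_le_self
  have memB : ∀ j, MemLp (fun x => gMul (eta j) x (w x)) (pp m) (mu m) := by
    intro j
    have e : (fun x => gMul (eta j) x (w x)) =
        fun x => grt (fun x => eta j x • w x) x - eta j x • grt w x := by
      funext x; rw [g]; abel
    rw [e]
    obtain ⟨C', _, _, hb⟩ := (ht j).bound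
    refine MemLp.sub (MemLp.of_bound (continuous_grt (ht j).c1).aestronglyMeasurable C'
      (Eventually.of_forall hb)) (memA j)
  have cA : Tendsto (fun j => (memA j).toLp _) atTop (𝓝 z.2.1) := by
    have h3 : Tendsto (fun j => (memA j).toLp _ - z.2.1) atTop (𝓝 0) := by
      refine lp_tendsto_zero_of_dom (Nat.succ_ne_zero m) _ (fun _ => C) (integrable_const _) ?_ ?_
      · intro j
        filter_upwards [Lp.coeFn_sub ((memA j).toLp _) z.2.1, (memA j).coeFn_toLp, hrep.snd]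
          with x e1 e2 e3
        rw [e1, Pi.sub_apply, e2, e3]
        have e4 : eta j x • grt w x - grt w x = (eta j x - 1) • grt w x := by
          rw [sub_smul, one_smul]
        rw [e4, norm_smul, Real.norm_eq_abs, abs_sub_comm,
          abs_of_nonneg (by linarith [eta_le_one j x])]
        have := mul_le_mul (show 1 - eta j x ≤ 1 by linarith [eta_nonneg j x]) (h2 x)
          (norm_nonneg _) zero_le_one
        linarith
      · filter_upwards [ae_all_iff.mpr (fun j => Lp.coeFn_sub ((memA j).toLp _) z.2.1),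
          ae_all_iff.mpr (fun j => (memA j).coeFn_toLp), hrep.snd, ae_ne_zero_mu m]
          with x e1 e2 e3 e4
        have e5 : Tendsto (fun j => eta j x • grt w x - grt w x) atTop (𝓝 0) := by
          have := ((eta_tendsto e4).smul_const (grt w x)).sub_const (grt w x)
          simpa using this
        refine e5.congr (fun j => ?_)
        rw [e1 j, Pi.sub_apply, e2 j, e3]
    have h4 := h3.add_const z.2.1
    simpa using h4
  have cB : Tendsto (fun j => (memB j).toLp _) atTop (𝓝 0) := by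
    refine lp_tendsto_zero_of_lint _ ?_
    have h3 : Tendsto (fun j : ℕ => ENNReal.ofReal (((m:ℝ)+1) * C) ^ (m+1) *
      ∫⁻ x : Eu (m+1), ‖fderiv ℝ (eta j : Eu (m+1) → ℝ) x‖ₑ ^ (m+1)) atTop (𝓝 0) := by
      have := ENNReal.Tendsto.const_mul (lint_eta m hm)
        (Or.inr (ENNReal.pow_ne_top (n := m+1) (ENNReal.ofReal_ne_top (r := ((m:ℝ)+1) * C))))
      rwa [mul_zero] at this
    refine tendsto_of_tendsto_of_tendsto_of_le_of_le tendsto_const_nhds h3 (fun j => zero_le)
      (fun j => ?_)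
    have e : ∫⁻ x, ‖(memB j).toLp _ x‖ₑ ^ (m+1) ∂(mu m) =
        ∫⁻ x, ‖gMul (eta j) x (w x)‖ₑ ^ (m+1) ∂(mu m) := by
      refine lintegral_congr_ae ?_
      filter_upwards [(memB j).coeFn_toLp] with x hx
      rw [hx]
    change ∫⁻ x, ‖(memB j).toLp _ x‖ₑ ^ (m+1) ∂(mu m) ≤ _
    rw [e]
    exact hBint j
  have c2 : Tendsto (fun i => (q i).2.1) atTop (𝓝 (z.2.1)) := by
    have h3 := cA.add cB
    rw [add_zero] at h3
    refine h3.congr (fun j => ?_)
    apply Lp.ext
    filter_upwards [Lp.coeFn_add ((memA j).toLp _) ((memB j).toLp _), (memA j).coeFn_toLp,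
      (memB j).coeFn_toLp, (hq j).snd] with x e1 e2 e3 e4
    rw [e1, Pi.add_apply, e2, e3, e4, g]
  exact c1.prodMk_nhds (c2.prodMk_nhds c3)

end Pool.Agent.Helper42.Bub
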