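import Pool.Agent.Helper42.Bub.Sp

/-!
Chain rule and multiplier lemma in the space `XX`.
-/

open Filter Topology MeasureTheory
open scoped ENNReal InnerProductSpace NNReal

namespace Pool.Agent.Helper42.Bub

variable {m : ℕ} {V₁ V₂ V₃ : Type*} [NormedAddCommGroup V₁] [InnerProductSpace ℝ V₁]
  [NormedAddCommGroup V₂] [InnerProductSpace ℝ V₂] [NormedAddCommGroup V₃]
  [InnerProductSpace ℝ V₃]

theorem norm_toLp_le {V W : Type*} [NormedAddCommGroup V] [InnerProductSpace ℝ V]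
    [NormedAddCommGroup W] [InnerProductSpace ℝ W]
    (f : Fin (m+1) → W) (c : HS m V) (K : ℝ) (hK : 0 ≤ K)
    (h : ∀ i, ‖f i‖ ≤ K * ‖c i‖) : ‖(WithLp.toLp 2 f : HS m W)‖ ≤ K * ‖c‖ := by
  rw [PiLp.norm_eq_of_L2, PiLp.norm_eq_of_L2]
  have h1 : K * √(∑ i, ‖c i‖ ^ 2) = √(K ^ 2 * ∑ i, ‖c i‖ ^ 2) := by
    rw [Real.sqrt_mul (by positivity), Real.sqrt_sq hK]
  rw [h1]
  apply Real.sqrt_le_sqrt
  rw [Finset.mul_sum]
  apply Finset.sum_le_sum
  intro i _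
  have := pow_le_pow_left₀ (norm_nonneg _) (h i) 2
  rw [mul_pow] at this
  exact this

/-- `z₃` is the composition `Ψ (z₁, z₂)`. -/
structure IsComp (Ψ : V₁ × V₂ → V₃) (z₁ : ZZ m V₁) (z₂ : ZZ m V₂) (z₃ : ZZ m V₃) : Prop where
  fst : z₃.1 =ᵐ[mu m] fun x => Ψ (z₁.1 x, z₂.1 x)
  snd : z₃.2.1 =ᵐ[mu m] fun x => WithLp.toLp 2 (fun i =>
    fderiv ℝ Ψ (z₁.1 x, z₂.1 x) (z₁.2.1 x i, z₂.2.1 x i))
  trd : z₃.2.2 =ᵐ[mub m] fun y => Ψ (z₁.2.2 y, z₂.2.2 y)

theorem IsComp.unique {Ψ : V₁ × V₂ → V₃} {z₁ : ZZ m V₁} {z₂ : ZZ m V₂} {z₃ z₃' : ZZ m V₃}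
    (h : IsComp Ψ z₁ z₂ z₃) (h' : IsComp Ψ z₁ z₂ z₃') : z₃ = z₃' := by
  refine Prod.ext ?_ (Prod.ext ?_ ?_)
  · exact Lp.ext (h.fst.trans h'.fst.symm)
  · exact Lp.ext (h.snd.trans h'.snd.symm)
  · exact Lp.ext (h.trd.trans h'.trd.symm)

variable [FiniteDimensional ℝ V₁] [FiniteDimensional ℝ V₂] [FiniteDimensional ℝ V₃]

theorem lp_subseq_ae2 {α G : Type*} [MeasurableSpace α] {μ : Measure α} [NormedAddCommGroup G]
    {n : ℕ} [Fact ((1 : ℝ≥0∞) ≤ (n : ℝ≥0∞))]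
    (f : ℕ → Lp G (n : ℝ≥0∞) μ) (f₀ : Lp G (n : ℝ≥0∞) μ)
    (ns : ℕ → ℕ) (h' : ∀ᵐ x ∂μ, Tendsto (fun i => f (ns i) x) atTop (𝓝 (f₀ x)))
    (ms : ℕ → ℕ) (hms : StrictMono ms) :
    ∀ᵐ x ∂μ, Tendsto (fun i => f (ns (ms i)) x) atTop (𝓝 (f₀ x)) := by
  filter_upwards [h'] with x hx
  exact hx.comp hms.tendsto_atTop

set_option maxHeartbeats 1000000 in
theorem exists_comp [NeZero m] {Ψ : V₁ × V₂ → V₃} (hΨ : ContDiff ℝ 1 Ψ) {K : ℝ≥0}
    (hK : LipschitzWith K Ψ) (h0 : Ψ 0 = 0) {z₁ : ZZ m V₁} {z₂ : ZZ m V₂}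
    (hz₁ : z₁ ∈ XX m V₁) (hz₂ : z₂ ∈ XX m V₂) :
    ∃ z₃ ∈ XX m V₃, IsComp Ψ z₁ z₂ z₃ := by
  obtain ⟨w₁, s₁, t₁, r₁, l₁⟩ := mem_XX_iff.mp hz₁
  obtain ⟨w₂, s₂, t₂, r₂, l₂⟩ := mem_XX_iff.mp hz₂
  have l₁1 := ((continuous_fst.tendsto z₁).comp l₁)
  have l₁2 := (((continuous_fst.comp continuous_snd).tendsto z₁).comp l₁)
  have l₁3 := (((continuous_snd.comp continuous_snd).tendsto z₁).comp l₁)
  have l₂1 := ((continuous_fst.tendsto z₂).comp l₂)
  have l₂2 := (((continuous_fst.comp continuous_snd).tendsto z₂).comp l₂)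
  have l₂3 := (((continuous_snd.comp continuous_snd).tendsto z₂).comp l₂)
  -- a.e. convergence of the function components
  obtain ⟨ns, hns, hae1⟩ := lp_subseq_ae _ _ l₁1
  obtain ⟨ms, hms, hae2⟩ := lp_subseq_ae _ _ (l₂1.comp hns.tendsto_atTop)
  have hnm : StrictMono (ns ∘ ms) := hns.comp hms
  -- candidate components
  have hfd : Continuous (fderiv ℝ Ψ) := hΨ.continuous_fderiv one_ne_zero
  have hbd : ∀ p, ‖fderiv ℝ Ψ p‖ ≤ K := fun p => norm_fderiv_le_of_lipschitz ℝ hK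
  have aem1 : AEStronglyMeasurable (fun x => Ψ (z₁.1 x, z₂.1 x)) (mu m) :=
    hΨ.continuous.comp_aestronglyMeasurable
      ((Lp.aestronglyMeasurable z₁.1).prodMk (Lp.aestronglyMeasurable z₂.1))
  have aem3 : AEStronglyMeasurable (fun x => Ψ (z₁.2.2 x, z₂.2.2 x)) (mub m) :=
    hΨ.continuous.comp_aestronglyMeasurable
      ((Lp.aestronglyMeasurable z₁.2.2).prodMk (Lp.aestronglyMeasurable z₂.2.2))
  have hΨle : ∀ p : V₁ × V₂, ‖Ψ p‖ ≤ K * (‖p.1‖ + ‖p.2‖) := by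
    intro p
    have h1 := hK.dist_le_mul p 0
    rw [h0, dist_zero_right, dist_zero_right] at h1
    refine h1.trans (mul_le_mul_of_nonneg_left ?_ K.2)
    exact max_le (by linarith [norm_nonneg p.2]) (by linarith [norm_nonneg p.1])
  have mem1 : MemLp (fun x => Ψ (z₁.1 x, z₂.1 x)) (pp m) (mu m) := by
    refine MemLp.of_le_mul (g := fun x => ‖z₁.1 x‖ + ‖z₂.1 x‖) (c := K)
      ((Lp.memLp z₁.1).norm.add (Lp.memLp z₂.1).norm) aem1 (Eventually.of_forall fun x => ?_)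
    rw [Real.norm_of_nonneg (by positivity)]
    exact hΨle _
  have mem3 : MemLp (fun x => Ψ (z₁.2.2 x, z₂.2.2 x)) (pp m) (mub m) := by
    refine MemLp.of_le_mul (g := fun x => ‖z₁.2.2 x‖ + ‖z₂.2.2 x‖) (c := K)
      ((Lp.memLp z₁.2.2).norm.add (Lp.memLp z₂.2.2).norm) aem3 (Eventually.of_forall fun x => ?_)
    rw [Real.norm_of_nonneg (by positivity)]
    exact hΨle _
  -- the two halves of the derivative component
  set A : V₁ × V₂ → HS m V₁ → HS m V₃ := fun p c => WithLp.toLp 2 (fun i => fderiv ℝ Ψ p (c i, 0))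
    with hA
  set B : V₁ × V₂ → HS m V₂ → HS m V₃ := fun p c => WithLp.toLp 2 (fun i => fderiv ℝ Ψ p (0, c i))
    with hB
  have hAsub : ∀ p c c', A p (c - c') = A p c - A p c' := by
    intro p c c'
    ext i
    simp only [hA, PiLp.sub_apply]
    rw [← map_sub]
    simp
  have hBsub : ∀ p c c', B p (c - c') = B p c - B p c' := by
    intro p c c'
    ext i
    simp only [hB, PiLp.sub_apply]
    rw [← map_sub]
    simp
  have hAle : ∀ p c, ‖A p c‖ ≤ K * ‖c‖ := by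
    intro p c
    refine norm_toLp_le _ _ _ K.2 (fun i => ?_)
    refine ((fderiv ℝ Ψ p).le_opNorm _).trans ?_
    refine mul_le_mul (hbd p) ?_ (norm_nonneg _) K.2
    simp
  have hBle : ∀ p c, ‖B p c‖ ≤ K * ‖c‖ := by
    intro p c
    refine norm_toLp_le _ _ _ K.2 (fun i => ?_)
    refine ((fderiv ℝ Ψ p).le_opNorm _).trans ?_
    refine mul_le_mul (hbd p) ?_ (norm_nonneg _) K.2
    simp
  have hAcont : Continuous (fun q : (V₁ × V₂) × HS m V₁ => A q.1 q.2) := by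
    simp only [hA]
    refine (PiLp.continuous_toLp 2 _).comp (continuous_pi fun i => ?_)
    refine (hfd.comp continuous_fst).clm_apply ?_
    exact ((PiLp.continuous_apply 2 _ i).comp continuous_snd).prodMk continuous_const
  have hBcont : Continuous (fun q : (V₁ × V₂) × HS m V₂ => B q.1 q.2) := by
    simp only [hB]
    refine (PiLp.continuous_toLp 2 _).comp (continuous_pi fun i => ?_)
    refine (hfd.comp continuous_fst).clm_apply ?_
    exact continuous_const.prodMk ((PiLp.continuous_apply 2 _ i).comp continuous_snd)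
  have aemA : ∀ (u₁ : Eu (m+1) → V₁) (u₂ : Eu (m+1) → V₂) (g : Eu (m+1) → HS m V₁),
      AEStronglyMeasurable u₁ (mu m) → AEStronglyMeasurable u₂ (mu m) →
      AEStronglyMeasurable g (mu m) →
      AEStronglyMeasurable (fun x => A (u₁ x, u₂ x) (g x)) (mu m) := by
    intro u₁ u₂ g h1 h2 h3
    exact hAcont.comp_aestronglyMeasurable ((h1.prodMk h2).prodMk h3)
  have aemB : ∀ (u₁ : Eu (m+1) → V₁) (u₂ : Eu (m+1) → V₂) (g : Eu (m+1) → HS m V₂),
      AEStronglyMeasurable u₁ (mu m) → AEStronglyMeasurable u₂ (mu m) →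
      AEStronglyMeasurable g (mu m) →
      AEStronglyMeasurable (fun x => B (u₁ x, u₂ x) (g x)) (mu m) := by
    intro u₁ u₂ g h1 h2 h3
    exact hBcont.comp_aestronglyMeasurable ((h1.prodMk h2).prodMk h3)
  have memA : ∀ (u₁ : Eu (m+1) → V₁) (u₂ : Eu (m+1) → V₂) (g : Lp (HS m V₁) (pp m) (mu m)),
      AEStronglyMeasurable u₁ (mu m) → AEStronglyMeasurable u₂ (mu m) →
      MemLp (fun x => A (u₁ x, u₂ x) (g x)) (pp m) (mu m) := by
    intro u₁ u₂ g h1 h2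
    exact MemLp.of_le_mul (Lp.memLp g) (aemA _ _ _ h1 h2 (Lp.aestronglyMeasurable g)) (c := K)
      (Eventually.of_forall fun x => hAle _ _)
  have memB : ∀ (u₁ : Eu (m+1) → V₁) (u₂ : Eu (m+1) → V₂) (g : Lp (HS m V₂) (pp m) (mu m)),
      AEStronglyMeasurable u₁ (mu m) → AEStronglyMeasurable u₂ (mu m) →
      MemLp (fun x => B (u₁ x, u₂ x) (g x)) (pp m) (mu m) := by
    intro u₁ u₂ g h1 h2
    exact MemLp.of_le_mul (Lp.memLp g) (aemB _ _ _ h1 h2 (Lp.aestronglyMeasurable g)) (c := K)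
      (Eventually.of_forall fun x => hBle _ _)
  have ms1 := Lp.aestronglyMeasurable z₁.1
  have ms2 := Lp.aestronglyMeasurable z₂.1
  have mw1 : ∀ j, AEStronglyMeasurable (w₁ j) (mu m) :=
    fun j => (t₁ j).c1.continuous.aestronglyMeasurable
  have mw2 : ∀ j, AEStronglyMeasurable (w₂ j) (mu m) :=
    fun j => (t₂ j).c1.continuous.aestronglyMeasurable
  set HA : Lp (HS m V₃) (pp m) (mu m) := (memA _ _ z₁.2.1 ms1 ms2).toLp _ with hHA
  set HB : Lp (HS m V₃) (pp m) (mu m) := (memB _ _ z₂.2.1 ms1 ms2).toLp _ with hHB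
  set z₃ : ZZ m V₃ := (mem1.toLp _, HA + HB, mem3.toLp _) with hz₃
  have hcomp : IsComp Ψ z₁ z₂ z₃ := by
    refine ⟨mem1.coeFn_toLp, ?_, mem3.coeFn_toLp⟩
    filter_upwards [Lp.coeFn_add HA HB, (memA _ _ z₁.2.1 ms1 ms2).coeFn_toLp,
      (memB _ _ z₂.2.1 ms1 ms2).coeFn_toLp] with x h1 h2 h3
    simp only [hz₃]
    rw [h1, Pi.add_apply, hHA, hHB, h2, h3]
    ext i
    simp only [hA, hB, PiLp.add_apply]
    rw [← map_add]
    simp
  refine ⟨z₃, ?_, hcomp⟩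
  -- approximating sequence
  have tcomp : ∀ j, IsTest (fun x => Ψ (w₁ j x, w₂ j x)) := fun j => (t₁ j).comp (t₂ j) hΨ h0
  choose q hq using fun j => (tcomp j).exists_rep
  refine isClosed_XX.mem_of_tendsto (f := fun i => q (ns (ms i))) (b := atTop) ?_
    (Eventually.of_forall fun i => mem_XX_of_test (tcomp _) (hq _))
  have hsub1 : Tendsto (fun i => s₁ (ns (ms i))) atTop (𝓝 z₁) := l₁.comp hnm.tendsto_atTop
  have hsub2 : Tendsto (fun i => s₂ (ns (ms i))) atTop (𝓝 z₂) := l₂.comp hnm.tendsto_atTop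
  have hK0 : (0:ℝ) ≤ K := K.coe_nonneg
  -- first component
  have c1 : Tendsto (fun i => (q (ns (ms i))).1) atTop (𝓝 (z₃.1)) := by
    have a1 := (continuous_fst.tendsto z₁).comp hsub1
    have a2 := (continuous_fst.tendsto z₂).comp hsub2
    rw [tendsto_iff_norm_sub_tendsto_zero] at a1 a2 ⊢
    have a3 := (a1.add a2).const_mul (K : ℝ)
    simp only [add_zero, mul_zero] at a3
    refine squeeze_zero (fun i => norm_nonneg _) (fun i => ?_) a3
    refine lp_norm_le_add _ ((s₁ (ns (ms i))).1 - z₁.1) ((s₂ (ns (ms i))).1 - z₂.1) K hK0 ?_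
    filter_upwards [Lp.coeFn_sub (q (ns (ms i))).1 z₃.1, (hq (ns (ms i))).fst,
      hcomp.fst, Lp.coeFn_sub (s₁ (ns (ms i))).1 z₁.1,
      Lp.coeFn_sub (s₂ (ns (ms i))).1 z₂.1, (r₁ (ns (ms i))).fst, (r₂ (ns (ms i))).fst]
      with x h1 h2 h3 h5 h6 h7 h8
    rw [h1, Pi.sub_apply, h2, h3, h5, h6, Pi.sub_apply, Pi.sub_apply, h7, h8, ← dist_eq_norm]
    refine (hK.dist_le_mul _ _).trans (mul_le_mul_of_nonneg_left ?_ hK0)
    rw [dist_eq_norm]
    exact max_le (by simp) (by simp)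
  have c3 : Tendsto (fun i => (q (ns (ms i))).2.2) atTop (𝓝 (z₃.2.2)) := by
    have a1 := ((continuous_snd.comp continuous_snd).tendsto z₁).comp hsub1
    have a2 := ((continuous_snd.comp continuous_snd).tendsto z₂).comp hsub2
    rw [tendsto_iff_norm_sub_tendsto_zero] at a1 a2 ⊢
    have a3 := (a1.add a2).const_mul (K : ℝ)
    simp only [add_zero, mul_zero] at a3
    refine squeeze_zero (fun i => norm_nonneg _) (fun i => ?_) a3
    refine lp_norm_le_add _ ((s₁ (ns (ms i))).2.2 - z₁.2.2) ((s₂ (ns (ms i))).2.2 - z₂.2.2)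
      K hK0 ?_
    filter_upwards [Lp.coeFn_sub (q (ns (ms i))).2.2 z₃.2.2, (hq (ns (ms i))).trd,
      hcomp.trd, Lp.coeFn_sub (s₁ (ns (ms i))).2.2 z₁.2.2,
      Lp.coeFn_sub (s₂ (ns (ms i))).2.2 z₂.2.2, (r₁ (ns (ms i))).trd, (r₂ (ns (ms i))).trd]
      with x h1 h2 h3 h5 h6 h7 h8
    rw [h1, Pi.sub_apply, h2, h3, h5, h6, Pi.sub_apply, Pi.sub_apply, h7, h8, ← dist_eq_norm]
    refine (hK.dist_le_mul _ _).trans (mul_le_mul_of_nonneg_left ?_ hK0)
    rw [dist_eq_norm]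
    exact max_le (by simp) (by simp)
  -- derivative component
  have rA : ∀ j, MemLp (fun x => A (w₁ j x, w₂ j x) ((s₁ j).2.1 x)) (pp m) (mu m) :=
    fun j => memA _ _ (s₁ j).2.1 (mw1 j) (mw2 j)
  have rB : ∀ j, MemLp (fun x => B (w₁ j x, w₂ j x) ((s₂ j).2.1 x)) (pp m) (mu m) :=
    fun j => memB _ _ (s₂ j).2.1 (mw1 j) (mw2 j)
  have haeall : ∀ᵐ x ∂(mu m), Tendsto (fun i => (w₁ (ns (ms i)) x, w₂ (ns (ms i)) x)) atTop
      (𝓝 (z₁.1 x, z₂.1 x)) := by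
    filter_upwards [lp_subseq_ae2 _ _ ns hae1 ms hms, hae2,
      ae_all_iff.mpr (fun j => (r₁ j).fst), ae_all_iff.mpr (fun j => (r₂ j).fst)] with x h1 h2 h3 h4
    have h1' : Tendsto (fun i => w₁ (ns (ms i)) x) atTop (𝓝 (z₁.1 x)) :=
      h1.congr (fun i => h3 _)
    have h2' : Tendsto (fun i => w₂ (ns (ms i)) x) atTop (𝓝 (z₂.1 x)) :=
      h2.congr (fun i => h4 _)
    exact h1'.prodMk_nhds h2'
  have c2A : Tendsto (fun i => (rA (ns (ms i))).toLp _) atTop (𝓝 HA) := by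
    refine lp_tendsto_mult (n := m+1) (by omega) (fun i => (s₁ (ns (ms i))).2.1) z₁.2.1
      (((continuous_fst.comp continuous_snd).tendsto z₁).comp hsub1)
      (fun i x c => A (w₁ (ns (ms i)) x, w₂ (ns (ms i)) x) c)
      (fun x c => A (z₁.1 x, z₂.1 x) c) K (fun i x c c' => hAsub _ _ _)
      (fun i => Eventually.of_forall fun x c => hAle _ _) ?_ _ _
      (fun i => aemA _ _ _ (mw1 _) (mw2 _) (Lp.aestronglyMeasurable _))
      (fun i => (rA _).coeFn_toLp) (memA _ _ z₁.2.1 ms1 ms2).coeFn_toLp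
    filter_upwards [haeall] with x hx c
    have hc : Continuous (fun p => A p c) := hAcont.comp (continuous_id.prodMk continuous_const)
    exact (hc.tendsto _).comp hx
  have c2B : Tendsto (fun i => (rB (ns (ms i))).toLp _) atTop (𝓝 HB) := by
    refine lp_tendsto_mult (n := m+1) (by omega) (fun i => (s₂ (ns (ms i))).2.1) z₂.2.1
      (((continuous_fst.comp continuous_snd).tendsto z₂).comp hsub2)
      (fun i x c => B (w₁ (ns (ms i)) x, w₂ (ns (ms i)) x) c)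
      (fun x c => B (z₁.1 x, z₂.1 x) c) K (fun i x c c' => hBsub _ _ _)
      (fun i => Eventually.of_forall fun x c => hBle _ _) ?_ _ _
      (fun i => aemB _ _ _ (mw1 _) (mw2 _) (Lp.aestronglyMeasurable _))
      (fun i => (rB _).coeFn_toLp) (memB _ _ z₂.2.1 ms1 ms2).coeFn_toLp
    filter_upwards [haeall] with x hx c
    have hc : Continuous (fun p => B p c) := hBcont.comp (continuous_id.prodMk continuous_const)
    exact (hc.tendsto _).comp hx
  have c2 : Tendsto (fun i => (q (ns (ms i))).2.1) atTop (𝓝 (z₃.2.1)) := by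
    refine (c2A.add c2B).congr (fun i => ?_)
    apply Lp.ext
    filter_upwards [Lp.coeFn_add ((rA (ns (ms i))).toLp _) ((rB (ns (ms i))).toLp _),
      (rA (ns (ms i))).coeFn_toLp, (rB (ns (ms i))).coeFn_toLp, (hq (ns (ms i))).snd,
      (r₁ (ns (ms i))).snd, (r₂ (ns (ms i))).snd] with x h1 h2 h3 h4 h5 h6
    rw [h1, Pi.add_apply, h2, h3, h4, h5, h6]
    ext i'
    simp only [hA, hB, PiLp.add_apply, grt_apply]
    rw [← map_add]
    have d1 := ((t₁ (ns (ms i))).c1.differentiable one_ne_zero) x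
    have d2 := ((t₂ (ns (ms i))).c1.differentiable one_ne_zero) x
    have dΨ := (hΨ.differentiable one_ne_zero) (w₁ (ns (ms i)) x, w₂ (ns (ms i)) x)
    have e : fderiv ℝ (fun x => Ψ (w₁ (ns (ms i)) x, w₂ (ns (ms i)) x)) x =
        (fderiv ℝ Ψ (w₁ (ns (ms i)) x, w₂ (ns (ms i)) x)).comp
          ((fderiv ℝ (w₁ (ns (ms i))) x).prod (fderiv ℝ (w₂ (ns (ms i))) x)) :=
      (dΨ.hasFDerivAt.comp x (d1.hasFDerivAt.prodMk d2.hasFDerivAt)).fderiv
    rw [e, ContinuousLinearMap.comp_apply]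
    simp only [Prod.mk_add_mk, add_zero, zero_add]
    exact (fderiv ℝ Ψ (w₁ (ns (ms i)) x, w₂ (ns (ms i)) x)).map_smul (1 + ‖x‖ ^ 2)
      (((fderiv ℝ (w₁ (ns (ms i))) x).prod (fderiv ℝ (w₂ (ns (ms i))) x)) (eb i'))
  exact c1.prodMk_nhds (c2.prodMk_nhds c3)

end Pool.Agent.Helper42.Bub
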