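import Pool.Agent.Helper42.Bub.Moll2

/-!
Compactness of traces.
-/

set_option maxHeartbeats 400000

open Filter Topology MeasureTheory Set
open scoped ENNReal InnerProductSpace NNReal

namespace Pool.Agent.Helper42.Bub

variable {m : ℕ} {V : Type*} [NormedAddCommGroup V] [InnerProductSpace ℝ V]

/-- strip exponent -/
noncomputable def rr (m : ℕ) : ℝ := (m : ℝ) / ((m+1 : ℕ) : ℝ)

theorem holder_strip (g : Eu (m+1) → ℝ≥0∞) (hg : AEMeasurable g (mu m)) (ε : ℝ) (e : ℝ≥0∞)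
    (he : e ^ (m+1) = ∫⁻ x, g x ^ (m+1) ∂(mu m)) :
    ∫⁻ x in strip m ε, g x ∂(mu m) ≤ (mu m (strip m ε)) ^ (rr m) * e := by
  have h1 := lint_pow_le (μ := (mu m).restrict (strip m ε)) m hg.restrict
  rw [Measure.restrict_apply MeasurableSet.univ, univ_inter] at h1
  have h2 : ∫⁻ x in strip m ε, g x ^ (m+1) ∂(mu m) ≤ ∫⁻ x, g x ^ (m+1) ∂(mu m) :=
    setLIntegral_le_lintegral _ _
  have h3 : (∫⁻ x in strip m ε, g x ∂(mu m)) ^ (m+1) ≤
      ((mu m (strip m ε)) ^ (rr m) * e) ^ (m+1) := by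
    rw [mul_pow, he]
    refine h1.trans ?_
    have e1 : ((mu m (strip m ε)) ^ (rr m)) ^ (m+1) = (mu m (strip m ε)) ^ m := by
      rw [← ENNReal.rpow_natCast _ (m+1), ← ENNReal.rpow_mul, ← ENNReal.rpow_natCast _ m]
      congr 1
      unfold rr
      have : ((m+1 : ℕ) : ℝ) ≠ 0 := by positivity
      field_simp
    rw [e1]
    gcongr
  exact (ENNReal.pow_le_pow_left_iff (by omega)).mp h3

theorem PP_congr {f g : Eu (m+1) → V} (h : f =ᵐ[mu m] g) (ε : ℝ) (y : Eu m) :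
    PP ε f y = PP ε g y := by
  unfold PP
  congr 1
  refine integral_congr_ae ?_
  filter_upwards [h] with x hx
  rw [hx]

theorem trace_moll_test [CompleteSpace V] [NeZero m] {w : Eu (m+1) → V} {z : ZZ m V}
    (t : IsTest w) (r : Rep z w) {ε : ℝ} (hε : 0 < ε) (hε1 : ε ≤ 1) :
    ∫⁻ y, ‖z.2.2 y - PP ε z.1 y‖ₑ ∂(mub m) ≤
      KK m * ((mu m (strip m ε)) ^ (rr m) * ‖z.2.1‖ₑ) := by
  have h1 := trace_moll_C1 t.c1 hε hε1
  have h2 : ∫⁻ y, ‖z.2.2 y - PP ε z.1 y‖ₑ ∂(mub m) = ∫⁻ y, ‖w (iota y) - PP ε w y‖ₑ ∂(mub m) := by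
    refine lintegral_congr_ae ?_
    filter_upwards [r.trd] with y hy
    rw [hy, PP_congr r.fst]; rfl
  rw [h2]
  refine h1.trans ?_
  gcongr
  refine holder_strip (fun x => ‖grt w x‖ₑ) (continuous_grt t.c1).enorm.measurable.aemeasurable
    ε _ ?_
  rw [Lp.enorm_def, eLpNorm_congr_ae r.snd, eLp_pow]

theorem PP_tendsto {s : ℕ → Lp V (pp m) (mu m)} {f : Lp V (pp m) (mu m)}
    (h : Tendsto s atTop (𝓝 f)) {ε : ℝ} (hε : 0 < ε) (hε1 : ε ≤ 1) (y : Eu m) :
    Tendsto (fun j => PP ε (s j) y) atTop (𝓝 (PP ε f y)) := by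
  rw [tendsto_iff_norm_sub_tendsto_zero]
  have h1 : Tendsto (fun j => (cK m ε)⁻¹ * (ε * (1 + (‖y‖+3) ^ 2) ^ (m+1) * (cM m * ‖s j - f‖)))
      atTop (𝓝 0) := by
    have h2 := (tendsto_iff_norm_sub_tendsto_zero.mp h)
    have h3 := ((h2.const_mul (cM m)).const_mul (ε * (1 + (‖y‖+3) ^ 2) ^ (m+1))).const_mul
      (cK m ε)⁻¹
    simpa using h3
  refine squeeze_zero (fun _ => norm_nonneg _) (fun j => ?_) h1
  rw [PP_sub _ _ hε hε1]
  exact PP_bound _ hε hε1 le_rfl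

theorem trace_moll [FiniteDimensional ℝ V] [NeZero m] {z : ZZ m V} (hz : z ∈ XX m V) {ε : ℝ}
    (hε : 0 < ε) (hε1 : ε ≤ 1) :
    ∫⁻ y, ‖z.2.2 y - PP ε z.1 y‖ₑ ∂(mub m) ≤
      KK m * ((mu m (strip m ε)) ^ (rr m) * ‖z.2.1‖ₑ) := by
  have : CompleteSpace V := FiniteDimensional.complete ℝ V
  obtain ⟨w, s, t, r, l⟩ := mem_XX_iff.mp hz
  have l3 := (((continuous_snd.comp continuous_snd).tendsto z).comp l)
  obtain ⟨ns, hns, hae⟩ := lp_subseq_ae _ _ l3
  have l1 : Tendsto (fun j => (s (ns j)).1) atTop (𝓝 z.1) :=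
    ((continuous_fst.tendsto z).comp l).comp hns.tendsto_atTop
  have l2 : Tendsto (fun j => (s (ns j)).2.1) atTop (𝓝 z.2.1) :=
    (((continuous_fst.comp continuous_snd).tendsto z).comp l).comp hns.tendsto_atTop
  have hlim : ∀ᵐ y ∂(mub m), Tendsto (fun j => ‖(s (ns j)).2.2 y - PP ε (s (ns j)).1 y‖ₑ) atTop
      (𝓝 ‖z.2.2 y - PP ε z.1 y‖ₑ) := by
    filter_upwards [hae] with y hy
    exact (hy.sub (PP_tendsto l1 hε hε1 y)).enorm
  have hfatou := lintegral_liminf_le' (μ := mub m) (u := (atTop : Filter ℕ))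
    (f := fun j y => ‖(s (ns j)).2.2 y - PP ε (s (ns j)).1 y‖ₑ)
    (fun j => ((Lp.aestronglyMeasurable _).sub
      (PP_continuous _ hε hε1).aestronglyMeasurable).enorm)
  have h1 : ∫⁻ y, ‖z.2.2 y - PP ε z.1 y‖ₑ ∂(mub m) =
      ∫⁻ y, liminf (fun j => ‖(s (ns j)).2.2 y - PP ε (s (ns j)).1 y‖ₑ) atTop ∂(mub m) := by
    refine lintegral_congr_ae ?_
    filter_upwards [hlim] with y hy
    exact hy.liminf_eq.symm
  rw [h1]
  refine hfatou.trans ?_
  have h2 : Tendsto (fun j => KK m * ((mu m (strip m ε)) ^ (rr m) * ‖(s (ns j)).2.1‖ₑ)) atTop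
      (𝓝 (KK m * ((mu m (strip m ε)) ^ (rr m) * ‖z.2.1‖ₑ))) := by
    have h3 : Tendsto (fun j => ‖(s (ns j)).2.1‖ₑ) atTop (𝓝 ‖z.2.1‖ₑ) := l2.enorm
    have hne : (mu m (strip m ε)) ^ (rr m) ≠ ∞ :=
      ENNReal.rpow_ne_top_of_nonneg (by unfold rr; positivity) (measure_ne_top _ _)
    refine ENNReal.Tendsto.const_mul (ENNReal.Tendsto.const_mul h3 (Or.inr hne)) (Or.inr ?_)
    exact ENNReal.ofReal_ne_top
  rw [← h2.liminf_eq]
  refine liminf_le_liminf (Eventually.of_forall fun j => ?_)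
  exact trace_moll_test (t _) (r _) hε hε1

/-- `ε_i = 1/(i+1)` -/
noncomputable def ep (i : ℕ) : ℝ := 1 / ((i : ℝ) + 1)

theorem ep_pos (i : ℕ) : 0 < ep i := by unfold ep; positivity
theorem ep_le (i : ℕ) : ep i ≤ 1 := by
  unfold ep
  rw [div_le_one (by positivity)]
  linarith [(Nat.cast_nonneg i : (0:ℝ) ≤ i)]

theorem strip_tendsto (m : ℕ) : Tendsto (fun i => mu m (strip m (ep i))) atTop (𝓝 0) := by
  have hanti : Antitone (fun i => strip m (ep i)) := by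
    intro i j hij x hx
    simp only [strip, mem_ofPred_eq] at hx ⊢
    refine hx.trans ?_
    have : ep j ≤ ep i := by
      unfold ep
      apply one_div_le_one_div_of_le (by positivity)
      have : (i : ℝ) ≤ j := by exact_mod_cast hij
      linarith
    linarith
  have h := tendsto_measure_iInter_atTop (μ := mu m)
    (fun i => (measurableSet_strip (m := m) (ep i)).nullMeasurableSet) hanti
    ⟨0, measure_ne_top _ _⟩
  have h0 : mu m (⋂ i, strip m (ep i)) = 0 := by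
    have : ∀ᵐ x ∂(mu m), x ∉ ⋂ i, strip m (ep i) := by
      rw [ae_mu]
      filter_upwards [ae_restrict_mem (measurableSet_Om m)] with x hx hmem
      have h1 : ∀ i, x 0 ≤ 3 * ep i := fun i => mem_iInter.mp hmem i
      have h2 : Tendsto (fun i => 3 * ep i) atTop (𝓝 0) := by
        have := (tendsto_one_div_add_atTop_nhds_zero_nat (𝕜 := ℝ)).const_mul 3
        simpa [ep] using this
      have h3 : x 0 ≤ 0 := ge_of_tendsto' h2 h1
      have h4 : 0 < x 0 := hx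
      linarith
    rw [ae_iff] at this
    have e : {a | ¬ a ∉ ⋂ i, strip m (ep i)} = ⋂ i, strip m (ep i) := by
      ext a; simp
    rwa [e] at this
  rw [h0] at h
  exact h

theorem cc_tendsto (m : ℕ) [NeZero m] (B : ℝ) :
    Tendsto (fun i => KK m * ((mu m (strip m (ep i))) ^ (rr m) * ENNReal.ofReal B)) atTop (𝓝 0) := by
  have hr : 0 < rr m := by
    unfold rr
    have : 0 < (m : ℝ) := by exact_mod_cast Nat.pos_of_ne_zero (NeZero.ne m)
    positivity
  have h1 : Tendsto (fun i => (mu m (strip m (ep i))) ^ (rr m)) atTop (𝓝 0) := by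
    have := (strip_tendsto m).ennrpow_const (rr m)
    rwa [ENNReal.zero_rpow_of_pos hr] at this
  have h2 := ENNReal.Tendsto.mul_const (b := ENNReal.ofReal B) h1 (Or.inr ENNReal.ofReal_ne_top)
  have h3 := ENNReal.Tendsto.const_mul (a := KK m) h2 (Or.inr ENNReal.ofReal_ne_top)
  simpa using h3

end Pool.Agent.Helper42.Bub
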