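import Pool.Agent.Helper42.Bub.Comp

/-!
Compactness of traces, main theorem.
-/

set_option maxHeartbeats 400000

open Filter Topology MeasureTheory Set
open scoped ENNReal InnerProductSpace NNReal

namespace Pool.Agent.Helper42.Bub

variable {m : ℕ} {V : Type*} [NormedAddCommGroup V] [InnerProductSpace ℝ V]

theorem diag_subseq [FiniteDimensional ℝ V] (f : ℕ → Lp V (pp m) (mu m)) (B : ℝ)
    (hB : ∀ j, ‖f j‖ ≤ B) (q : ℕ → Eu m) :
    ∃ σ : ℕ → ℕ, StrictMono σ ∧ ∀ i l, ∃ a : V,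
      Tendsto (fun j => PP (ep i) (f (σ j)) (q l)) atTop (𝓝 a) := by
  have : ProperSpace V := FiniteDimensional.proper ℝ V
  set C : ℕ × ℕ → ℝ := fun p => (cK m (ep p.1))⁻¹ *
    (ep p.1 * (1 + (‖q p.2‖+3) ^ 2) ^ (m+1) * (cM m * B)) with hC
  set S : Set (ℕ × ℕ → V) := Set.pi univ (fun p => Metric.closedBall (0:V) (C p)) with hS
  have hcomp : IsCompact S := isCompact_univ_pi (fun p => isCompact_closedBall 0 (C p))
  have hmem : ∀ j, (fun p : ℕ × ℕ => PP (ep p.1) (f j) (q p.2)) ∈ S := by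
    intro j p _
    rw [mem_closedBall_zero_iff]
    refine (PP_bound (f j) (ep_pos _) (ep_le _) (le_refl ‖q p.2‖)).trans ?_
    have hc := cK_pos (m := m) (ep_pos p.1)
    have hM := cM_nonneg (m := m)
    have he := ep_pos p.1
    refine mul_le_mul_of_nonneg_left ?_ (by positivity)
    refine mul_le_mul_of_nonneg_left ?_ (by positivity)
    exact mul_le_mul_of_nonneg_left (hB j) hM
  obtain ⟨a, _, σ, hσ, hlim⟩ := hcomp.tendsto_subseq hmem
  refine ⟨σ, hσ, fun i l => ⟨a (i, l), ?_⟩⟩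
  rw [tendsto_pi_nhds] at hlim
  exact hlim (i, l)

theorem cauchy_of_dense [FiniteDimensional ℝ V] (f : ℕ → Lp V (pp m) (mu m)) (B : ℝ)
    (hB : ∀ j, ‖f j‖ ≤ B) (q : ℕ → Eu m) (hq : DenseRange q) {ε : ℝ} (hε : 0 < ε) (hε1 : ε ≤ 1)
    (h : ∀ l, ∃ a : V, Tendsto (fun j => PP ε (f j) (q l)) atTop (𝓝 a)) (y : Eu m) :
    ∃ a : V, Tendsto (fun j => PP ε (f j) y) atTop (𝓝 a) := by
  have : CompleteSpace V := FiniteDimensional.complete ℝ V
  have hB0 : 0 ≤ B := (norm_nonneg _).trans (hB 0)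
  have hM := cM_nonneg (m := m)
  have hc := cK_pos (m := m) hε
  set L : ℝ := (cK m ε)⁻¹ * ((1 + ((‖y‖+1)+3) ^ 2) ^ (m+1) * (cM m * B)) with hL
  have hL0 : 0 ≤ L := by positivity
  have hcau : CauchySeq (fun j => PP ε (f j) y) := by
    rw [Metric.cauchySeq_iff']
    intro δ hδ
    set η : ℝ := min 1 (δ / (4 * (L + 1))) with hη
    have hη0 : 0 < η := lt_min one_pos (by positivity)
    obtain ⟨l, hl⟩ := hq.exists_dist_lt y hη0
    obtain ⟨a, ha⟩ := h l
    have hc2 := ha.cauchySeq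
    rw [Metric.cauchySeq_iff'] at hc2
    obtain ⟨N, hN⟩ := hc2 (δ/2) (by positivity)
    refine ⟨N, fun k hk => ?_⟩
    have hdist : ‖y - q l‖ < η := by rwa [dist_eq_norm] at hl
    have hy1 : ‖y‖ ≤ ‖y‖ + 1 := by linarith
    have hq1 : ‖q l‖ ≤ ‖y‖ + 1 := by
      have h1 := norm_add_le (q l - y) y
      rw [sub_add_cancel, norm_sub_rev] at h1
      have h2 : η ≤ 1 := min_le_left _ _
      linarith
    have hlip : ∀ j, ‖PP ε (f j) y - PP ε (f j) (q l)‖ ≤ L * ‖y - q l‖ := by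
      intro j
      refine (PP_lip (f j) hε hε1 hy1 hq1).trans ?_
      have : (cK m ε)⁻¹ * ((‖y - q l‖ * (1 + ((‖y‖+1)+3) ^ 2) ^ (m+1)) * (cM m * ‖f j‖))
          ≤ (cK m ε)⁻¹ * ((‖y - q l‖ * (1 + ((‖y‖+1)+3) ^ 2) ^ (m+1)) * (cM m * B)) := by
        refine mul_le_mul_of_nonneg_left ?_ (by positivity)
        refine mul_le_mul_of_nonneg_left ?_ (by positivity)
        exact mul_le_mul_of_nonneg_left (hB j) hM
      refine this.trans (le_of_eq ?_)
      rw [hL]; ring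
    have hsmall : L * ‖y - q l‖ < δ / 4 := by
      have h1 : ‖y - q l‖ < δ / (4 * (L + 1)) := hdist.trans_le (min_le_right _ _)
      calc L * ‖y - q l‖ ≤ (L + 1) * ‖y - q l‖ := by nlinarith [norm_nonneg (y - q l)]
        _ < (L + 1) * (δ / (4 * (L + 1))) := by
            apply mul_lt_mul_of_pos_left h1 (by positivity)
        _ = δ / 4 := by field_simp
    have e1 : PP ε (f k) y - PP ε (f N) y = (PP ε (f k) y - PP ε (f k) (q l)) +
      (PP ε (f k) (q l) - PP ε (f N) (q l)) - (PP ε (f N) y - PP ε (f N) (q l)) := by abel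
    rw [dist_eq_norm, e1]
    have e2 := norm_sub_le ((PP ε (f k) y - PP ε (f k) (q l)) +
      (PP ε (f k) (q l) - PP ε (f N) (q l))) (PP ε (f N) y - PP ε (f N) (q l))
    have e3 := norm_add_le (PP ε (f k) y - PP ε (f k) (q l)) (PP ε (f k) (q l) - PP ε (f N) (q l))
    have e4 := hN k hk
    rw [dist_eq_norm] at e4
    have e5 := hlip k
    have e6 := hlip N
    linarith
  exact cauchySeq_tendsto_of_complete hcau

theorem min_tri {a b c d e : ℝ≥0∞} (h2 : a ≤ 2) (h : a ≤ b + c + (d + e)) :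
    a ≤ b + c + (min 2 d + min 2 e) := by
  rcases le_total 2 d with h3 | h3
  · rw [min_eq_left h3]
    refine h2.trans ?_
    calc (2:ℝ≥0∞) ≤ 2 + min 2 e := le_self_add
      _ ≤ b + c + (2 + min 2 e) := le_add_self
  · rcases le_total 2 e with h4 | h4
    · rw [min_eq_left h4]
      refine h2.trans ?_
      calc (2:ℝ≥0∞) ≤ min 2 d + 2 := le_add_self
        _ ≤ b + c + (min 2 d + 2) := le_add_self
    · rw [min_eq_right h3, min_eq_right h4]
      exact h

theorem trace_compact [FiniteDimensional ℝ V] [NeZero m] (z : ℕ → ZZ m V) (hz : ∀ j, z j ∈ XX m V)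
    (B : ℝ) (hB : ∀ j, ‖z j‖ ≤ B) (hτ : ∀ j, ∀ᵐ y ∂(mub m), ‖(z j).2.2 y‖ ≤ 1) :
    ∃ σ : ℕ → ℕ, StrictMono σ ∧ ∃ τ, Tendsto (fun j => (z (σ j)).2.2) atTop (𝓝 τ) := by
  have : CompleteSpace V := FiniteDimensional.complete ℝ V
  have hB1 : ∀ j, ‖(z j).1‖ ≤ B := fun j => (norm_fst_le _).trans (hB j)
  have hB2 : ∀ j, ‖(z j).2.1‖ ≤ B := fun j =>
    ((norm_fst_le (z j).2).trans (norm_snd_le (z j))).trans (hB j)
  obtain ⟨σ, hσ, hdiag⟩ := diag_subseq (fun j => (z j).1) B hB1 (TopologicalSpace.denseSeq (Eu m))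
  refine ⟨σ, hσ, ?_⟩
  have hlim : ∀ i y, ∃ a : V, Tendsto (fun j => PP (ep i) (z (σ j)).1 y) atTop (𝓝 a) := by
    intro i y
    exact cauchy_of_dense (fun j => (z (σ j)).1) B (fun j => hB1 _) _
      (TopologicalSpace.denseRange_denseSeq (Eu m)) (ep_pos i) (ep_le i) (fun l => hdiag i l) y
  choose P hP using hlim
  have hPm : ∀ i, StronglyMeasurable (P i) := by
    intro i
    refine stronglyMeasurable_of_tendsto atTop
      (f := fun j => PP (ep i) (z (σ j)).1) (fun j => ?_) (tendsto_pi_nhds.mpr (hP i))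
    exact (PP_continuous _ (ep_pos i) (ep_le i)).stronglyMeasurable
  -- the error terms
  set c : ℕ → ℝ≥0∞ := fun i => KK m * ((mu m (strip m (ep i))) ^ (rr m) * ENNReal.ofReal B) with hc
  have hcl : Tendsto c atTop (𝓝 0) := cc_tendsto m B
  have hcz : ∀ i j, ∫⁻ y, ‖(z j).2.2 y - PP (ep i) (z j).1 y‖ₑ ∂(mub m) ≤ c i := by
    intro i j
    refine (trace_moll (hz j) (ep_pos i) (ep_le i)).trans ?_
    simp only [hc]
    gcongr
    rw [← ofReal_norm]
    exact ENNReal.ofReal_le_ofReal (hB2 j)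
  set d : ℕ → ℕ → ℝ≥0∞ := fun i j =>
    ∫⁻ y, min 2 ‖PP (ep i) (z (σ j)).1 y - P i y‖ₑ ∂(mub m) with hd
  have hdl : ∀ i, Tendsto (fun j => d i j) atTop (𝓝 0) := by
    intro i
    have h1 : Tendsto (fun j => ∫⁻ y, min 2 ‖PP (ep i) (z (σ j)).1 y - P i y‖ₑ ∂(mub m)) atTop
        (𝓝 (∫⁻ y, (0:ℝ≥0∞) ∂(mub m))) := by
      refine tendsto_lintegral_of_dominated_convergence (fun _ => 2) (fun j => ?_)
        (fun j => Eventually.of_forall fun y => min_le_left _ _) ?_ (Eventually.of_forall fun y => ?_)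
      · exact measurable_const.min (((PP_continuous _ (ep_pos i) (ep_le i)).stronglyMeasurable.sub
          (hPm i)).enorm)
      · rw [lintegral_const]
        exact ENNReal.mul_ne_top (by norm_num) (measure_ne_top _ _)
      · have h2 := ((hP i y).sub_const (P i y)).enorm
        rw [sub_self, enorm_zero] at h2
        have h3 := (tendsto_const_nhds (x := (2:ℝ≥0∞))).min h2
        simpa using h3
    simpa using h1
  have hkey : ∀ i j k, ∫⁻ y, ‖((z (σ j)).2.2 - (z (σ k)).2.2) y‖ₑ ∂(mub m) ≤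
      c i + c i + (d i j + d i k) := by
    intro i j k
    have hpt : ∀ᵐ y ∂(mub m), ‖((z (σ j)).2.2 - (z (σ k)).2.2) y‖ₑ ≤
        ‖(z (σ j)).2.2 y - PP (ep i) (z (σ j)).1 y‖ₑ +
        ‖(z (σ k)).2.2 y - PP (ep i) (z (σ k)).1 y‖ₑ +
        (min 2 ‖PP (ep i) (z (σ j)).1 y - P i y‖ₑ + min 2 ‖PP (ep i) (z (σ k)).1 y - P i y‖ₑ) := by
      filter_upwards [Lp.coeFn_sub (z (σ j)).2.2 (z (σ k)).2.2, hτ (σ j), hτ (σ k)] with y h1 h2 h3
      rw [h1, Pi.sub_apply]
      refine min_tri ?_ ?_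
      · rw [← ofReal_norm]
        have h4 : ‖(z (σ j)).2.2 y - (z (σ k)).2.2 y‖ ≤ 2 := (norm_sub_le _ _).trans (by linarith)
        refine (ENNReal.ofReal_le_ofReal h4).trans (by simp)
      · have e1 : (z (σ j)).2.2 y - (z (σ k)).2.2 y =
            ((z (σ j)).2.2 y - PP (ep i) (z (σ j)).1 y) +
            (-((z (σ k)).2.2 y - PP (ep i) (z (σ k)).1 y)) +
            ((PP (ep i) (z (σ j)).1 y - P i y) + (-(PP (ep i) (z (σ k)).1 y - P i y))) := by abel
        rw [e1]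
        refine (enorm_add_le _ _).trans (add_le_add ((enorm_add_le _ _).trans ?_)
          ((enorm_add_le _ _).trans ?_))
        · rw [enorm_neg]
        · rw [enorm_neg]
    have m1 : ∀ j, AEMeasurable (fun y => ‖(z (σ j)).2.2 y - PP (ep i) (z (σ j)).1 y‖ₑ) (mub m) :=
      fun j => ((Lp.aestronglyMeasurable _).sub
        (PP_continuous _ (ep_pos i) (ep_le i)).aestronglyMeasurable).enorm
    have m2 : ∀ j, Measurable (fun y => min 2 ‖PP (ep i) (z (σ j)).1 y - P i y‖ₑ) :=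
      fun j => measurable_const.min (((PP_continuous _ (ep_pos i) (ep_le i)).stronglyMeasurable.sub
          (hPm i)).enorm)
    refine (lintegral_mono_ae hpt).trans ?_
    have m3 : Measurable (fun y => min 2 ‖PP (ep i) (z (σ j)).1 y - P i y‖ₑ +
      min 2 ‖PP (ep i) (z (σ k)).1 y - P i y‖ₑ) := (m2 j).add (m2 k)
    rw [lintegral_add_right _ m3, lintegral_add_left' (m1 j), lintegral_add_left (m2 j)]
    gcongr
    · exact hcz i (σ j)
    · exact hcz i (σ k)
  -- Cauchy in L^n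
  have hcau : CauchySeq (fun j => (z (σ j)).2.2) := by
    rw [Metric.cauchySeq_iff]
    intro δ hδ
    have hη : (0:ℝ≥0∞) < ENNReal.ofReal (δ ^ (m+1) / 2 ^ m / 8) := by
      rw [ENNReal.ofReal_pos]; positivity
    set η := ENNReal.ofReal (δ ^ (m+1) / 2 ^ m / 8) with hηd
    obtain ⟨i, hi⟩ := (hcl.eventually (gt_mem_nhds hη)).exists
    obtain ⟨N, hN⟩ := eventually_atTop.mp ((hdl i).eventually (gt_mem_nhds hη))
    refine ⟨N, fun j hj k hk => ?_⟩
    have h1 : ∫⁻ y, ‖((z (σ j)).2.2 - (z (σ k)).2.2) y‖ₑ ∂(mub m) ≤ η + η + (η + η) :=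
      (hkey i j k).trans (add_le_add (add_le_add hi.le hi.le)
        (add_le_add (hN j hj).le (hN k hk).le))
    have h2 : η + η + (η + η) = ENNReal.ofReal (δ ^ (m+1) / 2 ^ m / 2) := by
      rw [hηd, ← ENNReal.ofReal_add (by positivity) (by positivity),
        ← ENNReal.ofReal_add (by positivity) (by positivity)]
      congr 1; ring
    rw [h2] at h1
    have h3 : ∫ y, ‖((z (σ j)).2.2 - (z (σ k)).2.2) y‖ ∂(mub m) ≤ δ ^ (m+1) / 2 ^ m / 2 := by
      rw [integral_norm_eq_lintegral_enorm (Lp.aestronglyMeasurable _)]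
      exact ENNReal.toReal_le_of_le_ofReal (by positivity) h1
    have hint : Integrable (fun y => ‖((z (σ j)).2.2 - (z (σ k)).2.2) y‖) (mub m) :=
      ((Lp.memLp ((z (σ j)).2.2 - (z (σ k)).2.2)).integrable Fact.out).norm
    have h4 : ‖(z (σ j)).2.2 - (z (σ k)).2.2‖ ^ (m+1) ≤ 2 ^ m *
        ∫ y, ‖((z (σ j)).2.2 - (z (σ k)).2.2) y‖ ∂(mub m) := by
      rw [lp_norm_pow (by omega), ← integral_const_mul]
      refine integral_mono_ae (lp_int_pow (by omega) _) (hint.const_mul _) ?_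
      filter_upwards [Lp.coeFn_sub (z (σ j)).2.2 (z (σ k)).2.2, hτ (σ j), hτ (σ k)] with y h1 h2 h3
      rw [h1, Pi.sub_apply]
      have h4 : ‖(z (σ j)).2.2 y - (z (σ k)).2.2 y‖ ≤ 2 := (norm_sub_le _ _).trans (by linarith)
      rw [pow_succ]
      exact mul_le_mul_of_nonneg_right (pow_le_pow_left₀ (norm_nonneg _) h4 m) (norm_nonneg _)
    rw [dist_eq_norm]
    have h5 : ‖(z (σ j)).2.2 - (z (σ k)).2.2‖ ^ (m+1) < δ ^ (m+1) := by
      refine h4.trans_lt ?_
      calc 2 ^ m * ∫ y, ‖((z (σ j)).2.2 - (z (σ k)).2.2) y‖ ∂(mub m)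
          ≤ 2 ^ m * (δ ^ (m+1) / 2 ^ m / 2) := mul_le_mul_of_nonneg_left h3 (by positivity)
        _ = δ ^ (m+1) / 2 := by field_simp
        _ < δ ^ (m+1) := by
            have : 0 < δ ^ (m+1) := by positivity
            linarith
    exact lt_of_pow_lt_pow_left₀ _ hδ.le h5
  exact cauchySeq_tendsto_of_complete hcau

end Pool.Agent.Helper42.Bub
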