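import Pool.Agent.Helper42.Bub.Weak2

/-!
A function with vanishing weak derivative on a convex open set is constant.
-/

set_option maxHeartbeats 400000

open Filter Topology MeasureTheory Set
open scoped ENNReal InnerProductSpace NNReal ContDiff

namespace Pool.Agent.Helper42.Bubble

variable {V : Type*} [NormedAddCommGroup V] [NormedSpace ℝ V]

theorem integrable_smul_of_locOn {k : ℕ} {U : Set (EuclideanSpace ℝ (Fin k))}
    {g : EuclideanSpace ℝ (Fin k) → V} (hg : LocallyIntegrableOn g U volume)
    {ψ : EuclideanSpace ℝ (Fin k) → ℝ} (hψ : Continuous ψ) (hc : HasCompactSupport ψ)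
    (hs : tsupport ψ ⊆ U) : Integrable (fun x => ψ x • g x) := by
  have hgi : IntegrableOn g (tsupport ψ) volume := hg.integrableOn_compact_subset hs hc
  have hGi : Integrable ((tsupport ψ).indicator g) volume :=
    hgi.integrable_indicator (isClosed_tsupport ψ).measurableSet
  obtain ⟨C, hC⟩ := hψ.bounded_above_of_compact_support hc
  have e : (fun x => ψ x • g x) = fun x => ψ x • (tsupport ψ).indicator g x := by
    funext x
    by_cases hx : x ∈ tsupport ψ
    · rw [indicator_of_mem hx]
    · rw [image_eq_zero_of_notMem_tsupport hx]; simp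
  rw [e]
  exact hGi.bdd_smul C hψ.aestronglyMeasurable (Eventually.of_forall hC)

theorem shift_ae [CompleteSpace V] {k : ℕ} {U : Set (EuclideanSpace ℝ (Fin k))}
    (hcv : Convex ℝ U) {g : EuclideanSpace ℝ (Fin k) → V} (hg : LocallyIntegrableOn g U volume)
    (hU : IsOpen U)
    (hweak : ∀ ψ : EuclideanSpace ℝ (Fin k) → ℝ, ContDiff ℝ ∞ ψ → HasCompactSupport ψ →
      tsupport ψ ⊆ U → ∀ i, ∫ x, fderiv ℝ ψ x (EuclideanSpace.single i (1:ℝ)) • g x = 0)
    (h : EuclideanSpace ℝ (Fin k)) : ∀ᵐ x, x ∈ U → x + h ∈ U → g (x + h) = g x := by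
  have hUh : IsOpen (U ∩ {x | x + h ∈ U}) :=
    hU.inter (hU.preimage (continuous_id.add continuous_const))
  have hl2 : LocallyIntegrableOn (fun x => g (x + h)) (U ∩ {x | x + h ∈ U}) volume := by
    rw [locallyIntegrableOn_iff hUh.isLocallyClosed]
    intro K hK hKc
    have h1 : IsCompact ((fun x => x + h) '' K) := hKc.image (continuous_id.add continuous_const)
    have h2 : IntegrableOn g ((fun x => x + h) '' K) volume := by
      refine hg.integrableOn_compact_subset ?_ h1
      rintro _ ⟨x, hx, rfl⟩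
      exact (hK hx).2
    have h3 := (measurePreserving_add_right (volume : Measure (EuclideanSpace ℝ (Fin k))) h).integrableOn_comp_preimage
      (measurableEmbedding_addRight h) (f := g) (s := (fun x => x + h) '' K)
    have h4 : (fun x => x + h) ⁻¹' ((fun x => x + h) '' K) = K :=
      preimage_image_eq _ (add_left_injective h)
    rw [h4] at h3
    exact h3.mpr h2
  have hl1 : LocallyIntegrableOn g (U ∩ {x | x + h ∈ U}) volume := hg.mono_set inter_subset_left
  have key := hUh.ae_eq_zero_of_integral_contDiff_smul_eq_zero (hl2.sub hl1)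
    (fun ψ hψ hc hs => ?_)
  · filter_upwards [key] with x hx h1 h2
    have := hx ⟨h1, h2⟩
    exact sub_eq_zero.mp this
  · have s1 : tsupport ψ ⊆ U := hs.trans inter_subset_left
    have i1 : Integrable (fun x => ψ x • g x) :=
      integrable_smul_of_locOn hg hψ.continuous hc s1
    have i2 : Integrable (fun x => ψ x • g (x + h)) :=
      integrable_smul_of_locOn hl2 hψ.continuous hc hs
    have e1 : ∫ x, ψ x • ((fun x => g (x + h)) - g) x =
        (∫ x, ψ x • g (x + h)) - ∫ x, ψ x • g x := by
      rw [← integral_sub i2 i1]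
      refine integral_congr_ae (Eventually.of_forall fun x => ?_)
      simp only [Pi.sub_apply]
      rw [smul_sub]
    have e2 : ∫ x, ψ x • g (x + h) = ∫ x, ψ (x - h) • g x := by
      have := integral_add_right_eq_self (μ := volume) (fun x => ψ (x - h) • g x) h
      rw [← this]
      refine integral_congr_ae (Eventually.of_forall fun x => ?_)
      simp only
      rw [add_sub_cancel_right]
    have i3 : Integrable (fun x => ψ (x - h) • g x) := by
      have h5 := i2.comp_sub_right h
      refine h5.congr (Eventually.of_forall fun x => ?_)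
      simp only
      rw [sub_add_cancel]
    rw [e1, e2, ← integral_sub i3 i1]
    have e3 := shift_int_eq hcv hg hU hweak h hψ hc s1 (fun x hx => (hs hx).2)
    rw [← e3]
    refine integral_congr_ae (Eventually.of_forall fun x => ?_)
    simp only
    rw [sub_smul]

theorem const_of_weak [CompleteSpace V] {k : ℕ} {U : Set (EuclideanSpace ℝ (Fin k))}
    (hcv : Convex ℝ U) {g : EuclideanSpace ℝ (Fin k) → V} (hg : LocallyIntegrableOn g U volume)
    (hU : IsOpen U)
    (hweak : ∀ ψ : EuclideanSpace ℝ (Fin k) → ℝ, ContDiff ℝ ∞ ψ → HasCompactSupport ψ →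
      tsupport ψ ⊆ U → ∀ i, ∫ x, fderiv ℝ ψ x (EuclideanSpace.single i (1:ℝ)) • g x = 0) :
    ∃ c : V, ∀ᵐ x, x ∈ U → g x = c := by
  rcases U.eq_empty_or_nonempty with hUe | hUne
  · exact ⟨0, Eventually.of_forall fun x hx => by rw [hUe] at hx; exact absurd hx (notMem_empty x)⟩
  have hgm : AEStronglyMeasurable g (volume.restrict U) := hg.aestronglyMeasurable
  set g' := hgm.mk g with hg'
  have hg'm : StronglyMeasurable g' := hgm.stronglyMeasurable_mk
  have hgg : ∀ᵐ x, x ∈ U → g x = g' x := by
    have := hgm.ae_eq_mk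
    rwa [EventuallyEq, ae_restrict_iff' hU.measurableSet] at this
  have hstep : ∀ h : EuclideanSpace ℝ (Fin k), ∀ᵐ x, x ∈ U → x + h ∈ U → g' (x + h) = g' x := by
    intro h
    filter_upwards [shift_ae hcv hg hU hweak h, hgg,
      (measurePreserving_add_right (volume : Measure (EuclideanSpace ℝ (Fin k))) h).quasiMeasurePreserving.ae hgg]
      with x h1 h2 h3 h4 h5
    rw [← h3 h5, ← h2 h4]
    exact h1 h4 h5
  have hmeas : MeasurableSet {q : EuclideanSpace ℝ (Fin k) × EuclideanSpace ℝ (Fin k) |
      q.2 ∈ U → q.2 + q.1 ∈ U → g' (q.2 + q.1) = g' q.2} := by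
    have m1 : MeasurableSet {q : EuclideanSpace ℝ (Fin k) × EuclideanSpace ℝ (Fin k) | q.2 ∈ U} :=
      hU.measurableSet.preimage measurable_snd
    have m2 : MeasurableSet {q : EuclideanSpace ℝ (Fin k) × EuclideanSpace ℝ (Fin k) |
        q.2 + q.1 ∈ U} :=
      hU.measurableSet.preimage (measurable_snd.add measurable_fst)
    have m3 : MeasurableSet {q : EuclideanSpace ℝ (Fin k) × EuclideanSpace ℝ (Fin k) |
        g' (q.2 + q.1) = g' q.2} :=
      (hg'm.comp_measurable (measurable_snd.add measurable_fst)).measurableSet_eq_fun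
        (hg'm.comp_measurable measurable_snd)
    have e : {q : EuclideanSpace ℝ (Fin k) × EuclideanSpace ℝ (Fin k) |
      q.2 ∈ U → q.2 + q.1 ∈ U → g' (q.2 + q.1) = g' q.2} =
      {q : EuclideanSpace ℝ (Fin k) × EuclideanSpace ℝ (Fin k) | q.2 ∈ U}ᶜ ∪
      ({q : EuclideanSpace ℝ (Fin k) × EuclideanSpace ℝ (Fin k) | q.2 + q.1 ∈ U}ᶜ ∪
      {q : EuclideanSpace ℝ (Fin k) × EuclideanSpace ℝ (Fin k) | g' (q.2 + q.1) = g' q.2}) := by
      ext q
      simp only [mem_setOf_eq, mem_union, mem_compl_iff]
      tauto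
    rw [e]
    exact m1.compl.union (m2.compl.union m3)
  have hfub := (Measure.ae_ae_comm (μ := (volume : Measure (EuclideanSpace ℝ (Fin k))))
    (ν := (volume : Measure (EuclideanSpace ℝ (Fin k))))
    (p := fun h x => x ∈ U → x + h ∈ U → g' (x + h) = g' x) hmeas).mp
    (Eventually.of_forall hstep)
  have hpos : 0 < volume U := hU.measure_pos volume hUne
  obtain ⟨x₀, hx₀U, hx₀⟩ : ∃ x₀ ∈ U, ∀ᵐ h : EuclideanSpace ℝ (Fin k), x₀ ∈ U → x₀ + h ∈ U →
      g' (x₀ + h) = g' x₀ := by
    by_contra hne
    have h1 : volume U = 0 := by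
      have h2 : ∀ᵐ x, x ∉ U := by
        filter_upwards [hfub] with x hx hxU
        exact hne ⟨x, hxU, hx⟩
      rw [ae_iff] at h2
      simpa using h2
    exact hpos.ne' h1
  refine ⟨g' x₀, ?_⟩
  have h1 := (measurePreserving_sub_right (volume : Measure (EuclideanSpace ℝ (Fin k))) x₀).quasiMeasurePreserving.ae hx₀
  filter_upwards [h1, hgg] with y hy1 hy2 hyU
  rw [hy2 hyU]
  have h2 := hy1 hx₀U
  rw [add_sub_cancel] at h2
  exact h2 hyU

end Pool.Agent.Helper42.Bubble
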