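import Pool.Agent.Helper42.Bub.Rot
import Pool.Agent.Helper42.Bub.Weak3

/-!
The infinitesimal rotational symmetry.
-/

set_option maxHeartbeats 400000

open Filter Topology MeasureTheory Set
open scoped ENNReal InnerProductSpace NNReal ContDiff

namespace Pool.Agent.Helper42.Bub

open Pool.Agent.Helper42.Bubble (Half bdry IsSobolev)

section Gen

variable {m : ℕ} {V : Type*} [NormedAddCommGroup V] [NormedSpace ℝ V]
  {v : Eu (m+1) → V} {D : Eu (m+1) → Fin (m+1) → V} {τ : Eu m → V}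

theorem ibp_mul (h : IsSobolev v D τ) {ψ : Eu (m+1) → ℝ}
    (hψ : ContDiff ℝ 1 ψ) (hc : HasCompactSupport ψ) (hs : tsupport ψ ⊆ Half m)
    {i j : Fin (m+1)} (hij : i ≠ j) :
    ∫ x in Half m, (x j * fderiv ℝ ψ x (eb i)) • v x = - ∫ x in Half m, (x j * ψ x) • D x i := by
  set φ : Eu (m+1) → ℝ := fun x => x j * ψ x with hφ
  have cj : ContDiff ℝ 1 (fun x : Eu (m+1) => x j) :=
    (EuclideanSpace.proj (𝕜 := ℝ) j : Eu (m+1) →L[ℝ] ℝ).contDiff
  have h1 : ContDiff ℝ 1 φ := cj.mul hψ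
  have h2 : HasCompactSupport φ := hc.mul_left
  have h3 : tsupport φ ⊆ Half m := (tsupport_mul_subset_right).trans hs
  have h4 := h.ibp h1 h2 h3 i
  have h5 : ∀ x, fderiv ℝ φ x (EuclideanSpace.single i (1:ℝ)) = x j * fderiv ℝ ψ x (eb i) := by
    intro x
    have d1 : HasFDerivAt (fun x : Eu (m+1) => x j)
        (EuclideanSpace.proj (𝕜 := ℝ) j : Eu (m+1) →L[ℝ] ℝ) x :=
      (EuclideanSpace.proj (𝕜 := ℝ) j : Eu (m+1) →L[ℝ] ℝ).hasFDerivAt
    have d2 : HasFDerivAt ψ (fderiv ℝ ψ x) x := (hψ.differentiable one_ne_zero x).hasFDerivAt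
    have d3 : fderiv ℝ φ x = _ := (d1.mul d2).fderiv
    rw [d3]
    have e1 : (EuclideanSpace.proj (𝕜 := ℝ) j : Eu (m+1) →L[ℝ] ℝ)
        (EuclideanSpace.single i (1:ℝ)) = 0 := by
      change (EuclideanSpace.single i (1:ℝ) : Eu (m+1)) j = 0
      simp [hij.symm]
    simp only [add_apply, smul_apply, smul_eq_mul]
    rw [e1, mul_zero, add_zero]
  simp_rw [h5] at h4
  exact h4

end Gen

variable {k : ℕ}

theorem f02 : (0 : Fin (k+2+1)) ≠ 2 := fun h =>
  Fin.succ_ne_zero ((0 : Fin (k+1)).succ) h.symm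
theorem f01 : (0 : Fin (k+2+1)) ≠ 1 := fun h =>
  Fin.succ_ne_zero (0 : Fin (k+2)) h.symm
theorem f12 : (1 : Fin (k+2+1)) ≠ 2 := fun h =>
  Fin.succ_ne_zero (0 : Fin (k+1)) (Fin.succ_injective (k+2)
    (a₁ := (0 : Fin (k+1)).succ) (a₂ := (0 : Fin (k+2))) h.symm)
theorem fs1 (i : Fin k) : (i.succ.succ.succ : Fin (k+2+1)) ≠ 1 := fun h =>
  Fin.succ_ne_zero i.succ (Fin.succ_injective (k+2)
    (a₁ := i.succ.succ) (a₂ := (0 : Fin (k+2))) h)
theorem fs2 (i : Fin k) : (i.succ.succ.succ : Fin (k+2+1)) ≠ 2 := fun h =>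
  Fin.succ_ne_zero i (Fin.succ_injective (k+1)
    (a₁ := i.succ) (a₂ := (0 : Fin (k+1))) (Fin.succ_injective (k+2)
    (a₁ := i.succ.succ) (a₂ := (0 : Fin (k+1)).succ) h))

theorem eb_ne {i j : Fin (k+2+1)} (h : i ≠ j) : (eb j : Eu (k+2+1)) i = 0 := by simp [h]
theorem eb_self (i : Fin (k+2+1)) : (eb i : Eu (k+2+1)) i = 1 := by simp

theorem Kj_eq (y : Eu (k+2+1)) : Kj k y = (-(y 2)) • eb 1 + (y 1) • eb 2 := by
  refine ext3 ?_ ?_ ?_ (fun i => ?_)
  · rw [Kj_0, PiLp.add_apply, PiLp.smul_apply, PiLp.smul_apply, eb_ne f01, eb_ne f02]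
    simp
  · rw [Kj_1, PiLp.add_apply, PiLp.smul_apply, PiLp.smul_apply, eb_self, eb_ne f12]
    simp
  · rw [Kj_2, PiLp.add_apply, PiLp.smul_apply, PiLp.smul_apply, eb_self, eb_ne f12.symm]
    simp
  · rw [Kj_s, PiLp.add_apply, PiLp.smul_apply, PiLp.smul_apply, eb_ne (fs1 i), eb_ne (fs2 i)]
    simp

variable {v : Eu (k+2+1) → Eu (k+2+1)} {D : Eu (k+2+1) → Fin (k+2+1) → Eu (k+2+1)}
  {τ : Eu (k+2) → Eu (k+2+1)}

theorem integrableOn_ball (h : IsSobolev v D τ) (R : ℝ) :
    IntegrableOn v (Half (k+2) ∩ Metric.ball 0 R) volume := by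
  have hfin : IsFiniteMeasure (volume.restrict (Half (k+2) ∩ Metric.ball (0 : Eu (k+2+1)) R)) :=
    ⟨by
      rw [Measure.restrict_apply_univ]
      exact (measure_mono inter_subset_right).trans_lt measure_ball_lt_top⟩
  exact (h.memLp R).integrable (Bubble.one_le_pn (k+2))

/-- derivative of the rotated integral -/
theorem hasDerivAt_rotInt (h : IsSobolev v D τ) {ψ : Eu (k+2+1) → ℝ}
    (hψ : ContDiff ℝ 1 ψ) (hc : HasCompactSupport ψ) :
    HasDerivAt (fun θ : ℝ => ∫ y in Half (k+2), ψ (extL (rotL k θ) y) • v y)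
      (∫ y in Half (k+2), (fderiv ℝ ψ y (Kj k y)) • v y) 0 := by
  obtain ⟨R, hR⟩ := hc.isBounded.subset_ball (0 : Eu (k+2+1))
  have hz1 : ∀ x, x ∉ tsupport ψ → ψ x = 0 := fun x hx => image_eq_zero_of_notMem_tsupport hx
  have hz2 : ∀ x, x ∉ tsupport ψ → fderiv ℝ ψ x = 0 := fun x hx => by
    have : x ∉ Function.support (fderiv ℝ ψ) := fun hx' => hx (support_fderiv_subset ℝ hx')
    simpa using this
  have hfdc : Continuous (fderiv ℝ ψ) := hψ.continuous_fderiv one_ne_zero
  have hfds : HasCompactSupport (fderiv ℝ ψ) := hc.fderiv (𝕜 := ℝ)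
  obtain ⟨C, hC⟩ := hfdc.bounded_above_of_compact_support hfds
  have hC0 : 0 ≤ C := (norm_nonneg _).trans (hC 0)
  obtain ⟨C1, hC1⟩ := hψ.continuous.bounded_above_of_compact_support hc
  have hrotc : ∀ θ : ℝ, Continuous (fun y : Eu (k+2+1) => extL (rotL k θ) y) :=
    fun θ => (extL (rotL k θ)).continuous
  have hint : Integrable ((Metric.ball (0 : Eu (k+2+1)) R).indicator v)
      (volume.restrict (Half (k+2))) := by
    rw [integrable_indicator_iff Metric.isOpen_ball.measurableSet, IntegrableOn,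
      Measure.restrict_restrict Metric.isOpen_ball.measurableSet, inter_comm]
    exact integrableOn_ball h R
  have hrot0 : ∀ y : Eu (k+2+1), extL (rotL k 0) y = y := by
    intro y
    rw [rot_eq, Real.cos_zero, Real.sin_zero, one_smul, zero_smul, add_zero, sub_add_cancel]
  have key := hasDerivAt_integral_of_dominated_loc_of_deriv_le
    (μ := volume.restrict (Half (k+2))) (x₀ := (0:ℝ)) (s := univ)
    (F := fun θ y => ψ (extL (rotL k θ) y) • v y)
    (F' := fun θ y => (fderiv ℝ ψ (extL (rotL k θ) y) (Kj k (extL (rotL k θ) y))) • v y)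
    (bound := fun y => (C * R) * ‖(Metric.ball (0 : Eu (k+2+1)) R).indicator v y‖)
    univ_mem ?_ ?_ ?_ ?_ ?_ ?_
  · have h2 := key.2
    simp only [hrot0] at h2
    exact h2
  · refine Eventually.of_forall fun θ => ?_
    have h3 : Continuous (fun y => ψ (extL (rotL k θ) y)) := hψ.continuous.comp (hrotc θ)
    exact h3.aestronglyMeasurable.smul h.meas
  · have h3 : Integrable (fun y => ψ (extL (rotL k 0) y) •
        (Metric.ball (0 : Eu (k+2+1)) R).indicator v y) (volume.restrict (Half (k+2))) := by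
      have h4 : Continuous (fun y => ψ (extL (rotL k 0) y)) := hψ.continuous.comp (hrotc 0)
      exact hint.bdd_smul C1 h4.aestronglyMeasurable (Eventually.of_forall fun y => hC1 _)
    refine h3.congr (Eventually.of_forall fun y => ?_)
    simp only
    by_cases hy : y ∈ Metric.ball (0 : Eu (k+2+1)) R
    · rw [indicator_of_mem hy]
    · rw [hrot0, hz1 y (fun h => hy (hR h))]; simp
  · have h3 : Continuous (fun y => fderiv ℝ ψ (extL (rotL k 0) y) (Kj k (extL (rotL k 0) y))) :=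
      (hfdc.comp (hrotc 0)).clm_apply ((Kj k).continuous.comp (hrotc 0))
    exact h3.aestronglyMeasurable.smul h.meas
  · refine Eventually.of_forall fun y θ _ => ?_
    have hn : ‖extL (rotL k θ) y‖ = ‖y‖ := (extL (rotL k θ)).norm_map y
    by_cases hy : y ∈ Metric.ball (0 : Eu (k+2+1)) R
    · rw [indicator_of_mem hy, norm_smul]
      refine mul_le_mul_of_nonneg_right ?_ (norm_nonneg _)
      refine ((fderiv ℝ ψ _).le_opNorm _).trans ?_
      refine mul_le_mul (hC _) ?_ (norm_nonneg _) hC0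
      refine (norm_Kj_le _).trans ?_
      rw [hn]
      exact (mem_ball_zero_iff.mp hy).le
    · have hnot : extL (rotL k θ) y ∉ tsupport ψ := fun h6 => hy (by
        have h5 := hR h6
        rw [mem_ball_zero_iff, hn] at h5
        rwa [mem_ball_zero_iff])
      rw [hz2 _ hnot, indicator_of_notMem hy]
      simp
  · exact hint.norm.const_mul _
  · refine Eventually.of_forall fun y θ _ => ?_
    have h5 : HasDerivAt (fun θ => ψ (extL (rotL k θ) y))
        (fderiv ℝ ψ (extL (rotL k θ) y) (Kj k (extL (rotL k θ) y))) θ :=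
      (hψ.differentiable one_ne_zero _).hasFDerivAt.comp_hasDerivAt θ (hasDerivAt_rot θ y)
    exact h5.smul_const (v y)

theorem rotInt_eq (h : IsSobolev v D τ)
    (hrot : ∀ θ : ℝ, ∀ᵐ x ∂(volume.restrict (Half (k+2))),
      v (extL (rotL k θ) x) = extL (rotL k (2 * (2 * θ))) (v x))
    {ψ : Eu (k+2+1) → ℝ} (hψ : Continuous ψ) (hc : HasCompactSupport ψ) (θ : ℝ) :
    ∫ y in Half (k+2), ψ (extL (rotL k θ) y) • v y =
      extL (rotL k (2 * (2 * (-θ)))) (∫ y in Half (k+2), ψ y • v y) := by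
  have h1 := (mp_rot (k := k) (-θ)).integral_comp
    ((extL (rotL k (-θ))).toHomeomorph.measurableEmbedding)
    (fun y => ψ (extL (rotL k θ) y) • v y)
  rw [← h1]
  have h2 : ∀ x : Eu (k+2+1), extL (rotL k θ) (extL (rotL k (-θ)) x) = x := by
    intro x
    have := rot_neg (-θ) x
    rwa [neg_neg] at this
  have h3 := (extL (rotL k (2 * (2 * (-θ))))).toContinuousLinearEquiv.integral_comp_comm
    (μ := volume.restrict (Half (k+2))) (fun y => ψ y • v y)
  have h4 : extL (rotL k (2 * (2 * (-θ)))) (∫ y in Half (k+2), ψ y • v y) =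
      ∫ y in Half (k+2), extL (rotL k (2 * (2 * (-θ)))) (ψ y • v y) := h3.symm
  rw [h4]
  refine integral_congr_ae ?_
  filter_upwards [hrot (-θ)] with x hx
  rw [h2, hx, map_smul]

theorem rot_weak (h : IsSobolev v D τ)
    (hrot : ∀ θ : ℝ, ∀ᵐ x ∂(volume.restrict (Half (k+2))),
      v (extL (rotL k θ) x) = extL (rotL k (2 * (2 * θ))) (v x))
    {ψ : Eu (k+2+1) → ℝ} (hψ : ContDiff ℝ 1 ψ) (hc : HasCompactSupport ψ) :
    ∫ y in Half (k+2), (fderiv ℝ ψ y (Kj k y)) • v y =
      (-4 : ℝ) • Kj k (∫ y in Half (k+2), ψ y • v y) := by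
  have h1 := hasDerivAt_rotInt h hψ hc
  have h2 : (fun θ : ℝ => ∫ y in Half (k+2), ψ (extL (rotL k θ) y) • v y) =
      fun θ => extL (rotL k (2 * (2 * (-θ)))) (∫ y in Half (k+2), ψ y • v y) := by
    funext θ
    exact rotInt_eq h hrot hψ.continuous hc θ
  rw [h2] at h1
  set I := ∫ y in Half (k+2), ψ y • v y with hI
  have h3 : HasDerivAt (fun θ : ℝ => 2 * (2 * (-θ))) (2 * (2 * (-1))) 0 :=
    (((hasDerivAt_id (0:ℝ)).neg).const_mul 2).const_mul 2
  have h4 := (hasDerivAt_rot (2 * (2 * (-(0:ℝ)))) I).scomp (0:ℝ) h3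
  have h5 := h1.unique h4
  rw [h5]
  have h6 : extL (rotL k (2 * (2 * (-(0:ℝ))))) I = I := by
    rw [rot_eq]; simp
  rw [h6]
  norm_num

theorem rot_identity (h : IsSobolev v D τ)
    (hrot : ∀ θ : ℝ, ∀ᵐ x ∂(volume.restrict (Half (k+2))),
      v (extL (rotL k θ) x) = extL (rotL k (2 * (2 * θ))) (v x)) :
    ∀ᵐ x ∂(volume.restrict (Half (k+2))),
      x 1 • D x 2 - x 2 • D x 1 = (4:ℝ) • Kj k (v x) := by
  have hlp : ∀ R, MemLp (fun x => (x 1 • D x 2 - x 2 • D x 1) - (4:ℝ) • Kj k (v x))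
      ((k + 2 + 1 : ℕ) : ℝ≥0∞) (volume.restrict (Half (k+2) ∩ Metric.ball 0 R)) := by
    intro R
    have hb : ∀ᵐ x ∂(volume.restrict (Half (k+2) ∩ Metric.ball (0 : Eu (k+2+1)) R)),
        ‖x‖ ≤ R := by
      filter_upwards [ae_restrict_mem ((measurableSet_Om (k+2)).inter
        Metric.isOpen_ball.measurableSet)] with x hx
      exact (mem_ball_zero_iff.mp hx.2).le
    have cj : ∀ j, Continuous (fun x : Eu (k+2+1) => x j) := fun j =>
      (EuclideanSpace.proj (𝕜 := ℝ) j : Eu (k+2+1) →L[ℝ] ℝ).continuous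
    have hm : ∀ i j, MemLp (fun x => x j • D x i) ((k + 2 + 1 : ℕ) : ℝ≥0∞)
        (volume.restrict (Half (k+2) ∩ Metric.ball 0 R)) := by
      intro i j
      refine MemLp.of_le_mul (h.memLpD R i) ((cj j).aestronglyMeasurable.smul (h.memLpD R i).1)
        (c := R) ?_
      filter_upwards [hb] with x hx
      rw [norm_smul]
      refine mul_le_mul_of_nonneg_right ?_ (norm_nonneg _)
      exact (abs_coord_le x j).trans hx
    have hk : MemLp (fun x => (4:ℝ) • Kj k (v x)) ((k + 2 + 1 : ℕ) : ℝ≥0∞)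
        (volume.restrict (Half (k+2) ∩ Metric.ball 0 R)) := by
      have hk0 : MemLp (fun x => Kj k (v x)) ((k + 2 + 1 : ℕ) : ℝ≥0∞)
          (volume.restrict (Half (k+2) ∩ Metric.ball 0 R)) :=
        MemLp.of_le (h.memLp R) ((Kj k).continuous.comp_aestronglyMeasurable (h.memLp R).1)
          (Eventually.of_forall fun x => norm_Kj_le _)
      exact hk0.const_smul (4:ℝ)
    exact ((hm 2 1).sub (hm 1 2)).sub hk
  have hint : ∀ (f : Eu (k+2+1) → Eu (k+2+1)) (ψ : Eu (k+2+1) → ℝ),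
      (∀ R, MemLp f ((k + 2 + 1 : ℕ) : ℝ≥0∞) (volume.restrict (Half (k+2) ∩ Metric.ball 0 R))) →
      Continuous ψ → HasCompactSupport ψ → tsupport ψ ⊆ Half (k+2) →
      Integrable (fun x => ψ x • f x) := by
    intro f ψ hf h1 h2 h3
    exact Bubble.integrable_smul_of_locOn (Bubble.locInt_of_memLp hf subset_rfl) h1 h2 h3
  have key := (Bubble.isOpen_Half (k+2)).ae_eq_zero_of_integral_contDiff_smul_eq_zero
    (Bubble.locInt_of_memLp hlp subset_rfl) (fun ψ hψ hc hs => ?_)
  · have hHm : MeasurableSet (Half (k+2)) := measurableSet_Om (k+2)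
    rw [ae_restrict_iff' hHm]
    filter_upwards [key] with x hx hxH
    exact sub_eq_zero.mp (hx hxH)
  · have hψ1 : ContDiff ℝ 1 ψ := hψ.of_le (by exact_mod_cast le_top)
    have w := rot_weak h hrot hψ1 hc
    have hz1 : ∀ x, x ∉ tsupport ψ → ψ x = 0 := fun x hx => image_eq_zero_of_notMem_tsupport hx
    -- left side of the weak identity
    have cj : ∀ j, Continuous (fun x : Eu (k+2+1) => x j) := fun j =>
      (EuclideanSpace.proj (𝕜 := ℝ) j : Eu (k+2+1) →L[ℝ] ℝ).continuous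
    have hfdc : ∀ i, Continuous (fun x => fderiv ℝ ψ x (eb i)) := fun i =>
      (hψ1.continuous_fderiv one_ne_zero).clm_apply continuous_const
    have hcs : ∀ i j, HasCompactSupport (fun x : Eu (k+2+1) => x j * fderiv ℝ ψ x (eb i)) := by
      intro i j
      refine HasCompactSupport.intro hc (fun x hx => ?_)
      have : fderiv ℝ ψ x = 0 := by
        have : x ∉ Function.support (fderiv ℝ ψ) := fun hx' => hx (support_fderiv_subset ℝ hx')
        simpa using this
      rw [this]; simp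
    have hts : ∀ i j, tsupport (fun x : Eu (k+2+1) => x j * fderiv ℝ ψ x (eb i)) ⊆ Half (k+2) := by
      intro i j
      refine Subset.trans (closure_minimal ?_ (isClosed_tsupport ψ)) hs
      intro x hx
      by_contra hx'
      apply hx
      have : fderiv ℝ ψ x = 0 := by
        have : x ∉ Function.support (fderiv ℝ ψ) := fun hx'' => hx' (support_fderiv_subset ℝ hx'')
        simpa using this
      simp only [this]; simp
    have i1 : ∀ i j, Integrable (fun x => (x j * fderiv ℝ ψ x (eb i)) • v x) := fun i j =>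
      hint v _ h.memLp ((cj j).mul (hfdc i)) (hcs i j) (hts i j)
    have e1 : ∫ y in Half (k+2), (fderiv ℝ ψ y (Kj k y)) • v y =
        (∫ y in Half (k+2), (y 1 * fderiv ℝ ψ y (eb 2)) • v y) -
        ∫ y in Half (k+2), (y 2 * fderiv ℝ ψ y (eb 1)) • v y := by
      rw [← integral_sub (i1 2 1).integrableOn (i1 1 2).integrableOn]
      refine integral_congr_ae (Eventually.of_forall fun y => ?_)
      simp only
      rw [Kj_eq, map_add, map_smul, map_smul, ← sub_smul]
      congr 1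
      simp only [smul_eq_mul]
      ring
    rw [e1, ibp_mul h hψ1 hc hs f12.symm, ibp_mul h hψ1 hc hs f12] at w
    -- conclusion
    have i2 : ∀ i j, Integrable (fun x => (x j * ψ x) • D x i) := fun i j =>
      hint _ (fun x => x j * ψ x) (fun R => h.memLpD R i) ((cj j).mul hψ1.continuous)
        (hc.mul_left) ((tsupport_mul_subset_right).trans hs)
    have i3 : Integrable (fun x => ψ x • v x) := hint v ψ h.memLp hψ1.continuous hc hs
    have i4 : Integrable (fun x => ψ x • ((4:ℝ) • Kj k (v x))) := by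
      have h8 := ((Kj k).integrable_comp i3).smul (4:ℝ)
      refine h8.congr (Eventually.of_forall fun x => ?_)
      simp only [Pi.smul_apply]
      rw [map_smul, smul_comm]
    have hz : ∀ f : Eu (k+2+1) → Eu (k+2+1), ∫ x in Half (k+2), ψ x • f x = ∫ x, ψ x • f x :=
      fun f => setIntegral_eq_integral_of_forall_compl_eq_zero (fun x hx => by
        rw [hz1 x (fun h => hx (hs h))]; simp)
    rw [← hz]
    have e2 : ∫ x in Half (k+2), ψ x • ((x 1 • D x 2 - x 2 • D x 1) - (4:ℝ) • Kj k (v x)) =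
        ((∫ x in Half (k+2), (x 1 * ψ x) • D x 2) - ∫ x in Half (k+2), (x 2 * ψ x) • D x 1) -
        ∫ x in Half (k+2), ψ x • ((4:ℝ) • Kj k (v x)) := by
      have i5 : Integrable (fun x => (x 1 * ψ x) • D x 2 - (x 2 * ψ x) • D x 1) :=
        (i2 2 1).sub (i2 1 2)
      rw [← integral_sub (i2 2 1).integrableOn (i2 1 2).integrableOn,
        ← integral_sub i5.integrableOn i4.integrableOn]
      refine integral_congr_ae (Eventually.of_forall fun x => ?_)
      simp only
      rw [smul_sub, smul_sub, smul_smul, smul_smul, mul_comm (ψ x), mul_comm (ψ x)]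
    have e3 : ∫ x in Half (k+2), ψ x • ((4:ℝ) • Kj k (v x)) =
        (4:ℝ) • Kj k (∫ x in Half (k+2), ψ x • v x) := by
      rw [← (Kj k).integral_comp_comm i3.integrableOn, ← integral_smul]
      refine integral_congr_ae (Eventually.of_forall fun x => ?_)
      simp only
      rw [map_smul, smul_comm]
    rw [e2, e3]
    rw [neg_smul] at w
    have w2 : (∫ x in Half (k+2), (x 1 * ψ x) • D x 2) - ∫ x in Half (k+2), (x 2 * ψ x) • D x 1 =
        (4:ℝ) • Kj k (∫ y in Half (k+2), ψ y • v y) := by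
      have := congrArg (fun t => -t) w
      simp only [neg_neg] at this
      rw [← this]; abel
    rw [w2, sub_self]

end Pool.Agent.Helper42.Bub
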