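import Pool.Agent.Helper42.Bub.Rad
import Pool.Agent.Helper42.Bub.Rot2

/-!
Pointwise consequences of conformality.
-/

set_option maxHeartbeats 400000

open Filter Topology MeasureTheory Set
open scoped ENNReal InnerProductSpace NNReal

namespace Pool.Agent.Helper42.Bub

variable {k : ℕ}

/-- columns orthogonal with equal norms -/
def CF (D : Fin (k+2+1) → Eu (k+2+1)) (e : ℝ) : Prop :=
  ∀ i j, ⟪D i, D j⟫_ℝ = if i = j then e else 0

theorem CF.norm_sq {D : Fin (k+2+1) → Eu (k+2+1)} {e : ℝ} (h : CF D e) (i : Fin (k+2+1)) :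
    ‖D i‖ ^ 2 = e := by
  rw [← real_inner_self_eq_norm_sq, h i i, if_pos rfl]

theorem CF.nonneg {D : Fin (k+2+1) → Eu (k+2+1)} {e : ℝ} (h : CF D e) : 0 ≤ e := by
  rw [← h.norm_sq 0]; positivity

theorem CF.sum_inner {D : Fin (k+2+1) → Eu (k+2+1)} {e : ℝ} (h : CF D e) (p : Eu (k+2+1)) :
    ∑ i, ⟪D i, p⟫_ℝ ^ 2 = e * ‖p‖ ^ 2 := by
  rcases h.nonneg.eq_or_lt with he | he
  · have h0 : ∀ i, D i = 0 := fun i => by
      have := h.norm_sq i
      rw [← he] at this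
      simpa using this
    rw [← he, zero_mul]
    refine Finset.sum_eq_zero fun i _ => ?_
    rw [h0 i]; simp
  · set s : ℝ := √e with hs
    have hs0 : 0 < s := Real.sqrt_pos.mpr he
    have hs2 : s ^ 2 = e := Real.sq_sqrt he.le
    set b : Fin (k+2+1) → Eu (k+2+1) := fun i => s⁻¹ • D i with hb
    have hon : Orthonormal ℝ b := by
      rw [orthonormal_iff_ite]
      intro i j
      simp only [hb]
      rw [real_inner_smul_left, real_inner_smul_right, h i j]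
      split_ifs with hij
      · rw [← hs2]; field_simp
      · simp
    have hspan : ⊤ ≤ Submodule.span ℝ (Set.range b) := by
      rw [hon.linearIndependent.span_eq_top_of_card_eq_finrank (by simp)]
    have hpars := (OrthonormalBasis.mk hon hspan).sum_sq_norm_inner_right p
    have h1 : ∀ i, ‖⟪(OrthonormalBasis.mk hon hspan) i, p⟫_ℝ‖ ^ 2 = e⁻¹ * ⟪D i, p⟫_ℝ ^ 2 := by
      intro i
      rw [OrthonormalBasis.coe_mk]
      simp only [hb]
      rw [real_inner_smul_left, Real.norm_eq_abs, sq_abs, mul_pow, inv_pow, hs2]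
    simp_rw [h1] at hpars
    rw [← Finset.mul_sum] at hpars
    rw [← hpars]
    field_simp

theorem inner_eb (p : Eu (k+2+1)) (j : Fin (k+2+1)) : ⟪p, eb j⟫_ℝ = p j := by
  rw [EuclideanSpace.inner_single_right]; simp

theorem CF.sum_Pj {D : Fin (k+2+1) → Eu (k+2+1)} {e : ℝ} (h : CF D e) :
    ∑ i, ⟪D i, Pj k (D i)⟫_ℝ = 2 * e := by
  have h1 : ∀ i, ⟪D i, Pj k (D i)⟫_ℝ = ⟪D i, eb 1⟫_ℝ ^ 2 + ⟪D i, eb 2⟫_ℝ ^ 2 := by
    intro i
    rw [real_inner_comm, inner_Pj, inner_eb, inner_eb]; ring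
  simp_rw [h1]
  rw [Finset.sum_add_distrib, h.sum_inner, h.sum_inner]
  simp
  ring

theorem CF.rot {D : Fin (k+2+1) → Eu (k+2+1)} {e : ℝ} (h : CF D e) {x v : Eu (k+2+1)}
    (hrot : x 1 • D 2 - x 2 • D 1 = (4:ℝ) • Kj k v) : Sq k x * e = 16 * Sq k v := by
  have h1 : ‖x 1 • D 2 - x 2 • D 1‖ ^ 2 = Sq k x * e := by
    rw [← real_inner_self_eq_norm_sq, inner_sub_left, inner_sub_right, inner_sub_right]
    simp only [real_inner_smul_left, real_inner_smul_right]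
    rw [h 2 2, h 2 1, h 1 2, h 1 1, if_pos rfl, if_pos rfl, if_neg f12, if_neg f12.symm]
    unfold Sq
    rw [norm_Pj_sq]
    ring
  rw [← h1, hrot, norm_smul, mul_pow, norm_Kj_sq]
  unfold Sq
  norm_num

theorem CF.rE {D : Fin (k+2+1) → Eu (k+2+1)} {e : ℝ} (h : CF D e) {x v : Eu (k+2+1)}
    (hrot : x 1 • D 2 - x 2 • D 1 = (4:ℝ) • Kj k v) : ‖Pj k x‖ * √e = 4 * ‖Pj k v‖ := by
  have h1 := h.rot hrot
  have h2 : (‖Pj k x‖ * √e) ^ 2 = (4 * ‖Pj k v‖) ^ 2 := by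
    rw [mul_pow, Real.sq_sqrt h.nonneg]
    unfold Sq at h1
    rw [h1]; ring
  exact (pow_left_inj₀ (by positivity) (by positivity) two_ne_zero).mp h2

theorem CF.bound {D : Fin (k+2+1) → Eu (k+2+1)} {e : ℝ} (h : CF D e) {x v : Eu (k+2+1)}
    (hrot : x 1 • D 2 - x 2 • D 1 = (4:ℝ) • Kj k v) (i : Fin (k+2+1)) :
    ‖Pj k x‖ * |⟪Pj k v, D i⟫_ℝ| ≤ 4 * Sq k v := by
  have h1 := h.rE hrot
  have h2 := inner_Pj_abs_le v (D i)
  have h3 : ‖D i‖ = √e := by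
    rw [← h.norm_sq i, Real.sqrt_sq (norm_nonneg _)]
  rw [h3] at h2
  calc ‖Pj k x‖ * |⟪Pj k v, D i⟫_ℝ| ≤ ‖Pj k x‖ * (‖Pj k v‖ * √e) :=
        mul_le_mul_of_nonneg_left h2 (norm_nonneg _)
    _ = (‖Pj k x‖ * √e) * ‖Pj k v‖ := by ring
    _ = 4 * Sq k v := by rw [h1]; unfold Sq; ring

end Pool.Agent.Helper42.Bub
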