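import Mathlib

/-!
Definitions for MP_138ac9_an: Sobolev maps on the half-space, bubbles, conformality.

Throughout `n = m + 1`, so the half-space is `ℝ^n_+ ⊆ ℝ^(m+1)` and its boundary is `ℝ^m`.
-/

open MeasureTheory Filter Topology
open scoped ENNReal InnerProductSpace

namespace Pool.Agent.Helper42.Bubble

/-- The open half-space `ℝ^n_+` (`n = m + 1`): the coordinate number `0` is positive. -/
def Half (m : ℕ) : Set (EuclideanSpace ℝ (Fin (m + 1))) := {x | 0 < x 0}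

/-- The boundary point `(0, y)` of the half-space, `y ∈ ℝ^m`. -/
def bdry {m : ℕ} (y : EuclideanSpace ℝ (Fin m)) : EuclideanSpace ℝ (Fin (m + 1)) :=
  WithLp.toLp 2 (Fin.cons 0 (WithLp.ofLp y))

/-- `v` belongs to `W^{1,n}_loc` of the closed half-space, with weak partial derivatives `D x i`
and trace `τ` on the boundary: on every half-ball, `v`, its partial derivatives and its trace are
simultaneous `L^n` limits of a sequence of `C^1` maps on `ℝ^n` (restricted to the half-ball),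
of their partial derivatives, and of their boundary values. -/
structure IsSobolev {m : ℕ} {V : Type*} [NormedAddCommGroup V] [NormedSpace ℝ V]
    (v : EuclideanSpace ℝ (Fin (m + 1)) → V)
    (D : EuclideanSpace ℝ (Fin (m + 1)) → Fin (m + 1) → V)
    (τ : EuclideanSpace ℝ (Fin m) → V) : Prop where
  meas : AEStronglyMeasurable v (volume.restrict (Half m))
  measD : ∀ i, AEStronglyMeasurable (fun x => D x i) (volume.restrict (Half m))
  measT : AEStronglyMeasurable τ volume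
  approx : ∀ R : ℝ, ∃ w : ℕ → EuclideanSpace ℝ (Fin (m + 1)) → V,
    (∀ j, ContDiff ℝ 1 (w j)) ∧
    Tendsto (fun j => eLpNorm (fun x => w j x - v x) ((m + 1 : ℕ) : ℝ≥0∞)
      (volume.restrict (Half m ∩ Metric.ball 0 R))) atTop (𝓝 0) ∧
    (∀ i, Tendsto (fun j => eLpNorm
      (fun x => fderiv ℝ (w j) x (EuclideanSpace.single i (1 : ℝ)) - D x i)
      ((m + 1 : ℕ) : ℝ≥0∞) (volume.restrict (Half m ∩ Metric.ball 0 R))) atTop (𝓝 0)) ∧
    Tendsto (fun j => eLpNorm (fun y => w j (bdry y) - τ y) ((m + 1 : ℕ) : ℝ≥0∞)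
      (volume.restrict (Metric.ball 0 R))) atTop (𝓝 0)

/-- The squared Hilbert-Schmidt norm `|dv(x)|^2`. -/
noncomputable def normSq {m d : ℕ}
    (D : EuclideanSpace ℝ (Fin (m + 1)) → Fin (m + 1) → EuclideanSpace ℝ (Fin d))
    (x : EuclideanSpace ℝ (Fin (m + 1))) : ℝ := ∑ i, ‖D x i‖ ^ 2

/-- The integrand `|dv|^{n-2} ⟨dv, dΦ⟩` (`n - 2 = m - 1`). -/
noncomputable def pairing {m d : ℕ}
    (D DΦ : EuclideanSpace ℝ (Fin (m + 1)) → Fin (m + 1) → EuclideanSpace ℝ (Fin d))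
    (x : EuclideanSpace ℝ (Fin (m + 1))) : ℝ :=
  Real.sqrt (normSq D x) ^ (m - 1) * ∑ i, ⟪D x i, DΦ x i⟫_ℝ

/-- A bubble: a finite energy free-boundary `n`-harmonic map `v` from the half-space `ℝ^n_+`,
`n = m + 1`, with boundary values `τ` in the unit sphere of `ℝ^d`; `D` is its weak differential.
The test maps are all `Φ ∈ W^{1,n}(ℝ^n_+; ℝ^d)` with bounded support and `Φ · v = 0` a.e. on the
boundary. -/
structure IsBubble {m d : ℕ} (v : EuclideanSpace ℝ (Fin (m + 1)) → EuclideanSpace ℝ (Fin d))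
    (D : EuclideanSpace ℝ (Fin (m + 1)) → Fin (m + 1) → EuclideanSpace ℝ (Fin d))
    (τ : EuclideanSpace ℝ (Fin m) → EuclideanSpace ℝ (Fin d)) : Prop where
  sobolev : IsSobolev v D τ
  energy : Integrable (fun x => Real.sqrt (normSq D x) ^ (m + 1)) (volume.restrict (Half m))
  unit : ∀ᵐ y, ‖τ y‖ = 1
  weak : ∀ (Φ : EuclideanSpace ℝ (Fin (m + 1)) → EuclideanSpace ℝ (Fin d))
    (DΦ : EuclideanSpace ℝ (Fin (m + 1)) → Fin (m + 1) → EuclideanSpace ℝ (Fin d))
    (τΦ : EuclideanSpace ℝ (Fin m) → EuclideanSpace ℝ (Fin d)),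
    IsSobolev Φ DΦ τΦ →
    (∃ R : ℝ, ∀ᵐ x ∂(volume.restrict (Half m)), R < ‖x‖ → Φ x = 0) →
    (∀ᵐ y, ⟪τΦ y, τ y⟫_ℝ = 0) →
    Integrable (pairing D DΦ) (volume.restrict (Half m)) ∧
      ∫ x in Half m, pairing D DΦ x = 0

/-- Conformality: `dv(x)^T dv(x) = (1/n) |dv(x)|^2 I_n` for a.e. `x` in the half-space. -/
def IsConformal {m d : ℕ}
    (D : EuclideanSpace ℝ (Fin (m + 1)) → Fin (m + 1) → EuclideanSpace ℝ (Fin d)) : Prop :=
  ∀ᵐ x ∂(volume.restrict (Half m)), ∀ i j,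
    ⟪D x i, D x j⟫_ℝ = if i = j then normSq D x / ((m : ℝ) + 1) else 0

end Pool.Agent.Helper42.Bubble
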