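import Pool.Agent.Helper42.Bub.Rot

/-!
Radial functions of the plane part.
-/

set_option maxHeartbeats 400000

open Filter Topology MeasureTheory Set
open scoped ENNReal InnerProductSpace NNReal ContDiff

namespace Pool.Agent.Helper42.Bub

variable {k : ℕ}

theorem inner_Pj (p q : Eu (k+2+1)) : ⟪Pj k p, q⟫_ℝ = p 1 * q 1 + p 2 * q 2 := by
  rw [PiLp.inner_apply, Fin.sum_univ_succ, Fin.sum_univ_succ, Fin.sum_univ_succ]
  have h0 : ⟪Pj k p 0, q 0⟫_ℝ = 0 := by rw [Pj_0]; simp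
  have h1 : ⟪Pj k p (Fin.succ 0), q (Fin.succ 0)⟫_ℝ = p 1 * q 1 := by
    change q 1 * p 1 = _; ring
  have h2 : ⟪Pj k p (Fin.succ (Fin.succ 0)), q (Fin.succ (Fin.succ 0))⟫_ℝ = p 2 * q 2 := by
    change q 2 * p 2 = _; ring
  have h3 : ∑ i : Fin k, ⟪Pj k p i.succ.succ.succ, q i.succ.succ.succ⟫_ℝ = 0 := by
    refine Finset.sum_eq_zero fun i _ => ?_
    rw [Pj_s]; simp
  rw [h0, h1, h2, h3]; ring

theorem inner_Pj_Pj (p q : Eu (k+2+1)) : ⟪Pj k p, Pj k q⟫_ℝ = ⟪Pj k p, q⟫_ℝ := by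
  rw [inner_Pj, inner_Pj, Pj_1, Pj_2]

theorem norm_Pj_sq (p : Eu (k+2+1)) : ‖Pj k p‖ ^ 2 = p 1 ^ 2 + p 2 ^ 2 := by
  rw [← real_inner_self_eq_norm_sq, inner_Pj, Pj_1, Pj_2]; ring

theorem norm_Kj_sq (p : Eu (k+2+1)) : ‖Kj k p‖ ^ 2 = ‖Pj k p‖ ^ 2 := by
  rw [norm_sq_3, norm_Pj_sq, Kj_0, Kj_1, Kj_2]
  simp only [Kj_s]
  simp
  ring

theorem norm_Pj_le (p : Eu (k+2+1)) : ‖Pj k p‖ ≤ ‖p‖ := by
  have h1 := norm_Pj_sq p
  have h2 := norm_sq_3 p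
  have h3 : 0 ≤ ∑ i : Fin k, p i.succ.succ.succ ^ 2 := Finset.sum_nonneg fun i _ => sq_nonneg _
  have h5 : ‖Pj k p‖ ^ 2 ≤ ‖p‖ ^ 2 := by rw [h1, h2]; nlinarith [sq_nonneg (p 0)]
  exact (pow_le_pow_iff_left₀ (norm_nonneg _) (norm_nonneg _) two_ne_zero).mp h5

/-- squared norm of the plane part -/
noncomputable def Sq (k : ℕ) (a : Eu (k+2+1)) : ℝ := ‖Pj k a‖ ^ 2

theorem Sq_nonneg (a : Eu (k+2+1)) : 0 ≤ Sq k a := by unfold Sq; positivity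

theorem contDiff_Sq : ContDiff ℝ 1 (Sq k) := by
  unfold Sq
  exact (contDiff_norm_sq ℝ).comp (Pj k).contDiff

theorem hasFDerivAt_Sq (a : Eu (k+2+1)) : HasFDerivAt (Sq k) ((2:ℝ) • innerSL ℝ (Pj k a)) a := by
  have h1 : HasFDerivAt (fun x : Eu (k+2+1) => ‖x‖ ^ 2) ((2:ℝ) • innerSL ℝ (Pj k a)) (Pj k a) := by
    have := (hasStrictFDerivAt_norm_sq (Pj k a)).hasFDerivAt
    refine this.congr_fderiv ?_
    ext y; simp
  have h2 := h1.comp a (Pj k).hasFDerivAt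
  refine h2.congr_fderiv ?_
  refine ContinuousLinearMap.ext fun u => ?_
  simp only [ContinuousLinearMap.comp_apply, smul_apply, innerSL_apply_apply]
  rw [inner_Pj_Pj]

theorem Sq'_apply (a c : Eu (k+2+1)) : fderiv ℝ (Sq k) a c = 2 * ⟪Pj k a, c⟫_ℝ := by
  rw [(hasFDerivAt_Sq a).fderiv]
  simp

theorem inner_Pj_abs_le (a c : Eu (k+2+1)) : |⟪Pj k a, c⟫_ℝ| ≤ ‖Pj k a‖ * ‖c‖ :=
  abs_real_inner_le_norm _ _

/-- The approximate indicator `s/(s+ε)`. -/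
noncomputable def Ap (k : ℕ) (ε : ℝ) (p : Eu (k+2+1) × Eu (k+2+1)) : ℝ :=
  Sq k p.1 * (Sq k p.1 + ε)⁻¹

theorem contDiff_Ap {ε : ℝ} (hε : 0 < ε) : ContDiff ℝ 1 (Ap k ε) := by
  unfold Ap
  have h1 : ContDiff ℝ 1 (fun p : Eu (k+2+1) × Eu (k+2+1) => Sq k p.1) :=
    contDiff_Sq.comp contDiff_fst
  refine h1.mul ((h1.add contDiff_const).inv (fun p => ?_))
  have := Sq_nonneg p.1
  linarith

theorem Ap'_apply {ε : ℝ} (hε : 0 < ε) (a b c d : Eu (k+2+1)) :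
    fderiv ℝ (Ap k ε) (a, b) (c, d) = ε * ((Sq k a + ε)⁻¹) ^ 2 * (2 * ⟪Pj k a, c⟫_ℝ) := by
  have hf : HasFDerivAt (Prod.fst : Eu (k+2+1) × Eu (k+2+1) → Eu (k+2+1))
      (ContinuousLinearMap.fst ℝ (Eu (k+2+1)) (Eu (k+2+1))) (a, b) := hasFDerivAt_fst
  have h1 : HasFDerivAt (fun p : Eu (k+2+1) × Eu (k+2+1) => Sq k p.1)
      ((fderiv ℝ (Sq k) a).comp (ContinuousLinearMap.fst ℝ (Eu (k+2+1)) (Eu (k+2+1)))) (a, b) :=
    HasFDerivAt.comp (g := Sq k) (a, b)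
      (contDiff_Sq.differentiable one_ne_zero a).hasFDerivAt hf
  have hne : Sq k a + ε ≠ 0 := by have := Sq_nonneg a; linarith
  have h2 := (hasDerivAt_inv hne).comp_hasFDerivAt (a, b) (h1.add_const ε)
  have h3 := h1.mul h2
  have h4 : fderiv ℝ (Ap k ε) (a, b) = _ := h3.fderiv
  rw [h4]
  simp only [add_apply, smul_apply, ContinuousLinearMap.comp_apply, ContinuousLinearMap.coe_fst',
    smul_eq_mul, Function.comp_apply]
  rw [Sq'_apply]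
  field_simp
  ring

theorem Ap'_bound {ε : ℝ} (hε : 0 < ε) (a b c d : Eu (k+2+1)) :
    |fderiv ℝ (Ap k ε) (a, b) (c, d)| ≤ (1 + ε⁻¹) * ‖c‖ := by
  have h0 := Sq_nonneg a
  rw [Ap'_apply hε, abs_mul, abs_mul (2:ℝ), abs_two,
    abs_of_nonneg (show 0 ≤ ε * ((Sq k a + ε)⁻¹) ^ 2 by positivity)]
  have h1 := inner_Pj_abs_le a c
  have hne : 0 < Sq k a + ε := by linarith
  have h2 : 2 * ‖Pj k a‖ ≤ (1 + ε⁻¹) * (Sq k a + ε) := by
    have h3 : 2 * ‖Pj k a‖ ≤ 1 + Sq k a := by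
      unfold Sq; nlinarith [sq_nonneg (‖Pj k a‖ - 1)]
    have h4 : (1 + ε⁻¹) * (Sq k a + ε) = Sq k a + ε + ε⁻¹ * Sq k a + 1 := by
      field_simp
      ring
    rw [h4]
    have : 0 ≤ ε⁻¹ * Sq k a := by positivity
    linarith
  calc ε * ((Sq k a + ε)⁻¹) ^ 2 * (2 * |⟪Pj k a, c⟫_ℝ|)
      ≤ ε * ((Sq k a + ε)⁻¹) ^ 2 * (((1 + ε⁻¹) * (Sq k a + ε)) * ‖c‖) := by
        refine mul_le_mul_of_nonneg_left ?_ (by positivity)
        nlinarith [norm_nonneg c]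
    _ = (ε * (Sq k a + ε)⁻¹) * ((1 + ε⁻¹) * ‖c‖) := by
        field_simp
    _ ≤ 1 * ((1 + ε⁻¹) * ‖c‖) := by
        refine mul_le_mul_of_nonneg_right ?_ (by positivity)
        rw [← div_eq_mul_inv, div_le_one hne]
        linarith
    _ = _ := one_mul _

theorem Ap_lip {ε : ℝ} (hε : 0 < ε) : LipschitzWith (Real.toNNReal (1 + ε⁻¹)) (Ap k ε) := by
  refine lipschitzWith_of_nnnorm_fderiv_le ((contDiff_Ap hε).differentiable one_ne_zero) ?_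
  intro p
  rw [← NNReal.coe_le_coe, coe_nnnorm, Real.coe_toNNReal _ (by positivity)]
  refine ContinuousLinearMap.opNorm_le_bound _ (by positivity) (fun q => ?_)
  obtain ⟨a, b⟩ := p
  obtain ⟨c, d⟩ := q
  refine (Ap'_bound hε a b c d).trans ?_
  exact mul_le_mul_of_nonneg_left (norm_fst_le (c, d)) (by positivity)

theorem Ap_zero (ε : ℝ) : Ap k ε 0 = 0 := by
  unfold Ap Sq
  simp

/-- The map `(s+ε)^q Pj a`. -/
noncomputable def Hp (k : ℕ) (ε q : ℝ) (p : Eu (k+2+1) × Eu (k+2+1)) : Eu (k+2+1) :=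
  ((Sq k p.1 + ε) ^ q) • Pj k p.1

theorem contDiff_Hp {ε : ℝ} (hε : 0 < ε) (q : ℝ) : ContDiff ℝ 1 (Hp k ε q) := by
  unfold Hp
  have h1 : ContDiff ℝ 1 (fun p : Eu (k+2+1) × Eu (k+2+1) => Sq k p.1) :=
    contDiff_Sq.comp contDiff_fst
  have h2 : ContDiff ℝ 1 (fun p : Eu (k+2+1) × Eu (k+2+1) => Pj k p.1) :=
    (Pj k).contDiff.comp contDiff_fst
  have h3 : ContDiff ℝ 1 (fun p : Eu (k+2+1) × Eu (k+2+1) => (Sq k p.1 + ε) ^ q) := by
    refine (h1.add contDiff_const).rpow_const_of_ne (fun p => ?_)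
    have := Sq_nonneg p.1
    linarith
  exact h3.smul h2

theorem Hp'_apply {ε : ℝ} (hε : 0 < ε) (q : ℝ) (a b c d : Eu (k+2+1)) :
    fderiv ℝ (Hp k ε q) (a, b) (c, d) = ((Sq k a + ε) ^ q) • Pj k c +
      (q * (Sq k a + ε) ^ (q - 1) * (2 * ⟪Pj k a, c⟫_ℝ)) • Pj k a := by
  have hf : HasFDerivAt (Prod.fst : Eu (k+2+1) × Eu (k+2+1) → Eu (k+2+1))
      (ContinuousLinearMap.fst ℝ (Eu (k+2+1)) (Eu (k+2+1))) (a, b) := hasFDerivAt_fst
  have h1 : HasFDerivAt (fun p : Eu (k+2+1) × Eu (k+2+1) => Sq k p.1)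
      ((fderiv ℝ (Sq k) a).comp (ContinuousLinearMap.fst ℝ (Eu (k+2+1)) (Eu (k+2+1)))) (a, b) :=
    HasFDerivAt.comp (g := Sq k) (a, b)
      (contDiff_Sq.differentiable one_ne_zero a).hasFDerivAt hf
  have hP : HasFDerivAt (fun p : Eu (k+2+1) × Eu (k+2+1) => Pj k p.1)
      ((Pj k).comp (ContinuousLinearMap.fst ℝ (Eu (k+2+1)) (Eu (k+2+1)))) (a, b) :=
    HasFDerivAt.comp (g := Pj k) (a, b) (Pj k).hasFDerivAt hf
  have hne : Sq k a + ε ≠ 0 := by have := Sq_nonneg a; linarith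
  have h2 := (Real.hasDerivAt_rpow_const (x := Sq k a + ε) (p := q) (Or.inl hne)).comp_hasFDerivAt
    (a, b) (h1.add_const ε)
  have h3 := h2.smul hP
  have h4 : fderiv ℝ (Hp k ε q) (a, b) = _ := h3.fderiv
  rw [h4]
  simp only [add_apply, smul_apply, ContinuousLinearMap.comp_apply, ContinuousLinearMap.coe_fst',
    smul_eq_mul, Function.comp_apply, ContinuousLinearMap.smulRight_apply]
  rw [Sq'_apply]

theorem Hp'_bound {ε q : ℝ} (hε : 0 < ε) (hq : q ≤ 0) (a b c d : Eu (k+2+1)) :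
    ‖fderiv ℝ (Hp k ε q) (a, b) (c, d)‖ ≤ ((1 + 2 * |q|) * ε ^ q) * ‖c‖ := by
  rw [Hp'_apply hε]
  have h0 := Sq_nonneg a
  have hne : 0 < Sq k a + ε := by linarith
  have h1 : (Sq k a + ε) ^ q ≤ ε ^ q := Real.rpow_le_rpow_of_nonpos hε (by linarith) hq
  have h2 : 0 < (Sq k a + ε) ^ q := Real.rpow_pos_of_pos hne q
  have h3 : (Sq k a + ε) ^ (q - 1) * (Sq k a + ε) = (Sq k a + ε) ^ q := by
    rw [Real.rpow_sub_one hne.ne']; field_simp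
  have h4 : 0 < (Sq k a + ε) ^ (q - 1) := Real.rpow_pos_of_pos hne _
  refine (norm_add_le _ _).trans ?_
  rw [norm_smul, norm_smul, Real.norm_of_nonneg h2.le, norm_mul, norm_mul, Real.norm_eq_abs,
    Real.norm_of_nonneg h4.le, Real.norm_eq_abs, abs_mul, abs_two]
  have h5 := inner_Pj_abs_le a c
  have h6 := norm_Pj_le c
  have hn := norm_nonneg c
  have h7 : (Sq k a + ε) ^ q * ‖Pj k c‖ ≤ ε ^ q * ‖c‖ :=
    mul_le_mul h1 h6 (norm_nonneg _) (h2.le.trans h1)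
  have h8 : |q| * (Sq k a + ε) ^ (q - 1) * (2 * |⟪Pj k a, c⟫_ℝ|) * ‖Pj k a‖ ≤
      2 * |q| * (ε ^ q * ‖c‖) := by
    calc |q| * (Sq k a + ε) ^ (q - 1) * (2 * |⟪Pj k a, c⟫_ℝ|) * ‖Pj k a‖
        ≤ |q| * (Sq k a + ε) ^ (q - 1) * (2 * (‖Pj k a‖ * ‖c‖)) * ‖Pj k a‖ := by
          refine mul_le_mul_of_nonneg_right ?_ (norm_nonneg _)
          refine mul_le_mul_of_nonneg_left ?_ (by positivity)
          linarith
      _ = 2 * |q| * (((Sq k a + ε) ^ (q - 1) * Sq k a) * ‖c‖) := by unfold Sq; ring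
      _ ≤ 2 * |q| * (((Sq k a + ε) ^ (q - 1) * (Sq k a + ε)) * ‖c‖) := by
          refine mul_le_mul_of_nonneg_left ?_ (by positivity)
          refine mul_le_mul_of_nonneg_right ?_ hn
          exact mul_le_mul_of_nonneg_left (by linarith) h4.le
      _ = 2 * |q| * ((Sq k a + ε) ^ q * ‖c‖) := by rw [h3]
      _ ≤ 2 * |q| * (ε ^ q * ‖c‖) := by
          refine mul_le_mul_of_nonneg_left ?_ (by positivity)
          exact mul_le_mul_of_nonneg_right h1 hn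
  linarith

theorem Hp_lip {ε q : ℝ} (hε : 0 < ε) (hq : q ≤ 0) :
    LipschitzWith (Real.toNNReal ((1 + 2 * |q|) * ε ^ q)) (Hp k ε q) := by
  have hp : 0 < ε ^ q := Real.rpow_pos_of_pos hε q
  refine lipschitzWith_of_nnnorm_fderiv_le ((contDiff_Hp hε q).differentiable one_ne_zero) ?_
  intro p
  rw [← NNReal.coe_le_coe, coe_nnnorm, Real.coe_toNNReal _ (by positivity)]
  refine ContinuousLinearMap.opNorm_le_bound _ (by positivity) (fun r => ?_)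
  obtain ⟨a, b⟩ := p
  obtain ⟨c, d⟩ := r
  refine (Hp'_bound hε hq a b c d).trans ?_
  exact mul_le_mul_of_nonneg_left (norm_fst_le (c, d)) (by positivity)

theorem Hp_zero (ε q : ℝ) : Hp k ε q 0 = 0 := by
  unfold Hp
  simp

end Pool.Agent.Helper42.Bub
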