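import Pool.Agent.Helper42.Bub.Bridge1
import Pool.Agent.Helper42.Bub.Chain
import Pool.Agent.Helper42.Bub.Rad
import Pool.Agent.Helper42.Bub.Weak3

/-!
The plane part vanishes almost everywhere or almost nowhere.
-/

set_option maxHeartbeats 400000

open Filter Topology MeasureTheory Set
open scoped ENNReal InnerProductSpace NNReal ContDiff

namespace Pool.Agent.Helper42.Bub

open Pool.Agent.Helper42.Bubble (Half bdry IsSobolev)

variable {k : ℕ}

/-- indicator of the nonvanishing set -/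
noncomputable def gi (k : ℕ) (v : Eu (k+2+1) → Eu (k+2+1)) (x : Eu (k+2+1)) : ℝ :=
  if Pj k (v x) = 0 then 0 else 1

theorem gi_le (v : Eu (k+2+1) → Eu (k+2+1)) (x : Eu (k+2+1)) : ‖gi k v x‖ ≤ 1 := by
  unfold gi
  split_ifs <;> simp

theorem measurable_gi {v : Eu (k+2+1) → Eu (k+2+1)} (hv : StronglyMeasurable v) :
    StronglyMeasurable (gi k v) := by
  have h1 : Measurable (fun x => Pj k (v x)) := (Pj k).continuous.measurable.comp hv.measurable
  have h2 : MeasurableSet {x | Pj k (v x) = 0} := h1 (measurableSet_singleton 0)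
  exact (Measurable.ite h2 measurable_const measurable_const).stronglyMeasurable

theorem ap_tendsto {s : ℝ} (hs : 0 ≤ s) {ε : ℕ → ℝ} (hε : ∀ j, 0 < ε j)
    (hε0 : Tendsto ε atTop (𝓝 0)) :
    Tendsto (fun j => s * (s + ε j)⁻¹) atTop (𝓝 (if s = 0 then 0 else 1)) := by
  split_ifs with h
  · rw [h]; simp
  · have h1 : Tendsto (fun j => s * (s + ε j)⁻¹) atTop (𝓝 (s * (s + 0)⁻¹)) :=
      ((hε0.const_add s).inv₀ (by simpa using h)).const_mul s
    have h2 : s * (s + 0)⁻¹ = 1 := by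
      rw [add_zero]; field_simp
    rwa [h2] at h1

theorem ap2_tendsto {s : ℝ} (hs : 0 < s) {ε : ℕ → ℝ}
    (hε0 : Tendsto ε atTop (𝓝 0)) (c : ℝ) :
    Tendsto (fun j => ε j * ((s + ε j)⁻¹) ^ 2 * c) atTop (𝓝 0) := by
  have h1 : Tendsto (fun j => ε j * ((s + ε j)⁻¹) ^ 2 * c) atTop (𝓝 (0 * ((s + 0)⁻¹) ^ 2 * c)) :=
    (hε0.mul (((hε0.const_add s).inv₀ (by simpa using hs.ne')).pow 2)).mul_const c
  simpa using h1

theorem ap_bound {s ε r t c : ℝ} (hs : 0 ≤ s) (hε : 0 < ε) (hc : 0 < c) (hr : c ≤ r)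
    (h : r * |t| ≤ 4 * s) : |ε * ((s + ε)⁻¹) ^ 2 * (2 * t)| ≤ 2 / c := by
  have hne : 0 < s + ε := by linarith
  rw [abs_mul, abs_mul 2 t, abs_two, abs_of_nonneg (show 0 ≤ ε * ((s + ε)⁻¹) ^ 2 by positivity)]
  have h1 : c * |t| ≤ 4 * s := le_trans (mul_le_mul_of_nonneg_right hr (abs_nonneg t)) h
  rw [le_div_iff₀ hc]
  have h2 : ε * ((s + ε)⁻¹) ^ 2 * (2 * |t|) * c = 2 * (ε * ((s + ε)⁻¹) ^ 2) * (c * |t|) := by ring
  rw [h2]
  have h3 : 2 * (ε * ((s + ε)⁻¹) ^ 2) * (c * |t|) ≤ 2 * (ε * ((s + ε)⁻¹) ^ 2) * (4 * s) :=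
    mul_le_mul_of_nonneg_left h1 (by positivity)
  refine h3.trans ?_
  have h4 : 2 * (ε * ((s + ε)⁻¹) ^ 2) * (4 * s) = 2 * ((4 * (ε * s)) / (s + ε) ^ 2) := by
    field_simp
  rw [h4]
  have h5 : (4 * (ε * s)) / (s + ε) ^ 2 ≤ 1 := by
    rw [div_le_one (by positivity)]
    nlinarith [sq_nonneg (s - ε)]
  linarith

theorem gi_weak {z : ZZ (k+2) (Eu (k+2+1))} (hz : z ∈ XX (k+2) (Eu (k+2+1)))
    (hb : ∀ᵐ x ∂(volume.restrict (Half (k+2))), ∀ i : Fin (k+2+1),
      ‖Pj k x‖ * |⟪Pj k (z.1 x), wt x • z.2.1 x i⟫_ℝ| ≤ 4 * Sq k (z.1 x))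
    {U : Set (Eu (k+2+1))} (hUH : U ⊆ Half (k+2)) (hUP : ∀ x ∈ U, Pj k x ≠ 0)
    {ψ : Eu (k+2+1) → ℝ} (hψ : ContDiff ℝ ∞ ψ) (hc : HasCompactSupport ψ) (hs : tsupport ψ ⊆ U)
    (i : Fin (k+2+1)) : ∫ x, fderiv ℝ ψ x (EuclideanSpace.single i (1:ℝ)) • gi k z.1 x = 0 := by
  have hψ1 : ContDiff ℝ 1 ψ := hψ.of_le (by exact_mod_cast le_top)
  set ε : ℕ → ℝ := fun j => 1 / ((j:ℝ) + 1) with hεd
  have hε : ∀ j, 0 < ε j := fun j => by simp only [hεd]; positivity
  have hε0 : Tendsto ε atTop (𝓝 0) := tendsto_one_div_add_atTop_nhds_zero_nat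
  choose Z hZX hZ using fun j => exists_comp (contDiff_Ap (k := k) (hε j)) (Ap_lip (hε j))
    (Ap_zero (ε j)) hz hz
  have hsob := fun j => sobolev_of_mem (hZX j)
  -- lower bound for the distance to the axis
  obtain ⟨c, hc0, hcb⟩ : ∃ c : ℝ, 0 < c ∧ ∀ x ∈ tsupport ψ, c ≤ ‖Pj k x‖ := by
    rcases (tsupport ψ).eq_empty_or_nonempty with he | hne
    · exact ⟨1, one_pos, fun x hx => by rw [he] at hx; exact absurd hx (notMem_empty x)⟩
    · obtain ⟨x₀, hx₀, hmin⟩ := hc.exists_isMinOn hne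
        (((Pj k).continuous.norm).continuousOn)
      exact ⟨‖Pj k x₀‖, norm_pos_iff.mpr (hUP x₀ (hs hx₀)), fun x hx => hmin hx⟩
  have hz1 : ∀ x, x ∉ tsupport ψ → ψ x = 0 := fun x hx => image_eq_zero_of_notMem_tsupport hx
  have hz2 : ∀ x, x ∉ tsupport ψ → fderiv ℝ ψ x = 0 := fun x hx => by
    have : x ∉ Function.support (fderiv ℝ ψ) := fun hx' => hx (support_fderiv_subset ℝ hx')
    simpa using this
  have cψ : Continuous (fun x => fderiv ℝ ψ x (EuclideanSpace.single i (1 : ℝ))) :=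
    (hψ1.continuous_fderiv one_ne_zero).clm_apply continuous_const
  have hcψ : HasCompactSupport (fun x => fderiv ℝ ψ x (EuclideanSpace.single i (1 : ℝ))) := by
    refine HasCompactSupport.intro hc (fun x hx => ?_)
    rw [hz2 x hx]; simp
  have iψ : Integrable ψ := hψ1.continuous.integrable_of_hasCompactSupport hc
  have idψ : Integrable (fun x => fderiv ℝ ψ x (EuclideanSpace.single i (1 : ℝ))) :=
    cψ.integrable_of_hasCompactSupport hcψ
  -- a.e. formulas
  have f1 : ∀ j, ∀ᵐ x ∂(volume.restrict (Half (k+2))),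
      (Z j).1 x = Sq k (z.1 x) * (Sq k (z.1 x) + ε j)⁻¹ := by
    intro j
    exact ae_mu.mp (hZ j).fst
  have f2 : ∀ j, ∀ᵐ x ∂(volume.restrict (Half (k+2))),
      wt x • (Z j).2.1 x i = ε j * ((Sq k (z.1 x) + ε j)⁻¹) ^ 2 *
        (2 * ⟪Pj k (z.1 x), wt x • z.2.1 x i⟫_ℝ) := by
    intro j
    filter_upwards [ae_mu.mp (hZ j).snd] with x hx
    rw [hx]
    simp only
    rw [← map_smul, Prod.smul_mk, Ap'_apply (hε j)]
  -- limits
  have L1 : Tendsto (fun j => ∫ x in Half (k+2),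
      fderiv ℝ ψ x (EuclideanSpace.single i (1 : ℝ)) • (Z j).1 x) atTop
      (𝓝 (∫ x in Half (k+2), fderiv ℝ ψ x (EuclideanSpace.single i (1 : ℝ)) • gi k z.1 x)) := by
    refine tendsto_integral_of_dominated_convergence
      (fun x => ‖fderiv ℝ ψ x (EuclideanSpace.single i (1 : ℝ))‖) (fun j => ?_)
      idψ.norm.integrableOn (fun j => ?_) ?_
    · exact cψ.aestronglyMeasurable.smul (hsob j).meas
    · filter_upwards [f1 j] with x hx
      rw [hx, norm_smul]
      have h0 := Sq_nonneg (z.1 x)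
      have h1 : ‖Sq k (z.1 x) * (Sq k (z.1 x) + ε j)⁻¹‖ ≤ 1 := by
        have := hε j
        rw [Real.norm_of_nonneg (by positivity), ← div_eq_mul_inv, div_le_one (by linarith)]
        linarith
      calc _ ≤ ‖fderiv ℝ ψ x (EuclideanSpace.single i (1 : ℝ))‖ * 1 :=
            mul_le_mul_of_nonneg_left h1 (norm_nonneg _)
        _ = _ := mul_one _
    · filter_upwards [ae_all_iff.mpr f1] with x hx
      simp only [hx]
      refine Tendsto.const_smul ?_ _
      have h1 := ap_tendsto (Sq_nonneg (z.1 x)) hε hε0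
      have h2 : (if Sq k (z.1 x) = 0 then (0:ℝ) else 1) = gi k z.1 x := by
        unfold gi Sq
        by_cases h : Pj k (z.1 x) = 0
        · rw [if_pos h, if_pos (by rw [h]; simp)]
        · rw [if_neg h, if_neg (by simpa using h)]
      rwa [h2] at h1
  have L2 : Tendsto (fun j => ∫ x in Half (k+2), ψ x • (wt x • (Z j).2.1 x i)) atTop (𝓝 0) := by
    have h0 : Tendsto (fun j => ∫ x in Half (k+2), ψ x • (wt x • (Z j).2.1 x i)) atTop
        (𝓝 (∫ x in Half (k+2), (0:ℝ))) := by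
      refine tendsto_integral_of_dominated_convergence
        (fun x => ‖ψ x‖ * (2 / c)) (fun j => ?_) (iψ.norm.mul_const _).integrableOn
        (fun j => ?_) ?_
      · exact hψ1.continuous.aestronglyMeasurable.smul ((hsob j).measD i)
      · filter_upwards [f2 j, hb] with x hx hx2
        rw [hx, norm_smul]
        by_cases hxs : x ∈ tsupport ψ
        · refine mul_le_mul_of_nonneg_left ?_ (norm_nonneg _)
          exact ap_bound (Sq_nonneg _) (hε j) hc0 (hcb x hxs) (hx2 i)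
        · rw [hz1 x hxs]; simp
      · filter_upwards [ae_all_iff.mpr f2] with x hx
        simp only [hx]
        have h1 : Tendsto (fun j => ε j * ((Sq k (z.1 x) + ε j)⁻¹) ^ 2 *
            (2 * ⟪Pj k (z.1 x), wt x • z.2.1 x i⟫_ℝ)) atTop (𝓝 0) := by
          rcases (Sq_nonneg (z.1 x)).eq_or_lt with h | h
          · have h2 : Pj k (z.1 x) = 0 := by
              unfold Sq at h
              simpa using h.symm
            rw [h2]; simp
          · exact ap2_tendsto h hε0 _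
        have h2 := h1.const_smul (ψ x)
        rwa [smul_zero] at h2
    simpa using h0
  have L3 : Tendsto (fun j => ∫ x in Half (k+2),
      fderiv ℝ ψ x (EuclideanSpace.single i (1 : ℝ)) • (Z j).1 x) atTop (𝓝 0) := by
    have h1 := L2.neg
    rw [neg_zero] at h1
    refine h1.congr (fun j => ?_)
    exact ((hsob j).ibp hψ1 hc (hs.trans hUH) i).symm
  have h2 := tendsto_nhds_unique L1 L3
  rw [← h2]
  symm
  exact setIntegral_eq_integral_of_forall_compl_eq_zero (fun x hx => by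
      rw [hz2 x (fun h => hx (hUH (hs h)))]; simp)

theorem gi_const {z : ZZ (k+2) (Eu (k+2+1))} (hz : z ∈ XX (k+2) (Eu (k+2+1)))
    (hb : ∀ᵐ x ∂(volume.restrict (Half (k+2))), ∀ i : Fin (k+2+1),
      ‖Pj k x‖ * |⟪Pj k (z.1 x), wt x • z.2.1 x i⟫_ℝ| ≤ 4 * Sq k (z.1 x))
    {U : Set (Eu (k+2+1))} (hU : IsOpen U) (hcv : Convex ℝ U)
    (hUH : U ⊆ Half (k+2)) (hUP : ∀ x ∈ U, Pj k x ≠ 0) :
    ∃ c : ℝ, ∀ᵐ x, x ∈ U → gi k z.1 x = c := by
  have hloc : LocallyIntegrable (gi k z.1) (volume : Measure (Eu (k+2+1))) := by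
    refine (locallyIntegrable_const (1:ℝ)).mono
      (measurable_gi (Lp.stronglyMeasurable z.1)).aestronglyMeasurable
      (Eventually.of_forall fun x => ?_)
    rw [norm_one]; exact gi_le _ _
  exact Bubble.const_of_weak hcv (hloc.locallyIntegrableOn U) hU
    (fun ψ hψ hc hs i => gi_weak hz hb hUH hUP hψ hc hs i)

end Pool.Agent.Helper42.Bub
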