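import Pool.Agent.Helper42.Bub.Dich
import Pool.Agent.Helper42.Bub.Rot2

/-!
The dichotomy.
-/

set_option maxHeartbeats 400000

open Filter Topology MeasureTheory Set
open scoped ENNReal InnerProductSpace NNReal ContDiff

namespace Pool.Agent.Helper42.Bub

open Pool.Agent.Helper42.Bubble (Half bdry IsSobolev)

variable {k : ℕ}

/-- a quadrant-like convex piece -/
def Uq (k : ℕ) (j : Fin (k+2+1)) (s : ℝ) : Set (Eu (k+2+1)) := {x | 0 < x 0 ∧ 0 < s * x j}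

theorem cont_coord (j : Fin (k+2+1)) : Continuous (fun x : Eu (k+2+1) => x j) :=
  (EuclideanSpace.proj (𝕜 := ℝ) j : Eu (k+2+1) →L[ℝ] ℝ).continuous

theorem isOpen_Uq (j : Fin (k+2+1)) (s : ℝ) : IsOpen (Uq k j s) :=
  (isOpen_lt continuous_const (cont_coord 0)).inter
    (isOpen_lt continuous_const (continuous_const.mul (cont_coord j)))

theorem pos_combo {p q a b : ℝ} (hp : 0 < p) (hq : 0 < q) (ha : 0 ≤ a) (hb : 0 ≤ b)
    (hab : a + b = 1) : 0 < a * p + b * q := by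
  rcases ha.eq_or_lt with h | h
  · have : b = 1 := by linarith
    rw [← h, this]; linarith
  · have : 0 ≤ b * q := by positivity
    have : 0 < a * p := by positivity
    linarith

theorem convex_Uq (j : Fin (k+2+1)) (s : ℝ) : Convex ℝ (Uq k j s) := by
  intro x hx y hy a b ha hb hab
  refine ⟨?_, ?_⟩
  · change 0 < a * x 0 + b * y 0
    exact pos_combo hx.1 hy.1 ha hb hab
  · change 0 < s * (a * x j + b * y j)
    have := pos_combo hx.2 hy.2 ha hb hab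
    have e : s * (a * x j + b * y j) = a * (s * x j) + b * (s * y j) := by ring
    rw [e]; exact this

theorem Uq_sub (j : Fin (k+2+1)) (s : ℝ) : Uq k j s ⊆ Half (k+2) := fun _ hx => hx.1

theorem Uq1_Pj {s : ℝ} : ∀ x ∈ Uq k 1 s, Pj k x ≠ 0 := by
  intro x hx h
  have h1 : x 1 = 0 := by rw [← Pj_1, h]; rfl
  have h2 := hx.2
  rw [h1, mul_zero] at h2
  exact lt_irrefl _ h2

theorem Uq2_Pj {s : ℝ} : ∀ x ∈ Uq k 2 s, Pj k x ≠ 0 := by
  intro x hx h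
  have h1 : x 2 = 0 := by rw [← Pj_2, h]; rfl
  have h2 := hx.2
  rw [h1, mul_zero] at h2
  exact lt_irrefl _ h2

theorem const_eq_of_overlap {g : Eu (k+2+1) → ℝ} {U₁ U₂ : Set (Eu (k+2+1))} {c₁ c₂ : ℝ}
    (h1 : IsOpen U₁) (h2 : IsOpen U₂) (hne : (U₁ ∩ U₂).Nonempty)
    (g1 : ∀ᵐ x, x ∈ U₁ → g x = c₁) (g2 : ∀ᵐ x, x ∈ U₂ → g x = c₂) : c₁ = c₂ := by
  by_contra hc
  have hpos : 0 < volume (U₁ ∩ U₂) := (h1.inter h2).measure_pos volume hne
  have h3 : ∀ᵐ x, x ∉ U₁ ∩ U₂ := by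
    filter_upwards [g1, g2] with x hx1 hx2 hx
    exact hc ((hx1 hx.1).symm.trans (hx2 hx.2))
  rw [ae_iff] at h3
  have h4 : volume (U₁ ∩ U₂) = 0 := by simpa using h3
  exact hpos.ne' h4

theorem ae_coord_ne (j : Fin (k+2+1)) : ∀ᵐ x : Eu (k+2+1), x j ≠ 0 := by
  set s : Submodule ℝ (Eu (k+2+1)) :=
    LinearMap.ker ((EuclideanSpace.proj (𝕜 := ℝ) j : Eu (k+2+1) →L[ℝ] ℝ) : Eu (k+2+1) →ₗ[ℝ] ℝ)
    with hs
  have h1 : s ≠ ⊤ := by
    intro h
    have h2 : (eb j : Eu (k+2+1)) ∈ s := by rw [h]; trivial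
    have h3 : (eb j : Eu (k+2+1)) j = 0 := h2
    rw [eb_self] at h3
    exact one_ne_zero h3
  have h4 := Measure.addHaar_submodule (volume : Measure (Eu (k+2+1))) s h1
  rw [ae_iff]
  have e : {x : Eu (k+2+1) | ¬ x j ≠ 0} = (s : Set (Eu (k+2+1))) := by
    ext x
    simp only [ne_eq, not_not, mem_setOf_eq]
    rfl
  rw [e]
  exact h4

/-- a point with prescribed first three coordinates -/
noncomputable def pnt (k : ℕ) (a b c : ℝ) : Eu (k+2+1) :=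
  WithLp.toLp 2 (Fin.cons a (Fin.cons b (Fin.cons c (fun _ => 0))))

theorem dichotomy {z : ZZ (k+2) (Eu (k+2+1))} (hz : z ∈ XX (k+2) (Eu (k+2+1)))
    (hb : ∀ᵐ x ∂(volume.restrict (Half (k+2))), ∀ i : Fin (k+2+1),
      ‖Pj k x‖ * |⟪Pj k (z.1 x), wt x • z.2.1 x i⟫_ℝ| ≤ 4 * Sq k (z.1 x)) :
    (∀ᵐ x ∂(volume.restrict (Half (k+2))), Pj k (z.1 x) ≠ 0) ∨
    (∀ᵐ x ∂(volume.restrict (Half (k+2))), Pj k (z.1 x) = 0) := by
  obtain ⟨c₁, h1⟩ := gi_const hz hb (isOpen_Uq 1 1) (convex_Uq 1 1) (Uq_sub 1 1) Uq1_Pj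
  obtain ⟨c₂, h2⟩ := gi_const hz hb (isOpen_Uq 2 1) (convex_Uq 2 1) (Uq_sub 2 1) Uq2_Pj
  obtain ⟨c₃, h3⟩ := gi_const hz hb (isOpen_Uq 1 (-1)) (convex_Uq 1 (-1)) (Uq_sub 1 (-1)) Uq1_Pj
  have e12 : c₁ = c₂ := const_eq_of_overlap (isOpen_Uq 1 1) (isOpen_Uq 2 1)
    ⟨pnt k 1 1 1, ⟨by change (0:ℝ) < 1; norm_num, by change (0:ℝ) < 1 * 1; norm_num⟩,
      ⟨by change (0:ℝ) < 1; norm_num, by change (0:ℝ) < 1 * 1; norm_num⟩⟩ h1 h2
  have e32 : c₃ = c₂ := const_eq_of_overlap (isOpen_Uq 1 (-1)) (isOpen_Uq 2 1)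
    ⟨pnt k 1 (-1) 1, ⟨by change (0:ℝ) < 1; norm_num, by change (0:ℝ) < -1 * (-1); norm_num⟩,
      ⟨by change (0:ℝ) < 1; norm_num, by change (0:ℝ) < 1 * 1; norm_num⟩⟩ h3 h2
  have hHm : MeasurableSet (Half (k+2)) := measurableSet_Om (k+2)
  have hall : ∀ᵐ x ∂(volume.restrict (Half (k+2))), gi k z.1 x = c₂ := by
    rw [ae_restrict_iff' hHm]
    filter_upwards [h1, h3, ae_coord_ne (k := k) 1] with x hx1 hx3 hx0 hxH
    rcases lt_or_gt_of_ne hx0 with h | h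
    · rw [← e32]; exact hx3 ⟨hxH, by linarith⟩
    · rw [← e12]; exact hx1 ⟨hxH, by linarith⟩
  by_cases hc : c₂ = 0
  · right
    filter_upwards [hall] with x hx
    by_contra hne
    unfold gi at hx
    rw [if_neg hne, hc] at hx
    exact one_ne_zero hx
  · left
    filter_upwards [hall] with x hx hne
    unfold gi at hx
    rw [if_pos hne] at hx
    exact hc hx.symm

end Pool.Agent.Helper42.Bub
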