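import Pool.Agent.Helper42.Bub.Rad
import Pool.Agent.Helper42.Bub.Rot2

/-!
Divergence of the integral of `1/r^2` near a codimension two axis.
-/

set_option maxHeartbeats 400000

open Filter Topology MeasureTheory Set
open scoped ENNReal InnerProductSpace NNReal

namespace Pool.Agent.Helper42.Bub

variable {k : ℕ}

/-- centre -/
def cen (k : ℕ) : Fin (k+2+1) → ℝ := Fin.cons 1 (fun _ => 0)
/-- half side lengths -/
def sid (k : ℕ) (a t : ℝ) : Fin (k+2+1) → ℝ := Fin.cons a (Fin.cons t (Fin.cons t (fun _ => a)))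

/-- box -/
def Bx (k : ℕ) (a t : ℝ) : Set (Eu (k+2+1)) :=
  {x | ∀ i, x i ∈ Ioo (cen k i - sid k a t i) (cen k i + sid k a t i)}

theorem Bx_eq (a t : ℝ) : Bx k a t = (WithLp.ofLp : Eu (k+2+1) → (Fin (k+2+1) → ℝ)) ⁻¹'
    (Set.pi univ fun i => Ioo (cen k i - sid k a t i) (cen k i + sid k a t i)) := by
  ext x
  simp only [Bx, mem_setOf_eq, mem_preimage, Set.mem_pi, mem_univ, true_implies]

theorem measurableSet_Bx (a t : ℝ) : MeasurableSet (Bx k a t) := by
  rw [Bx_eq]
  refine (PiLp.volume_preserving_ofLp (Fin (k+2+1))).measurable ?_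
  exact MeasurableSet.univ_pi fun i => measurableSet_Ioo

theorem volume_Bx {a t : ℝ} (ha : 0 ≤ a) (ht : 0 ≤ t) :
    volume (Bx k a t) = ENNReal.ofReal ((2 * a) ^ (k+1) * (2 * t) ^ 2) := by
  rw [Bx_eq, (PiLp.volume_preserving_ofLp (Fin (k+2+1))).measure_preimage
    (MeasurableSet.univ_pi fun i => measurableSet_Ioo).nullMeasurableSet, Real.volume_pi_Ioo,
    ← ENNReal.ofReal_prod_of_nonneg]
  · congr 1
    have h1 : ∀ i, cen k i + sid k a t i - (cen k i - sid k a t i) = 2 * sid k a t i := by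
      intro i; ring
    simp_rw [h1]
    rw [Fin.prod_univ_succ, Fin.prod_univ_succ, Fin.prod_univ_succ]
    simp only [sid, Fin.cons_zero, Fin.cons_succ, Finset.prod_const, Finset.card_univ,
      Fintype.card_fin]
    ring
  · intro i _
    have h1 : cen k i + sid k a t i - (cen k i - sid k a t i) = 2 * sid k a t i := by ring
    rw [h1]
    have h2 : 0 ≤ sid k a t i := by
      refine Fin.cases ?_ (fun i => Fin.cases ?_ (fun i => Fin.cases ?_ (fun i => ?_) i) i) i
      · exact ha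
      · exact ht
      · exact ht
      · exact ha
    linarith

theorem Bx_mono {a t t' : ℝ} (h : t ≤ t') : Bx k a t ⊆ Bx k a t' := by
  intro x hx i
  have h1 := hx i
  have h2 : sid k a t i ≤ sid k a t' i := by
    refine Fin.cases ?_ (fun i => Fin.cases ?_ (fun i => Fin.cases ?_ (fun i => ?_) i) i) i
    · exact le_rfl
    · exact h
    · exact h
    · exact le_rfl
  exact ⟨by linarith [h1.1], by linarith [h1.2]⟩

theorem Bx_Sq {a t : ℝ} {x : Eu (k+2+1)} (hx : x ∈ Bx k a t) : Sq k x ≤ 2 * t ^ 2 := by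
  unfold Sq
  rw [norm_Pj_sq]
  have h1 : |x 1| ≤ t := by
    have := hx 1
    have e1 : cen k 1 = 0 := rfl
    have e2 : sid k a t 1 = t := rfl
    rw [e1, e2] at this
    rw [abs_le]
    exact ⟨by linarith [this.1], by linarith [this.2]⟩
  have h2 : |x 2| ≤ t := by
    have := hx 2
    have e1 : cen k 2 = 0 := rfl
    have e2 : sid k a t 2 = t := rfl
    rw [e1, e2] at this
    rw [abs_le]
    exact ⟨by linarith [this.1], by linarith [this.2]⟩
  have h3 := pow_le_pow_left₀ (abs_nonneg _) h1 2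
  have h4 := pow_le_pow_left₀ (abs_nonneg _) h2 2
  rw [sq_abs] at h3 h4
  linarith

theorem Bx_ball {a : ℝ} (ha : 0 ≤ a) (ha2 : ((k:ℝ) + 3) * a < 1 / 4) :
    Bx k a a ⊆ Metric.ball (eb 0 : Eu (k+2+1)) (1/4) := by
  intro x hx
  rw [mem_ball_iff_norm]
  have h1 : ∀ i, |(x - eb 0 : Eu (k+2+1)) i| ≤ a := by
    intro i
    have h2 := hx i
    have e1 : (x - eb 0 : Eu (k+2+1)) i = x i - cen k i := by
      rw [PiLp.sub_apply]
      congr 1
      refine Fin.cases ?_ (fun i => ?_) i
      · rw [eb_self]; rfl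
      · rw [eb_ne (Fin.succ_ne_zero i)]; rfl
    have e2 : sid k a a i = a := by
      refine Fin.cases rfl (fun i => Fin.cases rfl (fun i => Fin.cases rfl (fun i => rfl) i) i) i
    rw [e1, abs_le]
    rw [e2] at h2
    exact ⟨by linarith [h2.1], by linarith [h2.2]⟩
  have h3 := norm_le_of_coord (m := k+2) ha (x - eb 0) h1
  refine h3.trans_lt ?_
  push_cast
  have : ((k:ℝ) + 2 + 1) * a = ((k:ℝ) + 3) * a := by ring
  rw [this]; exact ha2

theorem int_Bx {a : ℝ} (ha : 0 < a) (J : ℕ) : ∀ t δ : ℝ, 0 < δ → δ * 2 ^ J ≤ t →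
    (J : ℝ≥0∞) * ENNReal.ofReal ((2 * a) ^ (k+1)) ≤
      ∫⁻ x in Bx k a t, ENNReal.ofReal ((Sq k x + δ ^ 2)⁻¹) := by
  induction J with
  | zero => intro t δ _ _; simp
  | succ J ih =>
    intro t δ hδ hle
    have ht : 0 < t := lt_of_lt_of_le (by positivity) hle
    have hδt : δ ≤ t := by
      refine le_trans ?_ hle
      have : (1:ℝ) ≤ 2 ^ (J+1) := one_le_pow₀ (by norm_num)
      nlinarith
    have h1 := ih (t/2) δ hδ (by rw [pow_succ] at hle; linarith)
    have hsub : Bx k a (t/2) ⊆ Bx k a t := Bx_mono (by linarith)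
    have hsplit : ∫⁻ x in Bx k a t, ENNReal.ofReal ((Sq k x + δ ^ 2)⁻¹) =
        (∫⁻ x in Bx k a (t/2), ENNReal.ofReal ((Sq k x + δ ^ 2)⁻¹)) +
        ∫⁻ x in Bx k a t \ Bx k a (t/2), ENNReal.ofReal ((Sq k x + δ ^ 2)⁻¹) := by
      rw [← lintegral_union ((measurableSet_Bx a t).diff (measurableSet_Bx a (t/2)))
        disjoint_sdiff_right, union_sdiff_cancel hsub]
    have h2 : ENNReal.ofReal ((2 * a) ^ (k+1)) ≤
        ∫⁻ x in Bx k a t \ Bx k a (t/2), ENNReal.ofReal ((Sq k x + δ ^ 2)⁻¹) := by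
      calc ENNReal.ofReal ((2 * a) ^ (k+1))
          = ENNReal.ofReal ((3 * t ^ 2)⁻¹) * volume (Bx k a t \ Bx k a (t/2)) := by
            rw [measure_sdiff hsub (measurableSet_Bx a (t/2)).nullMeasurableSet
              (by rw [volume_Bx ha.le (by positivity)]; exact ENNReal.ofReal_ne_top),
              volume_Bx ha.le ht.le, volume_Bx ha.le (by positivity),
              ← ENNReal.ofReal_sub _ (by positivity), ← ENNReal.ofReal_mul (by positivity)]
            congr 1
            field_simp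
            ring
        _ = ∫⁻ x in Bx k a t \ Bx k a (t/2), ENNReal.ofReal ((3 * t ^ 2)⁻¹) := by
            rw [setLIntegral_const]
        _ ≤ _ := by
            refine setLIntegral_mono' ((measurableSet_Bx a t).diff (measurableSet_Bx a (t/2)))
              (fun x hx => ?_)
            apply ENNReal.ofReal_le_ofReal
            have h3 := Bx_Sq hx.1
            have h4 := Sq_nonneg x
            apply inv_anti₀ (by positivity)
            have h5 := pow_le_pow_left₀ hδ.le hδt 2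
            linarith
    rw [hsplit]
    push_cast
    rw [add_mul, one_mul]
    exact add_le_add h1 h2

theorem div_ball (k : ℕ) : ∃ κ : ℝ, 0 < κ ∧ ∀ J : ℕ, ∃ δ : ℝ, 0 < δ ∧
    (J : ℝ≥0∞) * ENNReal.ofReal κ ≤
      ∫⁻ x in Metric.ball (eb 0 : Eu (k+2+1)) (1/4), ENNReal.ofReal ((Sq k x + δ ^ 2)⁻¹) := by
  set a : ℝ := 1 / (4 * ((k:ℝ) + 4)) with ha
  have ha0 : 0 < a := by rw [ha]; positivity
  have ha2 : ((k:ℝ) + 3) * a < 1 / 4 := by
    rw [ha, mul_one_div, div_lt_div_iff₀ (by positivity) (by norm_num)]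
    linarith
  refine ⟨(2 * a) ^ (k+1), by positivity, fun J => ⟨a / 2 ^ J, by positivity, ?_⟩⟩
  refine (int_Bx ha0 J a (a / 2 ^ J) (by positivity) (le_of_eq (by field_simp))).trans ?_
  exact lintegral_mono_set (Bx_ball ha0.le ha2)

end Pool.Agent.Helper42.Bub
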