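import Mathlib

/-!
The explicit variation.
-/

set_option maxHeartbeats 400000

open Filter Topology MeasureTheory Set
open scoped ENNReal InnerProductSpace NNReal

namespace Pool.Agent.Helper42.Bub

variable {V : Type*} [NormedAddCommGroup V] [InnerProductSpace ℝ V]

/-- `1/(1+|b|^2)` -/
noncomputable def sg (b : V) : ℝ := (1 + ‖b‖ ^ 2)⁻¹

theorem sg_pos (b : V) : 0 < sg b := by unfold sg; positivity
theorem sg_le (b : V) : sg b ≤ 1 := by
  unfold sg
  apply inv_le_one_of_one_le₀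
  nlinarith [sq_nonneg ‖b‖]
theorem sg_mul (b : V) : sg b * ‖b‖ ^ 2 = 1 - sg b := by
  unfold sg
  have : (1 + ‖b‖ ^ 2) ≠ 0 := by positivity
  field_simp
  ring

theorem sg_norm (b : V) : sg b * ‖b‖ ≤ 1 / 2 := by
  unfold sg
  rw [inv_mul_le_iff₀ (by positivity)]
  nlinarith [sq_nonneg (‖b‖ - 1)]

theorem contDiff_sg : ContDiff ℝ 1 (sg : V → ℝ) := by
  unfold sg
  refine ContDiff.inv ?_ (fun b => by positivity)
  exact contDiff_const.add (contDiff_norm_sq ℝ)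

theorem hasFDerivAt_sg (b : V) :
    HasFDerivAt (sg : V → ℝ) (-(sg b) ^ 2 • ((2:ℝ) • innerSL ℝ b)) b := by
  have h1 : HasFDerivAt (fun x : V => 1 + ‖x‖ ^ 2) ((2:ℝ) • innerSL ℝ b) b := by
    have := (hasStrictFDerivAt_norm_sq b).hasFDerivAt.const_add 1
    refine this.congr_fderiv ?_
    ext x; simp
  have h2 := (hasDerivAt_inv (show (1 + ‖b‖ ^ 2 : ℝ) ≠ 0 by positivity)).comp_hasFDerivAt b h1
  refine h2.congr_fderiv ?_
  unfold sg
  rw [inv_pow]

theorem sg'_apply (b d : V) : fderiv ℝ (sg : V → ℝ) b d = -2 * sg b ^ 2 * ⟪b, d⟫_ℝ := by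
  rw [(hasFDerivAt_sg b).fderiv]
  simp
  ring

theorem sg'_bound (b d : V) : |fderiv ℝ (sg : V → ℝ) b d| ≤ ‖d‖ := by
  rw [sg'_apply, abs_mul]
  have h1 := abs_real_inner_le_norm b d
  have h2 := sg_norm b
  have h3 := sg_pos b
  have h4 := sg_le b
  rw [abs_mul, abs_of_pos (pow_pos h3 2), abs_neg, abs_two]
  calc 2 * sg b ^ 2 * |⟪b, d⟫_ℝ| ≤ 2 * sg b ^ 2 * (‖b‖ * ‖d‖) :=
        mul_le_mul_of_nonneg_left h1 (by positivity)
    _ = 2 * (sg b * (sg b * ‖b‖)) * ‖d‖ := by ring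
    _ ≤ 2 * (1 * (1/2)) * ‖d‖ := by
        refine mul_le_mul_of_nonneg_right ?_ (norm_nonneg _)
        refine mul_le_mul_of_nonneg_left ?_ (by norm_num)
        exact mul_le_mul h4 h2 (by positivity) (by norm_num)
    _ = ‖d‖ := by ring

/-- `2a/(1+|a|^2)` -/
noncomputable def kp (a : V) : V := (2 * sg a) • a

theorem contDiff_kp : ContDiff ℝ 1 (kp : V → V) := by
  unfold kp
  exact (contDiff_const.mul contDiff_sg).smul contDiff_id

theorem kp_norm (a : V) : ‖kp a‖ ≤ 1 := by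
  unfold kp
  rw [norm_smul, Real.norm_of_nonneg (by have := sg_pos a; positivity)]
  have := sg_norm a
  linarith

theorem kp'_apply (a c : V) : fderiv ℝ (kp : V → V) a c =
    (2 * sg a) • c + (2 * fderiv ℝ (sg : V → ℝ) a c) • a := by
  have h1 : HasFDerivAt (fun a : V => 2 * sg a) ((2:ℝ) • fderiv ℝ (sg : V → ℝ) a) a :=
    (contDiff_sg.differentiable one_ne_zero a).hasFDerivAt.const_mul 2
  have h2 := h1.smul (hasFDerivAt_id a)
  have h3 : fderiv ℝ (kp : V → V) a = _ := h2.fderiv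
  rw [h3]
  simp

theorem kp'_bound (a c : V) : ‖fderiv ℝ (kp : V → V) a c‖ ≤ 4 * ‖c‖ := by
  rw [kp'_apply]
  refine (norm_add_le _ _).trans ?_
  rw [norm_smul, norm_smul, Real.norm_of_nonneg (by have := sg_pos a; positivity),
    Real.norm_eq_abs, sg'_apply]
  have h1 := abs_real_inner_le_norm a c
  have h2 := sg_norm a
  have h3 := sg_pos a
  have h4 := sg_le a
  have e : |2 * (-2 * sg a ^ 2 * ⟪a, c⟫_ℝ)| = 4 * sg a ^ 2 * |⟪a, c⟫_ℝ| := by
    rw [show 2 * (-2 * sg a ^ 2 * ⟪a, c⟫_ℝ) = -(4 * sg a ^ 2 * ⟪a, c⟫_ℝ) by ring, abs_neg, abs_mul,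
      abs_of_pos (by positivity)]
  rw [e]
  have h5 : 4 * sg a ^ 2 * |⟪a, c⟫_ℝ| * ‖a‖ ≤ 4 * sg a ^ 2 * (‖a‖ * ‖c‖) * ‖a‖ :=
    mul_le_mul_of_nonneg_right (mul_le_mul_of_nonneg_left h1 (by positivity)) (norm_nonneg _)
  have h6 : 4 * sg a ^ 2 * (‖a‖ * ‖c‖) * ‖a‖ = 4 * (sg a * ‖a‖) ^ 2 * ‖c‖ := by ring
  have h7 : (sg a * ‖a‖) ^ 2 ≤ (1/2) ^ 2 := pow_le_pow_left₀ (by positivity) h2 2
  have h8 : 4 * (sg a * ‖a‖) ^ 2 * ‖c‖ ≤ 4 * (1/2) ^ 2 * ‖c‖ :=
    mul_le_mul_of_nonneg_right (by linarith) (norm_nonneg _)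
  have h9 : 2 * sg a * ‖c‖ ≤ 2 * ‖c‖ := by nlinarith [norm_nonneg c]
  have h10 := norm_nonneg c
  linarith

/-- The variation field. -/
noncomputable def GG (p : V × V) : V := kp p.2 - (2 - 2 * sg p.2) • kp p.1

theorem contDiff_GG : ContDiff ℝ 1 (GG : V × V → V) := by
  unfold GG
  refine (contDiff_kp.comp contDiff_snd).sub ?_
  refine ContDiff.smul ?_ (contDiff_kp.comp contDiff_fst)
  exact contDiff_const.sub (contDiff_const.mul (contDiff_sg.comp contDiff_snd))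

theorem GG'_apply (a b c d : V) : fderiv ℝ (GG : V × V → V) (a, b) (c, d) =
    fderiv ℝ (kp : V → V) b d - ((2 - 2 * sg b) • fderiv ℝ (kp : V → V) a c
      + (-(2 * fderiv ℝ (sg : V → ℝ) b d)) • kp a) := by
  have hs : HasFDerivAt (Prod.snd : V × V → V) (ContinuousLinearMap.snd ℝ V V) (a, b) :=
    hasFDerivAt_snd
  have hf : HasFDerivAt (Prod.fst : V × V → V) (ContinuousLinearMap.fst ℝ V V) (a, b) :=
    hasFDerivAt_fst
  have k1 : HasFDerivAt (kp : V → V) (fderiv ℝ kp b) ((Prod.snd : V × V → V) (a, b)) :=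
    (contDiff_kp.differentiable one_ne_zero b).hasFDerivAt
  have k2 : HasFDerivAt (kp : V → V) (fderiv ℝ kp a) ((Prod.fst : V × V → V) (a, b)) :=
    (contDiff_kp.differentiable one_ne_zero a).hasFDerivAt
  have k3 : HasFDerivAt (sg : V → ℝ) (fderiv ℝ sg b) ((Prod.snd : V × V → V) (a, b)) :=
    (contDiff_sg.differentiable one_ne_zero b).hasFDerivAt
  have h1 : HasFDerivAt (fun p : V × V => kp p.2)
      ((fderiv ℝ (kp : V → V) b).comp (ContinuousLinearMap.snd ℝ V V)) (a, b) :=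
    HasFDerivAt.comp (g := kp) (a, b) k1 hs
  have h2 : HasFDerivAt (fun p : V × V => kp p.1)
      ((fderiv ℝ (kp : V → V) a).comp (ContinuousLinearMap.fst ℝ V V)) (a, b) :=
    HasFDerivAt.comp (g := kp) (a, b) k2 hf
  have h3 : HasFDerivAt (fun p : V × V => sg p.2)
      ((fderiv ℝ (sg : V → ℝ) b).comp (ContinuousLinearMap.snd ℝ V V)) (a, b) :=
    HasFDerivAt.comp (g := sg) (a, b) k3 hs
  have h4 := (h3.const_mul 2).const_sub 2
  have h5 := h1.sub (h4.smul h2)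
  have h6 : fderiv ℝ (GG : V × V → V) (a, b) = _ := h5.fderiv
  rw [h6]
  simp

theorem GG'_bound (a b c d : V) : ‖fderiv ℝ (GG : V × V → V) (a, b) (c, d)‖ ≤
    8 * ‖b‖ ^ 2 * ‖c‖ + 6 * ‖d‖ := by
  rw [GG'_apply]
  have h1 := kp'_bound b d
  have h2 := kp'_bound a c
  have h3 := sg'_bound b d
  have h4 := kp_norm a
  have h5 : 2 - 2 * sg b = 2 * (sg b * ‖b‖ ^ 2) := by rw [sg_mul]; ring
  have h6 := sg_pos b
  have h7 := sg_le b
  refine (norm_sub_le _ _).trans ?_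
  refine (add_le_add h1 (norm_add_le _ _)).trans ?_
  rw [norm_smul, norm_smul, h5, Real.norm_of_nonneg (by positivity), Real.norm_eq_abs, abs_neg,
    abs_mul, abs_two]
  have h8 : 2 * (sg b * ‖b‖ ^ 2) * ‖fderiv ℝ (kp : V → V) a c‖ ≤ 2 * (1 * ‖b‖ ^ 2) * (4 * ‖c‖) := by
    gcongr
  have h9 : 2 * |fderiv ℝ (sg : V → ℝ) b d| * ‖kp a‖ ≤ 2 * ‖d‖ * 1 := by gcongr
  nlinarith [norm_nonneg c, norm_nonneg d]

theorem GG'_bound2 (a b c d : V) : ‖fderiv ℝ (GG : V × V → V) (a, b) (c, d)‖ ≤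
    8 * ‖c‖ + 6 * ‖d‖ := by
  rw [GG'_apply]
  have h1 := kp'_bound b d
  have h2 := kp'_bound a c
  have h3 := sg'_bound b d
  have h4 := kp_norm a
  have h6 := sg_pos b
  have h7 := sg_le b
  refine (norm_sub_le _ _).trans ?_
  refine (add_le_add h1 (norm_add_le _ _)).trans ?_
  rw [norm_smul, norm_smul, Real.norm_of_nonneg (by linarith), Real.norm_eq_abs, abs_neg,
    abs_mul, abs_two]
  have h8 : (2 - 2 * sg b) * ‖fderiv ℝ (kp : V → V) a c‖ ≤ 2 * (4 * ‖c‖) := by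
    have : 2 - 2 * sg b ≤ 2 := by linarith
    have h0 : 0 ≤ 2 - 2 * sg b := by linarith
    exact mul_le_mul this h2 (norm_nonneg _) (by norm_num)
  have h9 : 2 * |fderiv ℝ (sg : V → ℝ) b d| * ‖kp a‖ ≤ 2 * ‖d‖ * 1 := by gcongr
  nlinarith [norm_nonneg c, norm_nonneg d]

theorem GG'_zero (a d : V) : fderiv ℝ (GG : V × V → V) (a, 0) (0, d) = (2:ℝ) • d := by
  rw [GG'_apply, kp'_apply, sg'_apply]
  simp [sg]

/-- The variation `a + GG (a, (t/2) b)`. -/
noncomputable def Vt (t : ℝ) (p : V × V) : V := p.1 + GG (p.1, (t/2) • p.2)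

theorem contDiff_Vt (t : ℝ) : ContDiff ℝ 1 (Vt t : V × V → V) := by
  unfold Vt
  refine contDiff_fst.add (contDiff_GG.comp ?_)
  exact contDiff_fst.prodMk (contDiff_const.smul contDiff_snd)

theorem Vt'_apply (t : ℝ) (a b c d : V) : fderiv ℝ (Vt t : V × V → V) (a, b) (c, d) =
    c + fderiv ℝ (GG : V × V → V) (a, (t/2) • b) (c, (t/2) • d) := by
  have h1 : HasFDerivAt (fun p : V × V => (p.1, (t/2) • p.2))
      ((ContinuousLinearMap.fst ℝ V V).prod ((t/2) • ContinuousLinearMap.snd ℝ V V)) (a, b) :=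
    hasFDerivAt_fst.prodMk (hasFDerivAt_snd.const_smul (t/2))
  have h2 : HasFDerivAt (GG : V × V → V) (fderiv ℝ GG (a, (t/2) • b)) (a, (t/2) • b) :=
    (contDiff_GG.differentiable one_ne_zero _).hasFDerivAt
  have h3 := (hasFDerivAt_fst (𝕜 := ℝ) (p := (a, b))).add (h2.comp (a, b) h1)
  have h4 : fderiv ℝ (Vt t : V × V → V) (a, b) = _ := h3.fderiv
  rw [h4]
  simp

theorem Vt_zero (t : ℝ) : Vt t (0 : V × V) = 0 := by
  simp [Vt, GG, kp]

theorem Vt_lip (t : ℝ) : LipschitzWith (Real.toNNReal (9 + 3 * |t|)) (Vt t : V × V → V) := by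
  refine lipschitzWith_of_nnnorm_fderiv_le ((contDiff_Vt t).differentiable one_ne_zero) ?_
  intro p
  rw [← NNReal.coe_le_coe, coe_nnnorm, Real.coe_toNNReal _ (by positivity)]
  refine ContinuousLinearMap.opNorm_le_bound _ (by positivity) (fun q => ?_)
  obtain ⟨a, b⟩ := p
  obtain ⟨c, d⟩ := q
  rw [Vt'_apply]
  refine (norm_add_le _ _).trans ?_
  have h1 := GG'_bound2 a ((t/2) • b) c ((t/2) • d)
  rw [norm_smul, Real.norm_eq_abs, abs_div, abs_two] at h1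
  have h2 : ‖c‖ ≤ ‖(c, d)‖ := norm_fst_le (c, d)
  have h3 : ‖d‖ ≤ ‖(c, d)‖ := norm_snd_le (c, d)
  have h4 : 0 ≤ |t| := abs_nonneg t
  nlinarith [mul_le_mul_of_nonneg_left h3 h4]

theorem sg_map (A : V ≃ₗᵢ[ℝ] V) (a : V) : sg (A a) = sg a := by
  unfold sg; rw [A.norm_map]

theorem kp_map (A : V ≃ₗᵢ[ℝ] V) (a : V) : kp (A a) = A (kp a) := by
  unfold kp; rw [sg_map, map_smul]

theorem Vt_map (t : ℝ) (A : V ≃ₗᵢ[ℝ] V) (a b : V) : Vt t (A a, A b) = A (Vt t (a, b)) := by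
  unfold Vt GG
  simp only
  rw [← map_smul, kp_map, kp_map, sg_map, map_add, map_sub, map_smul]

theorem Vt_norm (t : ℝ) {a b : V} (ha : ‖a‖ = 1) (hab : ⟪b, a⟫_ℝ = 0) : ‖Vt t (a, b)‖ = 1 := by
  set β := (t/2) • b with hβ
  have hβa : ⟪a, β⟫_ℝ = 0 := by
    rw [hβ, real_inner_smul_right, real_inner_comm, hab, mul_zero]
  have hkp : kp a = a := by
    unfold kp sg
    rw [ha]; norm_num
  have h1 : Vt t (a, b) = (2 * sg β - 1) • a + (2 * sg β) • β := by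
    unfold Vt GG
    simp only
    rw [← hβ, hkp, sub_smul, sub_smul, one_smul]
    unfold kp
    rw [two_smul]
    abel
  have hβa' : ⟪β, a⟫_ℝ = 0 := by rw [real_inner_comm]; exact hβa
  clear_value β
  have h2 : ‖Vt t (a, b)‖ ^ 2 = 1 := by
    rw [h1, ← real_inner_self_eq_norm_sq, inner_add_left, inner_add_right, inner_add_right,
      real_inner_smul_left, real_inner_smul_left, real_inner_smul_left, real_inner_smul_left,
      real_inner_smul_right, real_inner_smul_right, real_inner_smul_right, real_inner_smul_right,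
      hβa, hβa', real_inner_self_eq_norm_sq, real_inner_self_eq_norm_sq, ha]
    have := sg_mul β
    nlinarith
  have h3 : 0 ≤ ‖Vt t (a, b)‖ := norm_nonneg _
  nlinarith

end Pool.Agent.Helper42.Bub
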