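import Pool.Agent.Helper42.Bub.Equi
import Pool.Agent.Helper42.Bub.GG

/-!
Euler-Lagrange inequality for symmetric bounded variations.
-/

set_option maxHeartbeats 400000

open Filter Topology MeasureTheory Set
open scoped ENNReal InnerProductSpace NNReal

namespace Pool.Agent.Helper42.Bub

section EF

variable {α : Type*} [MeasurableSpace α] {μ : Measure α} {H : Type*} [NormedAddCommGroup H]
  [InnerProductSpace ℝ H]

theorem ef_pt (m : ℕ) [NeZero m] (a b : H) : ‖‖a‖ ^ (m-1) * ⟪a, b⟫_ℝ‖ ≤ ‖a‖ ^ m * ‖b‖ := by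
  rw [norm_mul, Real.norm_of_nonneg (by positivity), Real.norm_eq_abs]
  have h1 := abs_real_inner_le_norm a b
  have h2 : ‖a‖ ^ m = ‖a‖ ^ (m-1) * ‖a‖ := (pow_sub_one_mul (NeZero.ne m) _).symm
  rw [h2, mul_assoc]
  exact mul_le_mul_of_nonneg_left h1 (by positivity)

theorem ef_le (m : ℕ) {s t : ℝ} (hs : 0 ≤ s) (ht : 0 ≤ t) : t ^ m * s ≤ (t + s) ^ (m+1) := by
  rw [pow_succ]
  refine mul_le_mul ?_ (by linarith) hs (by positivity)
  exact pow_le_pow_left₀ ht (by linarith) m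

theorem ef_le' (m : ℕ) {s t : ℝ} (hs : 0 ≤ s) (ht : 0 ≤ t) :
    t ^ m * s ≤ t ^ (m+1) + s ^ (m+1) := by
  rcases le_total s t with h | h
  · have h1 : t ^ m * s ≤ t ^ (m+1) := by
      rw [pow_succ]; exact mul_le_mul_of_nonneg_left h (by positivity)
    have h2 : 0 ≤ s ^ (m+1) := by positivity
    linarith
  · have h1 : t ^ m * s ≤ s ^ (m+1) := by
      rw [pow_succ]
      exact mul_le_mul_of_nonneg_right (pow_le_pow_left₀ ht h m) hs
    have h2 : 0 ≤ t ^ (m+1) := by positivity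
    linarith

theorem ef_int {m : ℕ} [NeZero m] (D E : Lp H (((m+1 : ℕ)) : ℝ≥0∞) μ) :
    Integrable (fun x => ‖D x‖ ^ (m-1) * ⟪D x, E x⟫_ℝ) μ := by
  have h1 : Integrable (fun x => ‖(‖D x‖ + ‖E x‖)‖ ^ (m+1)) μ :=
    ((Lp.memLp D).norm.add (Lp.memLp E).norm).integrable_norm_pow (Nat.succ_ne_zero m)
  refine h1.mono' ?_ (Eventually.of_forall fun x => ?_)
  · exact ((Lp.aestronglyMeasurable D).norm.pow _).mul
      ((Lp.aestronglyMeasurable D).inner (Lp.aestronglyMeasurable E))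
  · refine (ef_pt m _ _).trans ?_
    rw [Real.norm_of_nonneg (by positivity)]
    exact ef_le m (norm_nonneg _) (norm_nonneg _)

/-- linear functional `E ↦ ∫ |D|^{n-2} ⟪D, E⟫`. -/
noncomputable def EFl {m : ℕ} [NeZero m] (D : Lp H (((m+1 : ℕ)) : ℝ≥0∞) μ) :
    Lp H (((m+1 : ℕ)) : ℝ≥0∞) μ →ₗ[ℝ] ℝ where
  toFun E := ∫ x, ‖D x‖ ^ (m-1) * ⟪D x, E x⟫_ℝ ∂μ
  map_add' E E' := by
    rw [← integral_add (ef_int D E) (ef_int D E')]
    refine integral_congr_ae ?_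
    filter_upwards [Lp.coeFn_add E E'] with x hx
    rw [hx, Pi.add_apply, inner_add_right, mul_add]
  map_smul' c E := by
    rw [RingHom.id_apply, smul_eq_mul, ← integral_const_mul]
    refine integral_congr_ae ?_
    filter_upwards [Lp.coeFn_smul c E] with x hx
    rw [hx, Pi.smul_apply, real_inner_smul_right]
    ring

theorem EFl_apply {m : ℕ} [NeZero m] (D E : Lp H (((m+1 : ℕ)) : ℝ≥0∞) μ) :
    EFl D E = ∫ x, ‖D x‖ ^ (m-1) * ⟪D x, E x⟫_ℝ ∂μ := rfl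

theorem EFl_bound1 {m : ℕ} [NeZero m] (D E : Lp H (((m+1 : ℕ)) : ℝ≥0∞) μ) :
    ‖EFl D E‖ ≤ ‖D‖ ^ (m+1) + ‖E‖ ^ (m+1) := by
  rw [EFl_apply, lp_norm_pow (Nat.succ_ne_zero m), lp_norm_pow (Nat.succ_ne_zero m),
    ← integral_add (lp_int_pow (Nat.succ_ne_zero m) D) (lp_int_pow (Nat.succ_ne_zero m) E)]
  refine (norm_integral_le_integral_norm _).trans ?_
  refine integral_mono (ef_int D E).norm
    ((lp_int_pow (Nat.succ_ne_zero m) D).add (lp_int_pow (Nat.succ_ne_zero m) E)) (fun x => ?_)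
  exact (ef_pt m _ _).trans (ef_le' m (norm_nonneg _) (norm_nonneg _))

theorem EFl_bound {m : ℕ} [NeZero m] (D E : Lp H (((m+1 : ℕ)) : ℝ≥0∞) μ) :
    ‖EFl D E‖ ≤ (‖D‖ ^ (m+1) + 1) * ‖E‖ := by
  by_cases hE : ‖E‖ = 0
  · have : E = 0 := norm_eq_zero.mp hE
    rw [this]; simp
  · have h0 : 0 < ‖E‖ := lt_of_le_of_ne (norm_nonneg _) (Ne.symm hE)
    have h1 := EFl_bound1 D (‖E‖⁻¹ • E)
    rw [map_smul, norm_smul, norm_smul, norm_inv, norm_norm, inv_mul_cancel₀ hE, one_pow] at h1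
    rw [inv_mul_le_iff₀ h0] at h1
    linarith

/-- continuous functional `E ↦ ∫ |D|^{n-2} ⟪D, E⟫`. -/
noncomputable def EF {m : ℕ} [NeZero m] (D : Lp H (((m+1 : ℕ)) : ℝ≥0∞) μ) :
    Lp H (((m+1 : ℕ)) : ℝ≥0∞) μ →L[ℝ] ℝ :=
  (EFl D).mkContinuous (‖D‖ ^ (m+1) + 1) (EFl_bound D)

theorem EF_apply {m : ℕ} [NeZero m] (D E : Lp H (((m+1 : ℕ)) : ℝ≥0∞) μ) :
    EF D E = ∫ x, ‖D x‖ ^ (m-1) * ⟪D x, E x⟫_ℝ ∂μ := rfl

theorem el_ge {m : ℕ} [NeZero m] (D W : Lp H (((m+1 : ℕ)) : ℝ≥0∞) μ) {t : ℝ} (ht : 0 < t)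
    (hDW : ‖D‖ ≤ ‖W‖) :
    0 ≤ ∫ x, ‖W x‖ ^ (m-1) * ⟪W x, t⁻¹ • (W x - D x)⟫_ℝ ∂μ := by
  have hI1 : Integrable (fun x => ‖W x‖ ^ (m-1) * ⟪W x, W x - D x⟫_ℝ) μ := by
    refine (ef_int W (W - D)).congr ?_
    filter_upwards [Lp.coeFn_sub W D] with x h1
    rw [h1, Pi.sub_apply]
  have e1 : ∫ x, ‖W x‖ ^ (m-1) * ⟪W x, t⁻¹ • (W x - D x)⟫_ℝ ∂μ
      = t⁻¹ * ∫ x, ‖W x‖ ^ (m-1) * ⟪W x, W x - D x⟫_ℝ ∂μ := by
    rw [← integral_const_mul]
    refine integral_congr_ae (Eventually.of_forall fun x => ?_)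
    simp only
    rw [real_inner_smul_right]
    ring
  rw [e1]
  refine mul_nonneg (inv_nonneg.mpr ht.le) ?_
  have h2 : ‖D‖ ^ (m+1) ≤ ‖W‖ ^ (m+1) := pow_le_pow_left₀ (norm_nonneg _) hDW _
  rw [lp_norm_pow (Nat.succ_ne_zero m), lp_norm_pow (Nat.succ_ne_zero m)] at h2
  have h3 : ∫ x, ‖W x‖ ^ (m+1) ∂μ ≤ ∫ x, (‖D x‖ ^ (m+1) + ((m+1 : ℕ) : ℝ) *
      (‖W x‖ ^ (m-1) * ⟪W x, W x - D x⟫_ℝ)) ∂μ := by
    refine integral_mono (lp_int_pow (Nat.succ_ne_zero m) _)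
      ((lp_int_pow (Nat.succ_ne_zero m) _).add (hI1.const_mul _)) (fun x => ?_)
    have hm1 : 1 ≤ m := Nat.one_le_iff_ne_zero.mpr (NeZero.ne m)
    have h4 := pt_grad (m+1) (by omega) (D x) (W x)
    have h5 : m + 1 - 2 = m - 1 := by omega
    rw [h5] at h4
    have h6 : ⟪W x, D x - W x⟫_ℝ = -⟪W x, W x - D x⟫_ℝ := by
      rw [← inner_neg_right, neg_sub]
    rw [h6] at h4
    simp only
    linarith
  rw [integral_add (lp_int_pow (Nat.succ_ne_zero m) _) (hI1.const_mul _),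
    integral_const_mul] at h3
  have h7 : (0:ℝ) < ((m+1 : ℕ) : ℝ) := by positivity
  nlinarith

theorem el_lim {m : ℕ} [NeZero m] (D E : Lp H (((m+1 : ℕ)) : ℝ≥0∞) μ)
    (W : ℕ → Lp H (((m+1 : ℕ)) : ℝ≥0∞) μ) {t : ℕ → ℝ} (htp : ∀ j, 0 < t j) (ht1 : ∀ j, t j ≤ 1)
    (ht0 : Tendsto t atTop (𝓝 0)) (R : ℕ → α → H)
    (hW : ∀ j, W j =ᵐ[μ] fun x => D x + t j • R j x) {B : α → ℝ}
    (hB : MemLp B (((m+1 : ℕ)) : ℝ≥0∞) μ)
    (hRB : ∀ j, ∀ᵐ x ∂μ, ‖D x‖ + ‖R j x‖ ≤ B x)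
    (hR : ∀ᵐ x ∂μ, Tendsto (fun j => R j x) atTop (𝓝 (E x))) :
    Tendsto (fun j => ∫ x, ‖W j x‖ ^ (m-1) * ⟪W j x, (t j)⁻¹ • (W j x - D x)⟫_ℝ ∂μ) atTop
      (𝓝 (EF D E)) := by
  rw [EF_apply]
  refine tendsto_integral_of_dominated_convergence (fun x => ‖B x‖ ^ (m+1)) (fun j => ?_)
    (hB.integrable_norm_pow (Nat.succ_ne_zero m)) (fun j => ?_) ?_
  · refine ((Lp.aestronglyMeasurable _).norm.pow _).mul ?_
    have h9 : AEStronglyMeasurable (fun x => (t j)⁻¹ • (W j x - D x)) μ :=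
      ((Lp.aestronglyMeasurable (W j)).sub (Lp.aestronglyMeasurable D)).const_smul _
    exact (Lp.aestronglyMeasurable _).inner h9
  · filter_upwards [hW j, hRB j] with x h1 h2
    have h3 : (t j)⁻¹ • (W j x - D x) = R j x := by
      rw [h1, add_sub_cancel_left, smul_smul, inv_mul_cancel₀ (htp j).ne', one_smul]
    have hR0 := norm_nonneg (R j x)
    have hD0 := norm_nonneg (D x)
    have hB0 : 0 ≤ B x := by linarith
    have h6 : ‖W j x‖ ≤ B x := by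
      rw [h1]
      refine (norm_add_le _ _).trans ?_
      rw [norm_smul, Real.norm_of_nonneg (htp j).le]
      have : t j * ‖R j x‖ ≤ 1 * ‖R j x‖ := mul_le_mul_of_nonneg_right (ht1 j) hR0
      linarith
    refine (ef_pt m _ _).trans ?_
    rw [h3, Real.norm_of_nonneg hB0, pow_succ]
    exact mul_le_mul (pow_le_pow_left₀ (norm_nonneg _) h6 m) (by linarith) hR0 (by positivity)
  · filter_upwards [ae_all_iff.mpr hW, hR] with x h1 h2
    have h3 : Tendsto (fun j => W j x) atTop (𝓝 (D x)) := by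
      have h4 := (ht0.smul h2).const_add (D x)
      rw [zero_smul, add_zero] at h4
      exact h4.congr (fun j => (h1 j).symm)
    have h5 : Tendsto (fun j => (t j)⁻¹ • (W j x - D x)) atTop (𝓝 (E x)) := by
      refine h2.congr (fun j => ?_)
      rw [h1 j, add_sub_cancel_left, smul_smul, inv_mul_cancel₀ (htp j).ne', one_smul]
    exact (h3.norm.pow _).mul (h3.inner h5)

end EF

section Rt

variable {m : ℕ} {V : Type*} [NormedAddCommGroup V] [InnerProductSpace ℝ V]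

theorem norm_toLp_le2 (f : Fin (m+1) → V) (c d : HS m V) (K L : ℝ) (hK : 0 ≤ K) (hL : 0 ≤ L)
    (h : ∀ i, ‖f i‖ ≤ K * ‖c i‖ + L * ‖d i‖) :
    ‖(WithLp.toLp 2 f : HS m V)‖ ≤ K * ‖c‖ + L * ‖d‖ := by
  have h1 : ∀ e : HS m V, ‖e‖ = ‖(WithLp.toLp 2 (fun i => ‖e i‖) : HS m ℝ)‖ := by
    intro e
    rw [PiLp.norm_eq_of_L2, PiLp.norm_eq_of_L2]
    simp
  have h2 : ‖(WithLp.toLp 2 f : HS m V)‖ ≤
      ‖K • (WithLp.toLp 2 (fun i => ‖c i‖) : HS m ℝ) + L • (WithLp.toLp 2 (fun i => ‖d i‖) : HS m ℝ)‖ := by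
    rw [PiLp.norm_eq_of_L2, PiLp.norm_eq_of_L2]
    apply Real.sqrt_le_sqrt
    refine Finset.sum_le_sum fun i _ => ?_
    refine pow_le_pow_left₀ (norm_nonneg _) ?_ 2
    refine (h i).trans ?_
    simp only [PiLp.add_apply, PiLp.smul_apply, smul_eq_mul]
    exact le_abs_self _
  refine h2.trans ((norm_add_le _ _).trans ?_)
  rw [norm_smul, norm_smul, ← h1, ← h1, Real.norm_of_nonneg hK, Real.norm_of_nonneg hL]

/-- the difference quotient of the variation -/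
noncomputable def Rt (t : ℝ) (a b : V) (c d : HS m V) : HS m V :=
  WithLp.toLp 2 (fun i => t⁻¹ • fderiv ℝ (GG : V × V → V) (a, (t/2) • b) (c i, (t/2) • d i))

theorem Rt_eq {t : ℝ} (ht : t ≠ 0) (a b : V) (c d : HS m V) :
    (WithLp.toLp 2 (fun i => fderiv ℝ (Vt t : V × V → V) (a, b) (c i, d i)) : HS m V) =
      c + t • Rt t a b c d := by
  ext i
  simp only [Rt, PiLp.add_apply, PiLp.smul_apply]
  rw [Vt'_apply, smul_smul, mul_inv_cancel₀ ht, one_smul]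

theorem Rt_bound {t M : ℝ} (ht : 0 < t) (ht1 : t ≤ 1) {a b : V} (hb : ‖b‖ ≤ M) (c d : HS m V) :
    ‖Rt t a b c d‖ ≤ 2 * M ^ 2 * ‖c‖ + 3 * ‖d‖ := by
  have hM : 0 ≤ M := (norm_nonneg _).trans hb
  refine norm_toLp_le2 _ _ _ _ _ (by positivity) (by positivity) (fun i => ?_)
  rw [norm_smul, Real.norm_of_nonneg (by positivity), inv_mul_le_iff₀ ht]
  have h1 := GG'_bound a ((t/2) • b) (c i) ((t/2) • d i)
  rw [norm_smul, norm_smul, Real.norm_of_nonneg (by positivity)] at h1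
  refine h1.trans ?_
  have h2 : ‖b‖ ^ 2 ≤ M ^ 2 := pow_le_pow_left₀ (norm_nonneg _) hb 2
  have h3 : 8 * (t / 2 * ‖b‖) ^ 2 * ‖c i‖ = t * (2 * (t * (‖b‖ ^ 2 * ‖c i‖))) := by ring
  have h4 : 6 * (t / 2 * ‖d i‖) = t * (3 * ‖d i‖) := by ring
  rw [h3, h4, ← mul_add]
  refine mul_le_mul_of_nonneg_left ?_ ht.le
  have h5 : t * (‖b‖ ^ 2 * ‖c i‖) ≤ 1 * (M ^ 2 * ‖c i‖) := by
    refine mul_le_mul ht1 ?_ (by positivity) (by positivity)
    exact mul_le_mul_of_nonneg_right h2 (norm_nonneg _)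
  linarith

theorem Rt_tendsto {t : ℕ → ℝ} (ht : ∀ j, t j ≠ 0) (ht0 : Tendsto t atTop (𝓝 0)) (a b : V)
    (c d : HS m V) : Tendsto (fun j => Rt (t j) a b c d) atTop (𝓝 d) := by
  have hfd : Continuous (fderiv ℝ (GG : V × V → V)) := contDiff_GG.continuous_fderiv one_ne_zero
  have h1 : Tendsto (fun j => (WithLp.toLp 2 (fun i =>
      (t j)⁻¹ • fderiv ℝ (GG : V × V → V) (a, (t j/2) • b) (c i, (t j/2) • d i)) : HS m V)) atTop
      (𝓝 (WithLp.toLp 2 (fun i => d i))) := by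
    refine ((PiLp.continuous_toLp 2 _).tendsto _).comp ?_
    refine tendsto_pi_nhds.mpr fun i => ?_
    have e : ∀ j, (t j)⁻¹ • fderiv ℝ (GG : V × V → V) (a, (t j/2) • b) (c i, (t j/2) • d i) =
        (t j)⁻¹ • fderiv ℝ (GG : V × V → V) (a, (t j/2) • b) (c i, 0) +
        (1/2 : ℝ) • fderiv ℝ (GG : V × V → V) (a, (t j/2) • b) (0, d i) := by
      intro j
      have e1 : ((c i, (t j/2) • d i) : V × V) = (c i, 0) + (t j/2) • ((0, d i) : V × V) := by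
        simp
      rw [e1, map_add, map_smul, smul_add, smul_smul]
      congr 2
      have := ht j
      field_simp
    simp only [e]
    have hlimb : Tendsto (fun j => ((a, (t j/2) • b) : V × V)) atTop (𝓝 (a, 0)) := by
      refine tendsto_const_nhds.prodMk_nhds ?_
      have := (ht0.div_const 2).smul_const b
      simpa using this
    have l1 : Tendsto (fun j => (t j)⁻¹ • fderiv ℝ (GG : V × V → V) (a, (t j/2) • b) (c i, 0))
        atTop (𝓝 0) := by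
      have l0 : Tendsto (fun j => 2 * |t j| * ‖b‖ ^ 2 * ‖c i‖) atTop (𝓝 0) := by
        have := (((ht0.abs).const_mul 2).mul_const (‖b‖ ^ 2)).mul_const ‖c i‖
        simpa using this
      refine squeeze_zero_norm (fun j => ?_) l0
      have h2 := GG'_bound a ((t j/2) • b) (c i) 0
      rw [norm_zero, mul_zero, add_zero, norm_smul, Real.norm_eq_abs, abs_div, abs_two] at h2
      rw [norm_smul, norm_inv, Real.norm_eq_abs, inv_mul_le_iff₀ (abs_pos.mpr (ht j))]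
      refine h2.trans (le_of_eq ?_)
      ring
    have l2 : Tendsto (fun j => (1/2 : ℝ) • fderiv ℝ (GG : V × V → V) (a, (t j/2) • b) (0, d i))
        atTop (𝓝 (d i)) := by
      have h3 : Tendsto (fun j => fderiv ℝ (GG : V × V → V) (a, (t j/2) • b) (0, d i)) atTop
          (𝓝 (fderiv ℝ (GG : V × V → V) (a, 0) (0, d i))) :=
        (((hfd.clm_apply continuous_const).tendsto _).comp hlimb)
      rw [GG'_zero] at h3
      have h4 := h3.const_smul (1/2 : ℝ)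
      rw [smul_smul] at h4
      simpa using h4
    have := l1.add l2
    rwa [zero_add] at this
  exact h1

end Rt

section Main

variable {m : ℕ} {V : Type*} [NormedAddCommGroup V] [InnerProductSpace ℝ V]

theorem el_bdd [NeZero m] [FiniteDimensional ℝ V] {G : Set (Sy m × (V ≃ₗᵢ[ℝ] V))}
    {z φ : ZZ m V} (hz : z ∈ Cls G)
    (hmin : ∀ z' ∈ Cls G, ‖z.2.1‖ ≤ ‖z'.2.1‖) (hφ : φ ∈ XX m V) (hφG : φ ∈ Inv G) {M : ℝ}
    (hM : ∀ᵐ x ∂(mu m), ‖φ.1 x‖ ≤ M) (hτ : ∀ᵐ y ∂(mub m), ⟪φ.2.2 y, z.2.2 y⟫_ℝ = 0) :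
    0 ≤ EF z.2.1 φ.2.1 := by
  set t : ℕ → ℝ := fun j => 1 / ((j:ℝ) + 1) with ht
  have htp : ∀ j, 0 < t j := fun j => by simp only [ht]; positivity
  have ht1 : ∀ j, t j ≤ 1 := fun j => by
    simp only [ht]
    rw [div_le_one (by positivity)]; linarith [(Nat.cast_nonneg j : (0:ℝ) ≤ j)]
  have ht0 : Tendsto t atTop (𝓝 0) := tendsto_one_div_add_atTop_nhds_zero_nat
  choose w hwX hw using fun j => exists_comp (contDiff_Vt (t j)) (Vt_lip (t j)) (Vt_zero (t j))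
    hz.1 hφ
  have hwC : ∀ j, w j ∈ Cls G := by
    intro j
    refine ⟨hwX j, (hw j).inv (contDiff_Vt _) (fun A a b => Vt_map _ A a b) hz.2.1 hφG, ?_⟩
    filter_upwards [(hw j).trd, hz.2.2, hτ] with y h1 h2 h3
    rw [h1]
    exact Vt_norm _ h2 h3
  -- the derivative
  have hwD : ∀ j, (w j).2.1 =ᵐ[mu m] fun x =>
      z.2.1 x + t j • Rt (t j) (z.1 x) (φ.1 x) (z.2.1 x) (φ.2.1 x) := by
    intro j
    filter_upwards [(hw j).snd] with x h1
    rw [h1]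
    exact Rt_eq (htp j).ne' _ _ _ _
  have hBm : MemLp (fun x => ‖z.2.1 x‖ + (2 * M ^ 2 * ‖z.2.1 x‖ + 3 * ‖φ.2.1 x‖))
      (((m+1 : ℕ)) : ℝ≥0∞) (mu m) :=
    (Lp.memLp z.2.1).norm.add
      (((Lp.memLp z.2.1).norm.const_mul _).add ((Lp.memLp φ.2.1).norm.const_mul _))
  have hlim := el_lim z.2.1 φ.2.1 (fun j => (w j).2.1) htp ht1 ht0
    (fun j x => Rt (t j) (z.1 x) (φ.1 x) (z.2.1 x) (φ.2.1 x)) hwD hBm
    (fun j => by
      filter_upwards [hM] with x h2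
      have h4 := Rt_bound (m := m) (htp j) (ht1 j) (a := z.1 x) h2 (z.2.1 x) (φ.2.1 x)
      linarith)
    (Eventually.of_forall fun x => Rt_tendsto (fun j => (htp j).ne') ht0 _ _ _ _)
  exact ge_of_tendsto' hlim (fun j => el_ge z.2.1 (w j).2.1 (htp j) (hmin _ (hwC j)))

theorem neg_mem_Inv {G : Set (Sy m × (V ≃ₗᵢ[ℝ] V))} {φ : ZZ m V} (h : φ ∈ Inv G) : -φ ∈ Inv G := by
  intro g hg
  have h1 : -φ = (-1 : ℝ) • φ := by rw [neg_one_smul]
  rw [h1, TT_smul, h g hg]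

theorem el_bdd_eq [NeZero m] [FiniteDimensional ℝ V] {G : Set (Sy m × (V ≃ₗᵢ[ℝ] V))}
    {z φ : ZZ m V} (hz : z ∈ Cls G)
    (hmin : ∀ z' ∈ Cls G, ‖z.2.1‖ ≤ ‖z'.2.1‖) (hφ : φ ∈ XX m V) (hφG : φ ∈ Inv G) {M : ℝ}
    (hM : ∀ᵐ x ∂(mu m), ‖φ.1 x‖ ≤ M) (hτ : ∀ᵐ y ∂(mub m), ⟪φ.2.2 y, z.2.2 y⟫_ℝ = 0) :
    EF z.2.1 φ.2.1 = 0 := by
  refine le_antisymm ?_ (el_bdd hz hmin hφ hφG hM hτ)
  have h1 := el_bdd hz hmin ((XX m V).neg_mem hφ) (neg_mem_Inv hφG) (M := M) (by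
    filter_upwards [hM, Lp.coeFn_neg φ.1] with x h1 h2
    have : (-φ).1 = -φ.1 := rfl
    rw [this, h2, Pi.neg_apply, norm_neg]
    exact h1) (by
    filter_upwards [hτ, Lp.coeFn_neg φ.2.2] with x h1 h2
    have : (-φ).2.2 = -φ.2.2 := rfl
    rw [this, h2, Pi.neg_apply, inner_neg_left, h1, neg_zero])
  have h2 : (-φ).2.1 = -φ.2.1 := rfl
  rw [h2, map_neg] at h1
  linarith

/-- truncation -/
noncomputable def Kt (s : ℝ) (p : V × V) : V := (2 * s)⁻¹ • kp (s • p.1)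

theorem contDiff_Kt (s : ℝ) : ContDiff ℝ 1 (Kt s : V × V → V) := by
  unfold Kt
  exact contDiff_const.smul (contDiff_kp.comp (contDiff_const.smul contDiff_fst))

theorem Kt'_apply {s : ℝ} (hs : s ≠ 0) (a b c d : V) :
    fderiv ℝ (Kt s : V × V → V) (a, b) (c, d) = (1/2 : ℝ) • fderiv ℝ (kp : V → V) (s • a) c := by
  have hf : HasFDerivAt (Prod.fst : V × V → V) (ContinuousLinearMap.fst ℝ V V) (a, b) :=
    hasFDerivAt_fst
  have h1 : HasFDerivAt (fun p : V × V => s • p.1) (s • ContinuousLinearMap.fst ℝ V V) (a, b) :=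
    hf.const_smul s
  have k2 : HasFDerivAt (kp : V → V) (fderiv ℝ kp (s • a)) ((fun p : V × V => s • p.1) (a, b)) :=
    (contDiff_kp.differentiable one_ne_zero _).hasFDerivAt
  have h2 := (HasFDerivAt.comp (g := kp) (a, b) k2 h1).const_smul ((2 * s)⁻¹)
  have h3 : fderiv ℝ (Kt s : V × V → V) (a, b) = _ := h2.fderiv
  rw [h3]
  simp only [smul_apply, ContinuousLinearMap.comp_apply, ContinuousLinearMap.coe_fst']
  rw [map_smul, smul_smul]
  congr 1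
  field_simp

theorem Kt_zero (s : ℝ) : Kt s (0 : V × V) = 0 := by
  simp [Kt, kp]

theorem Kt_lip {s : ℝ} (hs : s ≠ 0) : LipschitzWith 2 (Kt s : V × V → V) := by
  refine lipschitzWith_of_nnnorm_fderiv_le ((contDiff_Kt s).differentiable one_ne_zero) ?_
  intro p
  rw [← NNReal.coe_le_coe, coe_nnnorm]
  refine ContinuousLinearMap.opNorm_le_bound _ (by positivity) (fun q => ?_)
  obtain ⟨a, b⟩ := p
  obtain ⟨c, d⟩ := q
  rw [Kt'_apply hs, norm_smul]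
  have h1 := kp'_bound (s • a) c
  have h2 : ‖c‖ ≤ ‖(c, d)‖ := norm_fst_le (c, d)
  have h3 : ‖(1/2 : ℝ)‖ = 1/2 := by norm_num
  rw [h3, NNReal.coe_ofNat]
  linarith

theorem Kt_map (s : ℝ) (A : V ≃ₗᵢ[ℝ] V) (a b : V) : Kt s (A a, A b) = A (Kt s (a, b)) := by
  unfold Kt
  simp only
  rw [← map_smul, kp_map, map_smul]

theorem Kt_bound {s : ℝ} (hs : 0 < s) (p : V × V) : ‖Kt s p‖ ≤ (2 * s)⁻¹ := by
  unfold Kt
  rw [norm_smul, Real.norm_of_nonneg (by positivity)]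
  have := kp_norm (s • p.1)
  have h2 : 0 < (2 * s)⁻¹ := by positivity
  nlinarith

theorem Kt'_tendsto {s : ℕ → ℝ} (hs : ∀ j, s j ≠ 0) (hs0 : Tendsto s atTop (𝓝 0)) (a b : V)
    (d : HS m V) : Tendsto (fun j => (WithLp.toLp 2 (fun i =>
      fderiv ℝ (Kt (s j) : V × V → V) (a, b) (d i, d i)) : HS m V)) atTop (𝓝 d) := by
  have hfd : Continuous (fderiv ℝ (kp : V → V)) := contDiff_kp.continuous_fderiv one_ne_zero
  have h1 : Tendsto (fun j => (WithLp.toLp 2 (fun i =>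
      fderiv ℝ (Kt (s j) : V × V → V) (a, b) (d i, d i)) : HS m V)) atTop
      (𝓝 (WithLp.toLp 2 (fun i => d i))) := by
    refine ((PiLp.continuous_toLp 2 _).tendsto _).comp ?_
    refine tendsto_pi_nhds.mpr fun i => ?_
    simp only [Kt'_apply (hs _)]
    have hlimb : Tendsto (fun j => s j • a) atTop (𝓝 0) := by
      have := hs0.smul_const a
      simpa using this
    have h3 : Tendsto (fun j => fderiv ℝ (kp : V → V) (s j • a) (d i)) atTop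
        (𝓝 (fderiv ℝ (kp : V → V) 0 (d i))) :=
      (((hfd.clm_apply continuous_const).tendsto _).comp hlimb)
    have h4 : fderiv ℝ (kp : V → V) 0 (d i) = (2:ℝ) • d i := by
      rw [kp'_apply, sg'_apply]
      simp [sg]
    rw [h4] at h3
    have h5 := h3.const_smul (1/2 : ℝ)
    rw [smul_smul] at h5
    simpa using h5
  exact h1

theorem Kt'_bound {s : ℝ} (hs : s ≠ 0) (a b : V) (d : HS m V) :
    ‖(WithLp.toLp 2 (fun i => fderiv ℝ (Kt s : V × V → V) (a, b) (d i, d i)) : HS m V)‖ ≤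
      2 * ‖d‖ := by
  refine norm_toLp_le _ _ _ (by norm_num) (fun i => ?_)
  rw [Kt'_apply hs, norm_smul]
  have h1 := kp'_bound (s • a) (d i)
  have h3 : ‖(1/2 : ℝ)‖ = 1/2 := by norm_num
  rw [h3]
  linarith

theorem el_inv [NeZero m] [FiniteDimensional ℝ V] {G : Set (Sy m × (V ≃ₗᵢ[ℝ] V))}
    {z φ : ZZ m V} (hz : z ∈ Cls G)
    (hmin : ∀ z' ∈ Cls G, ‖z.2.1‖ ≤ ‖z'.2.1‖) (hφ : φ ∈ XX m V) (hφG : φ ∈ Inv G)
    (hτ : ∀ᵐ y ∂(mub m), ⟪φ.2.2 y, z.2.2 y⟫_ℝ = 0) :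
    EF z.2.1 φ.2.1 = 0 := by
  set t : ℕ → ℝ := fun j => 1 / ((j:ℝ) + 1) with ht
  have htp : ∀ j, 0 < t j := fun j => by simp only [ht]; positivity
  have ht0 : Tendsto t atTop (𝓝 0) := tendsto_one_div_add_atTop_nhds_zero_nat
  choose w hwX hw using fun j => exists_comp (contDiff_Kt (t j)) (Kt_lip (htp j).ne')
    (Kt_zero (t j)) hφ hφ
  have h0 : ∀ j, EF z.2.1 (w j).2.1 = 0 := by
    intro j
    refine el_bdd_eq hz hmin (hwX j)
      ((hw j).inv (contDiff_Kt _) (fun A a b => Kt_map _ A a b) hφG hφG) (M := (2 * t j)⁻¹) ?_ ?_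
    · filter_upwards [(hw j).fst] with x h1
      rw [h1]
      exact Kt_bound (htp j) _
    · filter_upwards [(hw j).trd, hτ] with y h1 h2
      rw [h1]
      unfold Kt kp
      simp only
      rw [smul_smul, smul_smul, real_inner_smul_left, h2, mul_zero]
  have hlim : Tendsto (fun j => (w j).2.1) atTop (𝓝 φ.2.1) := by
    have h1 : Tendsto (fun j => (w j).2.1 - φ.2.1) atTop (𝓝 0) := by
      refine lp_tendsto_zero_of_dom (Nat.succ_ne_zero m) _ (fun x => 3 * ‖φ.2.1 x‖) ?_ ?_ ?_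
      · have : (fun x => (3 * ‖φ.2.1 x‖) ^ (m+1)) = fun x => 3 ^ (m+1) * ‖φ.2.1 x‖ ^ (m+1) := by
          funext x; rw [mul_pow]
        rw [this]
        exact (lp_int_pow (Nat.succ_ne_zero m) φ.2.1).const_mul _
      · intro j
        filter_upwards [Lp.coeFn_sub (w j).2.1 φ.2.1, (hw j).snd] with x h1 h2
        rw [h1, Pi.sub_apply, h2]
        refine (norm_sub_le _ _).trans ?_
        have := Kt'_bound (m := m) (htp j).ne' (φ.1 x) (φ.1 x) (φ.2.1 x)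
        linarith
      · filter_upwards [ae_all_iff.mpr (fun j => Lp.coeFn_sub (w j).2.1 φ.2.1),
          ae_all_iff.mpr (fun j => (hw j).snd)] with x h1 h2
        have h3 := (Kt'_tendsto (m := m) (fun j => (htp j).ne') ht0 (φ.1 x) (φ.1 x)
          (φ.2.1 x)).sub_const (φ.2.1 x)
        rw [sub_self] at h3
        refine h3.congr (fun j => ?_)
        rw [h1 j, Pi.sub_apply, h2 j]
    have h2 := h1.add_const φ.2.1
    simpa using h2
  have h1 := ((EF z.2.1).continuous.tendsto _).comp hlim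
  have h2 : (fun j => EF z.2.1 (w j).2.1) = fun _ => 0 := funext h0
  have h3 : Tendsto (fun j => EF z.2.1 (w j).2.1) atTop (𝓝 (EF z.2.1 φ.2.1)) := h1
  rw [h2] at h3
  exact (tendsto_nhds_unique h3 tendsto_const_nhds)

end Main

end Pool.Agent.Helper42.Bub
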