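import Pool.Agent.Helper42.Bub.Comp2

/-!
Existence of minimizers in symmetric classes.
-/

set_option maxHeartbeats 400000

open Filter Topology MeasureTheory Set
open scoped ENNReal InnerProductSpace NNReal

namespace Pool.Agent.Helper42.Bub

variable {m : ℕ} {V : Type*} [NormedAddCommGroup V] [InnerProductSpace ℝ V]

/-- symmetric elements -/
def Inv (G : Set (Sy m × (V ≃ₗᵢ[ℝ] V))) : Set (ZZ m V) := {z | ∀ g ∈ G, TT g.1 g.2 z = z}

theorem isClosed_Inv (G : Set (Sy m × (V ≃ₗᵢ[ℝ] V))) : IsClosed (Inv G) := by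
  have : Inv G = ⋂ g ∈ G, {z | TT g.1 g.2 z = z} := by
    ext z; simp [Inv]
  rw [this]
  refine isClosed_biInter fun g _ => ?_
  exact isClosed_eq (TT_continuous _ _) continuous_id

theorem convex_Inv (G : Set (Sy m × (V ≃ₗᵢ[ℝ] V))) : Convex ℝ (Inv G) := by
  intro x hx y hy a b _ _ _ g hg
  rw [TT_add, TT_smul, TT_smul, hx g hg, hy g hg]

/-- The admissible class. -/
def Cls (G : Set (Sy m × (V ≃ₗᵢ[ℝ] V))) : Set (ZZ m V) :=
  {z | z ∈ XX m V ∧ z ∈ Inv G ∧ ∀ᵐ y ∂(mub m), ‖z.2.2 y‖ = 1}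

theorem convex_XX : Convex ℝ (XX m V : Set (ZZ m V)) := (XX m V).convex

theorem convex_ball_snd (c : Lp V (pp m) (mub m)) (a : ℝ) :
    Convex ℝ {z : ZZ m V | ‖z.2.2 - c‖ ≤ a} := by
  intro x hx y hy s t hs ht hst
  have h1 : (s • x + t • y).2.2 - c = s • (x.2.2 - c) + t • (y.2.2 - c) := by
    have : (s • x + t • y).2.2 = s • x.2.2 + t • y.2.2 := rfl
    rw [this, smul_sub, smul_sub]
    have h2 : c = s • c + t • c := by rw [← add_smul, hst, one_smul]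
    nth_rw 1 [h2]
    abel
  change ‖(s • x + t • y).2.2 - c‖ ≤ a
  rw [h1]
  refine (norm_add_le _ _).trans ?_
  rw [norm_smul, norm_smul, Real.norm_of_nonneg hs, Real.norm_of_nonneg ht]
  have hx' : ‖x.2.2 - c‖ ≤ a := hx
  have hy' : ‖y.2.2 - c‖ ≤ a := hy
  calc s * ‖x.2.2 - c‖ + t * ‖y.2.2 - c‖ ≤ s * a + t * a :=
        add_le_add (mul_le_mul_of_nonneg_left hx' hs) (mul_le_mul_of_nonneg_left hy' ht)
    _ = a := by rw [← add_mul, hst, one_mul]

theorem isClosed_ball_snd (c : Lp V (pp m) (mub m)) (a : ℝ) :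
    IsClosed {z : ZZ m V | ‖z.2.2 - c‖ ≤ a} := by
  refine isClosed_le ?_ continuous_const
  exact ((continuous_snd.comp continuous_snd).sub continuous_const).norm

theorem convex_ball_D (a : ℝ) :
    Convex ℝ {z : ZZ m V | ‖z.2.1‖ ≤ a} := by
  intro x hx y hy s t hs ht hst
  change ‖(s • x + t • y).2.1‖ ≤ a
  have h1 : (s • x + t • y).2.1 = s • x.2.1 + t • y.2.1 := rfl
  rw [h1]
  refine (norm_add_le _ _).trans ?_
  rw [norm_smul, norm_smul, Real.norm_of_nonneg hs, Real.norm_of_nonneg ht]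
  have hx' : ‖x.2.1‖ ≤ a := hx
  have hy' : ‖y.2.1‖ ≤ a := hy
  calc s * ‖x.2.1‖ + t * ‖y.2.1‖ ≤ s * a + t * a :=
        add_le_add (mul_le_mul_of_nonneg_left hx' hs) (mul_le_mul_of_nonneg_left hy' ht)
    _ = a := by rw [← add_mul, hst, one_mul]

theorem isClosed_ball_D (a : ℝ) : IsClosed {z : ZZ m V | ‖z.2.1‖ ≤ a} := by
  refine isClosed_le ?_ continuous_const
  exact (continuous_fst.comp continuous_snd).norm

theorem norm_trace_le [NeZero m] {τ : Lp V (pp m) (mub m)} (h : ∀ᵐ y ∂(mub m), ‖τ y‖ ≤ 1) :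
    ‖τ‖ ≤ ((mub m univ) ^ (1 / ((m+1 : ℕ) : ℝ))).toReal := by
  have h1 := eLpNorm_le_of_ae_bound (p := pp m) h
  have e : (pp m).toReal = ((m+1 : ℕ) : ℝ) := ENNReal.toReal_natCast _
  rw [e, ENNReal.ofReal_one, mul_one] at h1
  rw [Lp.norm_def, one_div]
  refine ENNReal.toReal_mono ?_ h1
  exact ENNReal.rpow_ne_top_of_nonneg (by positivity) (measure_ne_top _ _)

theorem exists_minimizer [FiniteDimensional ℝ V] [NeZero m] (G : Set (Sy m × (V ≃ₗᵢ[ℝ] V)))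
    (hne : (Cls G).Nonempty) : ∃ z ∈ Cls G, ∀ z' ∈ Cls G, ‖z.2.1‖ ≤ ‖z'.2.1‖ := by
  have hm : 1 ≤ m := Nat.one_le_iff_ne_zero.mpr (NeZero.ne m)
  set E : ZZ m V → ℝ := fun z => ‖z.2.1‖ with hE
  set I : ℝ := sInf (E '' Cls G) with hI
  have hbdd : BddBelow (E '' Cls G) := ⟨0, by rintro _ ⟨z, _, rfl⟩; exact norm_nonneg _⟩
  have hIle : ∀ z ∈ Cls G, I ≤ ‖z.2.1‖ := fun z hz => csInf_le hbdd ⟨z, hz, rfl⟩
  have hex : ∀ i : ℕ, ∃ z ∈ Cls G, ‖z.2.1‖ < I + 1 / ((i : ℝ) + 1) := by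
    intro i
    obtain ⟨_, ⟨z, hz, rfl⟩, hlt⟩ := exists_lt_of_csInf_lt (hne.image E)
      (show sInf (E '' Cls G) < I + 1 / ((i : ℝ) + 1) by
        have : (0:ℝ) < 1 / ((i : ℝ) + 1) := by positivity
        simp only [hI]; linarith)
    exact ⟨z, hz, hlt⟩
  choose z hz hzI using hex
  obtain ⟨C, hC0, hC⟩ := fst_le m V
  set M : ℝ := ((mub m univ) ^ (1 / ((m+1 : ℕ) : ℝ))).toReal with hM
  have hI0 : 0 ≤ I := by
    refine le_csInf (hne.image E) ?_
    rintro _ ⟨z, _, rfl⟩; exact norm_nonneg _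
  have hb3 : ∀ j, ‖(z j).2.2‖ ≤ M := fun j => norm_trace_le (by
    filter_upwards [(hz j).2.2] with y hy using hy.le)
  have hM0 : 0 ≤ M := (norm_nonneg _).trans (hb3 0)
  have hb2 : ∀ j, ‖(z j).2.1‖ ≤ I + 1 := by
    intro j
    refine (hzI j).le.trans ?_
    have : 1 / ((j : ℝ) + 1) ≤ 1 := by
      rw [div_le_one (by positivity)]; linarith [(Nat.cast_nonneg j : (0:ℝ) ≤ j)]
    linarith
  have hb1 : ∀ j, ‖(z j).1‖ ≤ C * ((I + 1) + M) := by
    intro j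
    refine (hC _ (hz j).1).trans ?_
    exact mul_le_mul_of_nonneg_left (add_le_add (hb2 j) (hb3 j)) hC0
  set B : ℝ := max (C * ((I + 1) + M)) (max (I+1) M) with hB
  have hbz : ∀ j, ‖z j‖ ≤ B := by
    intro j
    exact max_le_max (hb1 j) (max_le_max (hb2 j) (hb3 j))
  obtain ⟨σ, hσ, τ, hτ⟩ := trace_compact z (fun j => (hz j).1) B hbz (fun j => by
    filter_upwards [(hz j).2.2] with y hy using hy.le)
  set K : ℕ → Set (ZZ m V) := fun N => closure (convexHull ℝ {x | ∃ j, N ≤ j ∧ x = z (σ j)})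
    with hK
  have hKsub : ∀ (P : Set (ZZ m V)), IsClosed P → Convex ℝ P → ∀ N, (∀ j, N ≤ j → z (σ j) ∈ P) →
      K N ⊆ P := by
    intro P hP1 hP2 N hP3
    refine closure_minimal (convexHull_min ?_ hP2) hP1
    rintro _ ⟨j, hj, rfl⟩
    exact hP3 j hj
  have hKanti : Antitone K := by
    intro a b hab
    refine closure_mono (convexHull_mono ?_)
    rintro x ⟨j, hj, rfl⟩
    exact ⟨j, hab.trans hj, rfl⟩
  have hKball : K 0 ⊆ Metric.closedBall 0 B :=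
    hKsub _ Metric.isClosed_closedBall (convex_closedBall 0 B) 0
      (fun j _ => by rw [mem_closedBall_zero_iff]; exact hbz _)
  have hB0 : 0 ≤ B := (norm_nonneg _).trans (hbz 0)
  obtain ⟨c, hc, _⟩ := (clark_NN (V := V) hm).nested K (fun i => isClosed_closure)
    (fun i => (convex_convexHull ℝ _).closure)
    (fun i => ⟨z (σ i), subset_closure (subset_convexHull ℝ _ ⟨i, le_rfl, rfl⟩)⟩) hKanti
    (B := 3 * B ^ (m+1)) (by
      intro x hx
      have h1 := hKball hx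
      rw [mem_closedBall_zero_iff] at h1
      have a1 : ‖x.1‖ ≤ B := (norm_fst_le x).trans h1
      have a2 : ‖x.2.1‖ ≤ B := ((norm_fst_le x.2).trans (norm_snd_le x)).trans h1
      have a3 : ‖x.2.2‖ ≤ B := ((norm_snd_le x.2).trans (norm_snd_le x)).trans h1
      unfold NN
      have b1 := pow_le_pow_left₀ (norm_nonneg _) a1 (m+1)
      have b2 := pow_le_pow_left₀ (norm_nonneg _) a2 (m+1)
      have b3 := pow_le_pow_left₀ (norm_nonneg _) a3 (m+1)
      linarith)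
  have hcP : ∀ (P : Set (ZZ m V)), IsClosed P → Convex ℝ P → ∀ N, (∀ j, N ≤ j → z (σ j) ∈ P) →
      c ∈ P := fun P h1 h2 N h3 => hKsub P h1 h2 N h3 (hc N)
  have hcX : c ∈ XX m V := hcP _ isClosed_XX convex_XX 0 (fun j _ => (hz _).1)
  have hcI : c ∈ Inv G := hcP _ (isClosed_Inv G) (convex_Inv G) 0 (fun j _ => (hz _).2.1)
  have hcτ : c.2.2 = τ := by
    rw [← sub_eq_zero, ← norm_le_zero_iff]
    refine le_of_forall_pos_le_add fun δ hδ => ?_
    rw [zero_add]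
    have h1 := (tendsto_iff_norm_sub_tendsto_zero.mp hτ).eventually (gt_mem_nhds hδ)
    obtain ⟨N, hN⟩ := eventually_atTop.mp h1
    exact hcP _ (isClosed_ball_snd τ δ) (convex_ball_snd τ δ) N (fun j hj => (hN j hj).le)
  have hτ1 : ∀ᵐ y ∂(mub m), ‖τ y‖ = 1 := by
    obtain ⟨ns, _, hae⟩ := lp_subseq_ae _ _ hτ
    filter_upwards [hae, ae_all_iff.mpr (fun j => (hz j).2.2)] with y h1 h2
    have h3 : Tendsto (fun i => ‖(z (σ (ns i))).2.2 y‖) atTop (𝓝 ‖τ y‖) := h1.norm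
    have h4 : (fun i => ‖(z (σ (ns i))).2.2 y‖) = fun _ => 1 := funext fun i => h2 _
    rw [h4] at h3
    exact (tendsto_nhds_unique h3 tendsto_const_nhds)
  have hcD : ‖c.2.1‖ ≤ I := by
    refine le_of_forall_pos_le_add fun δ hδ => ?_
    have h1 : Tendsto (fun i : ℕ => 1 / ((i : ℝ) + 1)) atTop (𝓝 0) :=
      tendsto_one_div_add_atTop_nhds_zero_nat
    obtain ⟨N, hN⟩ := eventually_atTop.mp (h1.eventually (gt_mem_nhds hδ))
    refine hcP _ (isClosed_ball_D (I + δ)) (convex_ball_D (I + δ)) N (fun j hj => ?_)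
    have h2 := hzI (σ j)
    have h3 := hN (σ j) (hj.trans (hσ.id_le j))
    change ‖(z (σ j)).2.1‖ ≤ I + δ
    linarith
  refine ⟨c, ⟨hcX, hcI, ?_⟩, fun z' hz' => hcD.trans (hIle z' hz')⟩
  rw [hcτ]; exact hτ1

end Pool.Agent.Helper42.Bub
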