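import Pool.Agent.Helper42.Bub.Chain
import Pool.Agent.Helper42.Bub.Exist

/-!
Equivariant compositions.
-/

set_option maxHeartbeats 400000

open Filter Topology MeasureTheory Set
open scoped ENNReal InnerProductSpace NNReal

namespace Pool.Agent.Helper42.Bub

variable {m : ℕ} {V : Type*} [NormedAddCommGroup V] [InnerProductSpace ℝ V]

theorem fderiv_equi {Ψ : V × V → V} (hΨ : ContDiff ℝ 1 Ψ) (A : V ≃ₗᵢ[ℝ] V)
    (h : ∀ a b, Ψ (A a, A b) = A (Ψ (a, b))) (a b c d : V) :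
    fderiv ℝ Ψ (A a, A b) (A c, A d) = A (fderiv ℝ Ψ (a, b) (c, d)) := by
  set L : V × V →L[ℝ] V × V := (A.toContinuousLinearEquiv : V →L[ℝ] V).prodMap
    (A.toContinuousLinearEquiv : V →L[ℝ] V) with hL
  have h1 : (fun p : V × V => Ψ (L p)) = fun p => A (Ψ p) := by
    funext p
    exact h p.1 p.2
  have d1 : HasFDerivAt (fun p : V × V => Ψ (L p)) ((fderiv ℝ Ψ (L (a, b))).comp L) (a, b) :=
    ((hΨ.differentiable one_ne_zero) _).hasFDerivAt.comp (a, b) L.hasFDerivAt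
  have d2 : HasFDerivAt (fun p : V × V => A (Ψ p))
      ((A.toContinuousLinearEquiv : V →L[ℝ] V).comp (fderiv ℝ Ψ (a, b))) (a, b) :=
    (A.toContinuousLinearEquiv.hasFDerivAt).comp (a, b)
      ((hΨ.differentiable one_ne_zero) _).hasFDerivAt
  rw [h1] at d1
  have h2 := d1.unique d2
  have h3 := congrArg (fun T : V × V →L[ℝ] V => T (c, d)) h2
  exact h3

theorem IsComp.equi {Ψ : V × V → V} (hΨ : ContDiff ℝ 1 Ψ) (S : Sy m) (A : V ≃ₗᵢ[ℝ] V)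
    (h : ∀ a b, Ψ (A a, A b) = A (Ψ (a, b))) {z₁ z₂ z₃ : ZZ m V} (hc : IsComp Ψ z₁ z₂ z₃) :
    IsComp Ψ (TT S A z₁) (TT S A z₂) (TT S A z₃) := by
  refine ⟨?_, ?_, ?_⟩
  · filter_upwards [TT_fst S A z₁, TT_fst S A z₂, TT_fst S A z₃,
      S.mp.quasiMeasurePreserving.ae hc.fst] with x h1 h2 h3 h4
    rw [h3, h4, h1, h2, h]
  · filter_upwards [TT_fst S A z₁, TT_fst S A z₂, TT_snd S A z₁, TT_snd S A z₂, TT_snd S A z₃,
      S.mp.quasiMeasurePreserving.ae hc.snd] with x h1 h2 h3 h4 h5 h6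
    rw [h5, h6, h1, h2, h3, h4]
    ext i
    simp only [twF]
    rw [fderiv_equi hΨ A h]
    congr 1
    have e : (∑ j, (S.O x (eb i)) j • (z₁.2.1 (S.φ x)) j, ∑ j, (S.O x (eb i)) j • (z₂.2.1 (S.φ x)) j)
      = ∑ j, (S.O x (eb i)) j • ((z₁.2.1 (S.φ x)) j, (z₂.2.1 (S.φ x)) j) := by
      refine Prod.ext ?_ ?_
      · rw [Prod.fst_sum]; rfl
      · rw [Prod.snd_sum]; rfl
    rw [e, map_sum]
    refine Finset.sum_congr rfl fun j _ => ?_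
    rw [map_smul]
  · filter_upwards [TT_trd S A z₁, TT_trd S A z₂, TT_trd S A z₃,
      S.mp'.quasiMeasurePreserving.ae hc.trd] with x h1 h2 h3 h4
    rw [h3, h4, h1, h2, h]

theorem IsComp.inv {Ψ : V × V → V} (hΨ : ContDiff ℝ 1 Ψ) {G : Set (Sy m × (V ≃ₗᵢ[ℝ] V))}
    (h : ∀ (A : V ≃ₗᵢ[ℝ] V) a b, Ψ (A a, A b) = A (Ψ (a, b))) {z₁ z₂ z₃ : ZZ m V}
    (hc : IsComp Ψ z₁ z₂ z₃) (h1 : z₁ ∈ Inv G) (h2 : z₂ ∈ Inv G) : z₃ ∈ Inv G := by
  intro g hg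
  have h3 := hc.equi hΨ g.1 g.2 (h g.2)
  rw [h1 g hg, h2 g hg] at h3
  exact h3.unique hc

end Pool.Agent.Helper42.Bub
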