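import Pool.Agent.Helper42.Bub.Star3

/-!
The integral inequality and its limit.
-/

set_option maxHeartbeats 400000

open Filter Topology MeasureTheory Set
open scoped ENNReal InnerProductSpace NNReal ContDiff

namespace Pool.Agent.Helper42.Bub

open Pool.Agent.Helper42.Bubble (Half bdry IsSobolev)

variable {k : ℕ}

theorem Bf_bound {C δ ε f : ℝ} (hδ : 0 < δ) (hε : 0 < ε) (hf : 0 ≤ f) (x : Eu (k+2+1)) :
    ‖Bf k C δ ε f x‖ ≤ bb k x ^ 2 * Qd k δ x * (5 * ((k:ℝ) + 3) + 9) +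
      2 * C ^ 2 * (SS2 k).indicator (fun _ => 1) x := by
  have hk : (0:ℝ) ≤ k := Nat.cast_nonneg k
  have hQ := Qd_pos hδ x
  have hne : 0 < f ^ 2 + ε := by positivity
  have hH := H_le_one (k := k) hf hε
  have hH0 : 0 ≤ f ^ (k+3) * (f ^ 2 + ε) ^ (qq k) := by
    have := Real.rpow_pos_of_pos hne (qq k)
    positivity
  have ht0 : 0 ≤ f ^ 2 / (f ^ 2 + ε) := by positivity
  have ht1 : f ^ 2 / (f ^ 2 + ε) ≤ 1 := by
    rw [div_le_one hne]; linarith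
  have hS : 0 ≤ (SS2 k).indicator (fun _ => (1:ℝ)) x := indicator_nonneg (fun _ _ => zero_le_one) x
  have hbQ : 0 ≤ bb k x ^ 2 * Qd k δ x := by positivity
  unfold Bf
  rw [norm_mul, Real.norm_of_nonneg hH0]
  have h1 : ‖bb k x ^ 2 * Qd k δ x * (-(4 * ((k:ℝ) + 3)) * (f ^ 2 / (f ^ 2 + ε)) + 8 +
      ((k:ℝ) + 3) + 1/2) + 2 * C ^ 2 * (SS2 k).indicator (fun _ => 1) x‖ ≤
      bb k x ^ 2 * Qd k δ x * (5 * ((k:ℝ) + 3) + 9) +
      2 * C ^ 2 * (SS2 k).indicator (fun _ => 1) x := by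
    refine (norm_add_le _ _).trans (add_le_add ?_ ?_)
    · rw [norm_mul, Real.norm_of_nonneg hbQ]
      refine mul_le_mul_of_nonneg_left ?_ hbQ
      rw [Real.norm_eq_abs, abs_le]
      constructor
      · nlinarith
      · nlinarith
    · rw [Real.norm_of_nonneg (by positivity)]
  calc (f ^ (k+3) * (f ^ 2 + ε) ^ (qq k)) * _ ≤ 1 * _ :=
        mul_le_mul hH h1 (norm_nonneg _) zero_le_one
    _ = _ := one_mul _

theorem cont_Hf {ε : ℝ} (hε : 0 < ε) :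
    Continuous (fun f : ℝ => f ^ (k+3) * (f ^ 2 + ε) ^ (qq k)) := by
  have h1 : Continuous (fun f : ℝ => f ^ 2 + ε) := by fun_prop
  have h2 : Continuous (fun f : ℝ => (f ^ 2 + ε) ^ (qq k)) :=
    h1.rpow_const (fun f => Or.inl (by positivity))
  exact (continuous_pow (k+3)).mul h2

theorem cont_tf {ε : ℝ} (hε : 0 < ε) : Continuous (fun f : ℝ => f ^ 2 / (f ^ 2 + ε)) := by
  have h1 : Continuous (fun f : ℝ => f ^ 2 + ε) := by fun_prop
  exact (continuous_pow 2).div h1 (fun f => by positivity)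

theorem measurableSet_SS2 : MeasurableSet (SS2 k) := Metric.isOpen_ball.measurableSet

theorem aesm_Bf {C δ ε : ℝ} (hδ : 0 < δ) (hε : 0 < ε) {f : Eu (k+2+1) → ℝ}
    {ν : Measure (Eu (k+2+1))} (hf : AEStronglyMeasurable f ν) :
    AEStronglyMeasurable (fun x => Bf k C δ ε (f x) x) ν := by
  unfold Bf
  have h1 : AEStronglyMeasurable (fun x => (f x) ^ (k+3) * ((f x) ^ 2 + ε) ^ (qq k)) ν :=
    (cont_Hf hε).comp_aestronglyMeasurable hf
  have h2 : AEStronglyMeasurable (fun x => (f x) ^ 2 / ((f x) ^ 2 + ε)) ν :=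
    (cont_tf hε).comp_aestronglyMeasurable hf
  have h3 : AEStronglyMeasurable (fun x => bb k x ^ 2 * Qd k δ x) ν :=
    ((contDiff_bb.continuous.pow 2).mul (contDiff_Qd hδ).continuous).aestronglyMeasurable
  have h4 : AEStronglyMeasurable (fun x => (SS2 k).indicator (fun _ => (1:ℝ)) x) ν :=
    (aestronglyMeasurable_const).indicator measurableSet_SS2
  exact h1.mul ((h3.mul ((((h2.const_mul _).add aestronglyMeasurable_const).add
    aestronglyMeasurable_const).add aestronglyMeasurable_const)).add (h4.const_mul _))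

theorem int_b2Q {δ : ℝ} (hδ : 0 < δ) : Integrable (fun x => bb k x ^ 2 * Qd k δ x) := by
  refine Continuous.integrable_of_hasCompactSupport
    ((contDiff_bb.continuous.pow 2).mul (contDiff_Qd hδ).continuous) ?_
  refine HasCompactSupport.intro (isCompact_closedBall (eb 0 : Eu (k+2+1)) (1/2)) (fun x hx => ?_)
  rw [bb_supp (fun h => hx (Metric.ball_subset_closedBall h))]
  ring

theorem int_ind : Integrable (fun x => (SS2 k).indicator (fun _ => (1:ℝ)) x) := by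
  rw [integrable_indicator_iff measurableSet_SS2]
  exact integrableOn_const measure_ball_lt_top.ne

theorem int_Bf {C δ ε : ℝ} (hδ : 0 < δ) (hε : 0 < ε) {f : Eu (k+2+1) → ℝ}
    (hf : AEStronglyMeasurable f (volume.restrict (Half (k+2)))) (hf0 : ∀ x, 0 ≤ f x) :
    Integrable (fun x => Bf k C δ ε (f x) x) (volume.restrict (Half (k+2))) := by
  refine Integrable.mono' (((int_b2Q hδ).mul_const (5 * ((k:ℝ) + 3) + 9)).add
    (int_ind.const_mul (2 * C ^ 2))).integrableOn (aesm_Bf hδ hε hf)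
    (Eventually.of_forall fun x => Bf_bound hδ hε (hf0 x) x)

theorem Bf_tendsto {C δ f : ℝ} (hf : 0 < f) {ε : ℕ → ℝ} (hε0 : Tendsto ε atTop (𝓝 0))
    (x : Eu (k+2+1)) : Tendsto (fun j => Bf k C δ (ε j) f x) atTop
      (𝓝 (bb k x ^ 2 * Qd k δ x * (-(3 * ((k:ℝ) + 3)) + 8 + 1/2) +
        2 * C ^ 2 * (SS2 k).indicator (fun _ => 1) x)) := by
  unfold Bf
  have h1 := H_tendsto (k := k) hf hε0
  have h2 : Tendsto (fun j => f ^ 2 / (f ^ 2 + ε j)) atTop (𝓝 1) := by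
    have h3 : Tendsto (fun j => f ^ 2 + ε j) atTop (𝓝 (f ^ 2)) := by
      have := hε0.const_add (f ^ 2)
      rwa [add_zero] at this
    have h4 := (tendsto_const_nhds (x := f ^ 2)).div h3 (by positivity)
    rwa [div_self (by positivity)] at h4
  have h5 := h1.mul ((((((h2.const_mul (-(4 * ((k:ℝ) + 3)))).add_const 8).add_const
    ((k:ℝ) + 3)).add_const (1/2)).const_mul (bb k x ^ 2 * Qd k δ x)).add_const
      (2 * C ^ 2 * (SS2 k).indicator (fun _ => 1) x))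
  rw [one_mul] at h5
  have e : bb k x ^ 2 * Qd k δ x * (-(4 * ((k:ℝ) + 3)) * 1 + 8 + ((k:ℝ) + 3) + 1/2) =
      bb k x ^ 2 * Qd k δ x * (-(3 * ((k:ℝ) + 3)) + 8 + 1/2) := by ring
  rw [e] at h5
  exact h5

theorem int_ineq {z : ZZ (k+2) (Eu (k+2+1))} (hz : z ∈ XX (k+2) (Eu (k+2+1)))
    (hEL : ∀ Φ ∈ XX (k+2) (Eu (k+2+1)), (∀ᵐ y ∂(mub (k+2)), ⟪Φ.2.2 y, z.2.2 y⟫_ℝ = 0) →
      EF z.2.1 Φ.2.1 = 0) {e : Eu (k+2+1) → ℝ}
    (hcf : ∀ᵐ x ∂(volume.restrict (Half (k+2))), CF (fun i => wt x • z.2.1 x i) (e x))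
    (hrE : ∀ᵐ x ∂(volume.restrict (Half (k+2))), ‖Pj k x‖ * √(e x) = 4 * ‖Pj k (z.1 x)‖)
    {δ ε C : ℝ} (hδ : 0 < δ) (hε : 0 < ε) (hC : ∀ x, ‖fderiv ℝ (bb k) x‖ ≤ C) :
    0 ≤ ∫ x in Half (k+2), Bf k C δ ε ‖Pj k (z.1 x)‖ x := by
  obtain ⟨Z₁, hZ₁X, hZ₁⟩ := exists_comp (contDiff_Hp (k := k) hε (qq k)) (Hp_lip hε (qq_nonpos k))
    (Hp_zero ε (qq k)) hz hz
  obtain ⟨C', hC'0, hC'1, hC'2⟩ := psi_cond (k := k) hδ
  obtain ⟨Z₂, hZ₂X, hZ₂⟩ := exists_mul (contDiff_psi hδ) hC'0 hC'1 hC'2 hZ₁X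
  have h0 : EF z.2.1 Z₂.2.1 = 0 := by
    refine hEL Z₂ hZ₂X ?_
    filter_upwards [hZ₂.trd] with y hy
    rw [hy, psi_supp (iota_notMem y)]
    simp
  rw [EF_unw] at h0
  have hI := int_unw z.2.1 Z₂.2.1
  have hf : AEStronglyMeasurable (fun x => ‖Pj k (z.1 x)‖) (volume.restrict (Half (k+2))) :=
    ((Pj k).continuous.norm.comp_aestronglyMeasurable
      (Lp.stronglyMeasurable z.1).aestronglyMeasurable)
  have hBi := int_Bf (C := C) hδ hε hf (fun x => norm_nonneg _)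
  have hle : ∫ x in Half (k+2), ‖wt x • z.2.1 x‖ ^ (k+2-1) *
      ⟪wt x • z.2.1 x, wt x • Z₂.2.1 x⟫_ℝ ≤
      ∫ x in Half (k+2), √((k:ℝ) + 3) ^ (k+1) * (4 ^ (k+2) * Bf k C δ ε ‖Pj k (z.1 x)‖ x) := by
    refine integral_mono_ae hI ((hBi.const_mul _).const_mul _) ?_
    filter_upwards [hcf, hrE, ae_mu.mp hZ₁.fst, ae_mu.mp hZ₁.snd, ae_mu.mp hZ₂.snd]
      with x c1 c2 c3 c4 c5
    refine pt_star hδ hε hC (e := e x) (v := z.1 x) c1 c2 (fun i => ?_)
    have e1 : (wt x • Z₂.2.1 x) i = wt x • Z₂.2.1 x i := rfl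
    have e2 : (wt x • z.2.1 x) i = wt x • z.2.1 x i := rfl
    rw [e1, e2, c5]
    simp only
    rw [c4, c3]
    simp only
    rw [smul_add, smul_comm (wt x) (psi k δ x), smul_smul (wt x), ← mul_assoc, wt_mul, one_mul,
      ← map_smul, Prod.smul_mk, Hp'_apply hε]
    unfold Hp
    rfl
  rw [h0, integral_const_mul, integral_const_mul] at hle
  have hp : 0 < √((k:ℝ) + 3) ^ (k+1) := by
    have : 0 < √((k:ℝ) + 3) := Real.sqrt_pos.mpr (by positivity)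
    positivity
  have hp2 : (0:ℝ) < 4 ^ (k+2) := by positivity
  by_contra hneg
  push Not at hneg
  have := mul_neg_of_pos_of_neg hp (mul_neg_of_pos_of_neg hp2 hneg)
  linarith

theorem star_bound {z : ZZ (k+2) (Eu (k+2+1))} (hz : z ∈ XX (k+2) (Eu (k+2+1)))
    (hEL : ∀ Φ ∈ XX (k+2) (Eu (k+2+1)), (∀ᵐ y ∂(mub (k+2)), ⟪Φ.2.2 y, z.2.2 y⟫_ℝ = 0) →
      EF z.2.1 Φ.2.1 = 0) {e : Eu (k+2+1) → ℝ}
    (hcf : ∀ᵐ x ∂(volume.restrict (Half (k+2))), CF (fun i => wt x • z.2.1 x i) (e x))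
    (hrE : ∀ᵐ x ∂(volume.restrict (Half (k+2))), ‖Pj k x‖ * √(e x) = 4 * ‖Pj k (z.1 x)‖)
    (hne : ∀ᵐ x ∂(volume.restrict (Half (k+2))), Pj k (z.1 x) ≠ 0) :
    ∃ M : ℝ, ∀ δ > 0, ∫ x in Half (k+2), bb k x ^ 2 * Qd k δ x ≤ M := by
  have hfdc : Continuous (fderiv ℝ (bb k)) := contDiff_bb.continuous_fderiv one_ne_zero
  obtain ⟨C, hC⟩ := hfdc.bounded_above_of_compact_support
    ((bb k).hasCompactSupport.fderiv (𝕜 := ℝ))
  set VS : ℝ := ∫ x in Half (k+2), (SS2 k).indicator (fun _ => (1:ℝ)) x with hVS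
  refine ⟨4 * C ^ 2 * VS, fun δ hδ => ?_⟩
  set ε : ℕ → ℝ := fun j => 1 / ((j:ℝ) + 1) with hεd
  have hε : ∀ j, 0 < ε j := fun j => by simp only [hεd]; positivity
  have hε0 : Tendsto ε atTop (𝓝 0) := tendsto_one_div_add_atTop_nhds_zero_nat
  have hf : AEStronglyMeasurable (fun x => ‖Pj k (z.1 x)‖) (volume.restrict (Half (k+2))) :=
    ((Pj k).continuous.norm.comp_aestronglyMeasurable
      (Lp.stronglyMeasurable z.1).aestronglyMeasurable)
  have hlim : Tendsto (fun j => ∫ x in Half (k+2), Bf k C δ (ε j) ‖Pj k (z.1 x)‖ x) atTop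
      (𝓝 (∫ x in Half (k+2), (bb k x ^ 2 * Qd k δ x * (-(3 * ((k:ℝ) + 3)) + 8 + 1/2) +
        2 * C ^ 2 * (SS2 k).indicator (fun _ => 1) x))) := by
    refine tendsto_integral_of_dominated_convergence _
      (fun j => aesm_Bf hδ (hε j) hf)
      (((int_b2Q hδ).mul_const (5 * ((k:ℝ) + 3) + 9)).add
        (int_ind.const_mul (2 * C ^ 2))).integrableOn
      (fun j => Eventually.of_forall fun x => Bf_bound hδ (hε j) (norm_nonneg _) x) ?_
    filter_upwards [hne] with x hx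
    exact Bf_tendsto (norm_pos_iff.mpr hx) hε0 x
  have h1 := ge_of_tendsto' hlim (fun j => int_ineq hz hEL hcf hrE hδ (hε j) hC)
  rw [integral_add ((int_b2Q hδ).mul_const _).integrableOn (int_ind.const_mul _).integrableOn,
    integral_mul_const, integral_const_mul, ← hVS] at h1
  set I : ℝ := ∫ x in Half (k+2), bb k x ^ 2 * Qd k δ x with hI
  have hI0 : 0 ≤ I := integral_nonneg fun x => by
    have := Qd_pos hδ x
    positivity
  have hk : (0:ℝ) ≤ k := Nat.cast_nonneg k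
  nlinarith [mul_nonneg hI0 hk]

end Pool.Agent.Helper42.Bub
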