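import Pool.Agent.Helper42.Bub.Dich2
import Pool.Agent.Helper42.Bub.Div
import Pool.Agent.Helper42.Bub.Star4

/-!
The symmetric minimizer is not conformal.
-/

set_option maxHeartbeats 400000

open Filter Topology MeasureTheory Set
open scoped ENNReal InnerProductSpace NNReal ContDiff

namespace Pool.Agent.Helper42.Bub

open Pool.Agent.Helper42.Bubble (Half bdry IsSobolev normSq IsConformal const_of_weak
  locInt_of_memLp isOpen_Half)

variable {k : ℕ}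

theorem rot_inv {z : ZZ (k+2) (Eu (k+2+1))} (hz : z ∈ Inv (GGs k)) (θ : ℝ) :
    ∀ᵐ x ∂(volume.restrict (Half (k+2))),
      z.1 (extL (rotL k θ) x) = extL (rotL k (2 * (2 * θ))) (z.1 x) := by
  have h := hz (syIso (rotL k θ), (extL (rotL k (2 * (2 * θ)))).symm) (Or.inr ⟨θ, rfl⟩)
  have h1 := TT_fst (syIso (rotL k θ)) (extL (rotL k (2 * (2 * θ)))).symm z
  simp only at h
  rw [h] at h1
  filter_upwards [ae_mu.mp h1] with x hx
  rw [hx, LinearIsometryEquiv.apply_symm_apply]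
  rfl

/-- consequences of conformality for the symmetric map -/
theorem conf_facts {z : ZZ (k+2) (Eu (k+2+1))} (hz : z ∈ XX (k+2) (Eu (k+2+1)))
    (hi : z ∈ Inv (GGs k)) (hc : IsConformal (fun x i => wt x • z.2.1 x i)) :
    ∃ e : Eu (k+2+1) → ℝ,
      (∀ᵐ x ∂(volume.restrict (Half (k+2))), CF (fun i => wt x • z.2.1 x i) (e x)) ∧
      (∀ᵐ x ∂(volume.restrict (Half (k+2))), x 1 • (wt x • z.2.1 x 2) - x 2 • (wt x • z.2.1 x 1) =
        (4:ℝ) • Kj k (z.1 x)) := by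
  have h1 : IsSobolev (fun x => z.1 x) (fun x i => wt x • z.2.1 x i) (fun y => z.2.2 y) :=
    sobolev_of_mem hz
  have h2 := rot_identity h1 (rot_inv hi)
  refine ⟨fun x => normSq (fun x i => wt x • z.2.1 x i) x / (((k+2 : ℕ) : ℝ) + 1), ?_, h2⟩
  filter_upwards [hc] with x hx
  exact hx

theorem bb_one {x : Eu (k+2+1)} (h : x ∈ Metric.ball (eb 0 : Eu (k+2+1)) (1/4)) : bb k x = 1 :=
  (bb k).one_of_mem_closedBall (Metric.ball_subset_closedBall h)

theorem case_ne {z : ZZ (k+2) (Eu (k+2+1))} (hz : z ∈ XX (k+2) (Eu (k+2+1)))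
    (hEL : ∀ Φ ∈ XX (k+2) (Eu (k+2+1)), (∀ᵐ y ∂(mub (k+2)), ⟪Φ.2.2 y, z.2.2 y⟫_ℝ = 0) →
      EF z.2.1 Φ.2.1 = 0) {e : Eu (k+2+1) → ℝ}
    (hcf : ∀ᵐ x ∂(volume.restrict (Half (k+2))), CF (fun i => wt x • z.2.1 x i) (e x))
    (hrE : ∀ᵐ x ∂(volume.restrict (Half (k+2))), ‖Pj k x‖ * √(e x) = 4 * ‖Pj k (z.1 x)‖)
    (hne : ∀ᵐ x ∂(volume.restrict (Half (k+2))), Pj k (z.1 x) ≠ 0) : False := by
  obtain ⟨M, hM⟩ := star_bound hz hEL hcf hrE hne
  obtain ⟨κ, hκ, hdiv⟩ := div_ball k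
  obtain ⟨J, hJ⟩ := exists_nat_gt (M / κ)
  obtain ⟨δ, hδ, hle⟩ := hdiv J
  have h1 := hM δ hδ
  have hnn : ∀ x : Eu (k+2+1), 0 ≤ bb k x ^ 2 * Qd k δ x := fun x => by
    have := Qd_pos hδ x
    positivity
  have hHm : MeasurableSet (Half (k+2)) := measurableSet_Om (k+2)
  have h2 : ∫⁻ x in Metric.ball (eb 0 : Eu (k+2+1)) (1/4), ENNReal.ofReal ((Sq k x + δ ^ 2)⁻¹) ≤
      ∫⁻ x in Half (k+2), ENNReal.ofReal (bb k x ^ 2 * Qd k δ x) := by
    have hsub : Metric.ball (eb 0 : Eu (k+2+1)) (1/4) ⊆ Half (k+2) := by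
      refine subset_trans ?_ (subset_trans subset_closure (SS2_sub (k := k)))
      exact Metric.ball_subset_ball (by norm_num)
    calc ∫⁻ x in Metric.ball (eb 0 : Eu (k+2+1)) (1/4), ENNReal.ofReal ((Sq k x + δ ^ 2)⁻¹)
        = ∫⁻ x in Metric.ball (eb 0 : Eu (k+2+1)) (1/4),
            ENNReal.ofReal (bb k x ^ 2 * Qd k δ x) := by
          refine setLIntegral_congr_fun Metric.isOpen_ball.measurableSet (fun x hx => ?_)
          have hb := bb_one hx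
          rw [hb, one_pow, one_mul]
          rfl
      _ ≤ _ := lintegral_mono_set hsub
  have h3 : ∫⁻ x in Half (k+2), ENNReal.ofReal (bb k x ^ 2 * Qd k δ x) =
      ENNReal.ofReal (∫ x in Half (k+2), bb k x ^ 2 * Qd k δ x) :=
    (ofReal_integral_eq_lintegral_ofReal (int_b2Q hδ).integrableOn
      (Eventually.of_forall hnn)).symm
  rw [h3] at h2
  have h4 := hle.trans (h2.trans (ENNReal.ofReal_le_ofReal h1))
  rw [← ENNReal.ofReal_natCast J, ← ENNReal.ofReal_mul (by positivity)] at h4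
  have h5 : 0 ≤ M := le_trans (integral_nonneg hnn) h1
  rw [ENNReal.ofReal_le_ofReal_iff h5] at h4
  rw [div_lt_iff₀ hκ] at hJ
  linarith

theorem Pj_ne_ae : ∀ᵐ x : Eu (k+2+1), Pj k x ≠ 0 := by
  filter_upwards [ae_coord_ne (k := k) 1] with x hx h0
  apply hx
  have := congrArg (fun p : Eu (k+2+1) => p 1) h0
  simpa [Pj_1] using this

theorem D_zero {z : ZZ (k+2) (Eu (k+2+1))} {e : Eu (k+2+1) → ℝ}
    (hcf : ∀ᵐ x ∂(volume.restrict (Half (k+2))), CF (fun i => wt x • z.2.1 x i) (e x))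
    (hrot : ∀ᵐ x ∂(volume.restrict (Half (k+2))),
      x 1 • (wt x • z.2.1 x 2) - x 2 • (wt x • z.2.1 x 1) = (4:ℝ) • Kj k (z.1 x))
    (h0 : ∀ᵐ x ∂(volume.restrict (Half (k+2))), Pj k (z.1 x) = 0) :
    ∀ᵐ x ∂(volume.restrict (Half (k+2))), ∀ i, z.2.1 x i = 0 := by
  filter_upwards [hcf, hrot, h0, ae_restrict_of_ae (Pj_ne_ae (k := k))] with x h1 h2 h3 h4 i
  have h5 := h1.rot h2
  have h6 : Sq k (z.1 x) = 0 := by unfold Sq; rw [h3]; simp
  rw [h6, mul_zero] at h5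
  have h7 : Sq k x ≠ 0 := by
    unfold Sq
    have : 0 < ‖Pj k x‖ := norm_pos_iff.mpr h4
    positivity
  have h8 : e x = 0 := by
    rcases mul_eq_zero.mp h5 with h | h
    · exact absurd h h7
    · exact h
  have h9 := h1.norm_sq i
  rw [h8] at h9
  have h10 : wt x • z.2.1 x i = 0 := by
    have : ‖wt x • z.2.1 x i‖ = 0 := by
      exact pow_eq_zero_iff two_ne_zero |>.mp h9
    exact norm_eq_zero.mp this
  exact (smul_eq_zero.mp h10).resolve_left (wt_pos x).ne'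

theorem D_zero' {z : ZZ (k+2) (Eu (k+2+1))}
    (h : ∀ᵐ x ∂(volume.restrict (Half (k+2))), ∀ i, z.2.1 x i = 0) : z.2.1 = 0 := by
  refine Lp.ext ?_
  filter_upwards [ae_mu.mpr h, Lp.coeFn_zero (HS (k+2) (Eu (k+2+1))) (pp (k+2)) (mu (k+2))]
    with x hx hx2
  rw [hx2]
  ext i : 1
  rw [hx i]
  rfl

end Pool.Agent.Helper42.Bub
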