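import Pool.Agent.Helper42.Bub.Fin1

/-!
The symmetric minimizer is not conformal, second part.
-/

set_option maxHeartbeats 400000

open Filter Topology MeasureTheory Set
open scoped ENNReal InnerProductSpace NNReal ContDiff

namespace Pool.Agent.Helper42.Bub

open Pool.Agent.Helper42.Bubble (Half bdry IsSobolev normSq IsConformal const_of_weak
  locInt_of_memLp isOpen_Half)

variable {k : ℕ}

theorem convex_Half (m : ℕ) : Convex ℝ (Half m) := by
  intro x hx y hy a b ha hb hab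
  change 0 < (a • x + b • y) 0
  rw [PiLp.add_apply, PiLp.smul_apply, PiLp.smul_apply, smul_eq_mul, smul_eq_mul]
  exact pos_combo hx hy ha hb hab

theorem neBot_Half (m : ℕ) : (ae (volume.restrict (Half m))).NeBot := by
  rw [ae_neBot, Ne, Measure.restrict_eq_zero]
  refine ((isOpen_Half m).measure_pos volume ⟨eb 0, ?_⟩).ne'
  change (0:ℝ) < (eb 0 : Eu (m+1)) 0
  simp

theorem v_const {z : ZZ (k+2) (Eu (k+2+1))} (hz : z ∈ XX (k+2) (Eu (k+2+1)))
    (hD : ∀ᵐ x ∂(volume.restrict (Half (k+2))), ∀ i, z.2.1 x i = 0) :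
    ∃ c, ∀ᵐ x ∂(volume.restrict (Half (k+2))), z.1 x = c := by
  have h : IsSobolev (fun x => z.1 x) (fun x i => wt x • z.2.1 x i) (fun y => z.2.2 y) :=
    sobolev_of_mem hz
  obtain ⟨c, hc⟩ := const_of_weak (convex_Half (k+2))
    (locInt_of_memLp (fun R => h.memLp R) subset_rfl) (isOpen_Half (k+2))
    (fun ψ hψ hcs hs i => by
      have h1 := h.ibp (hψ.of_le (by exact_mod_cast le_top)) hcs hs i
      have e4 : ∫ x in Half (k+2), ψ x • (wt x • z.2.1 x i) = 0 := by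
        refine integral_eq_zero_of_ae ?_
        filter_upwards [hD] with x hx
        rw [hx i]
        simp
      rw [e4, neg_zero] at h1
      have hz2 : ∀ x, x ∉ tsupport ψ → fderiv ℝ ψ x = 0 := fun x hx => by
        have : x ∉ Function.support (fderiv ℝ ψ) := fun hx' => hx (support_fderiv_subset ℝ hx')
        simpa using this
      have e3 : ∫ x in Half (k+2), fderiv ℝ ψ x (EuclideanSpace.single i (1 : ℝ)) • z.1 x =
          ∫ x, fderiv ℝ ψ x (EuclideanSpace.single i (1 : ℝ)) • z.1 x :=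
        setIntegral_eq_integral_of_forall_compl_eq_zero (fun x hx => by
          rw [hz2 x (fun h => hx (hs h))]; simp)
      rw [← e3]
      exact h1)
  exact ⟨c, (ae_restrict_iff' (measurableSet_Om (k+2))).mpr hc⟩

theorem const_zero {z : ZZ (k+2) (Eu (k+2+1))} (hi : z ∈ Inv (GGs k))
    (h0 : ∀ᵐ x ∂(volume.restrict (Half (k+2))), Pj k (z.1 x) = 0) {c : Eu (k+2+1)}
    (hc : ∀ᵐ x ∂(volume.restrict (Half (k+2))), z.1 x = c) : c = 0 := by
  have h := hi (syInv (fl k), fl' k) (Or.inl rfl)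
  have h1 := TT_fst (syInv (fl k)) (fl' k) z
  simp only at h
  rw [h] at h1
  have hc' : ∀ᵐ x ∂(mu (k+2)), z.1 x = c := ae_mu.mpr hc
  have h2 := (syInv (fl k)).mp.quasiMeasurePreserving.ae hc'
  have h3 : ∀ᵐ x ∂(mu (k+2)), c = fl' k c ∧ Pj k c = 0 := by
    filter_upwards [h1, h2, hc', ae_mu.mpr h0] with x a1 a2 a3 a4
    rw [a3] at a4
    rw [a2, a3] at a1
    exact ⟨a1, a4⟩
  have hnb : (ae (volume.restrict (Om (k+2)))).NeBot := neBot_Half (k+2)
  obtain ⟨_, h4, h5⟩ := (ae_mu.mp h3).exists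
  refine ext3 ?_ ?_ ?_ (fun i => ?_)
  · have := congrArg (fun p : Eu (k+2+1) => p 0) h4
    simp only [fl'_0] at this
    change c 0 = 0
    linarith
  · have := congrArg (fun p : Eu (k+2+1) => p 1) h5
    simp only [Pj_1] at this
    exact this
  · have := congrArg (fun p : Eu (k+2+1) => p 2) h5
    simp only [Pj_2] at this
    exact this
  · have := congrArg (fun p : Eu (k+2+1) => p i.succ.succ.succ) h4
    simp only [fl'_s] at this
    change c i.succ.succ.succ = 0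
    linarith

theorem case_zero {z : ZZ (k+2) (Eu (k+2+1))} (hz : z ∈ XX (k+2) (Eu (k+2+1)))
    (hi : z ∈ Inv (GGs k)) (hu : ∀ᵐ y ∂(mub (k+2)), ‖z.2.2 y‖ = 1)
    (hD : ∀ᵐ x ∂(volume.restrict (Half (k+2))), ∀ i, z.2.1 x i = 0)
    (h0 : ∀ᵐ x ∂(volume.restrict (Half (k+2))), Pj k (z.1 x) = 0) : False := by
  obtain ⟨c, hc⟩ := v_const hz hD
  have hc0 := const_zero hi h0 hc
  rw [hc0] at hc
  have hD0 := D_zero' hD
  have h1 := trace_moll hz one_pos le_rfl
  rw [hD0, enorm_zero, mul_zero, mul_zero] at h1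
  have h2 : ∀ y, PP 1 z.1 y = 0 := fun y => by
    rw [PP_congr (g := fun _ => 0) (ae_mu.mpr hc)]
    unfold PP
    simp
  simp_rw [h2, sub_zero] at h1
  have h3 : ∫⁻ y, ‖z.2.2 y‖ₑ ∂(mub (k+2)) = 0 := le_antisymm h1 zero_le
  rw [lintegral_eq_zero_iff' (Lp.aestronglyMeasurable z.2.2).enorm] at h3
  have h4 : ∀ᵐ y ∂(mub (k+2)), False := by
    filter_upwards [h3, hu] with y a1 a2
    have a3 : ‖z.2.2 y‖ₑ = 0 := a1
    rw [enorm_eq_zero] at a3
    rw [a3, norm_zero] at a2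
    exact zero_ne_one a2
  have h5 : ∀ᵐ y : Eu (k+2), False := ae_mub.mp h4
  obtain ⟨_, h6⟩ := h5.exists
  exact h6

/-- The symmetric minimizer is not conformal. -/
theorem not_conformal {z : ZZ (k+2) (Eu (k+2+1))} (hz : z ∈ Cls (GGs k))
    (hEL : ∀ Φ ∈ XX (k+2) (Eu (k+2+1)), (∀ᵐ y ∂(mub (k+2)), ⟪Φ.2.2 y, z.2.2 y⟫_ℝ = 0) →
      EF z.2.1 Φ.2.1 = 0) : ¬ IsConformal (fun x i => wt x • z.2.1 x i) := by
  intro hconf
  obtain ⟨hX, hi, hu⟩ := hz
  obtain ⟨e, hcf, hrot⟩ := conf_facts hX hi hconf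
  have hrE : ∀ᵐ x ∂(volume.restrict (Half (k+2))), ‖Pj k x‖ * √(e x) = 4 * ‖Pj k (z.1 x)‖ := by
    filter_upwards [hcf, hrot] with x h1 h2
    exact h1.rE h2
  have hb : ∀ᵐ x ∂(volume.restrict (Half (k+2))), ∀ i : Fin (k+2+1),
      ‖Pj k x‖ * |⟪Pj k (z.1 x), wt x • z.2.1 x i⟫_ℝ| ≤ 4 * Sq k (z.1 x) := by
    filter_upwards [hcf, hrot] with x h1 h2 i
    exact h1.bound h2 i
  rcases dichotomy hX hb with h | h
  · exact case_ne hX hEL hcf hrE h
  · exact case_zero hX hi hu (D_zero hcf hrot h) h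

end Pool.Agent.Helper42.Bub
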