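import Pool.Agent.Helper42.Bub.Omega

/-!
The target map, its equivariance; the admissible class is nonempty.
-/

set_option maxHeartbeats 400000

open Filter Topology MeasureTheory Set
open scoped ENNReal InnerProductSpace NNReal

namespace Pool.Agent.Helper42.Bub

variable {k : ℕ}

/-- squared modulus of the plane part -/
noncomputable def aa (p : Eu (k+2+1)) : ℝ := p 1 ^ 2 + p 2 ^ 2
/-- amplitude -/
noncomputable def cc (p : Eu (k+2+1)) : ℝ := √((1 + aa p) * (1 + aa p ^ 2))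
/-- real part of the square -/
noncomputable def q1 (a b : ℝ) : ℝ := a ^ 2 - b ^ 2
/-- imaginary part of the square -/
noncomputable def q2 (a b : ℝ) : ℝ := 2 * a * b

/-- The target map `(c p_0, (p_1 + i p_2)^4, c p_3, ...)`. -/
noncomputable def WW (p : Eu (k+2+1)) : Eu (k+2+1) :=
  WithLp.toLp 2 (Fin.cons (cc p * p 0)
    (Fin.cons (q1 (q1 (p 1) (p 2)) (q2 (p 1) (p 2)))
      (Fin.cons (q2 (q1 (p 1) (p 2)) (q2 (p 1) (p 2))) (fun i : Fin k => cc p * p i.succ.succ.succ))))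

theorem WW_0 (p : Eu (k+2+1)) : WW p 0 = cc p * p 0 := rfl
theorem WW_1 (p : Eu (k+2+1)) : WW p 1 = q1 (q1 (p 1) (p 2)) (q2 (p 1) (p 2)) := rfl
theorem WW_2 (p : Eu (k+2+1)) : WW p 2 = q2 (q1 (p 1) (p 2)) (q2 (p 1) (p 2)) := rfl
theorem WW_s (p : Eu (k+2+1)) (i : Fin k) : WW p i.succ.succ.succ = cc p * p i.succ.succ.succ := rfl

theorem ext3 {x y : Eu (k+2+1)} (h0 : x 0 = y 0) (h1 : x 1 = y 1) (h2 : x 2 = y 2)
    (hs : ∀ i : Fin k, x i.succ.succ.succ = y i.succ.succ.succ) : x = y := by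
  ext i
  refine Fin.cases h0 (fun i => Fin.cases h1 (fun i => Fin.cases h2 (fun i => hs i) i) i) i

theorem cd_coord (i : Fin (k+2+1)) : ContDiff ℝ 1 (fun p : Eu (k+2+1) => p i) :=
  (EuclideanSpace.proj (𝕜 := ℝ) i : Eu (k+2+1) →L[ℝ] ℝ).contDiff

theorem cd_aa : ContDiff ℝ 1 (aa : Eu (k+2+1) → ℝ) :=
  ((cd_coord 1).pow 2).add ((cd_coord 2).pow 2)

theorem aa_nonneg (p : Eu (k+2+1)) : 0 ≤ aa p := by unfold aa; positivity

theorem cd_cc : ContDiff ℝ 1 (cc : Eu (k+2+1) → ℝ) := by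
  unfold cc
  refine ContDiff.sqrt ((contDiff_const.add cd_aa).mul (contDiff_const.add (cd_aa.pow 2))) ?_
  intro p
  have := aa_nonneg p
  positivity

theorem contDiff_WW : ContDiff ℝ 1 (WW : Eu (k+2+1) → Eu (k+2+1)) := by
  rw [contDiff_euclidean]
  intro i
  refine Fin.cases ?_ (fun i => Fin.cases ?_ (fun i => Fin.cases ?_ (fun i => ?_) i) i) i
  · exact cd_cc.mul (cd_coord 0)
  · change ContDiff ℝ 1 (fun p : Eu (k+2+1) => q1 (q1 (p 1) (p 2)) (q2 (p 1) (p 2)))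
    unfold q1 q2
    have c1 := cd_coord (k := k) 1
    have c2 := cd_coord (k := k) 2
    exact (((c1.pow 2).sub (c2.pow 2)).pow 2).sub (((contDiff_const.mul c1).mul c2).pow 2)
  · change ContDiff ℝ 1 (fun p : Eu (k+2+1) => q2 (q1 (p 1) (p 2)) (q2 (p 1) (p 2)))
    unfold q1 q2
    have c1 := cd_coord (k := k) 1
    have c2 := cd_coord (k := k) 2
    exact (contDiff_const.mul ((c1.pow 2).sub (c2.pow 2))).mul ((contDiff_const.mul c1).mul c2)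
  · exact cd_cc.mul (cd_coord _)

theorem norm_sq_3 (x : Eu (k+2+1)) :
    ‖x‖ ^ 2 = x 0 ^ 2 + x 1 ^ 2 + x 2 ^ 2 + ∑ i : Fin k, x i.succ.succ.succ ^ 2 := by
  rw [EuclideanSpace.norm_sq_eq, Fin.sum_univ_succ, Fin.sum_univ_succ, Fin.sum_univ_succ]
  simp only [Real.norm_eq_abs, sq_abs]
  rw [show (Fin.succ 0 : Fin (k+2+1)) = 1 from rfl,
    show (Fin.succ (Fin.succ 0) : Fin (k+2+1)) = 2 from rfl]
  ring

theorem norm_WW {p : Eu (k+2+1)} (hp : ‖p‖ = 1) : ‖WW p‖ = 1 := by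
  have h1 := norm_sq_3 p
  have h2 := norm_sq_3 (WW p)
  rw [WW_0, WW_1, WW_2] at h2
  simp only [WW_s] at h2
  have h3 : ∑ i : Fin k, (cc p * p i.succ.succ.succ) ^ 2 =
      cc p ^ 2 * ∑ i : Fin k, p i.succ.succ.succ ^ 2 := by
    rw [Finset.mul_sum]
    exact Finset.sum_congr rfl fun i _ => by ring
  rw [h3] at h2
  have h4 : cc p ^ 2 = (1 + aa p) * (1 + aa p ^ 2) := by
    unfold cc
    rw [Real.sq_sqrt]
    have := aa_nonneg p
    positivity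
  rw [hp] at h1
  have h5 : ∑ i : Fin k, p i.succ.succ.succ ^ 2 = 1 - p 0 ^ 2 - aa p := by
    unfold aa; linarith
  rw [h5] at h2
  have h6 : q1 (q1 (p 1) (p 2)) (q2 (p 1) (p 2)) ^ 2 + q2 (q1 (p 1) (p 2)) (q2 (p 1) (p 2)) ^ 2 =
      aa p ^ 4 := by
    unfold q1 q2 aa; ring
  have h7 : ‖WW p‖ ^ 2 = 1 := by
    rw [h2]
    have : (cc p * p 0) ^ 2 = cc p ^ 2 * p 0 ^ 2 := by ring
    rw [this, h4]
    linear_combination h6
  have h8 : 0 ≤ ‖WW p‖ := norm_nonneg _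
  nlinarith

theorem rot_0 (θ : ℝ) (p : Eu (k+2+1)) : extL (rotL k θ) p 0 = p 0 := rfl
theorem rot_1 (θ : ℝ) (p : Eu (k+2+1)) :
    extL (rotL k θ) p 1 = Real.cos θ * p 1 - Real.sin θ * p 2 := rfl
theorem rot_2 (θ : ℝ) (p : Eu (k+2+1)) :
    extL (rotL k θ) p 2 = Real.sin θ * p 1 + Real.cos θ * p 2 := rfl
theorem rot_s (θ : ℝ) (p : Eu (k+2+1)) (i : Fin k) :
    extL (rotL k θ) p i.succ.succ.succ = p i.succ.succ.succ := rfl

theorem dbl1 (θ a b : ℝ) : q1 (Real.cos θ * a - Real.sin θ * b) (Real.sin θ * a + Real.cos θ * b) =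
    Real.cos (2 * θ) * q1 a b - Real.sin (2 * θ) * q2 a b := by
  unfold q1 q2
  rw [Real.cos_two_mul', Real.sin_two_mul]
  ring

theorem dbl2 (θ a b : ℝ) : q2 (Real.cos θ * a - Real.sin θ * b) (Real.sin θ * a + Real.cos θ * b) =
    Real.sin (2 * θ) * q1 a b + Real.cos (2 * θ) * q2 a b := by
  unfold q1 q2
  rw [Real.cos_two_mul', Real.sin_two_mul]
  ring

theorem aa_rot (θ : ℝ) (p : Eu (k+2+1)) : aa (extL (rotL k θ) p) = aa p := by
  unfold aa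
  rw [rot_1, rot_2]
  have := Real.sin_sq_add_cos_sq θ
  linear_combination (p 1 ^ 2 + p 2 ^ 2) * this

theorem WW_rot (θ : ℝ) (p : Eu (k+2+1)) :
    WW (extL (rotL k θ) p) = extL (rotL k (2 * (2 * θ))) (WW p) := by
  have hc : cc (extL (rotL k θ) p) = cc p := by unfold cc; rw [aa_rot]
  refine ext3 ?_ ?_ ?_ (fun i => ?_)
  · rw [WW_0, rot_0, rot_0, WW_0, hc]
  · rw [WW_1, rot_1, rot_1, rot_2, WW_1, WW_2, dbl1, dbl2, dbl1]
  · rw [WW_2, rot_1, rot_2, rot_2, WW_1, WW_2, dbl1, dbl2, dbl2]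
  · rw [WW_s, rot_s, rot_s, WW_s, hc]

/-- sign vector on the boundary -/
def eps (k : ℕ) : Fin (k+2) → ℝ := Fin.cons 1 (Fin.cons 1 (fun _ => -1))
/-- sign vector on the target -/
def eps' (k : ℕ) : Fin (k+2+1) → ℝ := Fin.cons (-1) (eps k)

theorem eps_sq (i : Fin (k+2)) : eps k i ^ 2 = 1 := by
  refine Fin.cases ?_ (fun i => Fin.cases ?_ (fun i => ?_) i) i <;> simp [eps]

theorem eps'_sq (i : Fin (k+2+1)) : eps' k i ^ 2 = 1 := by
  refine Fin.cases ?_ (fun i => ?_) i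
  · simp [eps']
  · change eps k i ^ 2 = 1
    exact eps_sq i

/-- boundary flip -/
noncomputable abbrev fl (k : ℕ) : Eu (k+2) ≃ₗᵢ[ℝ] Eu (k+2) := flipL (eps k) eps_sq
/-- target flip -/
noncomputable abbrev fl' (k : ℕ) : Eu (k+2+1) ≃ₗᵢ[ℝ] Eu (k+2+1) := flipL (eps' k) eps'_sq

theorem fl'_0 (p : Eu (k+2+1)) : fl' k p 0 = - p 0 := by
  rw [flipL_apply]; simp [eps']
theorem fl'_1 (p : Eu (k+2+1)) : fl' k p 1 = p 1 := by
  rw [flipL_apply]
  change 1 * p 1 = p 1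
  rw [one_mul]
theorem fl'_2 (p : Eu (k+2+1)) : fl' k p 2 = p 2 := by
  rw [flipL_apply]
  change 1 * p 2 = p 2
  rw [one_mul]
theorem fl'_s (p : Eu (k+2+1)) (i : Fin k) : fl' k p i.succ.succ.succ = - p i.succ.succ.succ := by
  rw [flipL_apply]
  change (-1) * p i.succ.succ.succ = _
  rw [neg_one_mul]

theorem WW_fl (p : Eu (k+2+1)) : WW (fl' k p) = fl' k (WW p) := by
  have ha : aa (fl' k p) = aa p := by unfold aa; rw [fl'_1, fl'_2]
  have hc : cc (fl' k p) = cc p := by unfold cc; rw [ha]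
  refine ext3 ?_ ?_ ?_ (fun i => ?_)
  · rw [WW_0, fl'_0, fl'_0, WW_0, hc]; ring
  · rw [WW_1, fl'_1, fl'_1, fl'_2, WW_1]
  · rw [WW_2, fl'_1, fl'_2, fl'_2, WW_2]
  · rw [WW_s, fl'_s, fl'_s, WW_s, hc]; ring

theorem fl'_fl' (p : Eu (k+2+1)) : fl' k (fl' k p) = p := by
  refine ext3 ?_ ?_ ?_ (fun i => ?_)
  · rw [fl'_0, fl'_0, neg_neg]
  · rw [fl'_1, fl'_1]
  · rw [fl'_2, fl'_2]
  · rw [fl'_s, fl'_s, neg_neg]

theorem stp_inv {x : Eu (k+2+1)} (hx : x ≠ 0) :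
    stp (extL (fl k) (inv1 x)) = fl' k (stp x) := by
  rw [stp_extL]
  have h := fun i => stp_inv1 hx i
  refine ext3 ?_ ?_ ?_ (fun i => ?_)
  · rw [extL_zero, (h 0).1, fl'_0]
  · rw [show (1 : Fin (k+2+1)) = (0 : Fin (k+2)).succ from rfl, extL_succ, flipL_apply, tl_apply,
      (h 0).2, show ((0 : Fin (k+2)).succ : Fin (k+2+1)) = 1 from rfl, fl'_1]
    change 1 * stp x 1 = _
    rw [one_mul]
  · rw [show (2 : Fin (k+2+1)) = (1 : Fin (k+2)).succ from rfl, extL_succ, flipL_apply, tl_apply,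
      (h 1).2, show ((1 : Fin (k+2)).succ : Fin (k+2+1)) = 2 from rfl, fl'_2]
    change 1 * stp x 2 = _
    rw [one_mul]
  · rw [extL_succ, flipL_apply, tl_apply, (h i.succ.succ).2, fl'_s]
    change (-1) * _ = _
    rw [neg_one_mul]

/-- The symmetry group generators. -/
def GGs (k : ℕ) : Set (Sy (k+2) × (Eu (k+2+1) ≃ₗᵢ[ℝ] Eu (k+2+1))) :=
  insert (syInv (fl k), fl' k)
    (Set.range fun θ : ℝ => (syIso (rotL k θ), (extL (rotL k (2 * (2 * θ)))).symm))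

/-- the competitor -/
noncomputable def om0 (k : ℕ) (x : Eu (k+2+1)) : Eu (k+2+1) := WW (stp x)

theorem contDiff_om0 : ContDiff ℝ 1 (om0 k) := contDiff_WW.comp contDiff_stp

theorem om0_inv (g : Sy (k+2) × (Eu (k+2+1) ≃ₗᵢ[ℝ] Eu (k+2+1))) (hg : g ∈ GGs k)
    {x : Eu (k+2+1)} (hx : x ≠ 0) : g.2 (om0 k (g.1.φ x)) = om0 k x := by
  rcases hg with rfl | ⟨θ, rfl⟩
  · change fl' k (WW (stp (extL (fl k) (inv1 x)))) = WW (stp x)
    rw [stp_inv hx, WW_fl, fl'_fl']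
  · change (extL (rotL k (2 * (2 * θ)))).symm (WW (stp (extL (rotL k θ) x))) = WW (stp x)
    rw [stp_extL, WW_rot, LinearIsometryEquiv.symm_apply_apply]

end Pool.Agent.Helper42.Bub
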