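import Pool.Agent.Helper42.Bub.EL

/-!
Symmetric criticality by minimal norm elements.
-/

set_option maxHeartbeats 400000

open Filter Topology MeasureTheory Set
open scoped ENNReal InnerProductSpace NNReal

namespace Pool.Agent.Helper42.Bub

variable {m : ℕ} {V : Type*} [NormedAddCommGroup V] [InnerProductSpace ℝ V]

theorem EF_TT [NeZero m] (S : Sy m) (A : V ≃ₗᵢ[ℝ] V) (z Φ : ZZ m V) :
    EF (TT S A z).2.1 (TT S A Φ).2.1 = EF z.2.1 Φ.2.1 := by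
  rw [EF_apply, EF_apply]
  set F : Eu (m+1) → ℝ := fun x => ‖z.2.1 x‖ ^ (m-1) * ⟪z.2.1 x, Φ.2.1 x⟫_ℝ with hF
  have h1 : ∫ x, ‖(TT S A z).2.1 x‖ ^ (m-1) * ⟪(TT S A z).2.1 x, (TT S A Φ).2.1 x⟫_ℝ ∂(mu m) =
     ∫ x, F (S.φ x) ∂(mu m) := by
    refine integral_congr_ae ?_
    filter_upwards [TT_snd S A z, TT_snd S A Φ] with x h1 h2
    rw [h1, h2, twF_inner]
    have : ‖twF (S.O x) A (z.2.1 (S.φ x))‖ = ‖z.2.1 (S.φ x)‖ := (twI (S.O x) A).norm_map _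
    rw [this]
  rw [h1]
  have h3 : AEStronglyMeasurable F (mu m) := (ef_int z.2.1 Φ.2.1).aestronglyMeasurable
  have h2 := integral_map (μ := mu m) (φ := S.φ) S.mp.measurable.aemeasurable (f := F) (by
    rw [S.mp.map_eq]; exact h3)
  rw [S.mp.map_eq] at h2
  exact h2.symm

theorem exists_inv_mem (hm : 1 ≤ m) [FiniteDimensional ℝ V] (G : Set (Sy m × (V ≃ₗᵢ[ℝ] V)))
    (P : Set (ZZ m V)) (hcl : IsClosed P) (hcv : Convex ℝ P) (hne : P.Nonempty)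
    (hst : ∀ g ∈ G, ∀ z ∈ P, TT g.1 g.2 z ∈ P) : ∃ c ∈ P, c ∈ Inv G := by
  obtain ⟨c, hc, hmin⟩ := (clark_NN (V := V) hm).exists_min P hcl hcv hne
  refine ⟨c, hc, fun g hg => ?_⟩
  exact (clark_NN (V := V) hm).min_unique hcv hc (hst g hg c hc) hmin (NN_TT _ _ _).le

/-- tests orthogonal to a given trace -/
def Tan (τ : Lp V (pp m) (mub m)) : Set (ZZ m V) :=
  {Φ | ∀ᵐ y ∂(mub m), ⟪Φ.2.2 y, τ y⟫_ℝ = 0}

theorem convex_Tan (τ : Lp V (pp m) (mub m)) : Convex ℝ (Tan τ) := by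
  intro x hx y hy a b _ _ _
  filter_upwards [hx, hy, Lp.coeFn_add (a • x.2.2) (b • y.2.2), Lp.coeFn_smul a x.2.2,
    Lp.coeFn_smul b y.2.2] with w h1 h2 h3 h4 h5
  have e : (a • x + b • y).2.2 = a • x.2.2 + b • y.2.2 := rfl
  rw [e, h3, Pi.add_apply, h4, h5, Pi.smul_apply, Pi.smul_apply, inner_add_left,
    real_inner_smul_left, real_inner_smul_left, h1, h2]
  simp

theorem isClosed_Tan (τ : Lp V (pp m) (mub m)) : IsClosed (Tan τ) := by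
  rw [← isSeqClosed_iff_isClosed]
  intro s z hs hlim
  have h1 := ((continuous_snd.comp continuous_snd).tendsto z).comp hlim
  obtain ⟨ns, _, hae⟩ := lp_subseq_ae _ _ h1
  filter_upwards [hae, ae_all_iff.mpr (fun j => hs j)] with y h2 h3
  have h4 : Tendsto (fun i => ⟪(s (ns i)).2.2 y, τ y⟫_ℝ) atTop (𝓝 ⟪z.2.2 y, τ y⟫_ℝ) :=
    h2.inner tendsto_const_nhds
  have h5 : (fun i => ⟪(s (ns i)).2.2 y, τ y⟫_ℝ) = fun _ => 0 := funext fun i => h3 _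
  rw [h5] at h4
  exact tendsto_nhds_unique h4 tendsto_const_nhds |>.symm ▸ rfl

theorem Tan_stable (S : Sy m) (A : V ≃ₗᵢ[ℝ] V) {z Φ : ZZ m V} (hz : TT S A z = z)
    (h : Φ ∈ Tan z.2.2) : TT S A Φ ∈ Tan z.2.2 := by
  have h0 := TT_trd S A z
  rw [hz] at h0
  filter_upwards [h0, TT_trd S A Φ, S.mp'.quasiMeasurePreserving.ae h] with y h1 h2 h3
  rw [h2, h1, LinearIsometryEquiv.inner_map_map, h3]

theorem el_all [NeZero m] [FiniteDimensional ℝ V] {G : Set (Sy m × (V ≃ₗᵢ[ℝ] V))}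
    {z Φ : ZZ m V} (hz : z ∈ Cls G)
    (hmin : ∀ z' ∈ Cls G, ‖z.2.1‖ ≤ ‖z'.2.1‖) (hΦ : Φ ∈ XX m V)
    (hτ : ∀ᵐ y ∂(mub m), ⟪Φ.2.2 y, z.2.2 y⟫_ℝ = 0) :
    EF z.2.1 Φ.2.1 = 0 := by
  have hm1 : 1 ≤ m := Nat.one_le_iff_ne_zero.mpr (NeZero.ne m)
  set P : Set (ZZ m V) := {Ψ | Ψ ∈ XX m V ∧ Ψ ∈ Tan z.2.2 ∧ EF z.2.1 Ψ.2.1 = EF z.2.1 Φ.2.1}
    with hP
  have hcont : Continuous (fun Ψ : ZZ m V => EF z.2.1 Ψ.2.1) :=
    (EF z.2.1).continuous.comp (continuous_fst.comp continuous_snd)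
  obtain ⟨c, ⟨hc1, hc2, hc3⟩, hcG⟩ := exists_inv_mem hm1 G P
    (isClosed_XX.inter ((isClosed_Tan _).inter (isClosed_eq hcont continuous_const)))
    (by
      refine convex_XX.inter ((convex_Tan _).inter ?_)
      intro x hx y hy a b _ _ hab
      have hx' : EF z.2.1 x.2.1 = EF z.2.1 Φ.2.1 := hx
      have hy' : EF z.2.1 y.2.1 = EF z.2.1 Φ.2.1 := hy
      have e : (a • x + b • y).2.1 = a • x.2.1 + b • y.2.1 := rfl
      change EF z.2.1 (a • x + b • y).2.1 = EF z.2.1 Φ.2.1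
      rw [e, map_add, map_smul, map_smul, hx', hy', ← add_smul, hab, one_smul])
    ⟨Φ, hΦ, hτ, rfl⟩
    (by
      intro g hg Ψ hΨ
      refine ⟨TT_mem _ _ hΨ.1, Tan_stable _ _ (hz.2.1 g hg) hΨ.2.1, ?_⟩
      rw [← hΨ.2.2, ← EF_TT g.1 g.2 z Ψ, hz.2.1 g hg])
  rw [← hc3]
  exact el_inv hz hmin hc1 hcG hc2

end Pool.Agent.Helper42.Bub
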