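import Pool.Agent.Helper42.Bub.Cap2
import Pool.Agent.Helper42.Bub.Omega2
import Pool.Agent.Helper42.Bub.Symm

/-!
The admissible class is nonempty; the minimizer.
-/

set_option maxHeartbeats 400000

open Filter Topology MeasureTheory Set
open scoped ENNReal InnerProductSpace NNReal

namespace Pool.Agent.Helper42.Bub

section General

variable {m : ℕ} {V : Type*} [NormedAddCommGroup V] [InnerProductSpace ℝ V]

theorem Sy.rep' (S : Sy m) (A : V ≃ₗᵢ[ℝ] V) {w : Eu (m+1) → V} (h : ContDiff ℝ 1 w) {z : ZZ m V}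
    (r : Rep z w) : Rep (TT S A z) (fun x => A (w (S.φ x))) := by
  refine ⟨?_, ?_, ?_⟩
  · filter_upwards [TT_fst S A z, S.mp.quasiMeasurePreserving.ae r.fst] with x h1 h2
    rw [h1, h2]
  · filter_upwards [TT_snd S A z, S.mp.quasiMeasurePreserving.ae r.snd, ae_ne_zero_mu m]
      with x h1 h2 h3
    rw [h1, h2]
    ext i
    have d1 : HasFDerivAt w (fderiv ℝ w (S.φ x)) (S.φ x) :=
      ((h.differentiable one_ne_zero) _).hasFDerivAt
    have d2 := d1.comp x (S.fd x h3)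
    have d3 := (A.toContinuousLinearEquiv.hasFDerivAt (x := w (S.φ x))).comp x d2
    have d4 : fderiv ℝ (fun x => A (w (S.φ x))) x = _ := d3.fderiv
    simp only [twF, grt_apply]
    rw [d4]
    simp only [ContinuousLinearMap.comp_apply]
    have e2 : (c : ℝ) → (u : Eu (m+1)) → c • fderiv ℝ w (S.φ x) u
      = ∑ j, u j • (c • fderiv ℝ w (S.φ x) (eb j)) := by
      intro c u
      rw [fderiv_eq_sum w (S.φ x) u, Finset.smul_sum]
      refine Finset.sum_congr rfl fun j _ => ?_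
      rw [smul_comm]
    have e3 : ((S.c x • ((S.O x).toContinuousLinearEquiv : Eu (m+1) →L[ℝ] Eu (m+1))) (eb i))
      = S.c x • S.O x (eb i) := rfl
    rw [e3, map_smul]
    have e4 : (A.toContinuousLinearEquiv : V →L[ℝ] V) (S.c x • fderiv ℝ w (S.φ x) (S.O x (eb i)))
      = S.c x • A (fderiv ℝ w (S.φ x) (S.O x (eb i))) := by
      rw [map_smul]; rfl
    rw [e4, smul_smul, S.cw x h3, ← map_smul, e2]
  · filter_upwards [TT_trd S A z, S.mp'.quasiMeasurePreserving.ae r.trd] with y h1 h2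
    rw [h1, h2]
    simp only [Function.comp_apply]
    rw [S.bd]

theorem Rep.congr [NeZero m] {z : ZZ m V} {w w' : Eu (m+1) → V} (r : Rep z w)
    (h : ∀ x, x ≠ 0 → w x = w' x) : Rep z w' := by
  refine ⟨?_, ?_, ?_⟩
  · filter_upwards [r.fst, ae_ne_zero_mu m] with x h1 h2
    rw [h1, h x h2]
  · filter_upwards [r.snd, ae_ne_zero_mu m] with x h1 h2
    rw [h1]
    have e : w =ᶠ[𝓝 x] w' := by
      filter_upwards [isOpen_ne.mem_nhds h2] with y hy
      exact h y hy
    ext i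
    rw [grt_apply, grt_apply, e.fderiv_eq]
  · filter_upwards [r.trd, ae_ne_zero_mub m] with y h1 h2
    rw [h1]
    simp only [Function.comp_apply]
    apply h
    intro h3
    apply h2
    rw [← norm_eq_zero, ← norm_iota, h3, norm_zero]

end General

variable {k : ℕ}

theorem Cls_nonempty (k : ℕ) : (Cls (GGs k)).Nonempty := by
  obtain ⟨C, h1, h2⟩ := grt_comp_stp_bdd (contDiff_WW (k := k))
  obtain ⟨z, hz, r⟩ := exists_rep_of_bdd (contDiff_om0 (k := k)) h1 h2
  refine ⟨z, hz, fun g hg => ?_, ?_⟩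
  · have h3 := Sy.rep' g.1 g.2 (contDiff_om0 (k := k)) r
    have h4 := h3.congr (fun x hx => om0_inv g hg hx)
    exact h4.unique r
  · filter_upwards [r.trd] with y hy
    rw [hy]
    exact norm_WW (norm_stp_iota y)

/-- The minimizer and its Euler-Lagrange equation. -/
theorem exists_bubble (k : ℕ) : ∃ z : ZZ (k+2) (Eu (k+2+1)), z ∈ Cls (GGs k) ∧
    ∀ Φ ∈ XX (k+2) (Eu (k+2+1)), (∀ᵐ y ∂(mub (k+2)), ⟪Φ.2.2 y, z.2.2 y⟫_ℝ = 0) →
      EF z.2.1 Φ.2.1 = 0 := by
  obtain ⟨z, hz, hmin⟩ := exists_minimizer (GGs k) (Cls_nonempty k)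
  exact ⟨z, hz, fun Φ hΦ hτ => el_all hz hmin hΦ hτ⟩

end Pool.Agent.Helper42.Bub
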