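import Pool.Agent.Helper42.Bub.Bridge2
import Pool.Agent.Helper42.Bub.Fin2
import Pool.Agent.Helper42.Bub.Omega3

/-!
The minimizer is a bubble.
-/

set_option maxHeartbeats 400000

open Filter Topology MeasureTheory Set
open scoped ENNReal InnerProductSpace NNReal ContDiff

namespace Pool.Agent.Helper42.Bub

open Pool.Agent.Helper42.Bubble (Half bdry IsSobolev normSq IsConformal IsBubble pairing)

variable {m d : ℕ}

theorem normSq_wt (D : Eu (m+1) → HS m (Eu d)) (x : Eu (m+1)) :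
    normSq (fun x i => wt x • D x i) x = ‖wt x • D x‖ ^ 2 := by
  unfold normSq
  rw [PiLp.norm_sq_eq_of_L2]
  rfl

theorem sqrt_normSq_wt (D : Eu (m+1) → HS m (Eu d)) (x : Eu (m+1)) :
    √(normSq (fun x i => wt x • D x i) x) = ‖wt x • D x‖ := by
  rw [normSq_wt, Real.sqrt_sq (norm_nonneg _)]

theorem energy_int (D : Lp (HS m (Eu d)) ((m+1 : ℕ) : ℝ≥0∞) (mu m)) :
    Integrable (fun x => √(normSq (fun x i => wt x • D x i) x) ^ (m+1))
      (volume.restrict (Half m)) := by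
  have h1 : Integrable (fun x => ‖D x‖ ^ (m+1)) (mu m) := lp_int_pow (Nat.succ_ne_zero m) D
  have h2 := (integrable_mu_iff _).mp h1
  refine h2.congr (Eventually.of_forall fun x => ?_)
  simp only
  rw [sqrt_normSq_wt, norm_smul, Real.norm_of_nonneg (wt_pos x).le, mul_pow,
    ENNReal.toReal_ofReal (pow_nonneg (wt_pos x).le _), smul_eq_mul]

theorem pairing_eq (D : Eu (m+1) → HS m (Eu d)) {DΦ : Eu (m+1) → Fin (m+1) → Eu d}
    {E : Eu (m+1) → HS m (Eu d)} {x : Eu (m+1)} (h : ∀ i, E x i = (1 + ‖x‖ ^ 2) • DΦ x i) :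
    pairing (fun x i => wt x • D x i) DΦ x =
      ‖wt x • D x‖ ^ (m-1) * ⟪wt x • D x, wt x • E x⟫_ℝ := by
  unfold pairing
  rw [sqrt_normSq_wt, PiLp.inner_apply]
  congr 1
  refine Finset.sum_congr rfl fun i _ => ?_
  rw [PiLp.smul_apply, PiLp.smul_apply, h i, smul_smul, wt_mul, one_smul]

theorem isBubble_of [NeZero m] {z : ZZ m (Eu d)} (hX : z ∈ XX m (Eu d))
    (hu : ∀ᵐ y ∂(mub m), ‖z.2.2 y‖ = 1)
    (hEL : ∀ Φ ∈ XX m (Eu d), (∀ᵐ y ∂(mub m), ⟪Φ.2.2 y, z.2.2 y⟫_ℝ = 0) →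
      EF z.2.1 Φ.2.1 = 0) :
    IsBubble (fun x => z.1 x) (fun x i => wt x • z.2.1 x i) (fun y => z.2.2 y) := by
  refine ⟨sobolev_of_mem hX, energy_int z.2.1, ae_mub.mp hu, ?_⟩
  intro Φ DΦ τΦ hS hsupp horth
  obtain ⟨Z, hZ, χ, h1, h2, h3⟩ := mem_of_test hS hsupp
  have h4 : EF z.2.1 Z.2.1 = 0 := by
    refine hEL Z hZ ?_
    filter_upwards [h3, ae_mub.mpr horth] with y a1 a2
    rw [a1, real_inner_smul_left, a2, mul_zero]
  have h5 : (fun x => ‖wt x • z.2.1 x‖ ^ (m-1) * ⟪wt x • z.2.1 x, wt x • Z.2.1 x⟫_ℝ)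
      =ᵐ[volume.restrict (Half m)] pairing (fun x i => wt x • z.2.1 x i) DΦ := by
    filter_upwards [ae_mu.mp h2] with x hx
    exact (pairing_eq (fun x => z.2.1 x) (E := fun x => Z.2.1 x) hx).symm
  refine ⟨(int_unw z.2.1 Z.2.1).congr h5, ?_⟩
  rw [← integral_congr_ae h5, ← EF_unw, h4]

/-- For every `n = m + 1 ≥ 3` there is a bubble which is not conformal. -/
theorem main (m : ℕ) (hm : 2 ≤ m) :
    ∃ (v : Eu (m+1) → Eu (m+1)) (D : Eu (m+1) → Fin (m+1) → Eu (m+1)) (τ : Eu m → Eu (m+1)),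
      IsBubble v D τ ∧ ¬ IsConformal D := by
  obtain ⟨k, rfl⟩ : ∃ k, m = k + 2 := ⟨m - 2, by omega⟩
  obtain ⟨z, hz, hEL⟩ := exists_bubble k
  exact ⟨_, _, _, isBubble_of hz.1 hz.2.2 hEL, not_conformal hz hEL⟩

end Pool.Agent.Helper42.Bub
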