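import Pool.Agent.Helper42.Bub.Sp

/-!
Inversions preserve the conformal measures.
-/

set_option maxHeartbeats 400000

open Filter Topology MeasureTheory
open scoped ENNReal InnerProductSpace NNReal

namespace Pool.Agent.Helper42.Bub

/-- full-space conformal measure. -/
noncomputable def mfull (k : ℕ) : Measure (Eu k) :=
  volume.withDensity (fun x => ENNReal.ofReal (wt x ^ k))

theorem mub_eq (m : ℕ) : mub m = mfull m := rfl

theorem mu_eq (m : ℕ) : mu m = (mfull (m+1)).restrict (Om m) := by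
  unfold mu mfull
  rw [restrict_withDensity (measurableSet_Om m)]

theorem abs_det_iso {k : ℕ} (O : Eu k ≃ₗᵢ[ℝ] Eu k) :
    |LinearMap.det (O.toLinearEquiv : Eu k →ₗ[ℝ] Eu k)| = 1 := by
  have h := Measure.addHaar_image_linearMap (volume : Measure (Eu k))
    (O.toLinearEquiv : Eu k →ₗ[ℝ] Eu k) (Metric.ball 0 1)
  have h1 : (O.toLinearEquiv : Eu k →ₗ[ℝ] Eu k) '' (Metric.ball 0 1) = Metric.ball 0 1 := by
    have := O.image_ball 0 1
    rw [map_zero] at this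
    exact this
  rw [h1] at h
  have h2 : (volume : Measure (Eu k)) (Metric.ball 0 1) ≠ 0 :=
    (Metric.measure_ball_pos _ _ one_pos).ne'
  have h3 : (volume : Measure (Eu k)) (Metric.ball 0 1) ≠ ⊤ := measure_ball_lt_top.ne
  have h4 : ENNReal.ofReal |LinearMap.det (O.toLinearEquiv : Eu k →ₗ[ℝ] Eu k)| = 1 := by
    have : ENNReal.ofReal |LinearMap.det (O.toLinearEquiv : Eu k →ₗ[ℝ] Eu k)| *
      (volume : Measure (Eu k)) (Metric.ball 0 1) = 1 * (volume : Measure (Eu k)) (Metric.ball 0 1) := by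
      rw [one_mul]; exact h.symm
    exact (ENNReal.mul_left_inj h2 h3).mp this
  rwa [ENNReal.ofReal_eq_one] at h4

/-- A conformal diffeomorphism of `ℝ^k ∖ {0}` compatible with the weight preserves `mfull`. -/
theorem mp_of_conf {k : ℕ} [NeZero k] (φ ψ : Eu k → Eu k) (hφm : Measurable φ)
    (hφ0 : ∀ x, x ≠ 0 → φ x ≠ 0) (hψ0 : ∀ x, x ≠ 0 → ψ x ≠ 0)
    (hl : ∀ x, x ≠ 0 → ψ (φ x) = x) (hr : ∀ x, x ≠ 0 → φ (ψ x) = x)
    (O : Eu k → Eu k ≃ₗᵢ[ℝ] Eu k) (c : Eu k → ℝ) (hc : ∀ x, x ≠ 0 → 0 < c x)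
    (hd : ∀ x, x ≠ 0 → HasFDerivAt φ (c x • ((O x).toContinuousLinearEquiv : Eu k →L[ℝ] Eu k)) x)
    (hw : ∀ x, x ≠ 0 → c x * wt (φ x) = wt x) :
    MeasurePreserving φ (mfull k) (mfull k) := by
  refine ⟨hφm, ?_⟩
  ext s hs
  rw [Measure.map_apply hφm hs]
  have hz : ∀ t : Set (Eu k), MeasurableSet t → mfull k t = ∫⁻ x in t ∩ {0}ᶜ,
      ENNReal.ofReal (wt x ^ k) := by
    intro t ht
    unfold mfull
    rw [withDensity_apply _ ht]
    refine setLIntegral_congr ?_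
    have : (volume : Measure (Eu k)) {0} = 0 := by
      have : Nontrivial (Eu k) := by
        have : Nonempty (Fin k) := ⟨⟨0, Nat.pos_of_ne_zero (NeZero.ne k)⟩⟩
        infer_instance
      exact measure_singleton 0
    have h0 : ({0}ᶜ : Set (Eu k)) =ᵐ[volume] (Set.univ : Set (Eu k)) := by
      rw [ae_eq_univ, compl_compl]; exact this
    exact (inter_ae_eq_left_of_ae_eq_univ h0).symm
  rw [hz _ hs, hz _ (hφm hs)]
  have himg : φ '' (φ ⁻¹' s ∩ {0}ᶜ) = s ∩ {0}ᶜ := by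
    ext y
    constructor
    · rintro ⟨x, ⟨hx, hx0⟩, rfl⟩
      exact ⟨hx, hφ0 x hx0⟩
    · rintro ⟨hy, hy0⟩
      refine ⟨ψ y, ⟨?_, hψ0 y hy0⟩, hr y hy0⟩
      change φ (ψ y) ∈ s
      rw [hr y hy0]; exact hy
  rw [← himg]
  rw [lintegral_image_eq_lintegral_abs_det_fderiv_mul volume
    ((hφm hs).inter (measurableSet_singleton 0).compl)
    (fun x hx => (hd x hx.2).hasFDerivWithinAt)
    (fun x hx y hy hxy => by
      have h1 := hl x hx.2
      have h2 := hl y hy.2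
      rw [← h1, ← h2, hxy])]
  refine setLIntegral_congr_fun ((hφm hs).inter (measurableSet_singleton 0).compl) ?_
  intro x hx
  have hx0 : x ≠ 0 := hx.2
  have hdet : (c x • ((O x).toContinuousLinearEquiv : Eu k →L[ℝ] Eu k)).det
      = c x ^ k * LinearMap.det ((O x).toLinearEquiv : Eu k →ₗ[ℝ] Eu k) := by
    have : ((c x • ((O x).toContinuousLinearEquiv : Eu k →L[ℝ] Eu k) : Eu k →L[ℝ] Eu k) :
      Eu k →ₗ[ℝ] Eu k) = c x • ((O x).toLinearEquiv : Eu k →ₗ[ℝ] Eu k) := by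
      ext; rfl
    rw [ContinuousLinearMap.det, this, LinearMap.det_smul, finrank_euclideanSpace_fin]
  simp only
  rw [hdet, abs_mul, abs_det_iso, mul_one, abs_of_pos (pow_pos (hc x hx0) k),
    ← ENNReal.ofReal_mul (pow_pos (hc x hx0) k).le, ← mul_pow, hw x hx0]

/-- Inversion `x ↦ x/|x|²`. -/
noncomputable def inv1 {k : ℕ} (x : Eu k) : Eu k := (‖x‖ ^ 2)⁻¹ • x

theorem norm_inv1 {k : ℕ} (x : Eu k) : ‖inv1 x‖ = ‖x‖⁻¹ := by
  unfold inv1
  by_cases h : x = 0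
  · simp [h]
  rw [norm_smul, norm_inv, norm_pow, norm_norm]
  have : ‖x‖ ≠ 0 := norm_ne_zero_iff.mpr h
  field_simp

theorem inv1_inv1 {k : ℕ} (x : Eu k) : inv1 (inv1 x) = x := by
  by_cases h : x = 0
  · simp [h, inv1]
  have hn := norm_inv1 x
  unfold inv1 at hn ⊢
  rw [hn, smul_smul]
  have : ‖x‖ ≠ 0 := norm_ne_zero_iff.mpr h
  rw [show (‖x‖⁻¹ ^ 2)⁻¹ * (‖x‖ ^ 2)⁻¹ = 1 by field_simp, one_smul]

theorem inv1_ne_zero {k : ℕ} {x : Eu k} (h : x ≠ 0) : inv1 x ≠ 0 := by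
  intro h0
  have := inv1_inv1 x
  rw [h0] at this
  apply h
  rw [← this]; simp [inv1]

theorem inv1_eq {k : ℕ} (x : Eu k) : inv1 x = EuclideanGeometry.inversion 0 1 x := by
  unfold inv1 EuclideanGeometry.inversion
  simp [dist_zero_right, inv_pow]

/-- The reflection in `x^⊥`. -/
noncomputable def refl1 {k : ℕ} (x : Eu k) : Eu k ≃ₗᵢ[ℝ] Eu k := ((ℝ ∙ x)ᗮ).reflection

theorem refl1_apply {k : ℕ} (x u : Eu k) : refl1 x u = u - (2 * (⟪x, u⟫_ℝ / ‖x‖ ^ 2)) • x := by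
  unfold refl1
  rw [Submodule.reflection_orthogonal_apply, Submodule.reflection_singleton_apply]
  simp only [RCLike.ofReal_real_eq_id, id_eq]
  rw [mul_smul, ← Nat.cast_smul_eq_nsmul ℝ]
  simp

theorem hasFDerivAt_inv1 {k : ℕ} {x : Eu k} (h : x ≠ 0) :
    HasFDerivAt (inv1 : Eu k → Eu k)
      ((‖x‖ ^ 2)⁻¹ • ((refl1 x).toContinuousLinearEquiv : Eu k →L[ℝ] Eu k)) x := by
  have h1 := EuclideanGeometry.hasFDerivAt_inversion (c := (0 : Eu k)) (R := 1) h
  have h2 : (inv1 : Eu k → Eu k) = EuclideanGeometry.inversion 0 1 := funext inv1_eq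
  rw [h2]
  rw [dist_zero_right, sub_zero, one_div, inv_pow] at h1
  exact h1

theorem measurable_inv1 {k : ℕ} : Measurable (inv1 : Eu k → Eu k) := by
  unfold inv1
  exact ((measurable_norm.pow_const 2).inv).smul measurable_id

theorem contDiffAt_inv1 {k : ℕ} {x : Eu k} (h : x ≠ 0) : ContDiffAt ℝ 1 (inv1 : Eu k → Eu k) x := by
  unfold inv1
  have h1 : ContDiffAt ℝ 1 (fun x : Eu k => ‖x‖ ^ 2) x := (contDiff_norm_sq ℝ).contDiffAt
  refine ContDiffAt.smul (h1.inv ?_) contDiffAt_id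
  have : ‖x‖ ≠ 0 := norm_ne_zero_iff.mpr h
  positivity

theorem wt_inv1 {k : ℕ} {x : Eu k} (h : x ≠ 0) : (‖x‖ ^ 2)⁻¹ * wt (inv1 x) = wt x := by
  unfold wt
  rw [norm_inv1]
  have : ‖x‖ ≠ 0 := norm_ne_zero_iff.mpr h
  field_simp
  ring

theorem mp_inv1 {k : ℕ} [NeZero k] : MeasurePreserving (inv1 : Eu k → Eu k) (mfull k) (mfull k) :=
  mp_of_conf inv1 inv1 measurable_inv1 (fun _ h => inv1_ne_zero h) (fun _ h => inv1_ne_zero h)
    (fun x _ => inv1_inv1 x) (fun x _ => inv1_inv1 x) refl1 (fun x => (‖x‖ ^ 2)⁻¹)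
    (fun x h => by
      have : ‖x‖ ≠ 0 := norm_ne_zero_iff.mpr h
      positivity)
    (fun x h => hasFDerivAt_inv1 h) (fun x h => wt_inv1 h)

theorem mp_iso {k : ℕ} (R : Eu k ≃ₗᵢ[ℝ] Eu k) : MeasurePreserving R (mfull k) (mfull k) := by
  refine ⟨R.continuous.measurable, ?_⟩
  ext s hs
  rw [Measure.map_apply R.continuous.measurable hs]
  unfold mfull
  rw [withDensity_apply _ hs, withDensity_apply _ (R.continuous.measurable hs)]
  have h1 := (R.measurePreserving).setLIntegral_comp_preimage hs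
    (f := fun x => ENNReal.ofReal (wt x ^ k))
    (ENNReal.measurable_ofReal.comp ((continuous_wt.pow _).measurable))
  rw [← h1]
  refine setLIntegral_congr_fun (R.continuous.measurable hs) ?_
  intro x _
  simp only [wt, R.norm_map]

end Pool.Agent.Helper42.Bub
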