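import Pool.Agent.Helper42.Bub.Sp

/-!
Symmetries acting on the function space.
-/

set_option maxHeartbeats 400000

open Filter Topology MeasureTheory
open scoped ENNReal InnerProductSpace NNReal

namespace Pool.Agent.Helper42.Bub

theorem twLp_mem {α W : Type*} [MeasurableSpace α] {μ : Measure α} [NormedAddCommGroup W]
    [NormedSpace ℝ W] (p : ℝ≥0∞) (φ : α → α) (hφ : MeasurePreserving φ μ μ)
    (Θ : α → W →ₗᵢ[ℝ] W)
    (hΘ : ∀ g : α → W, AEStronglyMeasurable g μ → AEStronglyMeasurable (fun x => Θ x (g x)) μ)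
    (f : Lp W p μ) : MemLp (fun x => Θ x (f (φ x))) p μ :=
  MemLp.of_le (g := fun x => f (φ x)) ((Lp.memLp f).comp_measurePreserving hφ)
    (hΘ _ ((Lp.aestronglyMeasurable f).comp_measurePreserving hφ))
    (Eventually.of_forall fun x => le_of_eq ((Θ x).norm_map _))

theorem aesm_toLp {α V : Type*} [MeasurableSpace α] {μ : Measure α} {m : ℕ}
    [NormedAddCommGroup V] [InnerProductSpace ℝ V] {g : Fin (m+1) → α → V}
    (hg : ∀ i, AEStronglyMeasurable (g i) μ) :
    AEStronglyMeasurable (fun x => (WithLp.toLp 2 (fun i => g i x) : HS m V)) μ := by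
  have h1 : (fun x => (WithLp.toLp 2 (fun i => g i x) : HS m V))
      = fun x => ∑ i, (WithLp.toLp 2 (Pi.single i (g i x)) : HS m V) := by
    funext x
    rw [← WithLp.toLp_sum, Finset.univ_sum_single]
  rw [h1]
  refine Finset.aestronglyMeasurable_fun_sum _ fun i _ => ?_
  have h3 : Continuous (fun c : V => (Pi.single i c : Fin (m+1) → V)) := by
    refine continuous_pi fun j => ?_
    by_cases hj : j = i
    · subst hj
      simp only [Pi.single_eq_same]
      exact continuous_id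
    · simpa [hj] using continuous_const
  have h2 : Continuous (fun c : V => (WithLp.toLp 2 (Pi.single i c) : HS m V)) :=
    (PiLp.continuous_toLp 2 (fun _ : Fin (m+1) => V)).comp h3
  exact h2.comp_aestronglyMeasurable (hg i)

/-- Composition with a measure preserving map followed by pointwise linear isometries. -/
noncomputable def twLp {α W : Type*} [MeasurableSpace α] {μ : Measure α} [NormedAddCommGroup W]
    [NormedSpace ℝ W] (p : ℝ≥0∞) [Fact (1 ≤ p)] (φ : α → α) (hφ : MeasurePreserving φ μ μ)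
    (Θ : α → W →ₗᵢ[ℝ] W)
    (hΘ : ∀ g : α → W, AEStronglyMeasurable g μ → AEStronglyMeasurable (fun x => Θ x (g x)) μ) :
    Lp W p μ →ₗᵢ[ℝ] Lp W p μ where
  toFun f := (twLp_mem p φ hφ Θ hΘ f).toLp _
  map_add' f g := by
    rw [← MemLp.toLp_add]
    apply MemLp.toLp_congr
    filter_upwards [hφ.quasiMeasurePreserving.ae (Lp.coeFn_add f g)] with x h
    rw [h]; simp
  map_smul' a f := by
    rw [RingHom.id_apply, ← MemLp.toLp_const_smul]
    apply MemLp.toLp_congr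
    filter_upwards [hφ.quasiMeasurePreserving.ae (Lp.coeFn_smul a f)] with x h
    rw [h]; simp
  norm_map' f := by
    change ‖(twLp_mem p φ hφ Θ hΘ f).toLp _‖ = _
    rw [Lp.norm_toLp, Lp.norm_def]
    congr 1
    rw [← eLpNorm_comp_measurePreserving (Lp.aestronglyMeasurable f) hφ]
    refine eLpNorm_congr_norm_ae (Eventually.of_forall fun x => ?_)
    simp

theorem twLp_coe {α W : Type*} [MeasurableSpace α] {μ : Measure α} [NormedAddCommGroup W]
    [NormedSpace ℝ W] (p : ℝ≥0∞) [Fact (1 ≤ p)] (φ : α → α) (hφ : MeasurePreserving φ μ μ)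
    (Θ : α → W →ₗᵢ[ℝ] W)
    (hΘ : ∀ g : α → W, AEStronglyMeasurable g μ → AEStronglyMeasurable (fun x => Θ x (g x)) μ)
    (f : Lp W p μ) : twLp p φ hφ Θ hΘ f =ᵐ[μ] fun x => Θ x (f (φ x)) :=
  (twLp_mem p φ hφ Θ hΘ f).coeFn_toLp

/-- A conformal symmetry of the half-space. -/
structure Sy (m : ℕ) where
  φ : Eu (m+1) → Eu (m+1)
  φ' : Eu m → Eu m
  O : Eu (m+1) → Eu (m+1) ≃ₗᵢ[ℝ] Eu (m+1)
  c : Eu (m+1) → ℝ
  mp : MeasurePreserving φ (mu m) (mu m)
  mp' : MeasurePreserving φ' (mub m) (mub m)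
  measO : ∀ u, Measurable (fun x => O x u)
  cd : ∀ x, x ≠ 0 → ContDiffAt ℝ 1 φ x
  fd : ∀ x, x ≠ 0 →
    HasFDerivAt φ (c x • ((O x).toContinuousLinearEquiv : Eu (m+1) →L[ℝ] Eu (m+1))) x
  cw : ∀ x, x ≠ 0 → (1 + ‖x‖^2) * c x = 1 + ‖φ x‖^2
  bd : ∀ y, φ (iota y) = iota (φ' y)
  nrm : (∀ x, ‖φ x‖ = ‖x‖) ∨ (∀ x, ‖φ x‖ = ‖x‖⁻¹)

variable {m : ℕ} {V : Type*} [NormedAddCommGroup V] [InnerProductSpace ℝ V]

/-- pointwise action on derivative tuples -/
noncomputable def twF (O : Eu (m+1) ≃ₗᵢ[ℝ] Eu (m+1)) (A : V ≃ₗᵢ[ℝ] V) (D : HS m V) : HS m V :=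
  WithLp.toLp 2 (fun i => A (∑ j, (O (eb i)) j • D j))

theorem sum_O (O : Eu (m+1) ≃ₗᵢ[ℝ] Eu (m+1)) (j l : Fin (m+1)) :
    ∑ i, (O (eb i)) j * (O (eb i)) l = if j = l then 1 else 0 := by
  have h := ((EuclideanSpace.basisFun (Fin (m+1)) ℝ).map O).sum_inner_mul_inner
    (eb j) (eb l)
  have h2 : ⟪(eb j : Eu (m+1)), eb l⟫_ℝ = if j = l then 1 else 0 := by
    rw [EuclideanSpace.inner_single_left]
    simp [Pi.single_apply]
  rw [h2] at h
  rw [← h]
  refine Finset.sum_congr rfl fun i _ => ?_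
  simp only [OrthonormalBasis.map_apply, EuclideanSpace.basisFun_apply]
  rw [EuclideanSpace.inner_single_left, EuclideanSpace.inner_single_right]
  simp

theorem twF_inner (O : Eu (m+1) ≃ₗᵢ[ℝ] Eu (m+1)) (A : V ≃ₗᵢ[ℝ] V) (D D' : HS m V) :
    ⟪twF O A D, twF O A D'⟫_ℝ = ⟪D, D'⟫_ℝ := by
  rw [PiLp.inner_apply, PiLp.inner_apply]
  have h1 : ∀ i, ⟪twF O A D i, twF O A D' i⟫_ℝ
      = ∑ j, ∑ l, ((O (eb i)) j * (O (eb i)) l) * ⟪D j, D' l⟫_ℝ := by
    intro i
    change ⟪A (∑ j, (O (eb i)) j • D j), A (∑ j, (O (eb i)) j • D' j)⟫_ℝ = _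
    rw [LinearIsometryEquiv.inner_map_map, sum_inner]
    refine Finset.sum_congr rfl fun j _ => ?_
    rw [inner_sum]
    refine Finset.sum_congr rfl fun l _ => ?_
    rw [real_inner_smul_left, real_inner_smul_right]
    ring
  simp_rw [h1]
  rw [Finset.sum_comm]
  have h2 : ∀ j, ∑ i, ∑ l, ((O (eb i)) j * (O (eb i)) l) * ⟪D j, D' l⟫_ℝ
      = ⟪D j, D' j⟫_ℝ := by
    intro j
    rw [Finset.sum_comm]
    have h3 : ∀ l, ∑ i, ((O (eb i)) j * (O (eb i)) l) * ⟪D j, D' l⟫_ℝ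
        = (if j = l then 1 else 0) * ⟪D j, D' l⟫_ℝ := by
      intro l
      rw [← Finset.sum_mul, sum_O]
    simp_rw [h3]
    simp
  exact Finset.sum_congr rfl fun j _ => h2 j

/-- `twF` as a linear isometry. -/
noncomputable def twI (O : Eu (m+1) ≃ₗᵢ[ℝ] Eu (m+1)) (A : V ≃ₗᵢ[ℝ] V) :
    HS m V →ₗᵢ[ℝ] HS m V where
  toFun := twF O A
  map_add' D D' := by
    ext i
    simp only [twF, PiLp.add_apply]
    rw [← map_add, ← Finset.sum_add_distrib]
    simp [smul_add]
  map_smul' a D := by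
    ext i
    simp only [twF, PiLp.smul_apply, RingHom.id_apply]
    rw [← map_smul, Finset.smul_sum]
    congr 1
    refine Finset.sum_congr rfl fun j _ => ?_
    rw [smul_comm]
  norm_map' D := by
    have := twF_inner O A D D
    rw [real_inner_self_eq_norm_sq, real_inner_self_eq_norm_sq] at this
    exact (pow_left_inj₀ (norm_nonneg _) (norm_nonneg _) two_ne_zero).mp this

@[simp] theorem twI_apply (O : Eu (m+1) ≃ₗᵢ[ℝ] Eu (m+1)) (A : V ≃ₗᵢ[ℝ] V) (D : HS m V) :
    twI O A D = twF O A D := rfl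

theorem Sy.measTw (S : Sy m) (A : V ≃ₗᵢ[ℝ] V) (g : Eu (m+1) → HS m V)
    (hg : AEStronglyMeasurable g (mu m)) :
    AEStronglyMeasurable (fun x => twI (S.O x) A (g x)) (mu m) := by
  have h1 : ∀ i : Fin (m+1), AEStronglyMeasurable
      (fun x => A (∑ j, (S.O x (eb i)) j • g x j)) (mu m) := by
    intro i
    have h2 : AEStronglyMeasurable (fun x => ∑ j, (S.O x (eb i)) j • g x j) (mu m) := by
      refine Finset.aestronglyMeasurable_fun_sum _ fun j _ => ?_
      have h3 : Measurable (fun x => (S.O x (eb i)) j) :=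
        ((EuclideanSpace.proj (𝕜 := ℝ) j).continuous.measurable).comp (S.measO (eb i))
      have h4 : AEStronglyMeasurable (fun x => g x j) (mu m) :=
        (PiLp.continuous_apply 2 (fun _ : Fin (m+1) => V) j).comp_aestronglyMeasurable hg
      exact h3.aestronglyMeasurable.smul h4
    exact A.continuous.comp_aestronglyMeasurable h2
  exact aesm_toLp h1

/-- The action on the ambient space. -/
noncomputable def TT (S : Sy m) (A : V ≃ₗᵢ[ℝ] V) (z : ZZ m V) : ZZ m V :=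
  (twLp (pp m) S.φ S.mp (fun _ => A.toLinearIsometry)
      (fun _ hg => A.continuous.comp_aestronglyMeasurable hg) z.1,
    twLp (pp m) S.φ S.mp (fun x => twI (S.O x) A) (fun g hg => S.measTw A g hg) z.2.1,
    twLp (pp m) S.φ' S.mp' (fun _ => A.toLinearIsometry)
      (fun _ hg => A.continuous.comp_aestronglyMeasurable hg) z.2.2)

theorem TT_fst (S : Sy m) (A : V ≃ₗᵢ[ℝ] V) (z : ZZ m V) :
    (TT S A z).1 =ᵐ[mu m] fun x => A (z.1 (S.φ x)) := twLp_coe _ _ _ _ _ _

theorem TT_snd (S : Sy m) (A : V ≃ₗᵢ[ℝ] V) (z : ZZ m V) :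
    (TT S A z).2.1 =ᵐ[mu m] fun x => twF (S.O x) A (z.2.1 (S.φ x)) := twLp_coe _ _ _ _ _ _

theorem TT_trd (S : Sy m) (A : V ≃ₗᵢ[ℝ] V) (z : ZZ m V) :
    (TT S A z).2.2 =ᵐ[mub m] fun y => A (z.2.2 (S.φ' y)) := twLp_coe _ _ _ _ _ _

theorem TT_add (S : Sy m) (A : V ≃ₗᵢ[ℝ] V) (z z' : ZZ m V) :
    TT S A (z + z') = TT S A z + TT S A z' := by
  refine Prod.ext ?_ (Prod.ext ?_ ?_)
  · exact map_add _ _ _
  · exact map_add _ _ _
  · exact map_add _ _ _

theorem TT_smul (S : Sy m) (A : V ≃ₗᵢ[ℝ] V) (a : ℝ) (z : ZZ m V) :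
    TT S A (a • z) = a • TT S A z := by
  refine Prod.ext ?_ (Prod.ext ?_ ?_)
  · exact map_smul _ _ _
  · exact map_smul _ _ _
  · exact map_smul _ _ _

theorem TT_continuous (S : Sy m) (A : V ≃ₗᵢ[ℝ] V) : Continuous (TT S A : ZZ m V → ZZ m V) := by
  unfold TT
  refine Continuous.prodMk ?_ (Continuous.prodMk ?_ ?_)
  · exact (LinearIsometry.continuous _).comp continuous_fst
  · exact (LinearIsometry.continuous _).comp (continuous_fst.comp continuous_snd)
  · exact (LinearIsometry.continuous _).comp (continuous_snd.comp continuous_snd)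

theorem NN_TT (S : Sy m) (A : V ≃ₗᵢ[ℝ] V) (z : ZZ m V) : NN (TT S A z) = NN z := by
  unfold NN TT
  simp only [LinearIsometry.norm_map]

theorem Sy.test (S : Sy m) (A : V ≃ₗᵢ[ℝ] V) {w : Eu (m+1) → V} (h : IsTest w) :
    IsTest (fun x => A (w (S.φ x))) := by
  obtain ⟨δ, hδ, H⟩ := h.supp
  have hsupp : ∀ x, A (w (S.φ x)) ≠ 0 → δ ≤ ‖x‖ ∧ ‖x‖ ≤ δ⁻¹ := by
    intro x hx
    have hx' : w (S.φ x) ≠ 0 := by
      intro h0; apply hx; rw [h0, map_zero]
    obtain ⟨a, b⟩ := H _ hx'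
    rcases S.nrm with hn | hn
    · rw [hn] at a b; exact ⟨a, b⟩
    · rw [hn] at a b
      have hxpos : 0 < ‖x‖ := by
        by_contra hneg
        have : ‖x‖ = 0 := le_antisymm (not_lt.mp hneg) (norm_nonneg _)
        rw [this] at a; simp at a; linarith
      refine ⟨?_, ?_⟩
      · exact (inv_le_inv₀ hxpos hδ).mp b
      · have := inv_anti₀ hδ a
        rwa [inv_inv] at this
  refine ⟨?_, δ, hδ, hsupp⟩
  rw [contDiff_iff_contDiffAt]
  intro x
  by_cases hx : x = 0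
  · have : (fun x => A (w (S.φ x))) =ᶠ[𝓝 x] fun _ => 0 := by
      have : Metric.ball (0 : Eu (m+1)) δ ∈ 𝓝 x := by
        rw [hx]; exact Metric.ball_mem_nhds _ hδ
      filter_upwards [this] with y hy
      by_contra hne
      have := (hsupp y hne).1
      rw [mem_ball_zero_iff] at hy
      linarith
    exact (contDiffAt_const (c := (0:V))).congr_of_eventuallyEq this
  · have h1 := (h.c1.contDiffAt (x := S.φ x)).comp x (S.cd x hx)
    exact (A.contDiff.contDiffAt (x := w (S.φ x))).comp x h1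

theorem Sy.rep (S : Sy m) (A : V ≃ₗᵢ[ℝ] V) {w : Eu (m+1) → V} (h : IsTest w) {z : ZZ m V}
    (r : Rep z w) : Rep (TT S A z) (fun x => A (w (S.φ x))) := by
  refine ⟨?_, ?_, ?_⟩
  · filter_upwards [TT_fst S A z, S.mp.quasiMeasurePreserving.ae r.fst] with x h1 h2
    rw [h1, h2]
  · have hne : ∀ᵐ x ∂(mu m), x ≠ 0 := by
      rw [ae_mu]
      filter_upwards [ae_restrict_mem (measurableSet_Om m)] with x hx h0
      rw [h0] at hx
      simp [Om] at hx
    filter_upwards [TT_snd S A z, S.mp.quasiMeasurePreserving.ae r.snd, hne] with x h1 h2 h3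
    rw [h1, h2]
    ext i
    have d1 : HasFDerivAt w (fderiv ℝ w (S.φ x)) (S.φ x) :=
      ((h.c1.differentiable one_ne_zero) _).hasFDerivAt
    have d2 := d1.comp x (S.fd x h3)
    have d3 := (A.toContinuousLinearEquiv.hasFDerivAt (x := w (S.φ x))).comp x d2
    have d4 : fderiv ℝ (fun x => A (w (S.φ x))) x = _ := d3.fderiv
    simp only [twF, grt_apply]
    rw [d4]
    simp only [ContinuousLinearMap.comp_apply]
    have e1 : ∀ u : Eu (m+1), fderiv ℝ w (S.φ x) u = ∑ j, u j • fderiv ℝ w (S.φ x) (eb j) := by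
      intro u
      conv_lhs => rw [← (EuclideanSpace.basisFun (Fin (m+1)) ℝ).sum_repr u]
      rw [map_sum]
      refine Finset.sum_congr rfl fun j _ => ?_
      rw [map_smul]
      simp
    have e2 : (c : ℝ) → (u : Eu (m+1)) → c • fderiv ℝ w (S.φ x) u
      = ∑ j, u j • (c • fderiv ℝ w (S.φ x) (eb j)) := by
      intro c u
      rw [e1 u, Finset.smul_sum]
      refine Finset.sum_congr rfl fun j _ => ?_
      rw [smul_comm]
    have e3 : ((S.c x • ((S.O x).toContinuousLinearEquiv : Eu (m+1) →L[ℝ] Eu (m+1))) (eb i))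
      = S.c x • S.O x (eb i) := rfl
    rw [e3, map_smul]
    have e4 : (A.toContinuousLinearEquiv : V →L[ℝ] V) (S.c x • fderiv ℝ w (S.φ x) (S.O x (eb i)))
      = S.c x • A (fderiv ℝ w (S.φ x) (S.O x (eb i))) := by
      rw [map_smul]; rfl
    rw [e4, smul_smul, S.cw x h3, ← map_smul, e2]
  · filter_upwards [TT_trd S A z, S.mp'.quasiMeasurePreserving.ae r.trd] with y h1 h2
    rw [h1, h2]
    simp only [Function.comp_apply]
    rw [S.bd]

theorem TT_mem (S : Sy m) (A : V ≃ₗᵢ[ℝ] V) {z : ZZ m V} (hz : z ∈ XX m V) :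
    TT S A z ∈ XX m V := by
  obtain ⟨w, s, t, r, l⟩ := mem_XX_iff.mp hz
  exact mem_XX_iff.mpr ⟨fun j x => A (w j (S.φ x)), fun j => TT S A (s j),
    fun j => S.test A (t j), fun j => S.rep A (t j) (r j), ((TT_continuous S A).tendsto z).comp l⟩

end Pool.Agent.Helper42.Bub
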