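import Pool.Agent.Helper42.Bub.Geo1
import Pool.Agent.Helper42.Bub.Geo2

/-!
Concrete symmetries: isometries of the boundary, and inversions.
-/

set_option maxHeartbeats 400000

open Filter Topology MeasureTheory
open scoped ENNReal InnerProductSpace NNReal

namespace Pool.Agent.Helper42.Bub

/-- Tail of a vector. -/
noncomputable def tl {m : ℕ} (x : Eu (m+1)) : Eu m := WithLp.toLp 2 (fun i => x i.succ)

@[simp] theorem tl_apply {m : ℕ} (x : Eu (m+1)) (i : Fin m) : tl x i = x i.succ := rfl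

theorem norm_sq_split {m : ℕ} (x : Eu (m+1)) : ‖x‖ ^ 2 = x 0 ^ 2 + ‖tl x‖ ^ 2 := by
  rw [EuclideanSpace.norm_sq_eq, EuclideanSpace.norm_sq_eq, Fin.sum_univ_succ]
  simp

theorem tl_iota {m : ℕ} (y : Eu m) : tl (iota y) = y := by
  ext i; simp

/-- Extension of a boundary isometry. -/
noncomputable def extLI {m : ℕ} (R : Eu m ≃ₗᵢ[ℝ] Eu m) : Eu (m+1) →ₗᵢ[ℝ] Eu (m+1) where
  toFun x := WithLp.toLp 2 (Fin.cons (x 0) (WithLp.ofLp (R (tl x))))
  map_add' x y := by
    have h : tl (x + y) = tl x + tl y := by ext i; simp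
    ext i
    refine Fin.cases ?_ (fun i => ?_) i
    · simp
    · simp [h]
  map_smul' a x := by
    have h : tl (a • x) = a • tl x := by ext i; simp
    ext i
    refine Fin.cases ?_ (fun i => ?_) i
    · simp
    · simp [h]
  norm_map' x := by
    have h1 := norm_sq_split (WithLp.toLp 2 (Fin.cons (x 0) (WithLp.ofLp (R (tl x)))) : Eu (m+1))
    have h2 := norm_sq_split x
    have h3 : tl (WithLp.toLp 2 (Fin.cons (x 0) (WithLp.ofLp (R (tl x)))) : Eu (m+1)) = R (tl x) := by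
      ext i; simp
    rw [h3, R.norm_map] at h1
    have h4 : (WithLp.toLp 2 (Fin.cons (x 0) (WithLp.ofLp (R (tl x)))) : Eu (m+1)) 0 = x 0 := rfl
    rw [h4, ← h2] at h1
    exact (pow_left_inj₀ (norm_nonneg _) (norm_nonneg _) two_ne_zero).mp h1

noncomputable def extL {m : ℕ} (R : Eu m ≃ₗᵢ[ℝ] Eu m) : Eu (m+1) ≃ₗᵢ[ℝ] Eu (m+1) :=
  (extLI R).toLinearIsometryEquiv rfl

theorem extL_zero {m : ℕ} (R : Eu m ≃ₗᵢ[ℝ] Eu m) (x : Eu (m+1)) : extL R x 0 = x 0 := rfl

theorem extL_succ {m : ℕ} (R : Eu m ≃ₗᵢ[ℝ] Eu m) (x : Eu (m+1)) (i : Fin m) :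
    extL R x i.succ = R (tl x) i := rfl

theorem extL_iota {m : ℕ} (R : Eu m ≃ₗᵢ[ℝ] Eu m) (y : Eu m) : extL R (iota y) = iota (R y) := by
  ext i
  refine Fin.cases ?_ (fun i => ?_) i
  · rw [extL_zero, iota_zero, iota_zero]
  · rw [extL_succ, tl_iota, iota_succ]

theorem extL_preimage {m : ℕ} (R : Eu m ≃ₗᵢ[ℝ] Eu m) : (extL R) ⁻¹' (Om m) = Om m := by
  ext x
  simp only [Om, Set.mem_preimage, Set.mem_ofPred_eq, extL_zero]

theorem inv1_preimage {m : ℕ} : (inv1 : Eu (m+1) → Eu (m+1)) ⁻¹' (Om m) = Om m := by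
  ext x
  simp only [Om, Set.mem_preimage, Set.mem_ofPred_eq, inv1, PiLp.smul_apply, smul_eq_mul]
  constructor
  · intro h
    by_contra hneg
    push Not at hneg
    have : (‖x‖ ^ 2)⁻¹ * x 0 ≤ 0 := mul_nonpos_of_nonneg_of_nonpos (by positivity) hneg
    linarith
  · intro h
    have hx : x ≠ 0 := by
      intro h0; rw [h0] at h; simp at h
    have : ‖x‖ ≠ 0 := norm_ne_zero_iff.mpr hx
    positivity

theorem mp_restrict {m : ℕ} {φ : Eu (m+1) → Eu (m+1)}
    (h : MeasurePreserving φ (mfull (m+1)) (mfull (m+1)))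
    (hp : φ ⁻¹' (Om m) = Om m) : MeasurePreserving φ (mu m) (mu m) := by
  have h1 := h.restrict_preimage (measurableSet_Om m)
  rw [hp] at h1
  rw [mu_eq]
  exact h1

/-- The symmetry given by a boundary isometry. -/
noncomputable def syIso {m : ℕ} (R : Eu m ≃ₗᵢ[ℝ] Eu m) : Sy m where
  φ := extL R
  φ' := R
  O := fun _ => extL R
  c := fun _ => 1
  mp := mp_restrict (mp_iso (extL R)) (extL_preimage R)
  mp' := mp_iso R
  measO := fun _ => measurable_const
  cd := fun x _ => (extL R).contDiff.contDiffAt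
  fd := fun x _ => by
    rw [one_smul]
    exact (extL R).toContinuousLinearEquiv.hasFDerivAt
  cw := fun x _ => by rw [mul_one, (extL R).norm_map]
  bd := extL_iota R
  nrm := Or.inl (fun x => (extL R).norm_map x)

theorem inv1_iota {m : ℕ} (y : Eu m) : inv1 (iota y) = iota (inv1 y) := by
  unfold inv1
  rw [norm_iota, iota_smul]

/-- The symmetry given by inversion followed by a boundary isometry. -/
noncomputable def syInv {m : ℕ} [NeZero m] (R : Eu m ≃ₗᵢ[ℝ] Eu m) : Sy m where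
  φ := fun x => extL R (inv1 x)
  φ' := fun y => R (inv1 y)
  O := fun x => (refl1 x).trans (extL R)
  c := fun x => (‖x‖ ^ 2)⁻¹
  mp := (mp_restrict (mp_iso (extL R)) (extL_preimage R)).comp (mp_restrict mp_inv1 inv1_preimage)
  mp' := (mp_iso R).comp mp_inv1
  measO := fun u => by
    have h : (fun x => ((refl1 x).trans (extL R)) u)
      = fun x => extL R (u - (2 * (⟪x, u⟫_ℝ / ‖x‖ ^ 2)) • x) := by
      funext x
      rw [LinearIsometryEquiv.trans_apply, refl1_apply]
    rw [h]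
    refine (extL R).continuous.measurable.comp ?_
    have hin : Measurable (fun x : Eu (m+1) => ⟪x, u⟫_ℝ) :=
      (continuous_id.inner continuous_const).measurable
    have hsc : Measurable (fun x : Eu (m+1) => 2 * (⟪x, u⟫_ℝ / ‖x‖ ^ 2)) :=
      measurable_const.mul (hin.div (measurable_norm.pow_const 2))
    have hid : Measurable (fun x : Eu (m+1) => x) := measurable_id
    exact measurable_const.sub (hsc.smul hid)
  cd := fun x hx => (extL R).contDiff.contDiffAt.comp x (contDiffAt_inv1 hx)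
  fd := fun x hx => by
    have h1 := ((extL R).toContinuousLinearEquiv.hasFDerivAt (x := inv1 x)).comp x
      (hasFDerivAt_inv1 hx)
    refine h1.congr_fderiv ?_
    refine ContinuousLinearMap.ext fun u => ?_
    change extL R ((‖x‖ ^ 2)⁻¹ • refl1 x u) = (‖x‖ ^ 2)⁻¹ • (extL R (refl1 x u))
    rw [map_smul]
  cw := fun x hx => by
    rw [(extL R).norm_map, norm_inv1]
    have : ‖x‖ ≠ 0 := norm_ne_zero_iff.mpr hx
    field_simp
    ring
  bd := fun y => by rw [inv1_iota, extL_iota]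
  nrm := Or.inr (fun x => by rw [(extL R).norm_map, norm_inv1])

/-- Rotation in the plane of the first two coordinates. -/
noncomputable def rotLI (k : ℕ) (θ : ℝ) : Eu (k+2) →ₗᵢ[ℝ] Eu (k+2) where
  toFun x := WithLp.toLp 2 (Fin.cons (Real.cos θ * x 0 - Real.sin θ * x 1)
    (Fin.cons (Real.sin θ * x 0 + Real.cos θ * x 1) (fun i : Fin k => x i.succ.succ)))
  map_add' x y := by
    ext i
    refine Fin.cases ?_ (fun i => Fin.cases ?_ (fun i => ?_) i) i
    · simp; ring
    · simp; ring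
    · simp
  map_smul' a x := by
    ext i
    refine Fin.cases ?_ (fun i => Fin.cases ?_ (fun i => ?_) i) i
    · simp; ring
    · simp; ring
    · simp
  norm_map' x := by
    rw [EuclideanSpace.norm_eq, EuclideanSpace.norm_eq]
    congr 1
    rw [Fin.sum_univ_succ, Fin.sum_univ_succ, Fin.sum_univ_succ (n := k+1),
      Fin.sum_univ_succ (n := k)]
    simp only [LinearMap.coe_mk, AddHom.coe_mk, Fin.cons_zero, Fin.cons_succ, Real.norm_eq_abs,
      sq_abs]
    simp only [Fin.succ_zero_eq_one]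
    have := Real.sin_sq_add_cos_sq θ
    nlinarith

noncomputable def rotL (k : ℕ) (θ : ℝ) : Eu (k+2) ≃ₗᵢ[ℝ] Eu (k+2) :=
  (rotLI k θ).toLinearIsometryEquiv rfl

theorem rotL_zero (k : ℕ) (θ : ℝ) (x : Eu (k+2)) :
    rotL k θ x 0 = Real.cos θ * x 0 - Real.sin θ * x 1 := rfl

theorem rotL_one (k : ℕ) (θ : ℝ) (x : Eu (k+2)) :
    rotL k θ x 1 = Real.sin θ * x 0 + Real.cos θ * x 1 := rfl

theorem rotL_succ (k : ℕ) (θ : ℝ) (x : Eu (k+2)) (i : Fin k) :
    rotL k θ x i.succ.succ = x i.succ.succ := rfl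

/-- Sign changes. -/
noncomputable def flipLI {k : ℕ} (ε : Fin k → ℝ) (hε : ∀ i, ε i ^ 2 = 1) : Eu k →ₗᵢ[ℝ] Eu k where
  toFun x := WithLp.toLp 2 (fun i => ε i * x i)
  map_add' x y := by ext i; simp; ring
  map_smul' a x := by ext i; simp; ring
  norm_map' x := by
    rw [EuclideanSpace.norm_eq, EuclideanSpace.norm_eq]
    congr 1
    refine Finset.sum_congr rfl fun i _ => ?_
    simp only [LinearMap.coe_mk, AddHom.coe_mk, norm_mul, mul_pow, Real.norm_eq_abs, sq_abs]
    rw [hε i, one_mul]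

noncomputable def flipL {k : ℕ} (ε : Fin k → ℝ) (hε : ∀ i, ε i ^ 2 = 1) : Eu k ≃ₗᵢ[ℝ] Eu k :=
  (flipLI ε hε).toLinearIsometryEquiv rfl

theorem flipL_apply {k : ℕ} (ε : Fin k → ℝ) (hε : ∀ i, ε i ^ 2 = 1) (x : Eu k) (i : Fin k) :
    flipL ε hε x i = ε i * x i := rfl

end Pool.Agent.Helper42.Bub
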