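import Mathlib

/-!
Clarkson's inequality in `L^n` (natural exponent `n ≥ 2`, inner product target) and
some convergence lemmas.
-/

open Filter Topology MeasureTheory
open scoped ENNReal InnerProductSpace

namespace Pool.Agent.Helper42.Bub

variable {H : Type*} [NormedAddCommGroup H] [InnerProductSpace ℝ H]

theorem pt_clarkson (n : ℕ) (hn : 2 ≤ n) (a b : H) :
    ‖(1/2 : ℝ) • (a + b)‖ ^ n + ‖(1/2 : ℝ) • (a - b)‖ ^ n ≤ (‖a‖ ^ n + ‖b‖ ^ n) / 2 := by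
  have key : ∀ c : H, ‖c‖ ^ n = (‖c‖ ^ 2) ^ ((n : ℝ) / 2) := by
    intro c
    rw [← Real.rpow_natCast (‖c‖) 2, ← Real.rpow_mul (norm_nonneg _), ← Real.rpow_natCast]
    congr 1
    push_cast
    ring
  have hp : (1 : ℝ) ≤ (n : ℝ) / 2 := by
    have : (2 : ℝ) ≤ n := by exact_mod_cast hn
    linarith
  rw [key, key, key a, key b]
  have hpar : ‖(1/2 : ℝ) • (a + b)‖ ^ 2 + ‖(1/2 : ℝ) • (a - b)‖ ^ 2
      = (1/2) * ‖a‖ ^ 2 + (1/2) * ‖b‖ ^ 2 := by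
    have := parallelogram_law_with_norm ℝ a b
    rw [norm_smul, norm_smul]
    have h2 : ‖(1/2 : ℝ)‖ = 1/2 := by norm_num
    rw [h2]
    nlinarith
  have h1 := Real.add_rpow_le_rpow_add (sq_nonneg ‖(1/2 : ℝ) • (a + b)‖)
    (sq_nonneg ‖(1/2 : ℝ) • (a - b)‖) hp
  rw [hpar] at h1
  refine h1.trans ?_
  have h2 := (convexOn_rpow hp).2 (Set.mem_Ici.mpr (sq_nonneg ‖a‖))
    (Set.mem_Ici.mpr (sq_nonneg ‖b‖)) (show (0:ℝ) ≤ 1/2 by norm_num)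
    (show (0:ℝ) ≤ 1/2 by norm_num) (by norm_num)
  simp only [smul_eq_mul] at h2
  linarith

theorem pt_bernoulli (n : ℕ) (hn : 1 ≤ n) {s t : ℝ} (hs : 0 ≤ s) (ht : 0 ≤ t) :
    t ^ n + n * t ^ (n - 1) * (s - t) ≤ s ^ n := by
  obtain ⟨k, rfl⟩ : ∃ k, n = k + 1 := ⟨n - 1, by omega⟩
  simp only [Nat.add_sub_cancel]
  induction k with
  | zero => simp
  | succ k ih =>
    have ih' := ih (by omega)
    have h1 : 0 ≤ s ^ (k+1) := by positivity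
    have h2 : 0 ≤ t ^ k := by positivity
    have h3 : s * (t ^ (k+1) + ((k+1 : ℕ) : ℝ) * t ^ k * (s - t)) ≤ s * s ^ (k+1) :=
      mul_le_mul_of_nonneg_left ih' hs
    have h4 : 0 ≤ ((k : ℝ) + 1) * t ^ k * (s - t) ^ 2 := by positivity
    have h5 : t ^ (k+1+1) + ((k+1+1 : ℕ) : ℝ) * t ^ (k+1) * (s - t)
      = s * (t ^ (k+1) + ((k+1 : ℕ) : ℝ) * t ^ k * (s - t)) - ((k : ℝ) + 1) * t ^ k * (s - t) ^ 2 := by
      push_cast
      ring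
    rw [h5, pow_succ' s (k+1)]
    linarith

/-- The gradient inequality for `‖·‖ ^ n`. -/
theorem pt_grad (n : ℕ) (hn : 2 ≤ n) (a b : H) :
    ‖b‖ ^ n + n * (‖b‖ ^ (n - 2) * ⟪b, a - b⟫_ℝ) ≤ ‖a‖ ^ n := by
  obtain ⟨k, rfl⟩ : ∃ k, n = k + 2 := ⟨n - 2, by omega⟩
  have h1 := pt_bernoulli (k+2) (by omega) (norm_nonneg a) (norm_nonneg b)
  refine le_trans ?_ h1
  have h2 : ⟪b, a - b⟫_ℝ ≤ ‖b‖ * (‖a‖ - ‖b‖) := by
    rw [inner_sub_right, real_inner_self_eq_norm_sq]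
    have := real_inner_le_norm b a
    nlinarith
  have h3 : (k + 2 - 1) = k + 1 := by omega
  have h4 : (k + 2 - 2) = k := by omega
  rw [h3, h4]
  have h5 : ‖b‖ ^ k * ⟪b, a - b⟫_ℝ ≤ ‖b‖ ^ k * (‖b‖ * (‖a‖ - ‖b‖)) :=
    mul_le_mul_of_nonneg_left h2 (by positivity)
  have h6 : ((k + 2 : ℕ) : ℝ) * (‖b‖ ^ k * ⟪b, a - b⟫_ℝ)
      ≤ ((k + 2 : ℕ) : ℝ) * (‖b‖ ^ k * (‖b‖ * (‖a‖ - ‖b‖))) :=
    mul_le_mul_of_nonneg_left h5 (by positivity)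
  have h7 : ((k + 2 : ℕ) : ℝ) * (‖b‖ ^ k * (‖b‖ * (‖a‖ - ‖b‖)))
    = ((k + 2 : ℕ) : ℝ) * ‖b‖ ^ (k+1) * (‖a‖ - ‖b‖) := by ring
  linarith

variable {α : Type*} [MeasurableSpace α] {μ : Measure α}

theorem lp_norm_pow {G : Type*} [NormedAddCommGroup G] {n : ℕ} (hn : n ≠ 0)
    (f : Lp G (n : ℝ≥0∞) μ) : ‖f‖ ^ n = ∫ x, ‖f x‖ ^ n ∂μ := by
  have h := (Lp.memLp f).eLpNorm_eq_integral_rpow_norm (by exact_mod_cast hn) (by simp)
  rw [Lp.norm_def, h, ENNReal.toReal_ofReal (by positivity)]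
  simp only [ENNReal.toReal_natCast, Real.rpow_natCast]
  rw [← Real.rpow_natCast _ n, ← Real.rpow_mul (by positivity)]
  rw [inv_mul_cancel₀ (by exact_mod_cast hn), Real.rpow_one]

theorem lp_int_pow {G : Type*} [NormedAddCommGroup G] {n : ℕ} (hn : n ≠ 0)
    (f : Lp G (n : ℝ≥0∞) μ) : Integrable (fun x => ‖f x‖ ^ n) μ :=
  (Lp.memLp f).integrable_norm_pow hn

theorem lp_clarkson {n : ℕ} (hn : 2 ≤ n) (f g : Lp H (n : ℝ≥0∞) μ) :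
    ‖(1/2 : ℝ) • (f + g)‖ ^ n + ‖(1/2 : ℝ) • (f - g)‖ ^ n ≤ (‖f‖ ^ n + ‖g‖ ^ n) / 2 := by
  have hn0 : n ≠ 0 := by omega
  rw [lp_norm_pow hn0, lp_norm_pow hn0, lp_norm_pow hn0 f, lp_norm_pow hn0 g,
    ← integral_add (lp_int_pow hn0 _) (lp_int_pow hn0 _),
    ← integral_add (lp_int_pow hn0 _) (lp_int_pow hn0 _), ← integral_div]
  refine integral_mono_ae ((lp_int_pow hn0 _).add (lp_int_pow hn0 _))
    (((lp_int_pow hn0 _).add (lp_int_pow hn0 _)).div_const 2) ?_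
  filter_upwards [Lp.coeFn_smul (1/2 : ℝ) (f + g), Lp.coeFn_smul (1/2 : ℝ) (f - g),
    Lp.coeFn_add f g, Lp.coeFn_sub f g] with x h1 h2 h3 h4
  rw [h1, h2, Pi.smul_apply, Pi.smul_apply, h3, h4]
  exact pt_clarkson n hn (f x) (g x)

/-- Dominated convergence in `L^n` to zero. -/
theorem lp_tendsto_zero_of_dom {G : Type*} [NormedAddCommGroup G] {n : ℕ} (hn : n ≠ 0)
    [Fact ((1 : ℝ≥0∞) ≤ (n : ℝ≥0∞))]
    (K : ℕ → Lp G (n : ℝ≥0∞) μ) (g : α → ℝ) (hg : Integrable (fun x => g x ^ n) μ)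
    (hb : ∀ j, ∀ᵐ x ∂μ, ‖K j x‖ ≤ g x)
    (hlim : ∀ᵐ x ∂μ, Tendsto (fun j => K j x) atTop (𝓝 0)) :
    Tendsto K atTop (𝓝 0) := by
  have h1 : Tendsto (fun j => ‖K j‖ ^ n) atTop (𝓝 0) := by
    have h2 : Tendsto (fun j => ∫ x, ‖K j x‖ ^ n ∂μ) atTop (𝓝 (∫ x, (0:ℝ) ∂μ)) := by
      refine tendsto_integral_of_dominated_convergence (fun x => g x ^ n)
        (fun j => ((Lp.aestronglyMeasurable (K j)).norm.pow n)) hg ?_ ?_
      · intro j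
        filter_upwards [hb j] with x hx
        rw [Real.norm_of_nonneg (by positivity)]
        exact pow_le_pow_left₀ (norm_nonneg _) hx n
      · filter_upwards [hlim] with x hx
        have := (hx.norm).pow n
        simpa [hn] using this
    simp only [integral_zero] at h2
    refine h2.congr (fun j => (lp_norm_pow hn (K j)).symm)
  rw [tendsto_zero_iff_norm_tendsto_zero]
  rw [Metric.tendsto_atTop] at h1 ⊢
  intro ε hε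
  obtain ⟨N, hN⟩ := h1 (ε ^ n) (by positivity)
  refine ⟨N, fun j hj => ?_⟩
  have := hN j hj
  rw [Real.dist_eq, sub_zero, abs_of_nonneg (by positivity)] at this
  rw [Real.dist_eq, sub_zero, abs_of_nonneg (by positivity)]
  exact lt_of_pow_lt_pow_left₀ n hε.le this

/-- Bounded a.e. convergent additive multipliers. -/
theorem lp_tendsto_mult {W₁ W₂ : Type*} [NormedAddCommGroup W₁]
    [NormedAddCommGroup W₂] {n : ℕ} (hn : n ≠ 0)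
    [Fact ((1 : ℝ≥0∞) ≤ (n : ℝ≥0∞))]
    (G : ℕ → Lp W₁ (n : ℝ≥0∞) μ) (G₀ : Lp W₁ (n : ℝ≥0∞) μ) (hG : Tendsto G atTop (𝓝 G₀))
    (a : ℕ → α → W₁ → W₂) (a₀ : α → W₁ → W₂) (C : ℝ)
    (hsub : ∀ j x c c', a j x (c - c') = a j x c - a j x c')
    (ha : ∀ j, ∀ᵐ x ∂μ, ∀ c, ‖a j x c‖ ≤ C * ‖c‖)
    (hlim : ∀ᵐ x ∂μ, ∀ c, Tendsto (fun j => a j x c) atTop (𝓝 (a₀ x c)))
    (Hs : ℕ → Lp W₂ (n : ℝ≥0∞) μ) (H₀ : Lp W₂ (n : ℝ≥0∞) μ)
    (hmeas : ∀ j, AEStronglyMeasurable (fun x => a j x (G₀ x)) μ)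
    (hH : ∀ j, Hs j =ᵐ[μ] fun x => a j x (G j x)) (hH₀ : H₀ =ᵐ[μ] fun x => a₀ x (G₀ x)) :
    Tendsto Hs atTop (𝓝 H₀) := by
  have ha₀ : ∀ᵐ x ∂μ, ∀ c, ‖a₀ x c‖ ≤ C * ‖c‖ := by
    filter_upwards [ae_all_iff.mpr ha, hlim] with x h1 h2 c
    exact le_of_tendsto' (h2 c).norm (fun j => h1 j c)
  have hmid : ∀ j, MemLp (fun x => a j x (G₀ x)) (n : ℝ≥0∞) μ := by
    intro j
    refine MemLp.of_le_mul (Lp.memLp G₀) (hmeas j) (c := C) ?_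
    filter_upwards [ha j] with x hx
    exact hx _
  set M : ℕ → Lp W₂ (n : ℝ≥0∞) μ := fun j => (hmid j).toLp _ with hM
  -- first difference
  have hd1 : Tendsto (fun j => Hs j - M j) atTop (𝓝 0) := by
    have hG' : Tendsto (fun j => C * ‖G j - G₀‖) atTop (𝓝 0) := by
      have := ((hG.sub_const G₀).norm).const_mul C
      simpa using this
    refine squeeze_zero_norm (fun j => ?_) hG'
    refine Lp.norm_le_mul_norm_of_ae_le_mul ?_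
    filter_upwards [Lp.coeFn_sub (Hs j) (M j), Lp.coeFn_sub (G j) G₀, hH j,
      (hmid j).coeFn_toLp, ha j] with x h1 h2 h3 h4 h5
    rw [h1, h2, Pi.sub_apply, Pi.sub_apply, h3, h4, ← hsub]
    exact h5 _
  have hd2 : Tendsto (fun j => M j - H₀) atTop (𝓝 0) := by
    refine lp_tendsto_zero_of_dom hn _ (fun x => 2 * C * ‖G₀ x‖) ?_ ?_ ?_
    · have : (fun x => (2 * C * ‖G₀ x‖) ^ n) = fun x => (2 * C) ^ n * ‖G₀ x‖ ^ n := by
        funext x; rw [mul_pow]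
      rw [this]
      exact (lp_int_pow hn G₀).const_mul _
    · intro j
      filter_upwards [Lp.coeFn_sub (M j) H₀, (hmid j).coeFn_toLp, hH₀, ha j, ha₀] with x h1 h2 h3 h4 h5
      rw [h1, Pi.sub_apply, h2, h3]
      have h6 := h4 (G₀ x)
      have h7 := h5 (G₀ x)
      have h8 := norm_sub_le (a j x (G₀ x)) (a₀ x (G₀ x))
      linarith
    · filter_upwards [ae_all_iff.mpr (fun j => Lp.coeFn_sub (M j) H₀),
        ae_all_iff.mpr (fun j => (hmid j).coeFn_toLp), hH₀, hlim] with x h1 h2 h3 h4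
      have h5 : ∀ j, (M j - H₀ : Lp W₂ (n : ℝ≥0∞) μ) x = a j x (G₀ x) - a₀ x (G₀ x) := by
        intro j
        rw [h1 j, Pi.sub_apply, h2 j, h3]
      have h7 := (h4 (G₀ x)).sub_const (a₀ x (G₀ x))
      rw [sub_self] at h7
      exact h7.congr (fun j => (h5 j).symm)
  have h := (hd1.add hd2).add_const H₀
  simpa using h

theorem lp_norm_le_add {W₁ W₂ W₃ : Type*} [NormedAddCommGroup W₁] [NormedAddCommGroup W₂]
    [NormedAddCommGroup W₃] {p : ℝ≥0∞} [Fact (1 ≤ p)] (f : Lp W₃ p μ) (g₁ : Lp W₁ p μ)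
    (g₂ : Lp W₂ p μ) (K : ℝ) (hK : 0 ≤ K) (h : ∀ᵐ x ∂μ, ‖f x‖ ≤ K * (‖g₁ x‖ + ‖g₂ x‖)) :
    ‖f‖ ≤ K * (‖g₁‖ + ‖g₂‖) := by
  have hn1 : MemLp (fun x => ‖g₁ x‖ + ‖g₂ x‖) p μ := (Lp.memLp _).norm.add (Lp.memLp _).norm
  have h1 : ‖f‖ ≤ K * ‖hn1.toLp _‖ := by
    refine Lp.norm_le_mul_norm_of_ae_le_mul ?_
    filter_upwards [h, hn1.coeFn_toLp] with x h1 h4
    rw [h4, Real.norm_of_nonneg (by positivity)]
    exact h1
  have h2 : ‖hn1.toLp _‖ ≤ ‖g₁‖ + ‖g₂‖ := by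
    have e1 : hn1.toLp _ = (Lp.memLp g₁).norm.toLp _ + (Lp.memLp g₂).norm.toLp _ := by
      rw [← MemLp.toLp_add]; rfl
    rw [e1]
    refine (norm_add_le _ _).trans (add_le_add ?_ ?_)
    · rw [Lp.norm_toLp, Lp.norm_def, eLpNorm_norm]
    · rw [Lp.norm_toLp, Lp.norm_def, eLpNorm_norm]
  exact h1.trans (mul_le_mul_of_nonneg_left h2 hK)

/-- Extract an a.e. convergent subsequence. -/
theorem lp_subseq_ae {G : Type*} [NormedAddCommGroup G] {n : ℕ}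
    [Fact ((1 : ℝ≥0∞) ≤ (n : ℝ≥0∞))]
    (f : ℕ → Lp G (n : ℝ≥0∞) μ) (f₀ : Lp G (n : ℝ≥0∞) μ) (h : Tendsto f atTop (𝓝 f₀)) :
    ∃ ns : ℕ → ℕ, StrictMono ns ∧ ∀ᵐ x ∂μ, Tendsto (fun i => f (ns i) x) atTop (𝓝 (f₀ x)) := by
  have := tendstoInMeasure_of_tendsto_Lp h
  exact this.exists_seq_tendsto_ae

end Pool.Agent.Helper42.Bub
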