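import Pool.Agent.Helper42.Bub.Sp

/-!
Mollified traces.
-/

set_option maxHeartbeats 400000

open Filter Topology MeasureTheory Set
open scoped ENNReal InnerProductSpace NNReal

namespace Pool.Agent.Helper42.Bub

variable {m : ℕ}

/-- Hat kernel centred at `2ε e₀`. -/
noncomputable def kap (ε : ℝ) (ζ : Eu (m+1)) : ℝ := max 0 (ε - ‖ζ - (2*ε) • eb 0‖)

theorem kap_nonneg (ε : ℝ) (ζ : Eu (m+1)) : 0 ≤ kap ε ζ := le_max_left _ _

theorem kap_le {ε : ℝ} (hε : 0 ≤ ε) (ζ : Eu (m+1)) : kap ε ζ ≤ ε := by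
  unfold kap
  exact max_le hε (by linarith [norm_nonneg (ζ - (2*ε) • (eb 0 : Eu (m+1)))])

theorem continuous_kap (ε : ℝ) : Continuous (kap ε : Eu (m+1) → ℝ) := by
  unfold kap
  fun_prop

theorem kap_lip (ε : ℝ) (ζ ζ' : Eu (m+1)) : |kap ε ζ - kap ε ζ'| ≤ ‖ζ - ζ'‖ := by
  unfold kap
  have h1 := abs_max_sub_max_le_abs (0:ℝ) (ε - ‖ζ - (2*ε) • eb 0‖) 0
  have h := abs_max_sub_max_le_max (0:ℝ) (ε - ‖ζ - (2*ε) • eb 0‖) 0 (ε - ‖ζ' - (2*ε) • eb 0‖)
  refine h.trans (max_le (by simp) ?_)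
  have h2 := abs_norm_sub_norm_le (ζ' - (2*ε) • (eb 0 : Eu (m+1))) (ζ - (2*ε) • eb 0)
  have e1 : ε - ‖ζ - (2*ε) • (eb 0 : Eu (m+1))‖ - (ε - ‖ζ' - (2*ε) • (eb 0 : Eu (m+1))‖)
    = ‖ζ' - (2*ε) • (eb 0 : Eu (m+1))‖ - ‖ζ - (2*ε) • (eb 0 : Eu (m+1))‖ := by ring
  rw [e1]
  refine h2.trans (le_of_eq ?_)
  rw [sub_sub_sub_cancel_right, norm_sub_rev]

theorem kap_supp {ε : ℝ} (hε : 0 < ε) {ζ : Eu (m+1)} (h : kap ε ζ ≠ 0) :
    ε < ζ 0 ∧ ζ 0 < 3 * ε ∧ ‖ζ‖ < 3 * ε := by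
  have h1 : ‖ζ - (2*ε) • (eb 0 : Eu (m+1))‖ < ε := by
    by_contra hneg
    push Not at hneg
    apply h
    unfold kap
    exact max_eq_left (by linarith)
  have h2 : |ζ 0 - 2 * ε| ≤ ‖ζ - (2*ε) • (eb 0 : Eu (m+1))‖ := by
    have := PiLp.norm_apply_le (ζ - (2*ε) • (eb 0 : Eu (m+1))) 0
    simpa using this
  have h3 := abs_lt.mp (h2.trans_lt h1)
  refine ⟨by linarith, by linarith, ?_⟩
  have h4 : ‖ζ‖ ≤ ‖ζ - (2*ε) • (eb 0 : Eu (m+1))‖ + ‖(2*ε) • (eb 0 : Eu (m+1))‖ := by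
    have := norm_add_le (ζ - (2*ε) • (eb 0 : Eu (m+1))) ((2*ε) • (eb 0 : Eu (m+1)))
    simpa using this
  have h5 : ‖(2*ε) • (eb 0 : Eu (m+1))‖ = 2 * ε := by
    rw [norm_smul]; simp [abs_of_pos hε]
  linarith

theorem kap_compact {ε : ℝ} (hε : 0 < ε) : HasCompactSupport (kap ε : Eu (m+1) → ℝ) := by
  refine HasCompactSupport.intro (isCompact_closedBall (0 : Eu (m+1)) (3*ε)) (fun x hx => ?_)
  by_contra hne
  apply hx
  rw [mem_closedBall_zero_iff]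
  exact (kap_supp hε hne).2.2.le

theorem integrable_kap {ε : ℝ} (hε : 0 < ε) : Integrable (kap ε : Eu (m+1) → ℝ) :=
  (continuous_kap ε).integrable_of_hasCompactSupport (kap_compact hε)

/-- normalisation -/
noncomputable def cK (m : ℕ) (ε : ℝ) : ℝ := ∫ ζ : Eu (m+1), kap ε ζ

theorem cK_pos {ε : ℝ} (hε : 0 < ε) : 0 < cK m ε := by
  unfold cK
  rw [integral_pos_iff_support_of_nonneg (fun ζ => kap_nonneg ε ζ) (integrable_kap hε)]
  have hopen : IsOpen (Function.support (kap ε : Eu (m+1) → ℝ)) :=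
    (continuous_kap ε).isOpen_support
  refine hopen.measure_pos _ ⟨(2*ε) • eb 0, ?_⟩
  simp only [Function.mem_support, kap, sub_self, norm_zero, sub_zero]
  rw [max_eq_right hε.le]
  exact hε.ne'

variable {V : Type*} [NormedAddCommGroup V] [InnerProductSpace ℝ V]

/-- kernel w.r.t. `mu` -/
noncomputable def kk (ε : ℝ) (y : Eu m) (x : Eu (m+1)) : ℝ :=
  kap ε (x - iota y) * (wt x ^ (m+1))⁻¹

theorem continuous_kk (ε : ℝ) (y : Eu m) : Continuous (kk ε y) := by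
  unfold kk
  refine ((continuous_kap ε).comp (continuous_id.sub continuous_const)).mul ?_
  exact (continuous_wt.pow _).inv₀ (fun x => (pow_pos (wt_pos x) _).ne')

/-- Mollified trace. -/
noncomputable def PP (ε : ℝ) (g : Eu (m+1) → V) (y : Eu m) : V :=
  (cK m ε)⁻¹ • ∫ x, kk ε y x • g x ∂(mu m)

theorem wt_inv_le {R : ℝ} {x : Eu (m+1)} (h : ‖x‖ ≤ R) :
    (wt x ^ (m+1))⁻¹ ≤ (1 + R ^ 2) ^ (m+1) := by
  unfold wt
  rw [inv_pow, inv_inv]
  apply pow_le_pow_left₀ (by positivity)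
  have := pow_le_pow_left₀ (norm_nonneg x) h 2
  linarith

theorem kk_le {ε R : ℝ} (hε : 0 < ε) (hε1 : ε ≤ 1) {y : Eu m} (hy : ‖y‖ ≤ R) (x : Eu (m+1)) :
    |kk ε y x| ≤ ε * (1 + (R+3) ^ 2) ^ (m+1) := by
  have hR : 0 ≤ R := (norm_nonneg _).trans hy
  have hpos : 0 ≤ (wt x ^ (m+1))⁻¹ := by have := wt_pos x; positivity
  unfold kk
  rw [abs_mul, abs_of_nonneg (kap_nonneg _ _), abs_of_nonneg hpos]
  by_cases h : kap ε (x - iota y) = 0
  · rw [h, zero_mul]; positivity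
  have h1 := (kap_supp hε h).2.2
  have h2 : ‖x‖ ≤ R + 3 := by
    have := norm_add_le (x - iota y) (iota y)
    rw [sub_add_cancel, norm_iota] at this
    linarith
  exact mul_le_mul (kap_le hε.le _) (wt_inv_le h2) hpos hε.le

theorem kk_lip {ε R : ℝ} (hε : 0 < ε) (hε1 : ε ≤ 1) {y y' : Eu m} (hy : ‖y‖ ≤ R) (hy' : ‖y'‖ ≤ R)
    (x : Eu (m+1)) :
    |kk ε y x - kk ε y' x| ≤ ‖y - y'‖ * (1 + (R+3) ^ 2) ^ (m+1) := by
  have hR : 0 ≤ R := (norm_nonneg _).trans hy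
  have hpos : 0 ≤ (wt x ^ (m+1))⁻¹ := by have := wt_pos x; positivity
  unfold kk
  rw [← sub_mul, abs_mul, abs_of_nonneg hpos]
  have hl : |kap ε (x - iota y) - kap ε (x - iota y')| ≤ ‖y - y'‖ := by
    refine (kap_lip ε _ _).trans (le_of_eq ?_)
    rw [sub_sub_sub_cancel_left]
    have : iota y' - iota y = iota (y' - y) := by
      rw [sub_eq_add_neg, sub_eq_add_neg, iota_add, ← neg_one_smul ℝ y, iota_smul, neg_one_smul]
    rw [this, norm_iota, norm_sub_rev]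
  by_cases h : kap ε (x - iota y) - kap ε (x - iota y') = 0
  · rw [h, abs_zero, zero_mul]; positivity
  have h2 : ‖x‖ ≤ R + 3 := by
    by_cases ha : kap ε (x - iota y) = 0
    · have hb : kap ε (x - iota y') ≠ 0 := by
        intro hb; apply h; rw [ha, hb, sub_zero]
      have h1 := (kap_supp hε hb).2.2
      have := norm_add_le (x - iota y') (iota y')
      rw [sub_add_cancel, norm_iota] at this
      linarith
    · have h1 := (kap_supp hε ha).2.2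
      have := norm_add_le (x - iota y) (iota y)
      rw [sub_add_cancel, norm_iota] at this
      linarith
  exact mul_le_mul hl (wt_inv_le h2) hpos (norm_nonneg _)

/-- `L^1` norm bounded by `L^n` norm. -/
noncomputable def cM (m : ℕ) : ℝ := ((mu m univ) ^ (1 - 1 / ((m+1 : ℕ) : ℝ))).toReal

theorem cM_nonneg : 0 ≤ cM m := ENNReal.toReal_nonneg

theorem int_norm_le {G : Type*} [NormedAddCommGroup G] (f : Lp G (pp m) (mu m)) :
    ∫ x, ‖f x‖ ∂(mu m) ≤ cM m * ‖f‖ := by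
  have h1 := eLpNorm_le_eLpNorm_mul_rpow_measure_univ (μ := mu m) (p := 1) (q := pp m)
    (Fact.out) (Lp.aestronglyMeasurable f)
  have e : (pp m).toReal = ((m+1 : ℕ) : ℝ) := ENNReal.toReal_natCast _
  rw [e] at h1
  simp only [ENNReal.toReal_one, ne_eq, one_ne_zero, not_false_eq_true, div_self] at h1
  have h2 : ∫ x, ‖f x‖ ∂(mu m) = (eLpNorm f 1 (mu m)).toReal := by
    rw [eLpNorm_one_eq_lintegral_enorm, integral_norm_eq_lintegral_enorm (Lp.aestronglyMeasurable f)]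
  rw [h2, Lp.norm_def, cM, ← ENNReal.toReal_mul, mul_comm ((mu m univ) ^ _)]
  refine ENNReal.toReal_mono ?_ h1
  refine ENNReal.mul_ne_top (Lp.eLpNorm_ne_top _) ?_
  refine ENNReal.rpow_ne_top_of_nonneg ?_ (measure_ne_top _ _)
  have : (1:ℝ) ≤ ((m+1 : ℕ) : ℝ) := by push_cast; linarith [(Nat.cast_nonneg m : (0:ℝ) ≤ m)]
  rw [sub_nonneg, div_le_one (by positivity)]
  exact this

theorem lp_integrable {G : Type*} [NormedAddCommGroup G] (f : Lp G (pp m) (mu m)) :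
    Integrable f (mu m) := (Lp.memLp f).integrable Fact.out

theorem int_k_le (f : Lp V (pp m) (mu m)) {k : Eu (m+1) → ℝ} {B : ℝ} 
    (hB : ∀ x, |k x| ≤ B) : ‖∫ x, k x • f x ∂(mu m)‖ ≤ B * (cM m * ‖f‖) := by
  have hB0 : 0 ≤ B := (abs_nonneg _).trans (hB 0)
  refine (norm_integral_le_integral_norm _).trans ?_
  have h1 : ∫ x, ‖k x • f x‖ ∂(mu m) ≤ ∫ x, B * ‖f x‖ ∂(mu m) := by
    refine integral_mono_of_nonneg (Eventually.of_forall fun x => norm_nonneg _)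
      ((lp_integrable f).norm.const_mul B) (Eventually.of_forall fun x => ?_)
    simp only [norm_smul, Real.norm_eq_abs]
    exact mul_le_mul_of_nonneg_right (hB x) (norm_nonneg _)
  refine h1.trans ?_
  rw [integral_const_mul]
  exact mul_le_mul_of_nonneg_left (int_norm_le f) hB0

theorem integrable_kk_smul (f : Lp V (pp m) (mu m)) {ε : ℝ} (hε : 0 < ε) (hε1 : ε ≤ 1)
    (y : Eu m) : Integrable (fun x => kk ε y x • f x) (mu m) :=
  (lp_integrable f).bdd_smul (ε * (1 + (‖y‖+3) ^ 2) ^ (m+1))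
    (continuous_kk ε y).aestronglyMeasurable (Eventually.of_forall fun x => kk_le hε hε1 le_rfl x)

theorem PP_sub (f g : Lp V (pp m) (mu m)) {ε : ℝ} (hε : 0 < ε) (hε1 : ε ≤ 1) (y : Eu m) :
    PP ε f y - PP ε g y = PP ε (f - g : Lp V (pp m) (mu m)) y := by
  unfold PP
  rw [← smul_sub, ← integral_sub (integrable_kk_smul f hε hε1 y) (integrable_kk_smul g hε hε1 y)]
  congr 1
  refine integral_congr_ae ?_
  filter_upwards [Lp.coeFn_sub f g] with x h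
  rw [h, Pi.sub_apply, smul_sub]

theorem PP_bound (f : Lp V (pp m) (mu m)) {ε R : ℝ} (hε : 0 < ε) (hε1 : ε ≤ 1) {y : Eu m}
    (hy : ‖y‖ ≤ R) :
    ‖PP ε f y‖ ≤ (cK m ε)⁻¹ * (ε * (1 + (R+3) ^ 2) ^ (m+1) * (cM m * ‖f‖)) := by
  unfold PP
  have hc := cK_pos (m := m) hε
  rw [norm_smul, Real.norm_of_nonneg (by positivity)]
  exact mul_le_mul_of_nonneg_left (int_k_le f (fun x => kk_le hε hε1 hy x)) (by positivity)

theorem PP_lip (f : Lp V (pp m) (mu m)) {ε R : ℝ} (hε : 0 < ε) (hε1 : ε ≤ 1) {y y' : Eu m}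
    (hy : ‖y‖ ≤ R) (hy' : ‖y'‖ ≤ R) :
    ‖PP ε f y - PP ε f y'‖ ≤
      (cK m ε)⁻¹ * ((‖y - y'‖ * (1 + (R+3) ^ 2) ^ (m+1)) * (cM m * ‖f‖)) := by
  have hc := cK_pos (m := m) hε
  unfold PP
  rw [← smul_sub, ← integral_sub (integrable_kk_smul f hε hε1 y) (integrable_kk_smul f hε hε1 y'),
    norm_smul, Real.norm_of_nonneg (by positivity)]
  refine mul_le_mul_of_nonneg_left ?_ (by positivity)
  have : (fun x => kk ε y x • f x - kk ε y' x • f x) = fun x => (kk ε y x - kk ε y' x) • f x := by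
    funext x; rw [sub_smul]
  rw [this]
  exact int_k_le f (fun x => kk_lip hε hε1 hy hy' x)

theorem PP_continuous (f : Lp V (pp m) (mu m)) {ε : ℝ} (hε : 0 < ε) (hε1 : ε ≤ 1) :
    Continuous (PP ε f) := by
  rw [continuous_iff_continuousAt]
  intro y
  have hlim : Tendsto (fun y' => (cK m ε)⁻¹ * ((‖y' - y‖ * (1 + ((‖y‖+1)+3) ^ 2) ^ (m+1)) *
      (cM m * ‖f‖))) (𝓝 y) (𝓝 0) := by
    have hc : Continuous (fun y' : Eu m => (cK m ε)⁻¹ * ((‖y' - y‖ * (1 + ((‖y‖+1)+3) ^ 2) ^ (m+1)) *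
      (cM m * ‖f‖))) := by fun_prop
    have := hc.tendsto y
    simpa using this
  rw [ContinuousAt, tendsto_iff_norm_sub_tendsto_zero]
  refine squeeze_zero' (Eventually.of_forall fun _ => norm_nonneg _) ?_ hlim
  filter_upwards [Metric.ball_mem_nhds y one_pos] with y' hy'
  refine PP_lip f hε hε1 ?_ (by linarith)
  have := norm_add_le (y' - y) y
  rw [sub_add_cancel] at this
  rw [mem_ball_iff_norm] at hy'
  linarith

end Pool.Agent.Helper42.Bub
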