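import Pool.Agent.Helper42.Bub.Moll
import Pool.Agent.Helper42.Bub.Vert

/-!
Mollified traces: the basic estimate.
-/

set_option maxHeartbeats 400000

open Filter Topology MeasureTheory Set
open scoped ENNReal InnerProductSpace NNReal

namespace Pool.Agent.Helper42.Bub

variable {m : ℕ} {V : Type*} [NormedAddCommGroup V] [InnerProductSpace ℝ V]

/-- strip near the boundary -/
def strip (m : ℕ) (ε : ℝ) : Set (Eu (m+1)) := {x | x 0 ≤ 3 * ε}

theorem measurableSet_strip (ε : ℝ) : MeasurableSet (strip m ε) := by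
  apply measurableSet_le _ measurable_const
  exact (EuclideanSpace.proj (𝕜 := ℝ) (0 : Fin (m+1))).continuous.measurable

/-- the constant `3 * 19^m` -/
noncomputable def KK (m : ℕ) : ℝ≥0∞ := ENNReal.ofReal (3 * 19 ^ m)

theorem shift_int [CompleteSpace V] {w : Eu (m+1) → V} (hw : ContDiff ℝ 1 w) {ε : ℝ}
    (hε : 0 < ε) (hε1 : ε ≤ 1) {ζ : Eu (m+1)} (h1 : ε < ζ 0) (h2 : ζ 0 < 3 * ε)
    (h3 : ‖ζ‖ < 3 * ε) :
    ∫⁻ y, ‖w (iota y + ζ) - w (iota y)‖ₑ ∂(mub m) ≤
      KK m * ∫⁻ x in strip m ε, ‖grt w x‖ₑ ∂(mu m) := by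
  have hζ0 : 0 < ζ 0 := hε.trans h1
  set h : Eu (m+1) := (ζ 0)⁻¹ • ζ with hh
  have hh0 : h 0 = 1 := by
    simp only [hh, PiLp.smul_apply, smul_eq_mul]
    exact inv_mul_cancel₀ hζ0.ne'
  have hζh : (ζ 0) • h = ζ := by
    rw [hh, smul_smul, mul_inv_cancel₀ hζ0.ne', one_smul]
  have hhn : ‖h‖ ≤ 3 := by
    rw [hh, norm_smul, norm_inv, Real.norm_of_nonneg hζ0.le, inv_mul_le_iff₀ hζ0]
    linarith
  set g : Eu (m+1) → ℝ≥0∞ := fun x => ENNReal.ofReal (wt x ^ m) * ‖gr w x‖ₑ with hg
  have hgm : Measurable g :=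
    (ENNReal.measurable_ofReal.comp ((continuous_wt.pow _).measurable)).mul
      (measurable_enorm_gr hw)
  have hpt : ∀ (y : Eu m) (s : ℝ), iota y + s • h = pt s (y + s • tl h) := by
    intro y s
    ext i
    refine Fin.cases ?_ (fun i => ?_) i
    · simp [hh0]
    · simp
  -- pointwise bound
  have hpw : ∀ y : Eu m, ENNReal.ofReal (wt y ^ m) * ‖w (iota y + ζ) - w (iota y)‖ₑ ≤
      ∫⁻ s in Ioc 0 (3 * ε), KK m * g (pt s (y + s • tl h)) := by
    intro y
    have p1 := path_le hw (iota y) h hζ0.le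
    rw [hζh, zero_smul, add_zero] at p1
    have p2 : ENNReal.ofReal (wt y ^ m) * ‖w (iota y + ζ) - w (iota y)‖ₑ ≤
        ENNReal.ofReal (wt y ^ m) * ∫⁻ s in Ioc 0 (ζ 0), ‖h‖ₑ * ‖gr w (iota y + s • h)‖ₑ :=
      mul_le_mul_right p1 _
    refine p2.trans ?_
    rw [← lintegral_const_mul' _ _ ENNReal.ofReal_ne_top]
    have p3 : ∀ s ∈ Ioc 0 (ζ 0), ENNReal.ofReal (wt y ^ m) * (‖h‖ₑ * ‖gr w (iota y + s • h)‖ₑ) ≤
        KK m * g (pt s (y + s • tl h)) := by
      intro s hs
      rw [← hpt]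
      simp only [hg]
      have q1 : wt y ≤ 19 * wt (iota y + s • h) := by
        unfold wt
        have r1 : ‖iota y + s • h‖ ≤ ‖y‖ + 3 := by
          refine (norm_add_le _ _).trans ?_
          rw [norm_iota, norm_smul, Real.norm_of_nonneg hs.1.le]
          have r2 : s * ‖h‖ ≤ (ζ 0) * ‖h‖ := mul_le_mul_of_nonneg_right hs.2 (norm_nonneg _)
          have r3 : (ζ 0) * ‖h‖ = ‖ζ‖ := by
            have := congrArg norm hζh
            rwa [norm_smul, Real.norm_of_nonneg hζ0.le] at this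
          linarith
        have r4 : ‖iota y + s • h‖ ^ 2 ≤ (‖y‖ + 3) ^ 2 :=
          pow_le_pow_left₀ (norm_nonneg _) r1 2
        rw [inv_eq_one_div, inv_eq_one_div, mul_one_div, div_le_div_iff₀ (by positivity)
          (by positivity)]
        nlinarith [norm_nonneg y, sq_nonneg (‖y‖ - 1)]
      have q2 : wt y ^ m ≤ 19 ^ m * wt (iota y + s • h) ^ m := by
        rw [← mul_pow]
        exact pow_le_pow_left₀ (wt_pos _).le q1 m
      have q3 : ‖h‖ₑ ≤ ENNReal.ofReal 3 := by
        rw [← ofReal_norm]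
        exact ENNReal.ofReal_le_ofReal hhn
      calc ENNReal.ofReal (wt y ^ m) * (‖h‖ₑ * ‖gr w (iota y + s • h)‖ₑ)
          ≤ ENNReal.ofReal (19 ^ m * wt (iota y + s • h) ^ m) *
            (ENNReal.ofReal 3 * ‖gr w (iota y + s • h)‖ₑ) := by
            gcongr
        _ = KK m * (ENNReal.ofReal (wt (iota y + s • h) ^ m) * ‖gr w (iota y + s • h)‖ₑ) := by
            unfold KK
            rw [ENNReal.ofReal_mul (by positivity : (0:ℝ) ≤ 19 ^ m),
              ENNReal.ofReal_mul (by norm_num : (0:ℝ) ≤ 3)]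
            ring
    refine (setLIntegral_mono' measurableSet_Ioc p3).trans ?_
    exact lintegral_mono_set (Ioc_subset_Ioc_right h2.le)
  rw [lint_mub]
  refine (lintegral_mono hpw).trans ?_
  have hjm : Measurable (fun q : Eu m × ℝ => KK m * g (pt q.2 (q.1 + q.2 • tl h))) := by
    refine measurable_const.mul (hgm.comp ?_)
    have hc : Continuous (fun q : Eu m × ℝ => (q.2, q.1 + q.2 • tl h)) := by fun_prop
    exact (continuous_pt.comp hc).measurable
  have hswap : ∫⁻ y : Eu m, ∫⁻ s in Ioc 0 (3 * ε), KK m * g (pt s (y + s • tl h))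
      = ∫⁻ s in Ioc 0 (3 * ε), ∫⁻ y : Eu m, KK m * g (pt s (y + s • tl h)) :=
    lintegral_lintegral_swap hjm.aemeasurable
  rw [hswap]
  have hinner : ∀ s : ℝ, ∫⁻ y : Eu m, KK m * g (pt s (y + s • tl h)) =
      KK m * ∫⁻ y : Eu m, g (pt s y) := by
    intro s
    have hm2 : Measurable (fun y : Eu m => g (pt s y)) :=
      hgm.comp (continuous_pt.comp (continuous_const.prodMk continuous_id)).measurable
    rw [lintegral_const_mul]
    · rw [lintegral_add_right_eq_self (fun y : Eu m => g (pt s y)) (s • tl h)]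
    · exact hm2.comp (measurable_id.add_const _)
  simp_rw [hinner]
  rw [lintegral_const_mul']
  · gcongr
    have e1 : ∫⁻ x in strip m ε, ‖grt w x‖ₑ ∂(mu m) = ∫⁻ x in Om m,
        (strip m ε).indicator g x := by
      rw [← lintegral_indicator (measurableSet_strip ε), lint_mu]
      refine lintegral_congr fun x => ?_
      by_cases hx : x ∈ strip m ε
      · rw [indicator_of_mem hx, indicator_of_mem hx]
        simp only [hg]
        rw [pow_succ, ENNReal.ofReal_mul (by have := wt_pos x; positivity), mul_assoc, wt_grt]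
      · rw [indicator_of_notMem hx, indicator_of_notMem hx, mul_zero]
    rw [e1, lint_split_Om (hgm.indicator (measurableSet_strip ε))]
    rw [← lintegral_indicator measurableSet_Ioc, ← lintegral_indicator measurableSet_Ioi]
    refine lintegral_mono fun s => ?_
    by_cases hs : s ∈ Ioc 0 (3 * ε)
    · rw [indicator_of_mem hs, indicator_of_mem (show s ∈ Ioi (0:ℝ) from hs.1)]
      refine lintegral_mono fun y => ?_
      rw [indicator_of_mem]
      exact hs.2
    · rw [indicator_of_notMem hs]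
      exact zero_le
  · exact ENNReal.ofReal_ne_top

theorem int_mu {G : Type*} [NormedAddCommGroup G] [NormedSpace ℝ G] (f : Eu (m+1) → G) :
    ∫ x, f x ∂(mu m) = ∫ x in Om m, (wt x ^ (m+1)) • f x := by
  unfold mu
  have hd : Measurable (fun x : Eu (m+1) => ENNReal.ofReal (wt x ^ (m+1))) :=
    ENNReal.measurable_ofReal.comp ((continuous_wt.pow _).measurable)
  rw [integral_withDensity_eq_integral_toReal_smul hd
    (Eventually.of_forall fun x => ENNReal.ofReal_lt_top)]
  refine integral_congr_ae (Eventually.of_forall fun x => ?_)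
  simp only
  rw [ENNReal.toReal_ofReal (by have := wt_pos x; positivity)]

theorem PP_eq {w : Eu (m+1) → V} {ε : ℝ} (hε : 0 < ε) (y : Eu m) :
    PP ε w y = (cK m ε)⁻¹ • ∫ ζ, kap ε ζ • w (iota y + ζ) := by
  unfold PP
  congr 1
  rw [int_mu]
  have h1 : ∀ x, (wt x ^ (m+1)) • (kk ε y x • w x) = kap ε (x - iota y) • w x := by
    intro x
    unfold kk
    have := (pow_pos (wt_pos x) (m+1)).ne'
    rw [smul_smul]
    congr 1
    field_simp
  simp_rw [h1]
  rw [setIntegral_eq_integral_of_forall_compl_eq_zero]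
  · have h2 := integral_sub_right_eq_self (μ := (volume : Measure (Eu (m+1))))
      (fun ζ => kap ε ζ • w (iota y + ζ)) (iota y)
    rw [← h2]
    refine integral_congr_ae (Eventually.of_forall fun x => ?_)
    simp only
    rw [add_sub_cancel]
  · intro x hx
    have : kap ε (x - iota y) = 0 := by
      by_contra hne
      have h3 := (kap_supp hε hne).1
      apply hx
      have h4 : (x - iota y) 0 = x 0 := by simp
      rw [h4] at h3
      exact hε.trans h3
    rw [this, zero_smul]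

theorem trace_moll_C1 [CompleteSpace V] {w : Eu (m+1) → V} (hw : ContDiff ℝ 1 w) [NeZero m] {ε : ℝ}
    (hε : 0 < ε) (hε1 : ε ≤ 1) :
    ∫⁻ y, ‖w (iota y) - PP ε w y‖ₑ ∂(mub m) ≤
      KK m * ∫⁻ x in strip m ε, ‖grt w x‖ₑ ∂(mu m) := by
  have hc := cK_pos (m := m) hε
  have hpw : ∀ y : Eu m, ‖w (iota y) - PP ε w y‖ₑ ≤
      ENNReal.ofReal (cK m ε)⁻¹ * ∫⁻ ζ, ENNReal.ofReal (kap ε ζ) *
        ‖w (iota y + ζ) - w (iota y)‖ₑ := by
    intro y
    have hi1 : Integrable (fun ζ => kap ε ζ • w (iota y + ζ)) := by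
      refine Continuous.integrable_of_hasCompactSupport ?_ ?_
      · exact (continuous_kap ε).smul (hw.continuous.comp (continuous_const.add continuous_id))
      · exact (kap_compact hε).smul_right
    have hi2 : Integrable (fun ζ : Eu (m+1) => kap ε ζ • w (iota y)) :=
      (integrable_kap hε).smul_const _
    have e1 : w (iota y) - PP ε w y = (cK m ε)⁻¹ • ∫ ζ, kap ε ζ • (w (iota y) - w (iota y + ζ)) := by
      rw [PP_eq hε]
      have : (fun ζ : Eu (m+1) => kap ε ζ • (w (iota y) - w (iota y + ζ))) =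
          fun ζ => kap ε ζ • w (iota y) - kap ε ζ • w (iota y + ζ) := by
        funext ζ; rw [smul_sub]
      rw [this, integral_sub hi2 hi1, smul_sub, integral_smul_const]
      congr 1
      change _ = (cK m ε)⁻¹ • (cK m ε) • w (iota y)
      rw [smul_smul, inv_mul_cancel₀ hc.ne', one_smul]
    rw [e1, enorm_smul]
    have e2 : ‖(cK m ε)⁻¹‖ₑ = ENNReal.ofReal (cK m ε)⁻¹ := by
      rw [Real.enorm_eq_ofReal_abs, abs_of_pos (by positivity)]
    rw [e2]
    gcongr
    refine (enorm_integral_le_lintegral_enorm _).trans (le_of_eq (lintegral_congr fun ζ => ?_))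
    rw [enorm_smul, Real.enorm_eq_ofReal_abs, abs_of_nonneg (kap_nonneg _ _), enorm_sub_rev]
  refine (lintegral_mono hpw).trans ?_
  rw [lintegral_const_mul' _ _ ENNReal.ofReal_ne_top]
  have hjc : Continuous (fun q : Eu m × Eu (m+1) => w (iota q.1 + q.2) - w (iota q.1)) := by
    have c1 : Continuous (fun q : Eu m × Eu (m+1) => iota q.1) := continuous_iota.comp continuous_fst
    exact (hw.continuous.comp (c1.add continuous_snd)).sub (hw.continuous.comp c1)
  have hjm : Measurable (fun q : Eu m × Eu (m+1) => ENNReal.ofReal (kap ε q.2) *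
      ‖w (iota q.1 + q.2) - w (iota q.1)‖ₑ) := by
    refine Measurable.mul ?_ hjc.enorm.measurable
    exact ENNReal.measurable_ofReal.comp ((continuous_kap ε).comp continuous_snd).measurable
  have hswap : ∫⁻ y, (∫⁻ ζ, ENNReal.ofReal (kap ε ζ) * ‖w (iota y + ζ) - w (iota y)‖ₑ) ∂(mub m)
      = ∫⁻ ζ, (∫⁻ y, ENNReal.ofReal (kap ε ζ) * ‖w (iota y + ζ) - w (iota y)‖ₑ ∂(mub m)) :=
    lintegral_lintegral_swap hjm.aemeasurable
  rw [hswap]
  set S := ∫⁻ x in strip m ε, ‖grt w x‖ₑ ∂(mu m) with hS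
  have hb : ∀ ζ : Eu (m+1), ∫⁻ y, ENNReal.ofReal (kap ε ζ) * ‖w (iota y + ζ) - w (iota y)‖ₑ ∂(mub m)
      ≤ ENNReal.ofReal (kap ε ζ) * (KK m * S) := by
    intro ζ
    rw [lintegral_const_mul' _ _ ENNReal.ofReal_ne_top]
    by_cases h0 : kap ε ζ = 0
    · rw [h0]; simp
    · obtain ⟨a, b, c⟩ := kap_supp hε h0
      gcongr
      exact shift_int hw hε hε1 a b c
  calc ENNReal.ofReal (cK m ε)⁻¹ * ∫⁻ ζ, ∫⁻ y, ENNReal.ofReal (kap ε ζ) *
        ‖w (iota y + ζ) - w (iota y)‖ₑ ∂(mub m)
      ≤ ENNReal.ofReal (cK m ε)⁻¹ * ∫⁻ ζ, ENNReal.ofReal (kap ε ζ) * (KK m * S) := by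
        gcongr with ζ
        exact hb ζ
    _ = ENNReal.ofReal (cK m ε)⁻¹ * (ENNReal.ofReal (cK m ε) * (KK m * S)) := by
        congr 1
        rw [lintegral_mul_const]
        · congr 1
          unfold cK
          rw [ofReal_integral_eq_lintegral_ofReal (integrable_kap hε)
            (Eventually.of_forall fun ζ => kap_nonneg ε ζ)]
        · exact ENNReal.measurable_ofReal.comp (continuous_kap ε).measurable
    _ = KK m * S := by
        rw [← mul_assoc, ← ENNReal.ofReal_mul (by positivity), inv_mul_cancel₀ hc.ne',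
          ENNReal.ofReal_one, one_mul]

end Pool.Agent.Helper42.Bub
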