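import Pool.Agent.Helper42.Bub.GG
import Pool.Agent.Helper42.Bub.Mult
import Pool.Agent.Helper42.Bub.Vert

/-!
The explicit competitor.
-/

set_option maxHeartbeats 400000

open Filter Topology MeasureTheory Set
open scoped ENNReal InnerProductSpace NNReal

namespace Pool.Agent.Helper42.Bub

section Stp

variable {m : ℕ}

/-- modified stereographic parametrization -/
noncomputable def stp (x : Eu (m+1)) : Eu (m+1) :=
  WithLp.toLp 2 (Fin.cons (2 * wt x - 1) (fun i : Fin m => 2 * wt x * x i.succ))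

theorem stp_zero (x : Eu (m+1)) : stp x 0 = 2 * wt x - 1 := rfl
theorem stp_succ (x : Eu (m+1)) (i : Fin m) : stp x i.succ = 2 * wt x * x i.succ := rfl

theorem contDiff_wt : ContDiff ℝ 1 (wt : Eu m → ℝ) := contDiff_sg

theorem contDiff_stp : ContDiff ℝ 1 (stp : Eu (m+1) → Eu (m+1)) := by
  rw [contDiff_euclidean]
  intro i
  refine Fin.cases ?_ (fun i => ?_) i
  · simp only [stp_zero]
    exact (contDiff_const.mul contDiff_wt).sub contDiff_const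
  · simp only [stp_succ]
    refine (contDiff_const.mul contDiff_wt).mul ?_
    exact (EuclideanSpace.proj (𝕜 := ℝ) i.succ).contDiff

theorem wt'_apply (x u : Eu m) : fderiv ℝ (wt : Eu m → ℝ) x u = -2 * wt x ^ 2 * ⟪x, u⟫_ℝ :=
  sg'_apply x u

theorem wt_norm (x : Eu m) : wt x * ‖x‖ ≤ 1 / 2 := sg_norm x

theorem wt_norm_sq (x : Eu m) : wt x * ‖x‖ ^ 2 = 1 - wt x := sg_mul x

theorem abs_coord_le (x : Eu m) (i : Fin m) : |x i| ≤ ‖x‖ := by
  have := EuclideanSpace.norm_sq_eq x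
  rw [← Real.norm_eq_abs]
  exact PiLp.norm_apply_le x i

theorem stp_coord_le (x : Eu (m+1)) (i : Fin (m+1)) : |stp x i| ≤ 1 := by
  refine Fin.cases ?_ (fun i => ?_) i
  · rw [stp_zero, abs_le]
    have h1 := wt_pos x
    have h2 := wt_le_one x
    constructor <;> linarith
  · rw [stp_succ, abs_mul, abs_of_pos (by have := wt_pos x; positivity)]
    have h1 := abs_coord_le x i.succ
    have h2 := wt_norm x
    have h3 := wt_pos x
    nlinarith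

theorem norm_le_of_coord {C : ℝ} (hC : 0 ≤ C) (x : Eu (m+1)) (h : ∀ i, |x i| ≤ C) :
    ‖x‖ ≤ ((m:ℝ) + 1) * C := by
  rw [EuclideanSpace.norm_eq]
  have h1 : ((m:ℝ) + 1) * C = √((((m:ℝ) + 1) * C)^2) := (Real.sqrt_sq (by positivity)).symm
  rw [h1]
  apply Real.sqrt_le_sqrt
  calc ∑ i : Fin (m+1), ‖x i‖ ^ 2 ≤ ∑ i : Fin (m+1), C ^ 2 := by
        apply Finset.sum_le_sum
        intro i _
        exact pow_le_pow_left₀ (norm_nonneg _) (h i) 2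
    _ = ((m:ℝ) + 1) * C ^ 2 := by simp
    _ ≤ (((m:ℝ) + 1) * C) ^ 2 := by
        have : (0:ℝ) ≤ m := by positivity
        have h2 : (m:ℝ) + 1 ≤ ((m:ℝ) + 1)^2 := by nlinarith
        have h3 : 0 ≤ C^2 := by positivity
        nlinarith

theorem norm_stp_le (x : Eu (m+1)) : ‖stp x‖ ≤ (m:ℝ) + 1 := by
  have := norm_le_of_coord zero_le_one (stp x) (stp_coord_le x)
  rwa [mul_one] at this

theorem stp_fderiv_coord (x u : Eu (m+1)) (i : Fin (m+1)) :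
    (1 + ‖x‖ ^ 2) * |(fderiv ℝ (stp : Eu (m+1) → Eu (m+1)) x u) i| ≤ 6 * ‖u‖ := by
  have hd : HasFDerivAt (stp : Eu (m+1) → Eu (m+1)) (fderiv ℝ stp x) x :=
    (contDiff_stp.differentiable one_ne_zero x).hasFDerivAt
  have hc : ∀ i : Fin (m+1), (fderiv ℝ (stp : Eu (m+1) → Eu (m+1)) x u) i =
      fderiv ℝ (fun x => stp x i) x u := by
    intro i
    have h1 := (EuclideanSpace.proj (𝕜 := ℝ) i : Eu (m+1) →L[ℝ] ℝ).hasFDerivAt.comp x hd
    have h2 : fderiv ℝ (fun x : Eu (m+1) => stp x i) x = _ := h1.fderiv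
    rw [h2]; rfl
  rw [hc]
  have hn := norm_nonneg u
  have hxn := norm_nonneg x
  have h3 := wt_pos x
  have h4 := wt_mul x
  have hw : HasFDerivAt (wt : Eu (m+1) → ℝ) (fderiv ℝ wt x) x :=
    (contDiff_wt.differentiable one_ne_zero x).hasFDerivAt
  have hin := abs_real_inner_le_norm x u
  refine Fin.cases ?_ (fun i => ?_) i
  · have h1 := (hw.const_mul 2).sub_const 1
    have h2 : fderiv ℝ (fun x : Eu (m+1) => stp x 0) x = _ := h1.fderiv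
    rw [h2]
    simp only [smul_apply, smul_eq_mul]
    rw [wt'_apply]
    have e : |2 * (-2 * wt x ^ 2 * ⟪x, u⟫_ℝ)| = 4 * wt x ^ 2 * |⟪x, u⟫_ℝ| := by
      rw [show 2 * (-2 * wt x ^ 2 * ⟪x, u⟫_ℝ) = -(4 * wt x ^ 2 * ⟪x, u⟫_ℝ) by ring, abs_neg,
        abs_mul, abs_of_pos (by positivity)]
    rw [e]
    have e2 : (1 + ‖x‖ ^ 2) * (4 * wt x ^ 2 * |⟪x, u⟫_ℝ|) =
        (wt x * (1 + ‖x‖ ^ 2)) * (4 * wt x * |⟪x, u⟫_ℝ|) := by ring
    rw [e2, h4, one_mul]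
    have h5 : 4 * wt x * |⟪x, u⟫_ℝ| ≤ 4 * wt x * (‖x‖ * ‖u‖) :=
      mul_le_mul_of_nonneg_left hin (by positivity)
    have h6 : 4 * wt x * (‖x‖ * ‖u‖) = 4 * (wt x * ‖x‖) * ‖u‖ := by ring
    have h7 := wt_norm x
    nlinarith
  · have hp : HasFDerivAt (fun x : Eu (m+1) => x i.succ)
        (EuclideanSpace.proj (𝕜 := ℝ) i.succ : Eu (m+1) →L[ℝ] ℝ) x :=
      (EuclideanSpace.proj (𝕜 := ℝ) i.succ : Eu (m+1) →L[ℝ] ℝ).hasFDerivAt
    have h1 := (hw.const_mul 2).mul hp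
    have h2 : fderiv ℝ (fun x : Eu (m+1) => stp x i.succ) x = _ := h1.fderiv
    have hpu : (EuclideanSpace.proj (𝕜 := ℝ) i.succ : Eu (m+1) →L[ℝ] ℝ) u = u i.succ := rfl
    rw [h2]
    simp only [add_apply, smul_apply, smul_eq_mul]
    rw [wt'_apply, hpu]
    have e : |2 * wt x * u i.succ + x i.succ * (2 * (-2 * wt x ^ 2 * ⟪x, u⟫_ℝ))| ≤
        2 * wt x * ‖u‖ + ‖x‖ * (4 * wt x ^ 2 * (‖x‖ * ‖u‖)) := by
      refine (abs_add_le _ _).trans (add_le_add ?_ ?_)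
      · rw [abs_mul, abs_of_pos (by positivity)]
        exact mul_le_mul_of_nonneg_left (abs_coord_le u _) (by positivity)
      · rw [abs_mul]
        refine mul_le_mul (abs_coord_le x _) ?_ (abs_nonneg _) hxn
        rw [show 2 * (-2 * wt x ^ 2 * ⟪x, u⟫_ℝ) = -(4 * wt x ^ 2 * ⟪x, u⟫_ℝ) by ring, abs_neg,
          abs_mul, abs_of_pos (by positivity)]
        exact mul_le_mul_of_nonneg_left hin (by positivity)
    have h5 := mul_le_mul_of_nonneg_left e (show 0 ≤ 1 + ‖x‖ ^ 2 by positivity)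
    refine h5.trans ?_
    have e2 : (1 + ‖x‖ ^ 2) * (2 * wt x * ‖u‖ + ‖x‖ * (4 * wt x ^ 2 * (‖x‖ * ‖u‖))) =
        (wt x * (1 + ‖x‖ ^ 2)) * (2 * ‖u‖ + 4 * (wt x * ‖x‖ ^ 2) * ‖u‖) := by ring
    rw [e2, h4, one_mul, wt_norm_sq]
    nlinarith

theorem stp_fderiv_le (x u : Eu (m+1)) :
    (1 + ‖x‖ ^ 2) * ‖fderiv ℝ (stp : Eu (m+1) → Eu (m+1)) x u‖ ≤ ((m:ℝ) + 1) * (6 * ‖u‖) := by
  have h0 : (0:ℝ) < 1 + ‖x‖ ^ 2 := by positivity
  have h1 : (1 + ‖x‖ ^ 2) * ‖fderiv ℝ (stp : Eu (m+1) → Eu (m+1)) x u‖ =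
      ‖(1 + ‖x‖ ^ 2) • fderiv ℝ (stp : Eu (m+1) → Eu (m+1)) x u‖ := by
    rw [norm_smul, Real.norm_of_nonneg h0.le]
  rw [h1]
  refine norm_le_of_coord (by positivity) _ (fun i => ?_)
  rw [PiLp.smul_apply, smul_eq_mul, abs_mul, abs_of_pos h0]
  exact stp_fderiv_coord x u i

theorem grt_comp_stp_bdd {V : Type*} [NormedAddCommGroup V] [InnerProductSpace ℝ V]
    {W : Eu (m+1) → V} (hW : ContDiff ℝ 1 W) : ∃ C : ℝ, (∀ x : Eu (m+1), ‖W (stp x)‖ ≤ C) ∧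
      ∀ x : Eu (m+1), ‖grt (fun x => W (stp x)) x‖ ≤ C := by
  have hK : IsCompact (Metric.closedBall (0 : Eu (m+1)) ((m:ℝ) + 1)) := isCompact_closedBall _ _
  obtain ⟨C1, h1⟩ := hK.exists_bound_of_continuousOn hW.continuous.continuousOn
  obtain ⟨C2, h2⟩ := hK.exists_bound_of_continuousOn (hW.continuous_fderiv one_ne_zero).continuousOn
  have hmem : ∀ x : Eu (m+1), stp x ∈ Metric.closedBall (0 : Eu (m+1)) ((m:ℝ) + 1) := fun x => by
    rw [mem_closedBall_zero_iff]; exact norm_stp_le x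
  have hC2 : 0 ≤ C2 := (norm_nonneg _).trans (h2 _ (hmem 0))
  refine ⟨max C1 (((m:ℝ) + 1) * (C2 * (((m:ℝ) + 1) * 6))), fun x => (h1 _ (hmem x)).trans
    (le_max_left _ _), fun x => ?_⟩
  refine le_trans ?_ (le_max_right _ _)
  refine norm_toLp_const_le _ _ (by positivity) (fun i => ?_)
  have d1 : HasFDerivAt (stp : Eu (m+1) → Eu (m+1)) (fderiv ℝ stp x) x :=
    (contDiff_stp.differentiable one_ne_zero x).hasFDerivAt
  have d2 : HasFDerivAt W (fderiv ℝ W (stp x)) (stp x) :=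
    (hW.differentiable one_ne_zero _).hasFDerivAt
  have d3 : fderiv ℝ (fun x => W (stp x)) x = _ := (d2.comp x d1).fderiv
  change ‖(1 + ‖x‖ ^ 2) • fderiv ℝ (fun x => W (stp x)) x (eb i)‖ ≤ _
  rw [d3, ContinuousLinearMap.comp_apply, norm_smul,
    Real.norm_of_nonneg (show (0:ℝ) ≤ 1 + ‖x‖ ^ 2 by positivity)]
  have h3 := (fderiv ℝ W (stp x)).le_opNorm (fderiv ℝ stp x (eb i))
  have h4 := h2 _ (hmem x)
  have h5 := stp_fderiv_le x (eb i)
  have h6 : ‖(eb i : Eu (m+1))‖ = 1 := by simp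
  rw [h6, mul_one] at h5
  have h0 : (0:ℝ) ≤ 1 + ‖x‖ ^ 2 := by positivity
  calc (1 + ‖x‖ ^ 2) * ‖fderiv ℝ W (stp x) (fderiv ℝ stp x (eb i))‖
      ≤ (1 + ‖x‖ ^ 2) * (‖fderiv ℝ W (stp x)‖ * ‖fderiv ℝ stp x (eb i)‖) :=
        mul_le_mul_of_nonneg_left h3 h0
    _ = ‖fderiv ℝ W (stp x)‖ * ((1 + ‖x‖ ^ 2) * ‖fderiv ℝ stp x (eb i)‖) := by ring
    _ ≤ C2 * (((m:ℝ) + 1) * 6) := mul_le_mul h4 h5 (by positivity) hC2

theorem stp_extL (R : Eu m ≃ₗᵢ[ℝ] Eu m) (x : Eu (m+1)) : stp (extL R x) = extL R (stp x) := by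
  have hw : wt (extL R x) = wt x := by unfold wt; rw [(extL R).norm_map]
  have h1 : tl (stp x) = (2 * wt x) • tl x := by ext i; rfl
  ext i
  refine Fin.cases ?_ (fun i => ?_) i
  · rw [stp_zero, extL_zero, stp_zero, hw]
  · rw [stp_succ, extL_succ, extL_succ, hw, h1, map_smul]
    rfl

theorem norm_stp_iota (y : Eu m) : ‖stp (iota y)‖ = 1 := by
  have h1 := norm_sq_split (stp (iota y))
  have h2 : tl (stp (iota y)) = (2 * wt y) • y := by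
    ext i
    rw [tl_apply, stp_succ, iota_succ, wt_iota]; rfl
  rw [h2, stp_zero, wt_iota, norm_smul, mul_pow, Real.norm_eq_abs, sq_abs] at h1
  have h3 := wt_norm_sq y
  have h4 : ‖stp (iota y)‖ ^ 2 = 1 := by
    rw [h1]
    have : (2 * wt y - 1) ^ 2 + (2 * wt y) ^ 2 * ‖y‖ ^ 2 =
        (2 * wt y - 1) ^ 2 + 4 * wt y * (wt y * ‖y‖ ^ 2) := by ring
    rw [this, h3]; ring
  have h5 : 0 ≤ ‖stp (iota y)‖ := norm_nonneg _
  nlinarith

theorem wt_inv1' {x : Eu (m+1)} (hx : x ≠ 0) : wt (inv1 x) = 1 - wt x := by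
  have h1 := wt_inv1 hx
  have hn : ‖x‖ ≠ 0 := norm_ne_zero_iff.mpr hx
  have h2 : wt (inv1 x) = wt x * ‖x‖ ^ 2 := by
    rw [← h1]; field_simp
  rw [h2, wt_norm_sq]

theorem stp_inv1 {x : Eu (m+1)} (hx : x ≠ 0) (i : Fin m) :
    stp (inv1 x) 0 = - stp x 0 ∧ stp (inv1 x) i.succ = stp x i.succ := by
  have hn : ‖x‖ ≠ 0 := norm_ne_zero_iff.mpr hx
  constructor
  · rw [stp_zero, stp_zero, wt_inv1' hx]; ring
  · rw [stp_succ, stp_succ]
    have h2 : wt (inv1 x) = wt x * ‖x‖ ^ 2 := by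
      rw [wt_inv1' hx, wt_norm_sq]
    have h3 : inv1 x i.succ = (‖x‖ ^ 2)⁻¹ * x i.succ := rfl
    rw [h2, h3]
    field_simp

end Stp

end Pool.Agent.Helper42.Bub
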