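import Pool.Agent.Helper42.Bub.Defs
import Pool.Agent.Helper42.Bub.Omega2

/-!
Differentiating the rotational symmetry.
-/

set_option maxHeartbeats 400000

open Filter Topology MeasureTheory Set
open scoped ENNReal InnerProductSpace NNReal ContDiff

namespace Pool.Agent.Helper42.Bub

open Pool.Agent.Helper42.Bubble (Half bdry IsSobolev)

variable {k : ℕ}

/-- projection onto the plane -/
noncomputable def Pj (k : ℕ) : Eu (k+2+1) →L[ℝ] Eu (k+2+1) := LinearMap.toContinuousLinearMap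
  { toFun := fun p => WithLp.toLp 2 (Fin.cons 0 (Fin.cons (p 1) (Fin.cons (p 2) (fun _ => 0))))
    map_add' := fun p q => by
      refine ext3 ?_ ?_ ?_ (fun i => ?_)
      · change (0:ℝ) = 0 + 0; ring
      · rfl
      · rfl
      · change (0:ℝ) = 0 + 0; ring
    map_smul' := fun c p => by
      refine ext3 ?_ ?_ ?_ (fun i => ?_)
      · change (0:ℝ) = c * 0; ring
      · rfl
      · rfl
      · change (0:ℝ) = c * 0; ring }

/-- rotation generator -/
noncomputable def Kj (k : ℕ) : Eu (k+2+1) →L[ℝ] Eu (k+2+1) := LinearMap.toContinuousLinearMap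
  { toFun := fun p => WithLp.toLp 2 (Fin.cons 0 (Fin.cons (-p 2) (Fin.cons (p 1) (fun _ => 0))))
    map_add' := fun p q => by
      refine ext3 ?_ ?_ ?_ (fun i => ?_)
      · change (0:ℝ) = 0 + 0; ring
      · change -(p 2 + q 2) = -p 2 + -q 2; ring
      · rfl
      · change (0:ℝ) = 0 + 0; ring
    map_smul' := fun c p => by
      refine ext3 ?_ ?_ ?_ (fun i => ?_)
      · change (0:ℝ) = c * 0; ring
      · change -(c * p 2) = c * (-p 2); ring
      · rfl
      · change (0:ℝ) = c * 0; ring }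

theorem Pj_0 (p : Eu (k+2+1)) : Pj k p 0 = 0 := rfl
theorem Pj_1 (p : Eu (k+2+1)) : Pj k p 1 = p 1 := rfl
theorem Pj_2 (p : Eu (k+2+1)) : Pj k p 2 = p 2 := rfl
theorem Pj_s (p : Eu (k+2+1)) (i : Fin k) : Pj k p i.succ.succ.succ = 0 := rfl
theorem Kj_0 (p : Eu (k+2+1)) : Kj k p 0 = 0 := rfl
theorem Kj_1 (p : Eu (k+2+1)) : Kj k p 1 = -p 2 := rfl
theorem Kj_2 (p : Eu (k+2+1)) : Kj k p 2 = p 1 := rfl
theorem Kj_s (p : Eu (k+2+1)) (i : Fin k) : Kj k p i.succ.succ.succ = 0 := rfl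

theorem rot_eq (θ : ℝ) (p : Eu (k+2+1)) :
    extL (rotL k θ) p = (p - Pj k p) + Real.cos θ • Pj k p + Real.sin θ • Kj k p := by
  refine ext3 ?_ ?_ ?_ (fun i => ?_)
  · simp only [PiLp.add_apply, PiLp.sub_apply, PiLp.smul_apply, smul_eq_mul]
    rw [rot_0, Pj_0, Kj_0]; ring
  · simp only [PiLp.add_apply, PiLp.sub_apply, PiLp.smul_apply, smul_eq_mul]
    rw [rot_1, Pj_1, Kj_1]; ring
  · simp only [PiLp.add_apply, PiLp.sub_apply, PiLp.smul_apply, smul_eq_mul]
    rw [rot_2, Pj_2, Kj_2]; ring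
  · simp only [PiLp.add_apply, PiLp.sub_apply, PiLp.smul_apply, smul_eq_mul]
    rw [rot_s, Pj_s, Kj_s]; ring

theorem Kj_rot (θ : ℝ) (p : Eu (k+2+1)) :
    Kj k (extL (rotL k θ) p) = -Real.sin θ • Pj k p + Real.cos θ • Kj k p := by
  refine ext3 ?_ ?_ ?_ (fun i => ?_)
  · simp only [PiLp.add_apply, PiLp.smul_apply, smul_eq_mul]
    rw [Kj_0, Pj_0, Kj_0]; ring
  · simp only [PiLp.add_apply, PiLp.smul_apply, smul_eq_mul]
    rw [Kj_1, Pj_1, Kj_1, rot_2]; ring
  · simp only [PiLp.add_apply, PiLp.smul_apply, smul_eq_mul]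
    rw [Kj_2, Pj_2, Kj_2, rot_1]; ring
  · simp only [PiLp.add_apply, PiLp.smul_apply, smul_eq_mul]
    rw [Kj_s, Pj_s, Kj_s]; ring

theorem hasDerivAt_rot (θ : ℝ) (p : Eu (k+2+1)) :
    HasDerivAt (fun θ => extL (rotL k θ) p) (Kj k (extL (rotL k θ) p)) θ := by
  have h1 : (fun θ => extL (rotL k θ) p) =
      fun θ => (p - Pj k p) + Real.cos θ • Pj k p + Real.sin θ • Kj k p := by
    funext θ; exact rot_eq θ p
  rw [h1, Kj_rot]
  have h2 := (((Real.hasDerivAt_cos θ).smul_const (Pj k p)).const_add (p - Pj k p)).add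
    ((Real.hasDerivAt_sin θ).smul_const (Kj k p))
  exact h2

theorem norm_Kj_le (p : Eu (k+2+1)) : ‖Kj k p‖ ≤ ‖p‖ := by
  have h1 := norm_sq_3 (Kj k p)
  have h2 := norm_sq_3 p
  rw [Kj_0, Kj_1, Kj_2] at h1
  simp only [Kj_s] at h1
  have h3 : 0 ≤ ∑ i : Fin k, p i.succ.succ.succ ^ 2 := Finset.sum_nonneg fun i _ => sq_nonneg _
  have h4 : ∑ i : Fin k, (0:ℝ) ^ 2 = 0 := by simp
  rw [h4] at h1
  have h5 : ‖Kj k p‖ ^ 2 ≤ ‖p‖ ^ 2 := by rw [h1, h2]; nlinarith [sq_nonneg (p 0)]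
  exact (pow_le_pow_iff_left₀ (norm_nonneg _) (norm_nonneg _) two_ne_zero).mp h5

theorem rot_neg (θ : ℝ) (p : Eu (k+2+1)) : extL (rotL k (-θ)) (extL (rotL k θ) p) = p := by
  have hs := Real.sin_sq_add_cos_sq θ
  refine ext3 ?_ ?_ ?_ (fun i => ?_)
  · rw [rot_0, rot_0]
  · rw [rot_1, rot_1, rot_2, Real.cos_neg, Real.sin_neg]; linear_combination p 1 * hs
  · rw [rot_2, rot_1, rot_2, Real.cos_neg, Real.sin_neg]; linear_combination p 2 * hs
  · rw [rot_s, rot_s]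

/-- rotations preserve Lebesgue measure on the half-space -/
theorem mp_rot (θ : ℝ) : MeasurePreserving (extL (rotL k θ))
    (volume.restrict (Half (k+2))) (volume.restrict (Half (k+2))) := by
  have h := ((extL (rotL k θ)).measurePreserving).restrict_preimage (measurableSet_Om (k+2))
  have h2 := extL_preimage (rotL k θ)
  rw [h2] at h
  exact h

end Pool.Agent.Helper42.Bub
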