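import Pool.Agent.Helper42.Bub.Abs
import Pool.Agent.Helper42.Bub.LpCl

/-!
The half-space, the conformally invariant measures, test maps and the function space.
-/

open Filter Topology MeasureTheory
open scoped ENNReal InnerProductSpace

namespace Pool.Agent.Helper42.Bub

/-- Euclidean space. -/
abbrev Eu (k : ℕ) := EuclideanSpace ℝ (Fin k)

/-- The open half-space `x_0 > 0`. -/
def Om (m : ℕ) : Set (Eu (m + 1)) := {x | 0 < x 0}

theorem measurableSet_Om (m : ℕ) : MeasurableSet (Om m) := by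
  apply measurableSet_lt measurable_const
  exact (EuclideanSpace.proj (𝕜 := ℝ) (0 : Fin (m+1))).continuous.measurable

theorem isOpen_Om (m : ℕ) : IsOpen (Om m) := by
  apply isOpen_lt continuous_const
  exact (EuclideanSpace.proj (𝕜 := ℝ) (0 : Fin (m+1))).continuous

/-- Conformal weight. -/
noncomputable def wt {k : ℕ} (x : Eu k) : ℝ := (1 + ‖x‖ ^ 2)⁻¹

theorem wt_pos {k : ℕ} (x : Eu k) : 0 < wt x := by unfold wt; positivity

theorem wt_le_one {k : ℕ} (x : Eu k) : wt x ≤ 1 := by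
  unfold wt
  apply inv_le_one_of_one_le₀
  nlinarith [sq_nonneg ‖x‖]

theorem continuous_wt {k : ℕ} : Continuous (wt : Eu k → ℝ) := by
  unfold wt
  refine Continuous.inv₀ (by fun_prop) (fun x => by positivity)

/-- The measure `(1+|x|^2)^{-n} dx` on the half-space, `n = m+1`. -/
noncomputable def mu (m : ℕ) : Measure (Eu (m + 1)) :=
  (volume.restrict (Om m)).withDensity (fun x => ENNReal.ofReal (wt x ^ (m + 1)))

/-- The boundary measure `(1+|y|^2)^{-(n-1)} dy`. -/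
noncomputable def mub (m : ℕ) : Measure (Eu m) :=
  volume.withDensity (fun y => ENNReal.ofReal (wt y ^ m))

theorem integrable_wt (k : ℕ) [NeZero k] : Integrable (fun x : Eu k => wt x ^ k) := by
  have h := integrable_rpow_neg_one_add_norm_sq (E := Eu k) (μ := volume) (r := 2 * k) (by
    rw [finrank_euclideanSpace_fin]
    have : 0 < (k : ℝ) := by exact_mod_cast Nat.pos_of_ne_zero (NeZero.ne k)
    linarith)
  refine h.congr (Eventually.of_forall fun x => ?_)
  simp only [wt]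
  rw [inv_pow, show (-(2 * (k:ℝ)) / 2) = -(k : ℝ) by ring, Real.rpow_neg (by positivity),
    Real.rpow_natCast]

instance (m : ℕ) : IsFiniteMeasure (mu m) := by
  unfold mu
  exact isFiniteMeasure_withDensity_ofReal (integrable_wt (m+1)).integrableOn.2

instance (m : ℕ) [NeZero m] : IsFiniteMeasure (mub m) := by
  unfold mub
  exact isFiniteMeasure_withDensity_ofReal (integrable_wt m).2

theorem ae_mu {m : ℕ} {p : Eu (m+1) → Prop} :
    (∀ᵐ x ∂(mu m), p x) ↔ ∀ᵐ x ∂(volume.restrict (Om m)), p x := by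
  unfold mu
  rw [ae_withDensity_iff (by
    exact (ENNReal.measurable_ofReal.comp ((continuous_wt.pow _).measurable)))]
  constructor
  · intro h
    filter_upwards [h] with x hx
    apply hx
    have : 0 < wt x ^ (m+1) := pow_pos (wt_pos x) _
    simpa using this
  · intro h
    filter_upwards [h] with x hx _ using hx

theorem ae_mub {m : ℕ} {p : Eu m → Prop} :
    (∀ᵐ x ∂(mub m), p x) ↔ ∀ᵐ x, p x := by
  unfold mub
  rw [ae_withDensity_iff (by
    exact (ENNReal.measurable_ofReal.comp ((continuous_wt.pow _).measurable)))]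
  constructor
  · intro h
    filter_upwards [h] with x hx
    apply hx
    have : 0 < wt x ^ m := pow_pos (wt_pos x) _
    simpa using this
  · intro h
    filter_upwards [h] with x hx _ using hx

theorem mu_ac (m : ℕ) : mu m ≪ volume.restrict (Om m) := withDensity_absolutelyContinuous _ _

theorem mu_ac' (m : ℕ) : volume.restrict (Om m) ≪ mu m := by
  intro s hs
  have h : ∀ᵐ x ∂(mu m), x ∉ s := by
    rw [ae_iff]; simpa using hs
  rw [ae_mu] at h
  rw [ae_iff] at h; simpa using h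

theorem mub_ac (m : ℕ) : mub m ≪ volume := withDensity_absolutelyContinuous _ _

theorem mub_ac' (m : ℕ) : (volume : Measure (Eu m)) ≪ mub m := by
  intro s hs
  have h : ∀ᵐ x ∂(mub m), x ∉ s := by
    rw [ae_iff]; simpa using hs
  rw [ae_mub] at h
  rw [ae_iff] at h; simpa using h

theorem lint_mu {m : ℕ} (f : Eu (m+1) → ℝ≥0∞) :
    ∫⁻ x, f x ∂(mu m) = ∫⁻ x in Om m, ENNReal.ofReal (wt x ^ (m+1)) * f x := by
  unfold mu
  rw [lintegral_withDensity_eq_lintegral_mul_non_measurable]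
  · rfl
  · exact (ENNReal.measurable_ofReal.comp ((continuous_wt.pow _).measurable))
  · exact Eventually.of_forall fun x => ENNReal.ofReal_lt_top

theorem lint_mub {m : ℕ} (f : Eu m → ℝ≥0∞) :
    ∫⁻ x, f x ∂(mub m) = ∫⁻ x, ENNReal.ofReal (wt x ^ m) * f x := by
  unfold mub
  rw [lintegral_withDensity_eq_lintegral_mul_non_measurable]
  · rfl
  · exact (ENNReal.measurable_ofReal.comp ((continuous_wt.pow _).measurable))
  · exact Eventually.of_forall fun x => ENNReal.ofReal_lt_top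

/-- The boundary embedding `y ↦ (0, y)`. -/
noncomputable def iota {m : ℕ} (y : Eu m) : Eu (m + 1) := WithLp.toLp 2 (Fin.cons 0 (WithLp.ofLp y))

@[simp] theorem iota_zero {m : ℕ} (y : Eu m) : iota y 0 = 0 := rfl

@[simp] theorem iota_succ {m : ℕ} (y : Eu m) (i : Fin m) : iota y i.succ = y i := rfl

theorem norm_iota {m : ℕ} (y : Eu m) : ‖iota y‖ = ‖y‖ := by
  rw [EuclideanSpace.norm_eq, EuclideanSpace.norm_eq, Fin.sum_univ_succ]
  simp

theorem iota_add {m : ℕ} (y z : Eu m) : iota (y + z) = iota y + iota z := by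
  ext i
  refine Fin.cases ?_ (fun i => ?_) i <;> simp

theorem iota_smul {m : ℕ} (c : ℝ) (y : Eu m) : iota (c • y) = c • iota y := by
  ext i
  refine Fin.cases ?_ (fun i => ?_) i <;> simp

/-- `iota` as a linear isometry. -/
noncomputable def iotaL (m : ℕ) : Eu m →ₗᵢ[ℝ] Eu (m + 1) where
  toFun := iota
  map_add' := iota_add
  map_smul' := iota_smul
  norm_map' := norm_iota

theorem continuous_iota {m : ℕ} : Continuous (iota : Eu m → Eu (m+1)) := (iotaL m).continuous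

theorem wt_iota {m : ℕ} (y : Eu m) : wt (iota y) = wt y := by
  unfold wt; rw [norm_iota]

/-- The exponent `n = m+1`. -/
abbrev pp (m : ℕ) : ℝ≥0∞ := ((m + 1 : ℕ) : ℝ≥0∞)

instance (m : ℕ) : Fact ((1 : ℝ≥0∞) ≤ pp m) := ⟨by
  unfold pp; exact_mod_cast Nat.le_add_left 1 m⟩

instance (m : ℕ) : Fact ((1 : ℝ≥0∞) ≤ ((m + 1 : ℕ) : ℝ≥0∞)) := ⟨by
  exact_mod_cast Nat.le_add_left 1 m⟩

/-- Hilbert-Schmidt space: tuples of partial derivatives. -/
abbrev HS (m : ℕ) (V : Type*) := PiLp 2 (fun _ : Fin (m + 1) => V)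

/-- Standard basis vector. -/
noncomputable abbrev eb {k : ℕ} (i : Fin k) : Eu k := EuclideanSpace.single i (1 : ℝ)

variable {m : ℕ} {V : Type*} [NormedAddCommGroup V] [InnerProductSpace ℝ V]

/-- gradient tuple -/
noncomputable def gr (w : Eu (m + 1) → V) (x : Eu (m + 1)) : HS m V :=
  WithLp.toLp 2 (fun i => fderiv ℝ w x (eb i))

/-- weighted gradient tuple `(1+|x|^2) D` -/
noncomputable def grt (w : Eu (m + 1) → V) (x : Eu (m + 1)) : HS m V :=
  (1 + ‖x‖ ^ 2) • gr w x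

@[simp] theorem gr_apply (w : Eu (m + 1) → V) (x : Eu (m + 1)) (i : Fin (m+1)) :
    gr w x i = fderiv ℝ w x (eb i) := rfl

@[simp] theorem grt_apply (w : Eu (m + 1) → V) (x : Eu (m + 1)) (i : Fin (m+1)) :
    grt w x i = (1 + ‖x‖ ^ 2) • fderiv ℝ w x (eb i) := rfl

/-- Test maps: `C^1` with compact support in `ℝ^n \ {0}`. -/
structure IsTest (w : Eu (m + 1) → V) : Prop where
  c1 : ContDiff ℝ 1 w
  supp : ∃ δ > 0, ∀ x, w x ≠ 0 → δ ≤ ‖x‖ ∧ ‖x‖ ≤ δ⁻¹

theorem IsTest.zero : IsTest (fun _ : Eu (m + 1) => (0 : V)) :=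
  ⟨contDiff_const, 1, one_pos, fun x h => absurd rfl h⟩

theorem IsTest.add {w w' : Eu (m + 1) → V} (h : IsTest w) (h' : IsTest w') :
    IsTest (fun x => w x + w' x) := by
  obtain ⟨δ, hδ, H⟩ := h.supp
  obtain ⟨δ', hδ', H'⟩ := h'.supp
  refine ⟨h.c1.add h'.c1, min δ δ', lt_min hδ hδ', fun x hx => ?_⟩
  have hm : 0 < min δ δ' := lt_min hδ hδ'
  by_cases h1 : w x = 0
  · have h2 : w' x ≠ 0 := by
      intro h2; apply hx; simp [h1, h2]
    obtain ⟨a, b⟩ := H' x h2
    exact ⟨(min_le_right _ _).trans a, b.trans (inv_anti₀ hm (min_le_right _ _))⟩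
  · obtain ⟨a, b⟩ := H x h1
    exact ⟨(min_le_left _ _).trans a, b.trans (inv_anti₀ hm (min_le_left _ _))⟩

theorem IsTest.smul {w : Eu (m + 1) → V} (h : IsTest w) (c : ℝ) :
    IsTest (fun x => c • w x) := by
  obtain ⟨δ, hδ, H⟩ := h.supp
  refine ⟨h.c1.const_smul c, δ, hδ, fun x hx => H x ?_⟩
  intro h1; apply hx; simp [h1]

theorem IsTest.fderiv_zero {w : Eu (m + 1) → V} {δ : ℝ}
    (H : ∀ x, w x ≠ 0 → δ ≤ ‖x‖ ∧ ‖x‖ ≤ δ⁻¹) (x : Eu (m + 1)) (hx : ‖x‖ < δ ∨ δ⁻¹ < ‖x‖) :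
    fderiv ℝ w x = 0 := by
  have h : w =ᶠ[𝓝 x] fun _ => 0 := by
    have hopen : IsOpen {y : Eu (m+1) | ‖y‖ < δ ∨ δ⁻¹ < ‖y‖} :=
      (isOpen_lt continuous_norm continuous_const).union
        (isOpen_lt continuous_const continuous_norm)
    filter_upwards [hopen.mem_nhds hx] with y hy
    by_contra hne
    obtain ⟨a, b⟩ := H y hne
    rcases hy with h | h <;> linarith
  rw [h.fderiv_eq]
  simp

theorem IsTest.comp {V₁ V₂ V₃ : Type*} [NormedAddCommGroup V₁] [InnerProductSpace ℝ V₁]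
    [NormedAddCommGroup V₂] [InnerProductSpace ℝ V₂] [NormedAddCommGroup V₃]
    [InnerProductSpace ℝ V₃] {w₁ : Eu (m + 1) → V₁} {w₂ : Eu (m+1) → V₂} (h₁ : IsTest w₁)
    (h₂ : IsTest w₂) {Ψ : V₁ × V₂ → V₃} (hΨ : ContDiff ℝ 1 Ψ) (h0 : Ψ 0 = 0) :
    IsTest (fun x => Ψ (w₁ x, w₂ x)) := by
  obtain ⟨δ, hδ, H⟩ := h₁.supp
  obtain ⟨δ', hδ', H'⟩ := h₂.supp
  refine ⟨hΨ.comp (h₁.c1.prodMk h₂.c1), min δ δ', lt_min hδ hδ', fun x hx => ?_⟩
  have hm : 0 < min δ δ' := lt_min hδ hδ'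
  by_cases h1 : w₁ x = 0
  · have h2 : w₂ x ≠ 0 := by
      intro h2; apply hx
      rw [h1, h2]; exact h0
    obtain ⟨a, b⟩ := H' x h2
    exact ⟨(min_le_right _ _).trans a, b.trans (inv_anti₀ hm (min_le_right _ _))⟩
  · obtain ⟨a, b⟩ := H x h1
    exact ⟨(min_le_left _ _).trans a, b.trans (inv_anti₀ hm (min_le_left _ _))⟩

theorem IsTest.bound {w : Eu (m + 1) → V} (h : IsTest w) :
    ∃ C : ℝ, 0 ≤ C ∧ (∀ x, ‖w x‖ ≤ C) ∧ (∀ x, ‖grt w x‖ ≤ C) := by
  obtain ⟨δ, hδ, H⟩ := h.supp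
  have hc : HasCompactSupport w := by
    refine HasCompactSupport.intro (isCompact_closedBall (0 : Eu (m+1)) δ⁻¹) (fun x hx => ?_)
    by_contra hne
    apply hx
    simpa using (H x hne).2
  obtain ⟨C₁, hC₁⟩ := h.c1.continuous.bounded_above_of_compact_support hc
  have hcg : Continuous (grt w) := by
    have h0 : Continuous (fun x : Eu (m+1) => (1 + ‖x‖ ^ 2 : ℝ)) := by fun_prop
    unfold grt gr
    refine h0.smul ?_
    refine (PiLp.continuous_toLp 2 _).comp ?_
    refine continuous_pi fun i => ?_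
    exact (h.c1.continuous_fderiv one_ne_zero).clm_apply continuous_const
  have hc2 : HasCompactSupport (grt w) := by
    refine HasCompactSupport.intro (isCompact_closedBall (0 : Eu (m+1)) δ⁻¹) (fun x hx => ?_)
    have : fderiv ℝ w x = 0 := IsTest.fderiv_zero H x (Or.inr (by simpa using hx))
    ext i
    simp [this]
  obtain ⟨C₂, hC₂⟩ := hcg.bounded_above_of_compact_support hc2
  refine ⟨max 0 (max C₁ C₂), le_max_left _ _, fun x => (hC₁ x).trans ?_, fun x => (hC₂ x).trans ?_⟩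
  · exact (le_max_left _ _).trans (le_max_right _ _)
  · exact (le_max_right _ _).trans (le_max_right _ _)

theorem IsTest.continuous_gr {w : Eu (m + 1) → V} (h : ContDiff ℝ 1 w) : Continuous (gr w) := by
  unfold gr
  refine (PiLp.continuous_toLp 2 _).comp ?_
  refine continuous_pi fun i => ?_
  exact (h.continuous_fderiv one_ne_zero).clm_apply continuous_const

theorem continuous_grt {w : Eu (m + 1) → V} (h : ContDiff ℝ 1 w) : Continuous (grt w) := by
  have h0 : Continuous (fun x : Eu (m+1) => (1 + ‖x‖ ^ 2 : ℝ)) := by fun_prop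
  unfold grt
  exact h0.smul (IsTest.continuous_gr h)

/-- The ambient Banach space. -/
abbrev ZZ (m : ℕ) (V : Type*) [NormedAddCommGroup V] [InnerProductSpace ℝ V] :=
  Lp V (pp m) (mu m) × Lp (HS m V) (pp m) (mu m) × Lp V (pp m) (mub m)

/-- `z` is represented by the function `w`. -/
structure Rep (z : ZZ m V) (w : Eu (m + 1) → V) : Prop where
  fst : z.1 =ᵐ[mu m] w
  snd : z.2.1 =ᵐ[mu m] grt w
  trd : z.2.2 =ᵐ[mub m] w ∘ iota

theorem Rep.unique {z z' : ZZ m V} {w : Eu (m + 1) → V} (h : Rep z w) (h' : Rep z' w) : z = z' := by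
  refine Prod.ext ?_ (Prod.ext ?_ ?_)
  · exact Lp.ext (h.fst.trans h'.fst.symm)
  · exact Lp.ext (h.snd.trans h'.snd.symm)
  · exact Lp.ext (h.trd.trans h'.trd.symm)

variable [FiniteDimensional ℝ V]

theorem IsTest.exists_rep [NeZero m] {w : Eu (m + 1) → V} (h : IsTest w) : ∃ z : ZZ m V, Rep z w := by
  obtain ⟨C, hC, h1, h2⟩ := h.bound
  have m1 : MemLp w (pp m) (mu m) :=
    MemLp.of_bound h.c1.continuous.aestronglyMeasurable C (Eventually.of_forall h1)
  have m2 : MemLp (grt w) (pp m) (mu m) :=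
    MemLp.of_bound (continuous_grt h.c1).aestronglyMeasurable C (Eventually.of_forall h2)
  have m3 : MemLp (w ∘ iota) (pp m) (mub m) :=
    MemLp.of_bound (h.c1.continuous.comp continuous_iota).aestronglyMeasurable C
      (Eventually.of_forall fun y => h1 _)
  exact ⟨(m1.toLp w, m2.toLp _, m3.toLp _), m1.coeFn_toLp, m2.coeFn_toLp, m3.coeFn_toLp⟩

omit [FiniteDimensional ℝ V] in
theorem grt_add {w w' : Eu (m + 1) → V} (h : ContDiff ℝ 1 w) (h' : ContDiff ℝ 1 w')
    (x : Eu (m+1)) : grt (fun x => w x + w' x) x = grt w x + grt w' x := by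
  ext i
  have h1 := (h.differentiable one_ne_zero) x
  have h2 := (h'.differentiable one_ne_zero) x
  simp only [grt_apply, PiLp.add_apply]
  rw [fderiv_fun_add h1 h2]
  simp

omit [FiniteDimensional ℝ V] in
theorem grt_smul {w : Eu (m + 1) → V} (h : ContDiff ℝ 1 w) (c : ℝ)
    (x : Eu (m+1)) : grt (fun x => c • w x) x = c • grt w x := by
  ext i
  have h1 := (h.differentiable one_ne_zero) x
  simp only [grt_apply, PiLp.smul_apply]
  rw [fderiv_fun_const_smul h1, ContinuousLinearMap.smul_apply, smul_comm]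

omit [FiniteDimensional ℝ V] in
theorem Rep.add {z z' : ZZ m V} {w w' : Eu (m + 1) → V} (h : Rep z w) (h' : Rep z' w')
    (c : ContDiff ℝ 1 w) (c' : ContDiff ℝ 1 w') : Rep (z + z') (fun x => w x + w' x) := by
  refine ⟨?_, ?_, ?_⟩
  · filter_upwards [Lp.coeFn_add z.1 z'.1, h.fst, h'.fst] with x h1 h2 h3
    rw [Prod.fst_add, h1, Pi.add_apply, h2, h3]
  · filter_upwards [Lp.coeFn_add z.2.1 z'.2.1, h.snd, h'.snd] with x h1 h2 h3
    rw [Prod.snd_add, Prod.fst_add, h1, Pi.add_apply, h2, h3, grt_add c c']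
  · filter_upwards [Lp.coeFn_add z.2.2 z'.2.2, h.trd, h'.trd] with x h1 h2 h3
    rw [Prod.snd_add, Prod.snd_add, h1, Pi.add_apply, h2, h3]; rfl

omit [FiniteDimensional ℝ V] in
theorem Rep.smul {z : ZZ m V} {w : Eu (m + 1) → V} (h : Rep z w)
    (c : ContDiff ℝ 1 w) (a : ℝ) : Rep (a • z) (fun x => a • w x) := by
  refine ⟨?_, ?_, ?_⟩
  · filter_upwards [Lp.coeFn_smul a z.1, h.fst] with x h1 h2
    rw [Prod.smul_fst, h1, Pi.smul_apply, h2]
  · filter_upwards [Lp.coeFn_smul a z.2.1, h.snd] with x h1 h2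
    rw [Prod.smul_snd, Prod.smul_fst, h1, Pi.smul_apply, h2, grt_smul c]
  · filter_upwards [Lp.coeFn_smul a z.2.2, h.trd] with x h1 h2
    rw [Prod.smul_snd, Prod.smul_snd, h1, Pi.smul_apply, h2]; rfl

omit [FiniteDimensional ℝ V] in
theorem Rep.zero : Rep (0 : ZZ m V) (fun _ => 0) := by
  refine ⟨?_, ?_, ?_⟩
  · filter_upwards [Lp.coeFn_zero V (pp m) (mu m)] with x h1
    rw [Prod.fst_zero, h1]; rfl
  · filter_upwards [Lp.coeFn_zero (HS m V) (pp m) (mu m)] with x h1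
    rw [Prod.snd_zero, Prod.fst_zero, h1]
    ext i
    simp
  · filter_upwards [Lp.coeFn_zero V (pp m) (mub m)] with x h1
    rw [Prod.snd_zero, Prod.snd_zero, h1]; rfl

omit [FiniteDimensional ℝ V] in
variable (m V) in
/-- Space of (classes of) test maps. -/
def SS : Submodule ℝ (ZZ m V) where
  carrier := {z | ∃ w, IsTest w ∧ Rep z w}
  zero_mem' := ⟨_, IsTest.zero, Rep.zero⟩
  add_mem' := by
    rintro z z' ⟨w, h, r⟩ ⟨w', h', r'⟩
    exact ⟨_, h.add h', r.add r' h.c1 h'.c1⟩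
  smul_mem' := by
    rintro c z ⟨w, h, r⟩
    exact ⟨_, h.smul c, r.smul h.c1 c⟩

variable (m V) in
/-- The function space: closure of the test maps. -/
noncomputable def XX : Submodule ℝ (ZZ m V) := (SS m V).topologicalClosure

omit [FiniteDimensional ℝ V] in
theorem isClosed_XX : IsClosed (XX m V : Set (ZZ m V)) := Submodule.isClosed_topologicalClosure _

omit [FiniteDimensional ℝ V] in
theorem mem_XX_iff {z : ZZ m V} : z ∈ XX m V ↔
    ∃ (w : ℕ → Eu (m + 1) → V) (s : ℕ → ZZ m V), (∀ j, IsTest (w j)) ∧ (∀ j, Rep (s j) (w j)) ∧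
      Tendsto s atTop (𝓝 z) := by
  constructor
  · intro h
    have h' : z ∈ closure (SS m V : Set (ZZ m V)) := h
    obtain ⟨s, hs, hlim⟩ := mem_closure_iff_seq_limit.mp h'
    choose w hw using hs
    exact ⟨w, s, fun j => (hw j).1, fun j => (hw j).2, hlim⟩
  · rintro ⟨w, s, h1, h2, h3⟩
    have : z ∈ closure (SS m V : Set (ZZ m V)) :=
      mem_closure_of_tendsto h3 (Eventually.of_forall fun j => ⟨w j, h1 j, h2 j⟩)
    exact this

omit [FiniteDimensional ℝ V] in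
theorem mem_XX_of_test {z : ZZ m V} {w : Eu (m + 1) → V} (h : IsTest w) (r : Rep z w) :
    z ∈ XX m V := Submodule.le_topologicalClosure _ ⟨w, h, r⟩

/-- The Clarkson functional. -/
noncomputable def NN (z : ZZ m V) : ℝ := ‖z.1‖ ^ (m+1) + ‖z.2.1‖ ^ (m+1) + ‖z.2.2‖ ^ (m+1)

omit [FiniteDimensional ℝ V] in
theorem clark_NN (hm : 1 ≤ m) : Clark (NN : ZZ m V → ℝ) (m + 1) where
  cont := by unfold NN; fun_prop
  pos := by omega
  low := by
    intro z
    unfold NN
    have h1 : ‖z‖ = max ‖z.1‖ (max ‖z.2.1‖ ‖z.2.2‖) := rfl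
    have p1 : 0 ≤ ‖z.1‖ ^ (m+1) := by positivity
    have p2 : 0 ≤ ‖z.2.1‖ ^ (m+1) := by positivity
    have p3 : 0 ≤ ‖z.2.2‖ ^ (m+1) := by positivity
    rw [h1]
    rcases max_choice ‖z.1‖ (max ‖z.2.1‖ ‖z.2.2‖) with h | h
    · rw [h]; linarith
    · rw [h]
      rcases max_choice ‖z.2.1‖ ‖z.2.2‖ with h | h
      · rw [h]; linarith
      · rw [h]; linarith
  cl := by
    intro x y
    unfold NN
    have h1 := lp_clarkson (n := m+1) (by omega) x.1 y.1
    have h2 := lp_clarkson (n := m+1) (by omega) x.2.1 y.2.1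
    have h3 := lp_clarkson (n := m+1) (by omega) x.2.2 y.2.2
    have e1 : ((1/2:ℝ) • (x + y)).1 = (1/2:ℝ) • (x.1 + y.1) := rfl
    have e2 : ((1/2:ℝ) • (x + y)).2.1 = (1/2:ℝ) • (x.2.1 + y.2.1) := rfl
    have e3 : ((1/2:ℝ) • (x + y)).2.2 = (1/2:ℝ) • (x.2.2 + y.2.2) := rfl
    have e4 : ((1/2:ℝ) • (x - y)).1 = (1/2:ℝ) • (x.1 - y.1) := rfl
    have e5 : ((1/2:ℝ) • (x - y)).2.1 = (1/2:ℝ) • (x.2.1 - y.2.1) := rfl
    have e6 : ((1/2:ℝ) • (x - y)).2.2 = (1/2:ℝ) • (x.2.2 - y.2.2) := rfl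
    rw [e1, e2, e3, e4, e5, e6]
    linarith

end Pool.Agent.Helper42.Bub
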