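import Pool.Agent.Helper42.Bub.Geo3

/-!
Fubini on the half-space, and Hölder in power form.
-/

set_option maxHeartbeats 400000

open Filter Topology MeasureTheory Set
open scoped ENNReal InnerProductSpace NNReal

namespace Pool.Agent.Helper42.Bub

/-- The point `(s, y)`. -/
noncomputable def pt {m : ℕ} (s : ℝ) (y : Eu m) : Eu (m+1) := WithLp.toLp 2 (Fin.cons s (WithLp.ofLp y))

@[simp] theorem pt_zero' {m : ℕ} (s : ℝ) (y : Eu m) : pt s y 0 = s := rfl
@[simp] theorem pt_succ {m : ℕ} (s : ℝ) (y : Eu m) (i : Fin m) : pt s y i.succ = y i := rfl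

theorem pt_iota {m : ℕ} (y : Eu m) : pt 0 y = iota y := rfl

theorem pt_eq {m : ℕ} (s : ℝ) (y : Eu m) : pt s y = iota y + s • eb 0 := by
  ext i
  refine Fin.cases ?_ (fun i => ?_) i
  · simp
  · simp

theorem tl_pt {m : ℕ} (s : ℝ) (y : Eu m) : tl (pt s y) = y := by ext i; simp

theorem pt_tl {m : ℕ} (x : Eu (m+1)) : pt (x 0) (tl x) = x := by
  ext i
  refine Fin.cases ?_ (fun i => ?_) i
  · simp
  · simp

theorem norm_sq_pt {m : ℕ} (s : ℝ) (y : Eu m) : ‖pt s y‖ ^ 2 = s ^ 2 + ‖y‖ ^ 2 := by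
  rw [norm_sq_split, tl_pt]; rfl

theorem continuous_pt {m : ℕ} : Continuous (fun q : ℝ × Eu m => pt q.1 q.2) := by
  have h : (fun q : ℝ × Eu m => pt q.1 q.2) = fun q => iota q.2 + q.1 • eb 0 := by
    funext q; exact pt_eq _ _
  rw [h]
  exact (continuous_iota.comp continuous_snd).add (continuous_fst.smul continuous_const)

theorem continuous_tl {m : ℕ} : Continuous (tl : Eu (m+1) → Eu m) := by
  unfold tl
  refine (PiLp.continuous_toLp 2 _).comp (continuous_pi fun i => ?_)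
  exact (EuclideanSpace.proj (𝕜 := ℝ) i.succ).continuous

theorem mp_pt (m : ℕ) : MeasurePreserving (fun q : ℝ × Eu m => pt q.1 q.2)
    (volume.prod volume) (volume : Measure (Eu (m+1))) := by
  have h1 : MeasurePreserving (fun q : ℝ × Eu m => (q.1, WithLp.ofLp q.2))
      ((volume : Measure ℝ).prod (volume : Measure (Eu m)))
      ((volume : Measure ℝ).prod (volume : Measure (Fin m → ℝ))) :=
    (MeasurePreserving.id volume).prod (PiLp.volume_preserving_ofLp (Fin m))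
  have h2 := (volume_preserving_piFinSuccAbove (fun _ : Fin (m+1) => ℝ) 0).symm
  have h3 := PiLp.volume_preserving_toLp (Fin (m+1))
  have h4 := h3.comp (h2.comp h1)
  have h5 : (fun q : ℝ × Eu m => pt q.1 q.2) =
      (WithLp.toLp 2 ∘ ((MeasurableEquiv.piFinSuccAbove (fun _ : Fin (m+1) => ℝ) 0).symm ∘
        (fun q : ℝ × Eu m => (q.1, WithLp.ofLp q.2)))) := by
    funext q
    ext i
    refine Fin.cases ?_ (fun i => ?_) i
    · simp [MeasurableEquiv.piFinSuccAbove]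
    · simp [MeasurableEquiv.piFinSuccAbove]
  rw [h5]
  exact h4

theorem lint_split {m : ℕ} {f : Eu (m+1) → ℝ≥0∞} (hf : Measurable f) :
    ∫⁻ x, f x = ∫⁻ s : ℝ, ∫⁻ y : Eu m, f (pt s y) := by
  rw [← (mp_pt m).lintegral_comp hf, lintegral_prod]
  exact (hf.comp (mp_pt m).measurable).aemeasurable

theorem lint_split_Om {m : ℕ} {f : Eu (m+1) → ℝ≥0∞} (hf : Measurable f) :
    ∫⁻ x in Om m, f x = ∫⁻ s in Ioi (0:ℝ), ∫⁻ y : Eu m, f (pt s y) := by
  rw [← lintegral_indicator (measurableSet_Om m), lint_split (hf.indicator (measurableSet_Om m)),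
    ← lintegral_indicator measurableSet_Ioi]
  refine lintegral_congr fun s => ?_
  by_cases hs : s ∈ Ioi (0:ℝ)
  · rw [indicator_of_mem hs]
    refine lintegral_congr fun y => ?_
    rw [indicator_of_mem]
    exact hs
  · rw [indicator_of_notMem hs]
    have : ∀ y : Eu m, (Om m).indicator f (pt s y) = 0 := by
      intro y
      rw [indicator_of_notMem]
      exact hs
    simp [this]

theorem lint_pow_le {α : Type*} [MeasurableSpace α] {μ : Measure α} (n : ℕ) {g : α → ℝ≥0∞}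
    (hg : AEMeasurable g μ) : (∫⁻ x, g x ∂μ) ^ (n+1) ≤ (μ univ) ^ n * ∫⁻ x, g x ^ (n+1) ∂μ := by
  rcases Nat.eq_zero_or_pos n with h | h
  · subst h; simp
  have hn : (1:ℝ) < ((n+1 : ℕ) : ℝ) := by
    have : (1:ℝ) ≤ n := by exact_mod_cast h
    push_cast; linarith
  have hpq := Real.HolderConjugate.conjExponent hn
  have h1 := ENNReal.lintegral_mul_le_Lp_mul_Lq μ hpq hg (g := fun _ => 1) aemeasurable_const
  simp only [Pi.mul_apply, mul_one] at h1
  have e2 : ∫⁻ (a : α), (1:ℝ≥0∞) ^ (Real.conjExponent ((n+1 : ℕ) : ℝ)) ∂μ = μ univ := by simp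
  rw [e2] at h1
  have h2 : (∫⁻ x, g x ∂μ) ^ (n+1) ≤ ((∫⁻ x, g x ^ (((n+1 : ℕ)) : ℝ) ∂μ) ^ (1 / ((n+1 : ℕ) : ℝ)) *
      (μ univ) ^ (1 / Real.conjExponent ((n+1 : ℕ) : ℝ))) ^ (n+1) := by
    gcongr
  refine h2.trans (le_of_eq ?_)
  rw [mul_pow, mul_comm]
  congr 1
  · rw [← ENNReal.rpow_natCast _ (n+1), ← ENNReal.rpow_mul, ← ENNReal.rpow_natCast _ n]
    congr 1
    unfold Real.conjExponent
    have h0 : ((n+1 : ℕ) : ℝ) ≠ 0 := by positivity
    have h01 : ((n+1 : ℕ) : ℝ) - 1 = n := by push_cast; ring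
    rw [h01]
    have hn0 : (n : ℝ) ≠ 0 := by positivity
    field_simp
  · rw [← ENNReal.rpow_natCast _ (n+1), ← ENNReal.rpow_mul]
    have h0 : ((n+1 : ℕ) : ℝ) ≠ 0 := by positivity
    rw [one_div, inv_mul_cancel₀ h0, ENNReal.rpow_one]
    simp_rw [ENNReal.rpow_natCast]

theorem wt_pt_le {m : ℕ} (s : ℝ) (y : Eu m) : wt (pt s y) ≤ (1 + s ^ 2)⁻¹ := by
  unfold wt
  rw [norm_sq_pt]
  apply inv_anti₀ (by positivity)
  nlinarith [sq_nonneg ‖y‖]

theorem wt_pt_le' {m : ℕ} (s : ℝ) (y : Eu m) : wt (pt s y) ≤ wt y := by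
  unfold wt
  rw [norm_sq_pt]
  apply inv_anti₀ (by positivity)
  nlinarith [sq_nonneg s]

theorem wt_pow_pt_le {m : ℕ} (s : ℝ) (y : Eu m) :
    wt (pt s y) ^ (m+1) ≤ (1 + s ^ 2)⁻¹ * wt y ^ m := by
  rw [pow_succ, mul_comm]
  refine mul_le_mul (wt_pt_le s y) ?_ (by have := wt_pos (pt s y); positivity) (by positivity)
  exact pow_le_pow_left₀ (wt_pos _).le (wt_pt_le' s y) m

theorem wt_pow_pt_le2 {m : ℕ} {s : ℝ} (hs : 0 ≤ s) (y : Eu m) :
    wt (pt s y) ^ (m+1) * s ^ m ≤ (1 + s ^ 2)⁻¹ := by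
  have h1 : wt (pt s y) ^ (m+1) ≤ ((1 + s ^ 2)⁻¹) ^ (m+1) :=
    pow_le_pow_left₀ (wt_pos _).le (wt_pt_le s y) _
  have h2 : s ^ m ≤ (1 + s ^ 2) ^ m := by
    apply pow_le_pow_left₀ hs
    nlinarith [sq_nonneg (s - 1/2)]
  calc wt (pt s y) ^ (m+1) * s ^ m ≤ ((1 + s ^ 2)⁻¹) ^ (m+1) * (1 + s ^ 2) ^ m := by
        apply mul_le_mul h1 h2 (by positivity) (by positivity)
    _ = (1 + s ^ 2)⁻¹ := by
        rw [pow_succ, inv_pow]
        field_simp

theorem lint_inv_finite : ∫⁻ s in Ioi (0:ℝ), ENNReal.ofReal ((1 + s ^ 2)⁻¹) < ∞ := by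
  have h := (integrable_inv_one_add_sq.integrableOn (s := Ioi (0:ℝ))).2
  rw [hasFiniteIntegral_iff_norm] at h
  refine lt_of_le_of_lt (lintegral_mono fun s => ?_) h
  exact ENNReal.ofReal_le_ofReal (le_abs_self _)

end Pool.Agent.Helper42.Bub
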