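import Pool.Agent.Helper42.Bub.Rad

/-!
The key estimate: real variable part and test functions.
-/

set_option maxHeartbeats 400000

open Filter Topology MeasureTheory Set
open scoped ENNReal InnerProductSpace NNReal ContDiff

namespace Pool.Agent.Helper42.Bub

/-- the exponent -/
noncomputable def qq (k : ℕ) : ℝ := -(((k:ℝ) + 3) / 2)

theorem qq_nonpos (k : ℕ) : qq k ≤ 0 := by unfold qq; have : (0:ℝ) ≤ k := Nat.cast_nonneg k; linarith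

theorem real_est {k : ℕ} {r E f ε Q b C fd : ℝ} (hr : 0 ≤ r) (hE : 0 ≤ E) (hf : 0 ≤ f)
    (hε : 0 < ε) (hQ : 0 ≤ Q) (hb : 0 ≤ b) (hrE : r * E = 4 * f)
    (hrQ : r ^ 2 * Q ≤ 1)
    (hfd : |fd| ≤ (E * f) * (b ^ 2 * (((k:ℝ) + 3) * r ^ (k+2) * Q) + (r ^ (k+3) * Q) * (2 * b * C))) :
    E ^ (k+1) * ((b ^ 2 * (r ^ (k+3) * Q)) * ((f ^ 2 + ε) ^ (qq k) * (2 * E ^ 2) +
      (qq k * (f ^ 2 + ε) ^ (qq k - 1) * 2) * (E ^ 2 * f ^ 2)) + (f ^ 2 + ε) ^ (qq k) * fd) ≤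
    4 ^ (k+2) * ((f ^ (k+3) * (f ^ 2 + ε) ^ (qq k)) *
      (b ^ 2 * Q * (-(4 * ((k:ℝ) + 3)) * (f ^ 2 / (f ^ 2 + ε)) + 8 + ((k:ℝ) + 3) + 1/2) +
        2 * C ^ 2)) := by
  have hne : 0 < f ^ 2 + ε := by positivity
  set h := (f ^ 2 + ε) ^ (qq k) with hh
  have hh0 : 0 < h := Real.rpow_pos_of_pos hne _
  have h1 : (f ^ 2 + ε) ^ (qq k - 1) = h / (f ^ 2 + ε) := by
    rw [Real.rpow_sub_one hne.ne']
  rw [h1]
  set t := f ^ 2 / (f ^ 2 + ε) with ht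
  have hk : (0:ℝ) ≤ k := Nat.cast_nonneg k
  have e1 : E ^ (k+1) * ((b ^ 2 * (r ^ (k+3) * Q)) * (h * (2 * E ^ 2) +
      (qq k * (h / (f ^ 2 + ε)) * 2) * (E ^ 2 * f ^ 2)) + h * fd) =
      b ^ 2 * Q * (r * E) ^ (k+3) * h * (2 + 2 * qq k * t) + E ^ (k+1) * h * fd := by
    rw [ht, mul_pow]
    field_simp
    ring
  rw [e1, hrE]
  have e2 : 2 + 2 * qq k * t = 2 - ((k:ℝ) + 3) * t := by unfold qq; ring
  rw [e2]
  have e3 : E ^ (k+1) * h * fd ≤ h * (4 ^ (k+2) * f ^ (k+3)) *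
      ((((k:ℝ) + 3)) * b ^ 2 * Q + 2 * b * C * r * Q) := by
    calc E ^ (k+1) * h * fd ≤ E ^ (k+1) * h * |fd| :=
          mul_le_mul_of_nonneg_left (le_abs_self _) (by positivity)
      _ ≤ E ^ (k+1) * h * ((E * f) * (b ^ 2 * (((k:ℝ) + 3) * r ^ (k+2) * Q) +
            (r ^ (k+3) * Q) * (2 * b * C))) := mul_le_mul_of_nonneg_left hfd (by positivity)
      _ = h * ((r * E) ^ (k+2) * f) * ((((k:ℝ) + 3)) * b ^ 2 * Q + 2 * b * C * r * Q) := by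
          rw [mul_pow]; ring
      _ = _ := by rw [hrE, mul_pow]; ring
  have e4 : 2 * b * C * r * Q ≤ 1/2 * b ^ 2 * Q + 2 * C ^ 2 := by
    have h5 : 2 * b * C * r ≤ 1/2 * b ^ 2 + 2 * C ^ 2 * r ^ 2 := by
      nlinarith [sq_nonneg (b - 2 * C * r)]
    have h6 := mul_le_mul_of_nonneg_right h5 hQ
    have h7 : 2 * C ^ 2 * (r ^ 2 * Q) ≤ 2 * C ^ 2 * 1 :=
      mul_le_mul_of_nonneg_left hrQ (by positivity)
    calc 2 * b * C * r * Q ≤ (1/2 * b ^ 2 + 2 * C ^ 2 * r ^ 2) * Q := h6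
      _ = 1/2 * b ^ 2 * Q + 2 * C ^ 2 * (r ^ 2 * Q) := by ring
      _ ≤ _ := by linarith
  have e5 : h * (4 ^ (k+2) * f ^ (k+3)) * ((((k:ℝ) + 3)) * b ^ 2 * Q + 2 * b * C * r * Q) ≤
      h * (4 ^ (k+2) * f ^ (k+3)) * ((((k:ℝ) + 3)) * b ^ 2 * Q + (1/2 * b ^ 2 * Q + 2 * C ^ 2)) :=
    mul_le_mul_of_nonneg_left (by linarith) (by positivity)
  have e6 : b ^ 2 * Q * (4 * f) ^ (k+3) * h * (2 - ((k:ℝ) + 3) * t) +
      h * (4 ^ (k+2) * f ^ (k+3)) * ((((k:ℝ) + 3)) * b ^ 2 * Q + (1/2 * b ^ 2 * Q + 2 * C ^ 2)) =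
      4 ^ (k+2) * ((f ^ (k+3) * h) *
      (b ^ 2 * Q * (-(4 * ((k:ℝ) + 3)) * t + 8 + ((k:ℝ) + 3) + 1/2) + 2 * C ^ 2)) := by
    rw [mul_pow]; ring
  rw [← e6]
  linarith

theorem H_le_one {k : ℕ} {f ε : ℝ} (hf : 0 ≤ f) (hε : 0 < ε) :
    f ^ (k+3) * (f ^ 2 + ε) ^ (qq k) ≤ 1 := by
  have hne : 0 < f ^ 2 + ε := by positivity
  have h1 : f ^ (k+3) = (f ^ 2) ^ (((k:ℝ) + 3) / 2) := by
    rw [← Real.rpow_natCast f 2, ← Real.rpow_mul hf, ← Real.rpow_natCast]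
    congr 1
    push_cast; ring
  have h2 : (f ^ 2 + ε) ^ (qq k) = ((f ^ 2 + ε) ^ (((k:ℝ) + 3) / 2))⁻¹ := by
    unfold qq
    rw [Real.rpow_neg hne.le]
  rw [h1, h2, ← div_eq_mul_inv, div_le_one (Real.rpow_pos_of_pos hne _)]
  exact Real.rpow_le_rpow (sq_nonneg f) (by linarith) (by positivity)

theorem H_tendsto {k : ℕ} {f : ℝ} (hf : 0 < f) {ε : ℕ → ℝ} (hε0 : Tendsto ε atTop (𝓝 0)) :
    Tendsto (fun j => f ^ (k+3) * (f ^ 2 + ε j) ^ (qq k)) atTop (𝓝 1) := by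
  have h1 : Tendsto (fun j => f ^ 2 + ε j) atTop (𝓝 (f ^ 2)) := by
    have := hε0.const_add (f ^ 2)
    rwa [add_zero] at this
  have h2 := (h1.rpow_const (p := qq k) (Or.inl (by positivity))).const_mul (f ^ (k+3))
  have h3 : f ^ (k+3) * (f ^ 2) ^ (qq k) = 1 := by
    have h4 : f ^ (k+3) = (f ^ 2) ^ (((k:ℝ) + 3) / 2) := by
      rw [← Real.rpow_natCast f 2, ← Real.rpow_mul hf.le, ← Real.rpow_natCast]
      congr 1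
      push_cast; ring
    rw [h4, ← Real.rpow_add (by positivity)]
    unfold qq
    rw [add_neg_cancel, Real.rpow_zero]
  rwa [h3] at h2

variable {k : ℕ}

/-- `r^n` -/
noncomputable def Nn (k : ℕ) (x : Eu (k+2+1)) : ℝ := ‖Pj k x‖ ^ (k+3)

theorem Nn_eq : Nn k = (fun y : Eu (k+2+1) => ‖y‖ ^ ((k+3 : ℕ) : ℝ)) ∘ (Pj k) := by
  funext x
  unfold Nn
  rw [Function.comp_apply, Real.rpow_natCast]

theorem one_lt_k3 : (1:ℝ) < ((k+3 : ℕ) : ℝ) := by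
  push_cast
  have : (0:ℝ) ≤ k := Nat.cast_nonneg k
  linarith

theorem contDiff_Nn : ContDiff ℝ 1 (Nn k) := by
  rw [Nn_eq]
  exact (contDiff_norm_rpow one_lt_k3).comp (Pj k).contDiff

theorem Nn'_apply (x u : Eu (k+2+1)) :
    fderiv ℝ (Nn k) x u = ((k:ℝ) + 3) * ‖Pj k x‖ ^ (k+1) * ⟪Pj k x, u⟫_ℝ := by
  have h1 := (hasFDerivAt_norm_rpow (Pj k x) (one_lt_k3 (k := k))).comp x (Pj k).hasFDerivAt
  rw [← Nn_eq] at h1
  rw [h1.fderiv]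
  simp only [ContinuousLinearMap.comp_apply, smul_apply, innerSL_apply_apply, smul_eq_mul]
  rw [inner_Pj_Pj]
  have e : ‖Pj k x‖ ^ (((k+3 : ℕ) : ℝ) - 2) = ‖Pj k x‖ ^ (k+1) := by
    rw [← Real.rpow_natCast]
    congr 1
    push_cast; ring
  rw [e]
  push_cast
  ring

/-- `1/(r^2+δ^2)` -/
noncomputable def Qd (k : ℕ) (δ : ℝ) (x : Eu (k+2+1)) : ℝ := (Sq k x + δ ^ 2)⁻¹

theorem Qd_pos {δ : ℝ} (hδ : 0 < δ) (x : Eu (k+2+1)) : 0 < Qd k δ x := by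
  unfold Qd
  have := Sq_nonneg x
  positivity

theorem Qd_mul_le {δ : ℝ} (hδ : 0 < δ) (x : Eu (k+2+1)) : ‖Pj k x‖ ^ 2 * Qd k δ x ≤ 1 := by
  unfold Qd Sq
  rw [← div_eq_mul_inv, div_le_one (by positivity)]
  nlinarith [sq_nonneg δ]

theorem contDiff_Qd {δ : ℝ} (hδ : 0 < δ) : ContDiff ℝ 1 (Qd k δ) := by
  unfold Qd
  refine (contDiff_Sq.add contDiff_const).inv (fun x => ?_)
  have := Sq_nonneg x
  positivity

theorem Qd'_apply {δ : ℝ} (hδ : 0 < δ) (x u : Eu (k+2+1)) :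
    fderiv ℝ (Qd k δ) x u = -(Qd k δ x) ^ 2 * (2 * ⟪Pj k x, u⟫_ℝ) := by
  have hne : Sq k x + δ ^ 2 ≠ 0 := by have := Sq_nonneg x; positivity
  have h1 : HasFDerivAt (Sq k) (fderiv ℝ (Sq k) x) x :=
    (contDiff_Sq.differentiable one_ne_zero x).hasFDerivAt
  have h2 := (hasDerivAt_inv hne).comp_hasFDerivAt x (h1.add_const (δ ^ 2))
  have h3 : fderiv ℝ (Qd k δ) x = _ := h2.fderiv
  rw [h3]
  simp only [smul_apply, smul_eq_mul]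
  rw [Sq'_apply]
  unfold Qd
  rw [inv_pow]

/-- the radial profile -/
noncomputable def rho (k : ℕ) (δ : ℝ) (x : Eu (k+2+1)) : ℝ := Nn k x * Qd k δ x

theorem contDiff_rho {δ : ℝ} (hδ : 0 < δ) : ContDiff ℝ 1 (rho k δ) :=
  contDiff_Nn.mul (contDiff_Qd hδ)

theorem rho'_bound {δ : ℝ} (hδ : 0 < δ) (x u : Eu (k+2+1)) :
    |fderiv ℝ (rho k δ) x u| ≤ (((k:ℝ) + 3) * ‖Pj k x‖ ^ (k+2) * Qd k δ x) * ‖u‖ := by
  have d1 : HasFDerivAt (Nn k) (fderiv ℝ (Nn k) x) x :=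
    (contDiff_Nn.differentiable one_ne_zero x).hasFDerivAt
  have d2 : HasFDerivAt (Qd k δ) (fderiv ℝ (Qd k δ) x) x :=
    ((contDiff_Qd hδ).differentiable one_ne_zero x).hasFDerivAt
  have d3 : fderiv ℝ (rho k δ) x = _ := (d1.mul d2).fderiv
  rw [d3]
  simp only [add_apply, smul_apply, smul_eq_mul]
  rw [Nn'_apply, Qd'_apply hδ]
  set r := ‖Pj k x‖ with hr
  set Q := Qd k δ x with hQ
  have hQ0 : 0 < Q := Qd_pos hδ x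
  have hrQ : r ^ 2 * Q ≤ 1 := Qd_mul_le hδ x
  have hr0 : 0 ≤ r := norm_nonneg _
  have hk : (0:ℝ) ≤ k := Nat.cast_nonneg k
  have hin : |⟪Pj k x, u⟫_ℝ| ≤ r * ‖u‖ := inner_Pj_abs_le x u
  have hN : Nn k x = r ^ (k+3) := rfl
  rw [hN]
  have e : r ^ (k+3) * (-Q ^ 2 * (2 * ⟪Pj k x, u⟫_ℝ)) +
      Q * (((k:ℝ) + 3) * r ^ (k+1) * ⟪Pj k x, u⟫_ℝ) =
      (r ^ (k+1) * Q * (((k:ℝ) + 3) - 2 * (r ^ 2 * Q))) * ⟪Pj k x, u⟫_ℝ := by ring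
  rw [e, abs_mul]
  have h1 : 0 ≤ ((k:ℝ) + 3) - 2 * (r ^ 2 * Q) := by linarith
  have h2 : 0 ≤ r ^ 2 * Q := by positivity
  rw [abs_of_nonneg (by positivity)]
  calc r ^ (k+1) * Q * (((k:ℝ) + 3) - 2 * (r ^ 2 * Q)) * |⟪Pj k x, u⟫_ℝ|
      ≤ r ^ (k+1) * Q * ((k:ℝ) + 3) * (r * ‖u‖) := by
        refine mul_le_mul ?_ hin (abs_nonneg _) (by positivity)
        exact mul_le_mul_of_nonneg_left (by linarith) (by positivity)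
    _ = _ := by ring

end Pool.Agent.Helper42.Bub
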