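import Pool.Agent.Helper42.Bub.EL
import Pool.Agent.Helper42.Bub.Rot2
import Pool.Agent.Helper42.Bub.Star

/-!
The Euler-Lagrange equation tested with a radial test map.
-/

set_option maxHeartbeats 400000

open Filter Topology MeasureTheory Set
open scoped ENNReal InnerProductSpace NNReal ContDiff

namespace Pool.Agent.Helper42.Bub

open Pool.Agent.Helper42.Bubble (Half bdry IsSobolev)

section Unw

variable {m : ℕ} {H : Type*} [NormedAddCommGroup H] [InnerProductSpace ℝ H]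

theorem unw_pt [NeZero m] (x : Eu (m+1)) (a b : H) :
    (ENNReal.ofReal (wt x ^ (m+1))).toReal • (‖a‖ ^ (m-1) * ⟪a, b⟫_ℝ) =
      ‖wt x • a‖ ^ (m-1) * ⟪wt x • a, wt x • b⟫_ℝ := by
  have hw := wt_pos x
  rw [ENNReal.toReal_ofReal (by positivity), norm_smul, Real.norm_of_nonneg hw.le, mul_pow,
    real_inner_smul_left, real_inner_smul_right, smul_eq_mul]
  have h1 : wt x ^ (m+1) = wt x ^ (m-1) * wt x * wt x := by
    rw [pow_sub_one_mul (NeZero.ne m), ← pow_succ]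
  rw [h1]
  ring

theorem int_mu_eq (f : Eu (m+1) → ℝ) : ∫ x, f x ∂(mu m) =
    ∫ x in Half m, (ENNReal.ofReal (wt x ^ (m+1))).toReal • f x := by
  have hw : Measurable (fun x : Eu (m+1) => ENNReal.ofReal (wt x ^ (m+1))) :=
    ENNReal.measurable_ofReal.comp ((continuous_wt.pow _).measurable)
  unfold mu
  rw [integral_withDensity_eq_integral_toReal_smul hw
    (Eventually.of_forall fun x => ENNReal.ofReal_lt_top)]
  rfl

theorem integrable_mu_iff (f : Eu (m+1) → ℝ) : Integrable f (mu m) ↔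
    Integrable (fun x => (ENNReal.ofReal (wt x ^ (m+1))).toReal • f x)
      (volume.restrict (Half m)) := by
  have hw : Measurable (fun x : Eu (m+1) => ENNReal.ofReal (wt x ^ (m+1))) :=
    ENNReal.measurable_ofReal.comp ((continuous_wt.pow _).measurable)
  unfold mu
  rw [integrable_withDensity_iff_integrable_smul' hw
    (Eventually.of_forall fun x => ENNReal.ofReal_lt_top)]
  rfl

theorem EF_unw [NeZero m] (D E : Lp H ((m+1 : ℕ) : ℝ≥0∞) (mu m)) :
    EF D E = ∫ x in Half m, ‖wt x • D x‖ ^ (m-1) * ⟪wt x • D x, wt x • E x⟫_ℝ := by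
  rw [EF_apply, int_mu_eq]
  refine integral_congr_ae (Eventually.of_forall fun x => ?_)
  exact unw_pt x _ _

theorem int_unw [NeZero m] (D E : Lp H ((m+1 : ℕ) : ℝ≥0∞) (mu m)) :
    Integrable (fun x => ‖wt x • D x‖ ^ (m-1) * ⟪wt x • D x, wt x • E x⟫_ℝ)
      (volume.restrict (Half m)) := by
  have h1 := (integrable_mu_iff _).mp (ef_int D E)
  refine h1.congr (Eventually.of_forall fun x => ?_)
  exact unw_pt x _ _

end Unw

variable {k : ℕ}

/-- the bump -/
noncomputable def bb (k : ℕ) : ContDiffBump (eb 0 : Eu (k+2+1)) := ⟨1/4, 1/2, by norm_num, by norm_num⟩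

/-- support ball -/
def SS2 (k : ℕ) : Set (Eu (k+2+1)) := Metric.ball (eb 0) (1/2)

theorem bb_supp {x : Eu (k+2+1)} (h : x ∉ SS2 k) : bb k x = 0 := by
  have h1 : Function.support (bb k) = SS2 k := (bb k).support_eq
  by_contra hne
  apply h
  rw [← h1]
  exact hne

theorem bb_fderiv_supp {x : Eu (k+2+1)} (h : x ∉ SS2 k) : fderiv ℝ (bb k) x = 0 := by
  have h1 : IsLocalMin (bb k) x := Eventually.of_forall fun y => by
    rw [bb_supp h]; exact (bb k).nonneg
  exact h1.fderiv_eq_zero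

theorem SS2_sub : closure (SS2 k) ⊆ Half (k+2) := by
  intro x hx
  have h1 : x ∈ Metric.closedBall (eb 0 : Eu (k+2+1)) (1/2) := Metric.closure_ball_subset_closedBall hx
  rw [mem_closedBall_iff_norm] at h1
  have h2 := abs_coord_le (x - eb 0 : Eu (k+2+1)) 0
  have h3 : (x - eb 0 : Eu (k+2+1)) 0 = x 0 - 1 := by rw [PiLp.sub_apply, eb_self]
  rw [h3] at h2
  have h4 := abs_le.mp (h2.trans h1)
  change 0 < x 0
  linarith [h4.1]

theorem iota_notMem (y : Eu (k+2)) : iota y ∉ SS2 k := by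
  intro h
  have h1 : iota y ∈ Half (k+2) := SS2_sub (subset_closure h)
  have h2 : (0:ℝ) < iota y 0 := h1
  rw [iota_zero] at h2
  exact lt_irrefl _ h2

/-- the cutoff function -/
noncomputable def psi (k : ℕ) (δ : ℝ) (x : Eu (k+2+1)) : ℝ := bb k x ^ 2 * rho k δ x

theorem contDiff_bb : ContDiff ℝ 1 (fun x => bb k x) := (bb k).contDiff

theorem contDiff_psi {δ : ℝ} (hδ : 0 < δ) : ContDiff ℝ 1 (psi k δ) :=
  (contDiff_bb.pow 2).mul (contDiff_rho hδ)

theorem psi_supp {δ : ℝ} {x : Eu (k+2+1)} (h : x ∉ SS2 k) : psi k δ x = 0 := by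
  unfold psi; rw [bb_supp h]; ring

theorem psi_compact {δ : ℝ} : HasCompactSupport (psi k δ) := by
  refine HasCompactSupport.intro (isCompact_closedBall (eb 0 : Eu (k+2+1)) (1/2)) (fun x hx => ?_)
  exact psi_supp (fun h => hx (Metric.ball_subset_closedBall h))

theorem psi'_apply {δ : ℝ} (hδ : 0 < δ) (x u : Eu (k+2+1)) : fderiv ℝ (psi k δ) x u =
    bb k x ^ 2 * fderiv ℝ (rho k δ) x u + rho k δ x * (2 * bb k x * fderiv ℝ (bb k) x u) := by
  have d1 : HasFDerivAt (fun x => bb k x) (fderiv ℝ (bb k) x) x :=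
    (contDiff_bb.differentiable one_ne_zero x).hasFDerivAt
  have d2 : HasFDerivAt (rho k δ) (fderiv ℝ (rho k δ) x) x :=
    ((contDiff_rho hδ).differentiable one_ne_zero x).hasFDerivAt
  have d3 : fderiv ℝ (psi k δ) x = _ := ((d1.pow 2).mul d2).fderiv
  rw [d3]
  simp only [add_apply, smul_apply, smul_eq_mul]
  norm_num

theorem psi'_supp {δ : ℝ} (hδ : 0 < δ) {x : Eu (k+2+1)} (h : x ∉ SS2 k) (u : Eu (k+2+1)) :
    fderiv ℝ (psi k δ) x u = 0 := by
  rw [psi'_apply hδ, bb_supp h]; ring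

theorem psi'_bound {δ C : ℝ} (hδ : 0 < δ) (hC : ∀ x, ‖fderiv ℝ (bb k) x‖ ≤ C)
    (x u : Eu (k+2+1)) : |fderiv ℝ (psi k δ) x u| ≤
      ‖u‖ * (bb k x ^ 2 * (((k:ℝ) + 3) * ‖Pj k x‖ ^ (k+2) * Qd k δ x) +
        (‖Pj k x‖ ^ (k+3) * Qd k δ x) * (2 * bb k x * C)) := by
  rw [psi'_apply hδ]
  have hb : 0 ≤ bb k x := (bb k).nonneg
  have hQ := Qd_pos hδ x
  have h1 := rho'_bound hδ x u
  have h2 : |fderiv ℝ (bb k) x u| ≤ C * ‖u‖ :=
    ((fderiv ℝ (bb k) x).le_opNorm u).trans (mul_le_mul_of_nonneg_right (hC x) (norm_nonneg _))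
  have hrho : rho k δ x = ‖Pj k x‖ ^ (k+3) * Qd k δ x := rfl
  have hrho0 : 0 ≤ rho k δ x := by rw [hrho]; positivity
  refine (abs_add_le _ _).trans ?_
  rw [abs_mul, abs_mul, abs_of_nonneg (sq_nonneg (bb k x)), abs_of_nonneg hrho0, abs_mul,
    abs_of_nonneg (show 0 ≤ 2 * bb k x by positivity)]
  have h3 : bb k x ^ 2 * |fderiv ℝ (rho k δ) x u| ≤
      bb k x ^ 2 * ((((k:ℝ) + 3) * ‖Pj k x‖ ^ (k+2) * Qd k δ x) * ‖u‖) :=
    mul_le_mul_of_nonneg_left h1 (sq_nonneg _)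
  have h4 : rho k δ x * (2 * bb k x * |fderiv ℝ (bb k) x u|) ≤
      rho k δ x * (2 * bb k x * (C * ‖u‖)) := by
    refine mul_le_mul_of_nonneg_left ?_ hrho0
    exact mul_le_mul_of_nonneg_left h2 (by positivity)
  rw [hrho] at h4 ⊢
  calc _ ≤ bb k x ^ 2 * ((((k:ℝ) + 3) * ‖Pj k x‖ ^ (k+2) * Qd k δ x) * ‖u‖) +
        ‖Pj k x‖ ^ (k+3) * Qd k δ x * (2 * bb k x * (C * ‖u‖)) := add_le_add h3 h4
    _ = _ := by ring

theorem psi_cond {δ : ℝ} (hδ : 0 < δ) : ∃ C : ℝ, 0 ≤ C ∧ (∀ x, |psi k δ x| ≤ C) ∧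
    ∀ x i, (1 + ‖x‖ ^ 2) * |fderiv ℝ (psi k δ) x (eb i)| ≤ C := by
  obtain ⟨C1, h1⟩ := (contDiff_psi (k := k) hδ).continuous.bounded_above_of_compact_support
    psi_compact
  have hfd : Continuous (fun x => (1 + ‖x‖ ^ 2) • fderiv ℝ (psi k δ) x) := by
    have hc : Continuous (fun x : Eu (k+2+1) => (1 + ‖x‖ ^ 2 : ℝ)) := by fun_prop
    exact hc.smul ((contDiff_psi hδ).continuous_fderiv one_ne_zero)
  have hfs : HasCompactSupport (fun x => (1 + ‖x‖ ^ 2) • fderiv ℝ (psi k δ) x) := by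
    refine HasCompactSupport.intro (isCompact_closedBall (eb 0 : Eu (k+2+1)) (1/2))
      (fun x hx => ?_)
    have : fderiv ℝ (psi k δ) x = 0 := ContinuousLinearMap.ext fun u =>
      psi'_supp hδ (fun h => hx (Metric.ball_subset_closedBall h)) u
    rw [this, smul_zero]
  obtain ⟨C2, h2⟩ := hfd.bounded_above_of_compact_support hfs
  refine ⟨max C1 C2, (abs_nonneg _).trans ((h1 0).trans (le_max_left _ _)),
    fun x => (h1 x).trans (le_max_left _ _), fun x i => ?_⟩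
  refine le_trans ?_ ((h2 x).trans (le_max_right _ _))
  rw [norm_smul, Real.norm_of_nonneg (by positivity)]
  refine mul_le_mul_of_nonneg_left ?_ (by positivity)
  refine ((fderiv ℝ (psi k δ) x).le_opNorm _).trans ?_
  simp

end Pool.Agent.Helper42.Bub
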