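import Pool.Agent.Helper42.Bub.Conf
import Pool.Agent.Helper42.Bub.Star2

/-!
The pointwise estimate for the Euler-Lagrange integrand.
-/

set_option maxHeartbeats 400000

open Filter Topology MeasureTheory Set
open scoped ENNReal InnerProductSpace NNReal ContDiff

namespace Pool.Agent.Helper42.Bub

open Pool.Agent.Helper42.Bubble (Half bdry IsSobolev)

variable {k : ℕ}

/-- upper bound function -/
noncomputable def Bf (k : ℕ) (C δ ε f : ℝ) (x : Eu (k+2+1)) : ℝ :=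
  (f ^ (k+3) * (f ^ 2 + ε) ^ (qq k)) *
    (bb k x ^ 2 * Qd k δ x * (-(4 * ((k:ℝ) + 3)) * (f ^ 2 / (f ^ 2 + ε)) + 8 + ((k:ℝ) + 3) + 1/2) +
      2 * C ^ 2 * (SS2 k).indicator (fun _ => 1) x)

/-- the vector with components `⟪D i, p⟫` -/
noncomputable def wv (D : HS (k+2) (Eu (k+2+1))) (p : Eu (k+2+1)) : Eu (k+2+1) :=
  WithLp.toLp 2 (fun i => ⟪D i, p⟫_ℝ)

theorem norm_wv {D : HS (k+2) (Eu (k+2+1))} {e : ℝ} (h : CF (fun i => D i) e) (p : Eu (k+2+1)) :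
    ‖wv D p‖ = √e * ‖p‖ := by
  have h1 : ‖wv D p‖ ^ 2 = e * ‖p‖ ^ 2 := by
    rw [EuclideanSpace.norm_sq_eq, ← h.sum_inner p]
    refine Finset.sum_congr rfl fun i _ => ?_
    rw [Real.norm_eq_abs, sq_abs]
    rfl
  have h2 : ‖wv D p‖ ^ 2 = (√e * ‖p‖) ^ 2 := by
    rw [h1, mul_pow, Real.sq_sqrt h.nonneg]
  exact (pow_left_inj₀ (norm_nonneg _) (by positivity) two_ne_zero).mp h2

theorem norm_HS {D : HS (k+2) (Eu (k+2+1))} {e : ℝ} (h : CF (fun i => D i) e) :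
    ‖D‖ = √((k:ℝ) + 3) * √e := by
  have h1 : ‖D‖ ^ 2 = ((k:ℝ) + 3) * e := by
    rw [PiLp.norm_sq_eq_of_L2]
    have : ∀ i, ‖D i‖ ^ 2 = e := fun i => h.norm_sq i
    simp_rw [this]
    rw [Finset.sum_const, Finset.card_univ, Fintype.card_fin, nsmul_eq_mul]
    push_cast
    ring
  have h2 : ‖D‖ ^ 2 = (√((k:ℝ) + 3) * √e) ^ 2 := by
    rw [h1, mul_pow, Real.sq_sqrt h.nonneg, Real.sq_sqrt (by positivity)]
  exact (pow_left_inj₀ (norm_nonneg _) (by positivity) two_ne_zero).mp h2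

theorem inner_star {h h1 ps : ℝ} {ψ : Eu (k+2+1) → ℝ} {x v : Eu (k+2+1)}
    {D E2 : HS (k+2) (Eu (k+2+1))} {e : ℝ} (hcf : CF (fun i => D i) e)
    (hE2 : ∀ i, E2 i = ps • (h • Pj k (D i) + (h1 * (2 * ⟪Pj k v, D i⟫_ℝ)) • Pj k v) +
      (fderiv ℝ ψ x (eb i)) • (h • Pj k v)) :
    ⟪D, E2⟫_ℝ = ps * (h * (2 * e) + (h1 * 2) * (e * ‖Pj k v‖ ^ 2)) +
      h * fderiv ℝ ψ x (wv D (Pj k v)) := by
  rw [PiLp.inner_apply]
  have h2 : ∀ i, ⟪D i, E2 i⟫_ℝ = ps * (h * ⟪D i, Pj k (D i)⟫_ℝ) +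
      (ps * (h1 * 2)) * ⟪D i, Pj k v⟫_ℝ ^ 2 +
      h * (⟪D i, Pj k v⟫_ℝ * fderiv ℝ ψ x (eb i)) := by
    intro i
    rw [hE2 i, inner_add_right, real_inner_smul_right, real_inner_smul_right, inner_add_right,
      real_inner_smul_right, real_inner_smul_right, real_inner_smul_right,
      real_inner_comm (D i) (Pj k v)]
    ring
  simp_rw [h2]
  rw [Finset.sum_add_distrib, Finset.sum_add_distrib, ← Finset.mul_sum, ← Finset.mul_sum,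
    ← Finset.mul_sum, ← Finset.mul_sum]
  have h3 : ∑ i, ⟪D i, Pj k (D i)⟫_ℝ = 2 * e := hcf.sum_Pj
  have h4 : ∑ i, ⟪D i, Pj k v⟫_ℝ ^ 2 = e * ‖Pj k v‖ ^ 2 := hcf.sum_inner (Pj k v)
  have h5 : ∑ i, ⟪D i, Pj k v⟫_ℝ * fderiv ℝ ψ x (eb i) = fderiv ℝ ψ x (wv D (Pj k v)) := by
    rw [Bubble.fderiv_sum ψ x (wv D (Pj k v))]
    rfl
  rw [h3, h4, h5]
  ring

theorem pt_star {δ ε C : ℝ} (hδ : 0 < δ) (hε : 0 < ε) (hC : ∀ x, ‖fderiv ℝ (bb k) x‖ ≤ C)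
    {x v : Eu (k+2+1)} {D E2 : HS (k+2) (Eu (k+2+1))} {e : ℝ} (hcf : CF (fun i => D i) e)
    (hrE : ‖Pj k x‖ * √e = 4 * ‖Pj k v‖)
    (hE2 : ∀ i, E2 i = psi k δ x • (((Sq k v + ε) ^ (qq k)) • Pj k (D i) +
      (qq k * (Sq k v + ε) ^ (qq k - 1) * (2 * ⟪Pj k v, D i⟫_ℝ)) • Pj k v) +
      (fderiv ℝ (psi k δ) x (eb i)) • (((Sq k v + ε) ^ (qq k)) • Pj k v)) :
    ‖D‖ ^ (k+1) * ⟪D, E2⟫_ℝ ≤
      √((k:ℝ) + 3) ^ (k+1) * (4 ^ (k+2) * Bf k C δ ε ‖Pj k v‖ x) := by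
  rw [inner_star hcf hE2, norm_HS hcf, mul_pow, mul_assoc]
  refine mul_le_mul_of_nonneg_left ?_ (by positivity)
  by_cases hx : x ∈ SS2 k
  · have hE : 0 ≤ √e := Real.sqrt_nonneg e
    have he : e = √e ^ 2 := (Real.sq_sqrt hcf.nonneg).symm
    have h1 := real_est (k := k) (r := ‖Pj k x‖) (E := √e) (f := ‖Pj k v‖) (ε := ε)
      (Q := Qd k δ x) (b := bb k x) (C := C) (fd := fderiv ℝ (psi k δ) x (wv D (Pj k v)))
      (norm_nonneg _) hE (norm_nonneg _) hε (Qd_pos hδ x).le (bb k).nonneg hrE (Qd_mul_le hδ x) (by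
        have := psi'_bound hδ hC x (wv D (Pj k v))
        rwa [norm_wv hcf] at this)
    have hB : Bf k C δ ε ‖Pj k v‖ x = (‖Pj k v‖ ^ (k+3) * (‖Pj k v‖ ^ 2 + ε) ^ (qq k)) *
        (bb k x ^ 2 * Qd k δ x * (-(4 * ((k:ℝ) + 3)) * (‖Pj k v‖ ^ 2 / (‖Pj k v‖ ^ 2 + ε)) + 8 +
          ((k:ℝ) + 3) + 1/2) + 2 * C ^ 2) := by
      unfold Bf
      rw [indicator_of_mem hx, mul_one]
    rw [hB]
    refine le_trans (le_of_eq ?_) h1
    congr 1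
    have hps : psi k δ x = bb k x ^ 2 * (‖Pj k x‖ ^ (k+3) * Qd k δ x) := rfl
    rw [hps]
    unfold Sq
    rw [← he]
  · have h1 : psi k δ x = 0 := psi_supp hx
    have h2 : fderiv ℝ (psi k δ) x (wv D (Pj k v)) = 0 := psi'_supp hδ hx _
    have h3 : Bf k C δ ε ‖Pj k v‖ x = 0 := by
      unfold Bf
      rw [indicator_of_notMem hx, bb_supp hx]
      ring
    rw [h1, h2, h3]
    simp

end Pool.Agent.Helper42.Bub
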