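import Pool.Agent.Helper42.Bub.Defs

/-!
Integration by parts for the Sobolev class.
-/

set_option maxHeartbeats 400000

open Filter Topology MeasureTheory Set
open scoped ENNReal InnerProductSpace NNReal

namespace Pool.Agent.Helper42.Bubble

theorem isOpen_Half (m : ℕ) : IsOpen (Half m) := by
  apply isOpen_lt continuous_const
  exact (EuclideanSpace.proj (𝕜 := ℝ) (0 : Fin (m+1))).continuous

variable {m : ℕ} {V : Type*} [NormedAddCommGroup V] [NormedSpace ℝ V]

theorem one_le_pn (m : ℕ) : (1 : ℝ≥0∞) ≤ ((m + 1 : ℕ) : ℝ≥0∞) := by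
  exact_mod_cast Nat.le_add_left 1 m

theorem memLp_of_tendsto {α : Type*} [MeasurableSpace α] {ν : Measure α} {p : ℝ≥0∞}
    {f : ℕ → α → V} {g : α → V} (hf : ∀ j, MemLp (f j) p ν) (hg : AEStronglyMeasurable g ν)
    (h : Tendsto (fun j => eLpNorm (fun x => f j x - g x) p ν) atTop (𝓝 0)) : MemLp g p ν := by
  obtain ⟨j, hj⟩ := (h.eventually (gt_mem_nhds (show (0:ℝ≥0∞) < 1 by norm_num))).exists
  have h1 : MemLp (fun x => f j x - g x) p ν :=
    ⟨(hf j).1.sub hg, hj.trans ENNReal.one_lt_top⟩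
  have h2 : g = fun x => f j x - (f j x - g x) := by funext x; simp
  rw [h2]
  exact (hf j).sub h1

theorem memLp_cont_ball {f : EuclideanSpace ℝ (Fin m) → V} (hf : Continuous f) (p : ℝ≥0∞)
    (s : Set (EuclideanSpace ℝ (Fin m))) (R : ℝ) :
    MemLp f p (volume.restrict (s ∩ Metric.ball 0 R)) := by
  have hfin : IsFiniteMeasure (volume.restrict (s ∩ Metric.ball (0 : EuclideanSpace ℝ (Fin m)) R)) :=
    ⟨by
      rw [Measure.restrict_apply_univ]
      exact (measure_mono inter_subset_right).trans_lt measure_ball_lt_top⟩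
  obtain ⟨C, hC⟩ := (isCompact_closedBall (0 : EuclideanSpace ℝ (Fin m)) R).exists_bound_of_continuousOn
    hf.continuousOn
  refine MemLp.of_bound hf.aestronglyMeasurable C ?_
  have h1 : ∀ᵐ x ∂(volume.restrict (s ∩ Metric.ball (0 : EuclideanSpace ℝ (Fin m)) R)),
      x ∈ Metric.ball (0 : EuclideanSpace ℝ (Fin m)) R := by
    have h2 : volume.restrict (s ∩ Metric.ball (0 : EuclideanSpace ℝ (Fin m)) R) ≤
        volume.restrict (Metric.ball (0 : EuclideanSpace ℝ (Fin m)) R) :=
      Measure.restrict_mono inter_subset_right le_rfl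
    exact (ae_mono h2) (ae_restrict_mem Metric.isOpen_ball.measurableSet)
  filter_upwards [h1] with x hx
  exact hC x (Metric.ball_subset_closedBall hx)

theorem restrict_le_Half (R : ℝ) : volume.restrict (Half m ∩ Metric.ball 0 R) ≤
    volume.restrict (Half m) := Measure.restrict_mono inter_subset_left le_rfl

variable {v : EuclideanSpace ℝ (Fin (m + 1)) → V}
    {D : EuclideanSpace ℝ (Fin (m + 1)) → Fin (m + 1) → V} {τ : EuclideanSpace ℝ (Fin m) → V}

theorem IsSobolev.memLp (h : IsSobolev v D τ) (R : ℝ) :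
    MemLp v ((m + 1 : ℕ) : ℝ≥0∞) (volume.restrict (Half m ∩ Metric.ball 0 R)) := by
  obtain ⟨w, hw, h1, _, _⟩ := h.approx R
  exact memLp_of_tendsto (fun j => memLp_cont_ball (hw j).continuous _ _ _)
    (h.meas.mono_measure (restrict_le_Half R)) h1

theorem IsSobolev.memLpD (h : IsSobolev v D τ) (R : ℝ) (i : Fin (m+1)) :
    MemLp (fun x => D x i) ((m + 1 : ℕ) : ℝ≥0∞) (volume.restrict (Half m ∩ Metric.ball 0 R)) := by
  obtain ⟨w, hw, _, h1, _⟩ := h.approx R
  refine memLp_of_tendsto (f := fun j x => fderiv ℝ (w j) x (EuclideanSpace.single i (1 : ℝ)))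
    (fun j => memLp_cont_ball ?_ _ _ _)
    ((h.measD i).mono_measure (restrict_le_Half R)) (h1 i)
  exact ((hw j).continuous_fderiv one_ne_zero).clm_apply continuous_const

theorem continuous_bdry : Continuous (bdry : EuclideanSpace ℝ (Fin m) → _) := by
  unfold bdry
  refine (PiLp.continuous_toLp 2 _).comp (continuous_pi fun i => ?_)
  refine Fin.cases ?_ (fun i => ?_) i
  · exact continuous_const
  · exact (EuclideanSpace.proj (𝕜 := ℝ) i).continuous

theorem IsSobolev.memLpT (h : IsSobolev v D τ) (R : ℝ) :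
    MemLp τ ((m + 1 : ℕ) : ℝ≥0∞) (volume.restrict (Metric.ball 0 R)) := by
  obtain ⟨w, hw, _, _, h1⟩ := h.approx R
  refine memLp_of_tendsto (f := fun j y => w j (bdry y)) (fun j => ?_)
    h.measT.restrict h1
  have := memLp_cont_ball (m := m) ((hw j).continuous.comp continuous_bdry)
    ((m + 1 : ℕ) : ℝ≥0∞) univ R
  rw [univ_inter] at this
  exact this

theorem int_tendsto {α : Type*} [MeasurableSpace α] {ν : Measure α} [IsFiniteMeasure ν]
    {p : ℝ≥0∞} (hp : 1 ≤ p)
    {f : ℕ → α → V} {g : α → V} (hf : ∀ j, MemLp (f j) p ν) (hg : MemLp g p ν)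
    (h : Tendsto (fun j => eLpNorm (fun x => f j x - g x) p ν) atTop (𝓝 0))
    {ψ : α → ℝ} (hψ : AEStronglyMeasurable ψ ν) {C : ℝ} (hC : ∀ x, |ψ x| ≤ C) :
    Tendsto (fun j => ∫ x, ψ x • f j x ∂ν) atTop (𝓝 (∫ x, ψ x • g x ∂ν)) := by
  have hb : ∀ᵐ x ∂ν, ‖ψ x‖ ≤ C := Eventually.of_forall hC
  have i1 : ∀ j, Integrable (fun x => ψ x • f j x) ν := fun j =>
    ((hf j).integrable hp).bdd_smul C hψ hb
  have i2 : Integrable (fun x => ψ x • g x) ν := (hg.integrable hp).bdd_smul C hψ hb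
  refine tendsto_integral_of_L1 _ i2.aestronglyMeasurable (Eventually.of_forall i1) ?_
  set K : ℝ≥0∞ := ENNReal.ofReal C * ν univ ^ (1 / (1:ℝ≥0∞).toReal - 1 / p.toReal) with hK
  have hKfin : K ≠ ∞ := by
    refine ENNReal.mul_ne_top ENNReal.ofReal_ne_top ?_
    refine ENNReal.rpow_ne_top_of_nonneg ?_ (measure_ne_top _ _)
    rw [ENNReal.toReal_one, div_one, sub_nonneg]
    rcases eq_or_ne p ∞ with hp' | hp'
    · rw [hp']; simp
    · have h2 : 1 ≤ p.toReal := by
        rw [← ENNReal.toReal_one]; exact (ENNReal.toReal_le_toReal ENNReal.one_ne_top hp').mpr hp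
      rw [div_le_one (by linarith)]; exact h2
  have hlim : Tendsto (fun j => K * eLpNorm (fun x => f j x - g x) p ν) atTop (𝓝 0) := by
    have := ENNReal.Tendsto.const_mul h (Or.inr hKfin)
    rwa [mul_zero] at this
  refine tendsto_of_tendsto_of_tendsto_of_le_of_le tendsto_const_nhds hlim (fun j => zero_le)
    (fun j => ?_)
  have h1 : ∫⁻ x, ‖ψ x • f j x - ψ x • g x‖ₑ ∂ν ≤
      ∫⁻ x, ENNReal.ofReal C * ‖f j x - g x‖ₑ ∂ν := by
    refine lintegral_mono fun x => ?_
    rw [← smul_sub, enorm_smul]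
    gcongr
    rw [← ofReal_norm]
    exact ENNReal.ofReal_le_ofReal (hC x)
  refine h1.trans ?_
  rw [lintegral_const_mul' _ _ ENNReal.ofReal_ne_top]
  have h2 : ∫⁻ x, ‖f j x - g x‖ₑ ∂ν = eLpNorm (fun x => f j x - g x) 1 ν := by
    rw [eLpNorm_one_eq_lintegral_enorm]
  rw [h2, hK, mul_assoc]
  gcongr
  rw [mul_comm]
  exact eLpNorm_le_eLpNorm_mul_rpow_measure_univ hp ((hf j).1.sub hg.1)

theorem IsSobolev.ibp (h : IsSobolev v D τ) {ψ : EuclideanSpace ℝ (Fin (m + 1)) → ℝ}
    (hψ : ContDiff ℝ 1 ψ) (hc : HasCompactSupport ψ) (hs : tsupport ψ ⊆ Half m)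
    (i : Fin (m+1)) :
    ∫ x in Half m, fderiv ℝ ψ x (EuclideanSpace.single i (1 : ℝ)) • v x =
      - ∫ x in Half m, ψ x • D x i := by
  obtain ⟨R, hR⟩ := hc.isBounded.subset_ball (0 : EuclideanSpace ℝ (Fin (m+1)))
  obtain ⟨w, hw, h1, h2, _⟩ := h.approx R
  set S : Set (EuclideanSpace ℝ (Fin (m+1))) := Half m ∩ Metric.ball 0 R with hS
  have hSfin : IsFiniteMeasure (volume.restrict S) :=
    ⟨by
      rw [Measure.restrict_apply_univ]
      exact (measure_mono inter_subset_right).trans_lt measure_ball_lt_top⟩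
  have hsub : tsupport ψ ⊆ S := fun x hx => ⟨hs hx, hR hx⟩
  have hz1 : ∀ x, x ∉ tsupport ψ → ψ x = 0 := fun x hx => image_eq_zero_of_notMem_tsupport hx
  have hz2 : ∀ x, x ∉ tsupport ψ → fderiv ℝ ψ x = 0 := fun x hx => by
    have : x ∉ Function.support (fderiv ℝ ψ) := fun hx' => hx (support_fderiv_subset ℝ hx')
    simpa using this
  have cψ : Continuous (fun x => fderiv ℝ ψ x (EuclideanSpace.single i (1 : ℝ))) :=
    (hψ.continuous_fderiv one_ne_zero).clm_apply continuous_const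
  have hc' : HasCompactSupport (fun x => fderiv ℝ ψ x (EuclideanSpace.single i (1 : ℝ))) := by
    refine HasCompactSupport.intro hc (fun x hx => ?_)
    rw [hz2 x hx]; simp
  obtain ⟨C1, hC1⟩ := hψ.continuous.bounded_above_of_compact_support hc
  obtain ⟨C2, hC2⟩ := cψ.bounded_above_of_compact_support hc'
  -- reduction of the domain
  have e1 : ∀ f : EuclideanSpace ℝ (Fin (m+1)) → V,
      ∫ x in Half m, fderiv ℝ ψ x (EuclideanSpace.single i (1 : ℝ)) • f x =
      ∫ x, fderiv ℝ ψ x (EuclideanSpace.single i (1 : ℝ)) • f x := fun f =>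
    setIntegral_eq_integral_of_forall_compl_eq_zero (fun x hx => by
      rw [hz2 x (fun h => hx (hs h))]; simp)
  have e2 : ∀ f : EuclideanSpace ℝ (Fin (m+1)) → V,
      ∫ x in S, fderiv ℝ ψ x (EuclideanSpace.single i (1 : ℝ)) • f x =
      ∫ x, fderiv ℝ ψ x (EuclideanSpace.single i (1 : ℝ)) • f x := fun f =>
    setIntegral_eq_integral_of_forall_compl_eq_zero (fun x hx => by
      rw [hz2 x (fun h => hx (hsub h))]; simp)
  have e3 : ∀ f : EuclideanSpace ℝ (Fin (m+1)) → V,
      ∫ x in Half m, ψ x • f x = ∫ x, ψ x • f x := fun f =>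
    setIntegral_eq_integral_of_forall_compl_eq_zero (fun x hx => by
      rw [hz1 x (fun h => hx (hs h))]; simp)
  have e4 : ∀ f : EuclideanSpace ℝ (Fin (m+1)) → V,
      ∫ x in S, ψ x • f x = ∫ x, ψ x • f x := fun f =>
    setIntegral_eq_integral_of_forall_compl_eq_zero (fun x hx => by
      rw [hz1 x (fun h => hx (hsub h))]; simp)
  rw [e1, e3, ← e2, ← e4]
  have cw : ∀ j, Continuous (fun x => fderiv ℝ (w j) x (EuclideanSpace.single i (1 : ℝ))) :=
    fun j => ((hw j).continuous_fderiv one_ne_zero).clm_apply continuous_const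
  have l1 := int_tendsto (ν := volume.restrict S) (one_le_pn m)
    (fun j => memLp_cont_ball (hw j).continuous _ _ _)
    (h.memLp R) h1 (ψ := fun x => fderiv ℝ ψ x (EuclideanSpace.single i (1 : ℝ)))
    cψ.aestronglyMeasurable hC2
  have l2 := int_tendsto (ν := volume.restrict S) (one_le_pn m)
    (fun j => memLp_cont_ball (cw j) _ _ _)
    (h.memLpD R i) (h2 i) (ψ := ψ) hψ.continuous.aestronglyMeasurable hC1
  refine tendsto_nhds_unique l1 ?_
  refine (l2.neg).congr (fun j => ?_)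
  rw [e2, e4]
  have i1 : Integrable (fun x => fderiv ℝ ψ x (EuclideanSpace.single i (1 : ℝ)) • w j x) :=
    (cψ.smul (hw j).continuous).integrable_of_hasCompactSupport hc'.smul_right
  have i2 : Integrable (fun x => ψ x • fderiv ℝ (w j) x (EuclideanSpace.single i (1 : ℝ))) :=
    (hψ.continuous.smul (cw j)).integrable_of_hasCompactSupport hc.smul_right
  have i3 : Integrable (fun x => ψ x • w j x) :=
    (hψ.continuous.smul (hw j).continuous).integrable_of_hasCompactSupport hc.smul_right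
  rw [integral_smul_fderiv_eq_neg_fderiv_smul_of_integrable i1 i2 i3
    (fun x _ => (hψ.differentiable one_ne_zero) x)
    (fun x _ => ((hw j).differentiable one_ne_zero) x), neg_neg]

end Pool.Agent.Helper42.Bubble
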